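import Pool.Agent.Lib.MP_26f572_ag.Defs

/-!
Cohen–Macaulayness of quotients by a regular element, and descent along sections of
polynomial rings.
-/

namespace Pool.Agent.Lib.MP_26f572_ag

open IsLocalRing RingTheory.Sequence CategoryTheory Abelian Limits Pointwise

universe u v

/-- the isomorphism `A / x • A = A / (x)` is additive and compatible with scalars -/
private theorem isRegular_quot {A : Type u} [CommRing A] (x : A) (rs : List A)
    (h : IsRegular (QuotSMulTop x A) rs) :
    IsRegular (A ⧸ Ideal.span {x}) (rs.map (Ideal.Quotient.mk (Ideal.span {x}))) := by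
  have h0 : x • (⊤ : Ideal A) = Ideal.span {x} := by
    simp [← Submodule.ideal_span_singleton_smul]
  let e : QuotSMulTop x A ≃+ A ⧸ Ideal.span {x} :=
    (Ideal.quotientEquivAlgOfEq A h0).toRingEquiv.toAddEquiv
  refine (AddEquiv.isRegular_congr (e := e) ?_).mp h
  refine List.forall₂_map_right_iff.mpr (List.forall₂_same.mpr fun r _ => ?_)
  intro y
  obtain ⟨y, rfl⟩ := Submodule.Quotient.mk_surjective _ y
  rfl

/-- A quotient of a Cohen–Macaulay local ring by a regular element is Cohen–Macaulay
(Rees theorem). -/
theorem IsCMLocal.quotient {A : Type u} [CommRing A] [IsLocalRing A] (h : IsCMLocal A)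
    {x : A} (hx : x ∈ maximalIdeal A) (hreg : IsSMulRegular A x)
    [IsLocalRing (A ⧸ Ideal.span {x})] : IsCMLocal (A ⧸ Ideal.span {x}) := by
  have hnoeth := h.noeth
  obtain ⟨rs, hrs, hR, hlen⟩ := h.exists_reg
  have hdim := ringKrullDim_quotient_span_singleton_succ_eq_ringKrullDim hreg hx
  refine ⟨inferInstance, ?_⟩
  have hk : (maximalIdeal A • (⊤ : Submodule A (ModuleCat.of A A))) < ⊤ := by
    rw [lt_top_iff_ne_top]
    intro h0
    have h1 : (maximalIdeal A • (⊤ : Submodule A A)) = ⊤ := h0
    rw [smul_eq_mul, Ideal.mul_top] at h1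
    exact (maximalIdeal.isMaximal A).ne_top h1
  have hsupp : Module.support A (ModuleCat.of A (A ⧸ maximalIdeal A)) =
      PrimeSpectrum.zeroLocus (maximalIdeal A) := by
    change Module.support A (A ⧸ maximalIdeal A) = _
    rw [Module.support_eq_zeroLocus, Ideal.annihilator_quotient]
  have hsub : ∀ i < rs.length,
      Subsingleton (Ext (ModuleCat.of A (A ⧸ maximalIdeal A)) (ModuleCat.of A A) i) :=
    ModuleCat.subsingleton_ext_of_exists_isRegular (maximalIdeal A) _ hsupp.subset
      (ModuleCat.of A A) hk rs hrs hR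
  obtain ⟨n, hn⟩ : ∃ n, rs.length = n + 1 := by
    cases hl : rs.length with
    | zero =>
      exfalso
      rw [hl, ← hdim] at hlen
      have h0 : (0 : WithBot ℕ∞) ≤ ringKrullDim (A ⧸ Ideal.span {x}) := ringKrullDim_nonneg_of_nontrivial
      have h1 : (1 : WithBot ℕ∞) ≤ ringKrullDim (A ⧸ Ideal.span {x}) + 1 := by
        calc (1 : WithBot ℕ∞) = 0 + 1 := by rw [zero_add]
          _ ≤ _ := by gcongr
      rw [← hlen] at h1
      exact absurd h1 (by simp)
    | succ n => exact ⟨n, rfl⟩
  have hext : ∀ i < n, Subsingleton (Ext (ModuleCat.of A (A ⧸ maximalIdeal A))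
      (ModuleCat.of A (QuotSMulTop x A)) i) := by
    intro i hi
    have zero1 := AddCommGrpCat.isZero_of_iff_subsingleton.mpr (hsub i (by omega))
    have zero2 := AddCommGrpCat.isZero_of_iff_subsingleton.mpr (hsub (i + 1) (by omega))
    exact AddCommGrpCat.subsingleton_of_isZero <| ShortComplex.Exact.isZero_of_both_zeros
      ((Ext.covariant_sequence_exact₃' (ModuleCat.of A (A ⧸ maximalIdeal A))
        (IsSMulRegular.smulShortComplex_shortExact (M := ModuleCat.of A A) hreg)) i (i + 1) rfl)
      (zero1.eq_zero_of_src _) (zero2.eq_zero_of_tgt _)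
  have hnt : Nontrivial (QuotSMulTop x A) := nontrivial_quotSMulTop_of_mem_maximalIdeal A hx
  have hlt : maximalIdeal A • (⊤ : Submodule A (ModuleCat.of A (QuotSMulTop x A))) < ⊤ := by
    refine lt_top_iff_ne_top.mpr (Ne.symm ?_)
    exact Submodule.top_ne_ideal_smul_of_le_jacobson_annihilator (M := QuotSMulTop x A)
      (maximalIdeal_le_jacobson _)
  obtain ⟨rs', hl', hm', hr'⟩ := ModuleCat.exists_isRegular_of_exists_subsingleton_ext
    (maximalIdeal A) n (ModuleCat.of A (QuotSMulTop x A)) hlt
    (ModuleCat.of A (A ⧸ maximalIdeal A)) hsupp hext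
  refine ⟨rs'.map (Ideal.Quotient.mk (Ideal.span {x})), ?_, isRegular_quot x rs' hr', ?_⟩
  · intro r hr
    obtain ⟨s, hs, rfl⟩ := List.mem_map.mp hr
    have : IsLocalHom (Ideal.Quotient.mk (Ideal.span {x})) :=
      .of_surjective _ Ideal.Quotient.mk_surjective
    exact map_nonunit _ s (hm' s hs)
  · rw [List.length_map, hl']
    have h2 : ((n + 1 : ℕ) : WithBot ℕ∞) = ringKrullDim (A ⧸ Ideal.span {x}) + 1 := by
      rw [hdim, ← hlen, hn]
    rw [Nat.cast_add] at h2
    exact ENat.WithBot.add_natCast_cancel.mp h2

private theorem cm_of_ringEquiv {A : Type u} {B : Type v} [CommRing A] [CommRing B] [IsLocalRing A]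
    [IsLocalRing B] (e : A ≃+* B) (h : IsCMLocal A) : IsCMLocal B := by
  have hnoeth := h.noeth
  obtain ⟨rs, hrs, hR, hlen⟩ := h.exists_reg
  refine ⟨isNoetherianRing_of_ringEquiv A e, rs.map e, ?_, ?_, ?_⟩
  · intro r hr
    obtain ⟨s, hs, rfl⟩ := List.mem_map.mp hr
    exact map_nonunit (e : A →+* B) s (hrs s hs)
  · refine (AddEquiv.isRegular_congr (e := e.toAddEquiv) ?_).mp hR
    refine List.forall₂_map_right_iff.mpr (List.forall₂_same.mpr fun r _ x => ?_)
    exact map_mul e r x
  · rw [List.length_map, hlen, ringKrullDim_eq_of_ringEquiv e]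

private theorem descent_step {B C : Type u} [CommRing B] [CommRing C] (φ : B →+* C)
    (hφ : Function.Surjective φ) (b : B) (hb : RingHom.ker φ = Ideal.span {b})
    (hreg : b ∈ nonZeroDivisors B) (q : Ideal C) [q.IsPrime]
    (h : IsCMLocal (Localization.AtPrime (q.comap φ))) : IsCMLocal (Localization.AtPrime q) := by
  set R := Localization.AtPrime (q.comap φ) with hRdef
  set x : R := algebraMap B R b with hx
  have hbq : b ∈ q.comap φ := by
    have : b ∈ RingHom.ker φ := hb ▸ Ideal.mem_span_singleton_self b
    rw [Ideal.mem_comap, RingHom.mem_ker.mp this]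
    exact q.zero_mem
  have hxm : x ∈ maximalIdeal R :=
    (IsLocalization.AtPrime.to_map_mem_maximal_iff R (q.comap φ) b).mpr hbq
  have hxreg : x ∈ nonZeroDivisors R :=
    IsLocalization.map_nonZeroDivisors_le (q.comap φ).primeCompl R
      (Submonoid.mem_map.mpr ⟨b, hreg, rfl⟩)
  have hxs : IsSMulRegular R x := (isRegular_iff_mem_nonZeroDivisors.mpr hxreg).left.isSMulRegular
  let ψ : R →+* Localization.AtPrime q := Localization.localRingHom (q.comap φ) q φ rfl
  have hψ : Function.Surjective ψ := RingHom.surjective_localRingHom_of_surjective φ hφ q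
  have hker : RingHom.ker ψ = Ideal.span {x} := by
    have hmap : Submonoid.map φ (q.comap φ).primeCompl = q.primeCompl :=
      Submonoid.map_comap_eq_of_surjective hφ q.primeCompl
    have h1 := IsLocalization.ker_map (S := R) (Localization.AtPrime q) φ hmap
    rw [hb, Ideal.map_span, Set.image_singleton] at h1
    exact h1
  let e : R ⧸ Ideal.span {x} ≃+* Localization.AtPrime q :=
    (Ideal.quotEquivOfEq hker.symm).trans (RingHom.quotientKerEquivOfSurjective hψ)
  have hloc : IsLocalRing (R ⧸ Ideal.span {x}) := e.symm.isLocalRing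
  exact cm_of_ringEquiv e (h.quotient hxm hxs)


private theorem descent_bij {B C : Type u} [CommRing B] [CommRing C] (φ : B →+* C)
    (hφ : Function.Bijective φ) (q : Ideal C) [q.IsPrime]
    (h : IsCMLocal (Localization.AtPrime (q.comap φ))) : IsCMLocal (Localization.AtPrime q) := by
  let ψ : Localization.AtPrime (q.comap φ) →+* Localization.AtPrime q :=
    Localization.localRingHom (q.comap φ) q φ rfl
  have hψ : Function.Surjective ψ := RingHom.surjective_localRingHom_of_surjective φ hφ.2 q
  have hker : RingHom.ker ψ = ⊥ := by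
    have hmap : Submonoid.map φ (q.comap φ).primeCompl = q.primeCompl :=
      Submonoid.map_comap_eq_of_surjective hφ.2 q.primeCompl
    have h1 := IsLocalization.ker_map (S := Localization.AtPrime (q.comap φ))
      (Localization.AtPrime q) φ hmap
    rw [(RingHom.injective_iff_ker_eq_bot φ).mp hφ.1, Ideal.map_bot] at h1
    exact h1
  exact cm_of_ringEquiv
    (RingEquiv.ofBijective ψ ⟨(RingHom.injective_iff_ker_eq_bot ψ).mpr hker, hψ⟩) h

private theorem descent_congr {B : Type u} [CommRing B] {p p' : Ideal B} [p.IsPrime] [p'.IsPrime]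
    (hp : p = p') (h : IsCMLocal (Localization.AtPrime p)) :
    IsCMLocal (Localization.AtPrime p') := by
  subst hp
  exact h

private theorem descent_aux (ι : Type) [Finite ι] : ∀ (A : Type u) [CommRing A]
    (v : ι → A) (q : Ideal A) [q.IsPrime]
    (_ : IsCMLocal (Localization.AtPrime (q.comap (MvPolynomial.eval v)))),
    IsCMLocal (Localization.AtPrime q) := by
  induction ι using Finite.induction_empty_option with
  | @of_equiv α β e ih =>
    intro A _ v q _ h
    refine ih A (v ∘ e) q ?_
    let r : MvPolynomial β A →+* MvPolynomial α A := (MvPolynomial.rename e.symm).toRingHom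
    have hr : (MvPolynomial.eval (v ∘ e)).comp r = MvPolynomial.eval v := by
      ext i <;> simp [r]
    have hbij : Function.Bijective r :=
      ((MvPolynomial.renameEquiv A e.symm).toRingEquiv.bijective)
    refine descent_bij r hbij _ ?_
    refine descent_congr (p := q.comap (MvPolynomial.eval v)) ?_ h
    rw [← hr, Ideal.comap_comap]
  | h_empty =>
    intro A _ v q _ h
    refine descent_bij (MvPolynomial.eval v) ⟨?_, ?_⟩ q h
    · have h1 : Function.LeftInverse (MvPolynomial.C (σ := PEmpty)) (MvPolynomial.eval v) := by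
        intro p
        rw [MvPolynomial.eq_C_of_isEmpty p, MvPolynomial.eval_C]
      exact h1.injective
    · intro a
      exact ⟨MvPolynomial.C a, MvPolynomial.eval_C a⟩
  | @h_option ι _ ih =>
    intro A _ v q hq h
    have hnt : Nontrivial A := nontrivial_of_ne (0 : A) 1 (fun h0 =>
      hq.ne_top ((Ideal.eq_top_iff_one q).mpr (h0 ▸ q.zero_mem)))
    let e := (MvPolynomial.optionEquivLeft A ι).toRingEquiv
    let a : MvPolynomial ι A := MvPolynomial.C (v none)
    let φ : MvPolynomial (Option ι) A →+* MvPolynomial ι A :=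
      (Polynomial.evalRingHom a).comp e.toRingHom
    have hφ : (MvPolynomial.eval (v ∘ some)).comp φ = MvPolynomial.eval v := by
      ext i
      · simp [φ, e]
      · cases i <;> simp [φ, e, a]
    have hsurj : Function.Surjective φ := by
      intro p
      exact ⟨e.symm (Polynomial.C p), by simp [φ]⟩
    have hker : RingHom.ker φ = Ideal.span {e.symm (Polynomial.X - Polynomial.C a)} := by
      have h1 : RingHom.ker φ = (RingHom.ker (Polynomial.evalRingHom a)).comap e.toRingHom := rfl
      rw [h1, Polynomial.ker_evalRingHom]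
      have h2 : Ideal.span {e.symm (Polynomial.X - Polynomial.C a)} =
          (Ideal.span {Polynomial.X - Polynomial.C a}).map e.symm.toRingHom := by
        rw [Ideal.map_span, Set.image_singleton]
        rfl
      rw [h2]
      exact (Ideal.map_symm e).symm
    have hreg : e.symm (Polynomial.X - Polynomial.C a) ∈
        nonZeroDivisors (MvPolynomial (Option ι) A) := by
      have h1 : Polynomial.X - Polynomial.C a ∈ nonZeroDivisors (Polynomial (MvPolynomial ι A)) :=
        (Polynomial.monic_X_sub_C a).mem_nonZeroDivisors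
      refine mem_nonZeroDivisors_iff_right.mpr fun y hy => ?_
      have h2 : e y * (Polynomial.X - Polynomial.C a) = 0 := by
        have h3 := congrArg e hy
        rwa [map_mul, map_zero, RingEquiv.apply_symm_apply] at h3
      have h4 := mem_nonZeroDivisors_iff_right.mp h1 _ h2
      exact (map_eq_zero_iff e e.injective).mp h4
    refine ih A (v ∘ some) q ?_
    refine descent_step φ hsurj _ hker hreg _ ?_
    refine descent_congr (p := q.comap (MvPolynomial.eval v)) ?_ h
    rw [← hφ, Ideal.comap_comap]

/-- descent along `A → A[X_i]` at a section `X ↦ v`. -/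
theorem IsCMLocal.descent {A : Type u} [CommRing A] [IsNoetherianRing A] (ι : Type) [Fintype ι]
    (v : ι → A) (q : Ideal A) [q.IsPrime]
    (h : IsCMLocal (Localization.AtPrime (q.comap (MvPolynomial.eval v)))) :
    IsCMLocal (Localization.AtPrime q) :=
  descent_aux ι A v q h

end Pool.Agent.Lib.MP_26f572_ag
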