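import Mathlib

/-!
Definitions for `MP_26f572_ag`: Cohen–Macaulay rings, normal rings, projective space.
-/

namespace Pool.Agent.Lib.MP_26f572_ag

open IsLocalRing RingTheory.Sequence

universe u v

/-- A local ring is Cohen–Macaulay if it is noetherian and its maximal ideal contains a regular
sequence whose length is the Krull dimension of the ring. -/
structure IsCMLocal (A : Type u) [CommRing A] [IsLocalRing A] : Prop where
  noeth : IsNoetherianRing A
  exists_reg : ∃ rs : List A, (∀ r ∈ rs, r ∈ maximalIdeal A) ∧ IsRegular A rs ∧
    (rs.length : WithBot ℕ∞) = ringKrullDim A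

/-- A ring is Cohen–Macaulay if it is noetherian and all its localisations at primes are
Cohen–Macaulay. -/
def IsCM (A : Type u) [CommRing A] : Prop :=
  IsNoetherianRing A ∧ ∀ (p : Ideal A) [p.IsPrime], IsCMLocal (Localization.AtPrime p)

/-- A ring is normal if all its localisations at primes are integrally closed domains. -/
def IsNormalRing (A : Type u) [CommRing A] : Prop :=
  ∀ (p : Ideal A) [p.IsPrime], IsDomain (Localization.AtPrime p) ∧
    IsIntegrallyClosed (Localization.AtPrime p)

open AlgebraicGeometry in
/-- projective `n`-space over the field `k`, as `Proj k[X_0,…,X_n]`. -/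
noncomputable def projSpace (k : Type u) [Field k] (n : ℕ) : Scheme.{u} :=
  letI := MvPolynomial.gradedAlgebra (σ := Fin (n + 1)) (R := k)
  Proj (MvPolynomial.homogeneousSubmodule (Fin (n + 1)) k)

end Pool.Agent.Lib.MP_26f572_ag
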