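import Mathlib
import Pool.Agent.Lib.MP_26f572_ag.Defs

/-!
Cohen–Macaulay rings: isomorphism invariance, ascent along flat local homomorphisms with
zero-dimensional fibre, fields, polynomial rings.
-/

namespace Pool.Agent.Lib.MP_26f572_ag

open IsLocalRing RingTheory.Sequence

universe u v

theorem IsCMLocal.of_ringEquiv {A : Type u} {B : Type v} [CommRing A] [CommRing B] [IsLocalRing A]
    [IsLocalRing B] (e : A ≃+* B) (h : IsCMLocal A) : IsCMLocal B := by
  have hn := h.noeth
  obtain ⟨rs, hmem, hreg, hlen⟩ := h.exists_reg
  refine ⟨isNoetherianRing_of_ringEquiv A e, rs.map e, ?_, ?_, ?_⟩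
  · intro r hr
    obtain ⟨a, ha, rfl⟩ := List.mem_map.mp hr
    have := hmem a ha
    rw [mem_maximalIdeal, mem_nonunits_iff] at this ⊢
    simpa using this
  · refine (AddEquiv.isRegular_congr (e := e.toAddEquiv) ?_).mp hreg
    rw [List.forall₂_map_right_iff, List.forall₂_same]
    intro r _ x
    simp
  · rw [List.length_map, hlen, ringKrullDim_eq_of_ringEquiv e]

/-- flat local homomorphism with zero-dimensional closed fibre -/
theorem IsCMLocal.of_flat {A : Type u} {B : Type v} [CommRing A] [CommRing B] [IsLocalRing A]
    [IsLocalRing B] [Algebra A B] [IsLocalHom (algebraMap A B)] [Module.Flat A B]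
    [IsNoetherianRing B] (h : IsCMLocal A)
    (h0 : ringKrullDim (B ⧸ (maximalIdeal A).map (algebraMap A B)) = 0) : IsCMLocal B := by
  have hn := h.noeth
  obtain ⟨rs, hmem, hreg, hlen⟩ := h.exists_reg
  have hmem' : ∀ r ∈ rs.map (algebraMap A B), r ∈ maximalIdeal B := by
    intro r hr
    obtain ⟨a, ha, rfl⟩ := List.mem_map.mp hr
    have := hmem a ha
    rw [mem_maximalIdeal, mem_nonunits_iff] at this ⊢
    rwa [isUnit_map_iff]
  refine ⟨inferInstance, rs.map (algebraMap A B), hmem', ?_, ?_⟩
  · exact (isRegular_iff_isWeaklyRegular_of_subset_maximalIdeal hmem').mpr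
      hreg.toIsWeaklyRegular.of_flat
  · rw [List.length_map, hlen, ← maximalIdeal_height_eq_ringKrullDim,
      ← maximalIdeal_height_eq_ringKrullDim (R := B)]
    have hcomap : (maximalIdeal B).comap (algebraMap A B) = maximalIdeal A :=
      ((local_hom_TFAE (algebraMap A B)).out 0 4).mp
        (inferInstance : IsLocalHom (algebraMap A B))
    have : (maximalIdeal B).LiesOver (maximalIdeal A) := ⟨hcomap.symm⟩
    rw [Ideal.height_eq_height_add_of_liesOver_of_hasGoingDown (maximalIdeal A) (maximalIdeal B)]
    have h1 : ((maximalIdeal B).map
        (Ideal.Quotient.mk <| (maximalIdeal A).map (algebraMap A B))).height = 0 := by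
      have hle : (maximalIdeal A).map (algebraMap A B) ≤ maximalIdeal B := by
        rw [Ideal.map_le_iff_le_comap]
        exact (this.over).le
      have hne : (maximalIdeal B).map
        (Ideal.Quotient.mk <| (maximalIdeal A).map (algebraMap A B)) ≠ ⊤ := by
        intro ht
        have := congrArg (Ideal.comap (Ideal.Quotient.mk
          ((maximalIdeal A).map (algebraMap A B)))) ht
        rw [Ideal.comap_map_of_surjective' _ Ideal.Quotient.mk_surjective, Ideal.mk_ker,
          sup_of_le_left hle, Ideal.comap_top] at this
        exact Ideal.IsPrime.ne_top' this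
      have := Ideal.height_le_ringKrullDim_of_ne_top hne
      rw [h0] at this
      have h2 : (((maximalIdeal B).map
        (Ideal.Quotient.mk <| (maximalIdeal A).map (algebraMap A B))).height : WithBot ℕ∞) ≤
          ((0 : ℕ∞) : WithBot ℕ∞) := by simpa using this
      exact le_antisymm (WithBot.coe_le_coe.mp h2) bot_le
    rw [h1, add_zero]

theorem IsCMLocal.of_isField {k : Type u} [CommRing k] [IsLocalRing k] (hk : IsField k) :
    IsCMLocal k := by
  let := hk.toField
  refine ⟨?_, [], by simp, IsRegular.nil k k, ?_⟩
  · infer_instance
  · have := ringKrullDim_eq_zero_of_isField hk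
    rw [this]
    simp

theorem isCM_of_field (k : Type u) [Field k] : IsCM k := by
  refine ⟨inferInstance, fun p hp => ?_⟩
  apply IsCMLocal.of_isField
  have : p = ⊥ := (Ideal.eq_bot_or_top p).resolve_right hp.ne_top
  subst this
  simp [isField_iff_maximalIdeal_eq, ← Localization.AtPrime.map_eq_maximalIdeal]

theorem IsCM.of_ringEquiv {A : Type u} {B : Type v} [CommRing A] [CommRing B]
    (e : A ≃+* B) (h : IsCM A) : IsCM B := by
  have := h.1
  refine ⟨isNoetherianRing_of_ringEquiv A e, fun p hp => ?_⟩
  exact IsCMLocal.of_ringEquiv (IsLocalization.ringEquivOfRingEquiv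
    (Localization.AtPrime (p.comap e)) (Localization.AtPrime p) e (e.map_primeCompl_comap_eq p))
    (h.2 (p.comap e))

open Polynomial in
theorem isCMLocal_localization_of_comap_eq_maximalIdeal {A : Type u} [CommRing A] [IsLocalRing A]
    (h : IsCMLocal A) (p : Ideal A[X]) [p.IsPrime] (max : p.comap C = maximalIdeal A) :
    IsCMLocal (Localization.AtPrime p) := by
  have hn := h.noeth
  let q := (maximalIdeal A).map C
  have qle : q ≤ p := by simpa [q, ← max] using Ideal.map_comap_le
  have hflat : Module.Flat A (Localization.AtPrime p) := by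
    have : Module.Flat A[X] (Localization.AtPrime p) := IsLocalization.flat _ p.primeCompl
    exact Module.Flat.trans A A[X] (Localization.AtPrime p)
  by_cases eq : p = q
  · have hmap : (maximalIdeal A).map (algebraMap A (Localization.AtPrime p)) =
        maximalIdeal (Localization.AtPrime p) := by
      rw [IsScalarTower.algebraMap_eq A A[X] (Localization.AtPrime p), ← Ideal.map_map,
        ← Localization.AtPrime.map_eq_maximalIdeal]
      congr 1
      exact eq.symm
    have : IsLocalHom (algebraMap A (Localization.AtPrime p)) :=
      ((local_hom_TFAE (algebraMap A (Localization.AtPrime p))).out 0 2).mpr hmap.le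
    refine IsCMLocal.of_flat h ?_
    have := ringKrullDim_eq_zero_of_field (ResidueField (Localization.AtPrime p))
    rw [hmap]
    exact this
  · have lt : q < p := lt_of_le_of_ne qle (Ne.symm eq)
    have hm : (Ideal.comap C p).IsMaximal := by simpa [max] using maximalIdeal.isMaximal A
    obtain ⟨y, hmon, hy⟩ := Polynomial.exists_monic_span_sup_map_eq A p hm (by simpa [max])
    obtain ⟨rs, hmem, hreg, hlen⟩ := h.exists_reg
    have hyp : y ∈ p := by
      rw [hy]
      exact Ideal.mem_sup_right (Ideal.mem_span_singleton_self y)
    have hw : IsWeaklyRegular A[X] (rs.map (algebraMap A A[X]) ++ [y]) := by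
      rw [isWeaklyRegular_append_iff]
      refine ⟨hreg.toIsWeaklyRegular.of_flat, ?_⟩
      rw [isWeaklyRegular_singleton_iff, isSMulRegular_quotient_iff_mem_of_smul_mem]
      have hI : (Ideal.ofList (rs.map (algebraMap A A[X])) • (⊤ : Ideal A[X])) =
          (Ideal.ofList rs).map C := by
        rw [Ideal.map_ofList]
        simp
      rw [hI]
      intro f hf
      rw [← Ideal.mk_ker (I := Ideal.ofList rs), ← Polynomial.ker_mapRingHom,
        RingHom.mem_ker] at hf ⊢
      rw [smul_eq_mul, map_mul] at hf
      have hym : (Polynomial.mapRingHom (Ideal.Quotient.mk (Ideal.ofList rs)) y).Monic :=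
        hmon.map _
      exact (hym.mul_right_eq_zero_iff).mp hf
    have hmem' : ∀ r ∈ rs.map (algebraMap A A[X]) ++ [y], r ∈ p := by
      intro r hr
      rw [List.mem_append] at hr
      rcases hr with hr | hr
      · obtain ⟨a, ha, rfl⟩ := List.mem_map.mp hr
        exact qle (Ideal.mem_map_of_mem C (hmem a ha))
      · rw [List.mem_singleton] at hr
        rwa [hr]
    have hR := hw.isRegular_of_isLocalization_of_mem (S := Localization.AtPrime p) p hmem'
    refine ⟨IsLocalization.isNoetherianRing p.primeCompl _ inferInstance, _, ?_, hR, ?_⟩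
    · intro r hr
      obtain ⟨a, ha, rfl⟩ := List.mem_map.mp hr
      rw [IsLocalization.AtPrime.to_map_mem_maximal_iff _ p]
      exact hmem' a ha
    · have hnB : IsNoetherianRing (Localization.AtPrime p) :=
        IsLocalization.isNoetherianRing p.primeCompl _ inferInstance
      apply le_antisymm
      · have h1 := ringKrullDim_add_length_eq_ringKrullDim_of_isRegular _ hR
        rw [← h1]
        have : Nontrivial (Localization.AtPrime p ⧸ Ideal.ofList
            ((rs.map (algebraMap A A[X]) ++ [y]).map
              (algebraMap A[X] (Localization.AtPrime p)))) := by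
          have := hR.quot_ofList_smul_nontrivial ⊤
          rwa [smul_eq_mul, Ideal.mul_top] at this
        have h2 := ringKrullDim_nonneg_of_nontrivial (R := (Localization.AtPrime p ⧸ Ideal.ofList
            ((rs.map (algebraMap A A[X]) ++ [y]).map
              (algebraMap A[X] (Localization.AtPrime p)))))
        exact le_add_of_nonneg_left h2
      · rw [IsLocalization.AtPrime.ringKrullDim_eq_height p]
        have hlo : p.LiesOver (maximalIdeal A) := ⟨max.symm⟩
        have h1 := Ideal.height_le_height_add_of_liesOver (maximalIdeal A) p
        have h2 : (p.map (Ideal.Quotient.mk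
            ((maximalIdeal A).map (algebraMap A A[X])))).height ≤ 1 := by
          have hne : p.map (Ideal.Quotient.mk
            ((maximalIdeal A).map (algebraMap A A[X]))) ≠ ⊤ := by
            intro ht
            have := congrArg (Ideal.comap (Ideal.Quotient.mk
              ((maximalIdeal A).map (algebraMap A A[X])))) ht
            rw [Ideal.comap_map_of_surjective' _ Ideal.Quotient.mk_surjective, Ideal.mk_ker,
              sup_of_le_left (show (maximalIdeal A).map (algebraMap A A[X]) ≤ p from qle),
              Ideal.comap_top] at this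
            exact Ideal.IsPrime.ne_top' this
          have h3 := Ideal.height_le_ringKrullDim_of_ne_top hne
          have h4 : ringKrullDim (A[X] ⧸ (maximalIdeal A).map (algebraMap A A[X])) = 1 := by
            let e : (A[X] ⧸ ((maximalIdeal A).map (algebraMap A A[X]))) ≃+*
              (A ⧸ maximalIdeal A)[X] :=
              (Ideal.polynomialQuotientEquivQuotientPolynomial (maximalIdeal A)).symm
            let _ : Field (A ⧸ maximalIdeal A) := Ideal.Quotient.field (maximalIdeal A)
            rw [ringKrullDim_eq_of_ringEquiv e, Polynomial.ringKrullDim_of_isNoetherianRing,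
              ringKrullDim_eq_zero_of_field, zero_add]
          rw [h4] at h3
          exact WithBot.coe_le_coe.mp h3
        have h5 : p.height ≤ (maximalIdeal A).height + 1 := h1.trans (by gcongr)
        have h6 : ((maximalIdeal A).height : WithBot ℕ∞) = (rs.length : WithBot ℕ∞) := by
          rw [hlen, maximalIdeal_height_eq_ringKrullDim]
        refine (WithBot.coe_le_coe.mpr h5).trans ?_
        rw [WithBot.coe_add, h6]
        simp

open Polynomial in
theorem IsCM.polynomial {A : Type u} [CommRing A] (h : IsCM A) : IsCM (Polynomial A) := by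
  have hn := h.1
  refine ⟨inferInstance, fun p hp ↦ ?_⟩
  let q := p.comap C
  let S := (Localization.AtPrime q)[X]
  let pc := Submonoid.map Polynomial.C.toMonoidHom q.primeCompl
  let : Algebra A[X] S := algebra A (Localization.AtPrime q)
  have : IsLocalization pc S := Polynomial.isLocalization _ _
  let pS := p.map (algebraMap A[X] S)
  have disj : Disjoint (pc : Set A[X]) (p : Set A[X]) := by
    simpa [pc, q] using! Set.disjoint_image_left.mpr
      (Set.disjoint_compl_left_iff_subset.mpr (fun _ a ↦ a))
  have : pS.IsPrime := IsLocalization.isPrime_of_isPrime_disjoint pc _ _ ‹_› disj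
  have : IsLocalization.AtPrime (Localization.AtPrime pS) p := by
    convert IsLocalization.isLocalization_isLocalization_atPrime_isLocalization pc
      (Localization.AtPrime pS) pS
    exact (IsLocalization.under_map_of_isPrime_disjoint pc _ ‹_› disj).symm
  have eq : Ideal.comap C pS = maximalIdeal (Localization.AtPrime q) := by
    rw [← IsLocalization.map_under q.primeCompl _ (Ideal.comap C pS),
      ← IsLocalization.map_under q.primeCompl _ (maximalIdeal (Localization.AtPrime q))]
    simp only [Ideal.comap_comap, S, pS]
    rw [← Polynomial.algebraMap_eq (R := Localization.AtPrime q),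
      ← IsScalarTower.algebraMap_eq A (Localization.AtPrime q) (Localization.AtPrime q)[X],
      IsScalarTower.algebraMap_eq A A[X] (Localization.AtPrime q)[X], ← Ideal.comap_comap,
      ← Ideal.under_def A[X], IsLocalization.under_map_of_isPrime_disjoint pc _ ‹_› disj]
    simp [q, IsLocalization.AtPrime.under_maximalIdeal (Localization.AtPrime q) q]
  have := isCMLocal_localization_of_comap_eq_maximalIdeal (h.2 q) pS eq
  exact IsCMLocal.of_ringEquiv (IsLocalization.algEquiv p.primeCompl
    (Localization.AtPrime pS) (Localization.AtPrime p)).toRingEquiv this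

theorem IsCM.mvPolynomial {A : Type u} [CommRing A] (h : IsCM A) (ι : Type v) [Finite ι] :
    IsCM (MvPolynomial ι A) := by
  induction ι using Finite.induction_empty_option with
  | of_equiv e H => exact IsCM.of_ringEquiv (MvPolynomial.renameEquiv _ e).toRingEquiv H
  | h_empty => exact IsCM.of_ringEquiv (MvPolynomial.isEmptyRingEquiv A _).symm h
  | h_option IH =>
    exact IsCM.of_ringEquiv (MvPolynomial.optionEquivLeft _ _).toRingEquiv.symm IH.polynomial

end Pool.Agent.Lib.MP_26f572_ag
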