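import Mathlib
import Pool.Agent.Lib.MP_26f572_ag.CMFlat

/-!
Cohen–Macaulay rings: ascent along flat quasi-finite and smooth algebras.
-/

namespace Pool.Agent.Lib.MP_26f572_ag

open IsLocalRing RingTheory.Sequence

universe u v

theorem IsCM.of_quasiFinite_flat {A : Type u} {B : Type v} [CommRing A] [CommRing B] [Algebra A B]
    [Algebra.QuasiFinite A B] [Module.Flat A B] [IsNoetherianRing B] (h : IsCM A) : IsCM B := by
  refine ⟨inferInstance, fun q hq => ?_⟩
  let p := q.under A
  have hp : p.IsPrime := inferInstance
  have : q.LiesOver p := ⟨rfl⟩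
  let := Localization.AtPrime.algebraOfLiesOver p q
  have : IsLocalHom (algebraMap (Localization.AtPrime p) (Localization.AtPrime q)) := by
    rw [RingHom.algebraMap_toAlgebra]
    exact Localization.isLocalHom_localRingHom p q (algebraMap A B) Ideal.LiesOver.over
  have hnq : IsNoetherianRing (Localization.AtPrime q) :=
    IsLocalization.isNoetherianRing q.primeCompl _ inferInstance
  refine IsCMLocal.of_flat (h.2 p) ?_
  have hle : (maximalIdeal (Localization.AtPrime p)).map
      (algebraMap (Localization.AtPrime p) (Localization.AtPrime q)) ≤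
      maximalIdeal (Localization.AtPrime q) :=
    ((local_hom_TFAE (algebraMap (Localization.AtPrime p) (Localization.AtPrime q))).out 0 2).mp
      (inferInstance : IsLocalHom
        (algebraMap (Localization.AtPrime p) (Localization.AtPrime q)))
  have hnt : Nontrivial (Localization.AtPrime q ⧸ (maximalIdeal (Localization.AtPrime p)).map
      (algebraMap (Localization.AtPrime p) (Localization.AtPrime q))) := by
    rw [Ideal.Quotient.nontrivial_iff]
    intro ht
    rw [ht] at hle
    exact Ideal.IsPrime.ne_top' (top_le_iff.mp hle)
  rw [← ringKrullDimZero_iff_ringKrullDim_eq_zero, Ring.krullDimLE_zero_iff]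
  intro J hJ
  obtain ⟨J', hJ'def⟩ : ∃ J', J' = J.comap (Ideal.Quotient.mk
      ((maximalIdeal (Localization.AtPrime p)).map
      (algebraMap (Localization.AtPrime p) (Localization.AtPrime q)))) := ⟨_, rfl⟩
  have hJ' : J'.IsPrime := by rw [hJ'def]; infer_instance
  have hleJ : (maximalIdeal (Localization.AtPrime p)).map
      (algebraMap (Localization.AtPrime p) (Localization.AtPrime q)) ≤ J' := by
    rw [hJ'def]
    intro x hx
    rw [Ideal.mem_comap, Ideal.Quotient.eq_zero_iff_mem.mpr hx]
    exact J.zero_mem
  have hJm : J' ≤ maximalIdeal (Localization.AtPrime q) := le_maximalIdeal hJ'.ne_top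
  have hQq : J'.under B ≤ q := by
    have h1 : (maximalIdeal (Localization.AtPrime q)).under B = q :=
      IsLocalization.AtPrime.under_maximalIdeal _ q
    exact (Ideal.comap_mono hJm).trans h1.le
  have hQ : (J'.under B).under A = q.under A := by
    apply le_antisymm (Ideal.comap_mono hQq)
    intro a ha
    change (algebraMap B (Localization.AtPrime q)) ((algebraMap A B) a) ∈ J'
    rw [← IsScalarTower.algebraMap_apply,
      IsScalarTower.algebraMap_apply A (Localization.AtPrime p) (Localization.AtPrime q)]
    apply hleJ
    apply Ideal.mem_map_of_mem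
    rw [IsLocalization.AtPrime.to_map_mem_maximal_iff _ p]
    exact ha
  have hE := Algebra.QuasiFinite.eq_of_le_of_under_eq (R := A) (J'.under B) q hQq hQ
  have hJmax : J' = maximalIdeal (Localization.AtPrime q) := by
    rw [← IsLocalization.map_under q.primeCompl _ J', hE, Localization.AtPrime.map_eq_maximalIdeal]
  have : J'.IsMaximal := by rw [hJmax]; infer_instance
  rw [hJ'def] at this
  have h3 := Ideal.map_eq_top_or_isMaximal_of_surjective
    (Ideal.Quotient.mk ((maximalIdeal (Localization.AtPrime p)).map
      (algebraMap (Localization.AtPrime p) (Localization.AtPrime q))))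
    Ideal.Quotient.mk_surjective this
  rw [Ideal.map_comap_of_surjective _ Ideal.Quotient.mk_surjective] at h3
  exact h3.resolve_left hJ.ne_top

theorem IsCM.of_finite_flat {A : Type u} {B : Type v} [CommRing A] [CommRing B] [Algebra A B]
    [Module.Finite A B] [Module.Flat A B] (h : IsCM A) : IsCM B := by
  have := h.1
  have : IsNoetherianRing B := Algebra.FiniteType.isNoetherianRing A B
  exact IsCM.of_quasiFinite_flat h

theorem IsCM.of_smooth {A B : Type u} [CommRing A] [CommRing B] [Algebra A B]
    [Algebra.Smooth A B] (h : IsCM A) : IsCM B := by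
  have := h.1
  have : IsNoetherianRing B := Algebra.FiniteType.isNoetherianRing A B
  refine ⟨inferInstance, fun q hq => ?_⟩
  obtain ⟨f, hf, n, _, hst, hse⟩ :=
    Algebra.IsSmoothAt.exists_isStandardEtale_mvPolynomial (R := A) (p := q)
  have hcm : IsCM (MvPolynomial (Fin n) A) := h.mvPolynomial (Fin n)
  have hn := hcm.1
  have hn2 : IsNoetherianRing (Localization.Away f) :=
    IsLocalization.isNoetherianRing (Submonoid.powers f) _ inferInstance
  have hfl : Module.Flat (MvPolynomial (Fin n) A) (Localization.Away f) := by
    infer_instance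
  have hqf : Algebra.QuasiFinite (MvPolynomial (Fin n) A) (Localization.Away f) := by
    infer_instance
  have hcmf : IsCM (Localization.Away f) := IsCM.of_quasiFinite_flat hcm
  have hdisj : Disjoint ((Submonoid.powers f : Submonoid B) : Set B) (q : Set B) :=
    (Ideal.disjoint_powers_iff_notMem_of_isPrime _).mpr hf
  let qf := q.map (algebraMap B (Localization.Away f))
  have : qf.IsPrime := IsLocalization.isPrime_of_isPrime_disjoint (.powers f) _ _ hq hdisj
  have : IsLocalization.AtPrime (Localization.AtPrime qf) q := by
    convert IsLocalization.isLocalization_isLocalization_atPrime_isLocalization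
      (Submonoid.powers f) (Localization.AtPrime qf) qf
    exact (IsLocalization.under_map_of_isPrime_disjoint (Submonoid.powers f) _ hq hdisj).symm
  exact IsCMLocal.of_ringEquiv (IsLocalization.algEquiv q.primeCompl
    (Localization.AtPrime qf) (Localization.AtPrime q)).toRingEquiv (hcmf.2 qf)

end Pool.Agent.Lib.MP_26f572_ag
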