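import Mathlib

/-!
# The standard charts of the Hilbert scheme of points of an affine scheme

`R` is a `k`-algebra, `f : Fin n → R`.  A `T`-point of the chart attached to `f` is a quotient
algebra of `T ⊗ R` in which `1, f 0, …, f (n-1)` is a basis.  We record it by the coordinate
functions `Y : R → T^(n+1)` with respect to this basis.
-/

namespace Pool.Agent.Lib.MP_26f572_ag

open scoped TensorProduct

universe u v w

/-- the family `1, f 0, …, f (n-1)` -/
def fam {R : Type u} [CommRing R] {n : ℕ} (f : Fin n → R) : Fin (n + 1) → R := Fin.cons 1 f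

@[simp] lemma fam_zero {R : Type u} [CommRing R] {n : ℕ} (f : Fin n → R) : fam f 0 = 1 := rfl

@[simp] lemma fam_succ {R : Type u} [CommRing R] {n : ℕ} (f : Fin n → R) (i : Fin n) :
    fam f i.succ = f i := rfl

lemma map_fam {R : Type u} {S : Type v} [CommRing R] [CommRing S] {n : ℕ} {F : Type w}
    [FunLike F R S] [RingHomClass F R S] (f : Fin n → R)
    (g : F) (j : Fin (n + 1)) : g (fam f j) = fam (g ∘ f) j := by
  refine Fin.cases ?_ (fun i => ?_) j <;> simp

/-- A `T`-point of the chart of `f : Fin n → R`. -/
@[ext]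
structure ChartPt (k : Type u) [CommRing k] (R : Type v) [CommRing R] [Algebra k R] {n : ℕ}
    (f : Fin n → R) (T : Type w) [CommRing T] [Algebra k T] where
  /-- coordinates with respect to the basis `1, f 0, …` -/
  Y : R →ₗ[k] (Fin (n + 1) → T)
  Y_fam : ∀ j, Y (fam f j) = Pi.single j 1
  Y_mul : ∀ r s, Y (r * s) = ∑ j, Y s j • Y (r * fam f j)

namespace ChartPt

variable {k : Type u} [CommRing k] {R : Type v} [CommRing R] [Algebra k R] {n : ℕ}
  {f : Fin n → R} {T : Type w} [CommRing T] [Algebra k T]

/-- push forward along a homomorphism of coefficient rings -/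
def map {T' : Type*} [CommRing T'] [Algebra k T'] (P : ChartPt k R f T) (g : T →ₐ[k] T') :
    ChartPt k R f T' where
  Y := (g.toLinearMap.compLeft (Fin (n + 1))) ∘ₗ P.Y
  Y_fam j := by
    ext i
    simp only [LinearMap.coe_comp, Function.comp_apply, P.Y_fam, LinearMap.compLeft_apply,
      AlgHom.toLinearMap_apply, Pi.single_apply]
    split_ifs <;> simp
  Y_mul r s := by
    ext i
    simp only [LinearMap.coe_comp, Function.comp_apply, P.Y_mul r s, LinearMap.compLeft_apply,
      AlgHom.toLinearMap_apply, Finset.sum_apply, Pi.smul_apply, smul_eq_mul, map_sum, map_mul]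

@[simp] lemma map_Y {T' : Type*} [CommRing T'] [Algebra k T'] (P : ChartPt k R f T)
    (g : T →ₐ[k] T') (r : R) (i : Fin (n + 1)) : (P.map g).Y r i = g (P.Y r i) := rfl

/-- restrict along a homomorphism of algebras -/
def restrict {R₂ : Type*} [CommRing R₂] [Algebra k R₂] (φ : R →ₐ[k] R₂)
    (P : ChartPt k R₂ (φ ∘ f) T) : ChartPt k R f T where
  Y := P.Y ∘ₗ φ.toLinearMap
  Y_fam j := by
    have := P.Y_fam j
    rw [← map_fam] at this
    simpa using this
  Y_mul r s := by
    simp only [LinearMap.coe_comp, Function.comp_apply, AlgHom.toLinearMap_apply, map_mul]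
    rw [P.Y_mul]
    refine Finset.sum_congr rfl fun j _ => ?_
    rw [← map_fam]

@[simp] lemma restrict_Y {R₂ : Type*} [CommRing R₂] [Algebra k R₂] (φ : R →ₐ[k] R₂)
    (P : ChartPt k R₂ (φ ∘ f) T) (r : R) (i : Fin (n + 1)) :
    (P.restrict φ).Y r i = P.Y (φ r) i := rfl

/-- the point attached to an algebra with a basis given by the images of `1, f 0, …` -/
noncomputable def ofBasis {B : Type*} [CommRing B] [Algebra T B] [Algebra k B] [IsScalarTower k T B]
    (φ : R →ₐ[k] B) (b : Module.Basis (Fin (n + 1)) T B) (hb : ∀ j, b j = φ (fam f j)) :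
    ChartPt k R f T where
  Y := (b.equivFun.toLinearMap.restrictScalars k) ∘ₗ φ.toLinearMap
  Y_fam j := by
    simp only [LinearMap.coe_comp, Function.comp_apply, AlgHom.toLinearMap_apply, ← hb]
    ext i
    simp [Pi.single_apply, eq_comm]
  Y_mul r s := by
    simp only [LinearMap.coe_comp, Function.comp_apply, AlgHom.toLinearMap_apply, map_mul,
      LinearMap.coe_restrictScalars, LinearEquiv.coe_coe]
    conv_lhs => rw [← b.sum_equivFun (φ s)]
    rw [Finset.mul_sum, map_sum]
    refine Finset.sum_congr rfl fun j _ => ?_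
    rw [mul_smul_comm, map_smul, hb]

@[simp] lemma ofBasis_Y {B : Type*} [CommRing B] [Algebra T B] [Algebra k B]
    [IsScalarTower k T B] (φ : R →ₐ[k] B) (b : Module.Basis (Fin (n + 1)) T B)
    (hb : ∀ j, b j = φ (fam f j)) (r : R) (i : Fin (n + 1)) :
    (ofBasis φ b hb).Y r i = b.repr (φ r) i := rfl

/-- the `T`-linear extension of `Y` to `T ⊗ R` -/
noncomputable def lin (P : ChartPt k R f T) : T ⊗[k] R →ₗ[T] (Fin (n + 1) → T) :=
  TensorProduct.AlgebraTensorModule.lift
    { toFun := fun t => t • P.Y
      map_add' := fun a b => by ext; simp [add_smul]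
      map_smul' := fun a b => by ext; simp [mul_assoc] }

@[simp] lemma lin_tmul (P : ChartPt k R f T) (t : T) (r : R) : P.lin (t ⊗ₜ r) = t • P.Y r := by
  simp [lin]

lemma lin_mul (P : ChartPt k R f T) (x y : T ⊗[k] R) :
    P.lin (x * y) = ∑ j, P.lin y j • P.lin (x * (1 ⊗ₜ fam f j)) := by
  induction x with
  | zero => simp
  | add x₁ x₂ h₁ h₂ => simp only [add_mul, map_add, h₁, h₂, smul_add, Finset.sum_add_distrib]
  | tmul t r =>
    induction y with
    | zero => simp
    | add y₁ y₂ h₁ h₂ =>
      simp only [mul_add, map_add, h₁, h₂, Pi.add_apply, add_smul, Finset.sum_add_distrib]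
    | tmul t' s =>
      simp only [Algebra.TensorProduct.tmul_mul_tmul, lin_tmul, P.Y_mul r s, Finset.smul_sum,
        mul_one, Pi.smul_apply, smul_eq_mul, smul_smul]
      refine Finset.sum_congr rfl fun j _ => ?_
      congr 1
      ring

/-- the kernel of `lin`, an ideal of `T ⊗ R` -/
noncomputable def ker (P : ChartPt k R f T) : Ideal (T ⊗[k] R) where
  carrier := {x | P.lin x = 0}
  add_mem' {a b} ha hb := by
    simp only [Set.mem_ofPred_eq] at *
    rw [map_add, ha, hb, add_zero]
  zero_mem' := by simp
  smul_mem' c x hx := by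
    simp only [Set.mem_ofPred_eq, smul_eq_mul] at *
    rw [lin_mul, hx]
    simp

lemma mem_ker (P : ChartPt k R f T) (x : T ⊗[k] R) : x ∈ P.ker ↔ P.lin x = 0 := Iff.rfl

/-- the algebra of a point -/
abbrev Alg (P : ChartPt k R f T) : Type _ := (T ⊗[k] R) ⧸ P.ker

lemma lin_surjective (P : ChartPt k R f T) : Function.Surjective P.lin := by
  intro t
  refine ⟨∑ j, t j ⊗ₜ fam f j, ?_⟩
  rw [map_sum]
  ext i
  simp [P.Y_fam, Pi.single_apply]

/-- the linear map from the algebra of a point to `T^(n+1)` -/
noncomputable def coord (P : ChartPt k R f T) : P.Alg →ₗ[T] (Fin (n + 1) → T) where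
  toFun := Quotient.lift P.lin fun a b h => by
    have h' : a - b ∈ P.ker := (Submodule.quotientRel_def _).mp h
    rw [mem_ker, map_sub, sub_eq_zero] at h'
    exact h'
  map_add' x y := by
    induction x using Submodule.Quotient.induction_on with | _ x => ?_
    induction y using Submodule.Quotient.induction_on with | _ y => ?_
    exact map_add P.lin x y
  map_smul' t x := by
    induction x using Submodule.Quotient.induction_on with | _ x => ?_
    exact map_smul P.lin t x

@[simp] lemma coord_mk (P : ChartPt k R f T) (x : T ⊗[k] R) :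
    P.coord (Ideal.Quotient.mk P.ker x) = P.lin x := rfl

/-- the underlying module of the algebra of a point is `T^(n+1)` -/
noncomputable def equiv (P : ChartPt k R f T) : P.Alg ≃ₗ[T] (Fin (n + 1) → T) :=
  LinearEquiv.ofBijective P.coord <| by
    constructor
    · rw [injective_iff_map_eq_zero]
      intro x hx
      obtain ⟨x, rfl⟩ := Ideal.Quotient.mk_surjective x
      rw [coord_mk] at hx
      exact Ideal.Quotient.eq_zero_iff_mem.mpr hx
    · intro t
      obtain ⟨x, hx⟩ := P.lin_surjective t
      exact ⟨Ideal.Quotient.mk _ x, hx⟩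

/-- the basis `1, f 0, …` of the algebra of a point -/
noncomputable def basis (P : ChartPt k R f T) : Module.Basis (Fin (n + 1)) T P.Alg :=
  Module.Basis.ofEquivFun P.equiv

/-- the structure map `R → P.Alg` -/
noncomputable def toAlg (P : ChartPt k R f T) : R →ₐ[k] P.Alg :=
  ((Ideal.Quotient.mkₐ T P.ker).restrictScalars k).comp Algebra.TensorProduct.includeRight

lemma toAlg_apply (P : ChartPt k R f T) (r : R) :
    P.toAlg r = Ideal.Quotient.mk P.ker (1 ⊗ₜ r) := rfl

@[simp] lemma basis_repr_toAlg (P : ChartPt k R f T) (r : R) (i : Fin (n + 1)) :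
    P.basis.repr (P.toAlg r) i = P.Y r i := by
  have : P.basis.equivFun (P.toAlg r) = P.Y r := by
    rw [basis, Module.Basis.equivFun_ofEquivFun]
    change P.coord _ = _
    rw [toAlg_apply, coord_mk, lin_tmul, one_smul]
  exact congrFun this i

@[simp] lemma basis_apply (P : ChartPt k R f T) (j : Fin (n + 1)) :
    P.basis j = P.toAlg (fam f j) := by
  apply P.basis.repr.injective
  ext i
  rw [basis_repr_toAlg, P.Y_fam]
  simp [Finsupp.single_apply, Pi.single_apply, eq_comm]

lemma toAlg_eq_sum (P : ChartPt k R f T) (r : R) :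
    P.toAlg r = ∑ j, P.Y r j • P.toAlg (fam f j) := by
  conv_lhs => rw [← P.basis.sum_repr (P.toAlg r)]
  simp

/-- two algebra homomorphisms out of the algebra of a point agree if they agree on `R` -/
lemma algHom_ext (P : ChartPt k R f T) {B : Type*} [CommRing B] [Algebra T B]
    (g g' : P.Alg →ₐ[T] B) (h : ∀ r, g (P.toAlg r) = g' (P.toAlg r)) : g = g' := by
  have : g.toLinearMap = g'.toLinearMap := by
    apply P.basis.ext
    intro j
    simp [h]
  ext x
  exact LinearMap.congr_fun this x

/-- the algebra of a point maps to any algebra `B` over `T` with a map `R → B` satisfying the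
same relations -/
noncomputable def liftAlg (P : ChartPt k R f T) {B : Type*} [CommRing B] [Algebra T B]
    [Algebra k B] [IsScalarTower k T B] (φ : R →ₐ[k] B)
    (h : ∀ r, φ r = ∑ j, P.Y r j • φ (fam f j)) : P.Alg →ₐ[T] B :=
  Ideal.Quotient.liftₐ P.ker (Algebra.TensorProduct.lift (Algebra.ofId T B) φ
    (fun _ _ => Commute.all _ _)) <| by
      have key : ∀ x : T ⊗[k] R, Algebra.TensorProduct.lift (Algebra.ofId T B) φ
          (fun _ _ => Commute.all _ _) x = ∑ j, P.lin x j • φ (fam f j) := by
        intro x
        induction x with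
        | zero => simp
        | add x y hx hy => simp only [map_add, hx, hy, Pi.add_apply, add_smul,
            Finset.sum_add_distrib]
        | tmul t r =>
          rw [Algebra.TensorProduct.lift_tmul, h r]
          simp only [lin_tmul, Pi.smul_apply, smul_eq_mul, mul_smul, Finset.mul_sum,
            Algebra.ofId_apply, ← Algebra.smul_def]
      intro a ha
      rw [key, show P.lin a = 0 from ha]
      simp

@[simp] lemma liftAlg_toAlg (P : ChartPt k R f T) {B : Type*} [CommRing B] [Algebra T B]
    [Algebra k B] [IsScalarTower k T B] (φ : R →ₐ[k] B)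
    (h : ∀ r, φ r = ∑ j, P.Y r j • φ (fam f j)) (r : R) :
    P.liftAlg φ h (P.toAlg r) = φ r := by
  rw [toAlg_apply, liftAlg]
  simp

end ChartPt

section Ring

variable (k : Type u) [CommRing k] (R : Type v) [CommRing R] [Algebra k R] {n : ℕ}
  (f : Fin n → R)

open MvPolynomial

/-- the relations of the chart ring -/
inductive ChartRel : MvPolynomial (R × Fin (n + 1)) k → Prop
  | add (r s : R) (i : Fin (n + 1)) : ChartRel (X (r + s, i) - (X (r, i) + X (s, i)))
  | smul (a : k) (r : R) (i : Fin (n + 1)) : ChartRel (X (a • r, i) - C a * X (r, i))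
  | fam (j i : Fin (n + 1)) :
      ChartRel (X (fam f j, i) - C ((Pi.single j 1 : Fin (n + 1) → k) i))
  | mul (r s : R) (i : Fin (n + 1)) :
      ChartRel (X (r * s, i) - ∑ j, X (s, j) * X (r * Pool.Agent.Lib.MP_26f572_ag.fam f j, i))

/-- the coordinate ring of the chart attached to `f` -/
def Chart : Type (max u v) :=
  MvPolynomial (R × Fin (n + 1)) k ⧸ Ideal.span {x | ChartRel k R f x}

noncomputable instance : CommRing (Chart k R f) :=
  inferInstanceAs (CommRing (MvPolynomial (R × Fin (n + 1)) k ⧸ Ideal.span {x | ChartRel k R f x}))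

noncomputable instance : Algebra k (Chart k R f) :=
  inferInstanceAs (Algebra k
    (MvPolynomial (R × Fin (n + 1)) k ⧸ Ideal.span {x | ChartRel k R f x}))

namespace Chart

variable {k R f}

/-- the quotient map -/
noncomputable def mk : MvPolynomial (R × Fin (n + 1)) k →ₐ[k] Chart k R f :=
  Ideal.Quotient.mkₐ k _

lemma mk_surjective : Function.Surjective (mk : _ →ₐ[k] Chart k R f) :=
  Ideal.Quotient.mkₐ_surjective _ _

lemma mk_eq_of_rel {x y : MvPolynomial (R × Fin (n + 1)) k} (h : ChartRel k R f (x - y)) :
    (mk x : Chart k R f) = mk y := by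
  rw [← sub_eq_zero, ← map_sub]
  exact Ideal.Quotient.eq_zero_iff_mem.mpr (Ideal.subset_span h)

variable (k R f) in
/-- the universal point -/
noncomputable def univ : ChartPt k R f (Chart k R f) where
  Y :=
    { toFun := fun r i => mk (X (r, i))
      map_add' := fun r s => by
        ext i
        exact (mk_eq_of_rel (ChartRel.add r s i)).trans (map_add _ _ _)
      map_smul' := fun a r => by
        ext i
        refine (mk_eq_of_rel (ChartRel.smul a r i)).trans ?_
        simp only [RingHom.id_apply, Pi.smul_apply]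
        rw [map_mul, Algebra.smul_def]
        congr 1 }
  Y_fam j := by
    ext i
    refine (mk_eq_of_rel (ChartRel.fam j i)).trans ?_
    refine (AlgHom.commutes mk _).trans ?_
    simp only [Pi.single_apply]
    split_ifs <;> simp
  Y_mul r s := by
    ext i
    refine (mk_eq_of_rel (ChartRel.mul r s i)).trans ?_
    simp [Finset.sum_apply]

lemma univ_Y (r : R) (i : Fin (n + 1)) : (univ k R f).Y r i = mk (X (r, i)) := rfl

variable {T : Type w} [CommRing T] [Algebra k T]

/-- homomorphisms out of the chart ring are given by points -/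
noncomputable def lift (P : ChartPt k R f T) : Chart k R f →ₐ[k] T :=
  Ideal.Quotient.liftₐ _ (aeval (fun x => P.Y x.1 x.2)) <| by
    intro a ha
    induction ha using Submodule.span_induction with
    | mem x hx =>
      cases hx with
      | add r s i => simp
      | smul a r i =>
        rw [map_sub, map_mul, aeval_X, aeval_X, aeval_C]
        dsimp only
        rw [map_smul, Pi.smul_apply, Algebra.smul_def, sub_self]
      | fam j i =>
        simp only [map_sub, aeval_X, P.Y_fam, aeval_C, Pi.single_apply]
        split_ifs <;> simp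
      | mul r s i => simp [P.Y_mul r s, Finset.sum_apply]
    | zero => simp
    | add x y _ _ hx hy => rw [map_add, hx, hy, add_zero]
    | smul c x _ hx => rw [smul_eq_mul, map_mul, hx, mul_zero]

@[simp] lemma lift_Y (P : ChartPt k R f T) (r : R) (i : Fin (n + 1)) :
    lift P ((univ k R f).Y r i) = P.Y r i := by
  change Ideal.Quotient.liftₐ _ _ _ (Ideal.Quotient.mk _ (X (r, i))) = _
  simp

@[ext]
lemma hom_ext (g g' : Chart k R f →ₐ[k] T)
    (h : ∀ r i, g ((univ k R f).Y r i) = g' ((univ k R f).Y r i)) : g = g' := by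
  have : g.comp mk = g'.comp mk := by
    apply MvPolynomial.algHom_ext
    rintro ⟨r, i⟩
    exact h r i
  ext x
  obtain ⟨x, rfl⟩ := mk_surjective x
  exact DFunLike.congr_fun this x

@[simp] lemma univ_map_lift (P : ChartPt k R f T) : (univ k R f).map (lift P) = P := by
  ext r i
  simp

lemma lift_map_univ (g : Chart k R f →ₐ[k] T) : lift ((univ k R f).map g) = g := by
  apply hom_ext
  intro r i
  simp

lemma adjoin_eq_top : Algebra.adjoin k (Set.range fun x : R × Fin (n + 1) =>
    (univ k R f).Y x.1 x.2) = ⊤ := by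
  rw [eq_top_iff]
  rintro x -
  obtain ⟨x, rfl⟩ := mk_surjective x
  induction x using MvPolynomial.induction_on with
  | C a => exact Subalgebra.algebraMap_mem _ a
  | add p q hp hq => rw [map_add]; exact add_mem hp hq
  | mul_X p i hp =>
    rw [map_mul]
    exact mul_mem hp (Algebra.subset_adjoin ⟨i, rfl⟩)

/-- if `R` is a finitely generated `k`-algebra, then so is the chart ring -/
theorem finiteType [Algebra.FiniteType k R] : Algebra.FiniteType k (Chart k R f) := by
  classical
  obtain ⟨s, hs⟩ := (inferInstance : Algebra.FiniteType k R).out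
  let S : Finset (Chart k R f) := (s ×ˢ (Finset.univ : Finset (Fin (n + 1) × Fin (n + 1)))).image
    fun x => (univ k R f).Y (x.1 * fam f x.2.1) x.2.2
  refine ⟨S, ?_⟩
  have hS : ∀ g ∈ s, ∀ j i, (univ k R f).Y (g * fam f j) i ∈
      Algebra.adjoin k (S : Set (Chart k R f)) := by
    intro g hg j i
    apply Algebra.subset_adjoin
    simp only [S, Finset.coe_image, Set.mem_image, Finset.mem_coe, Finset.mem_product,
      Finset.mem_univ, and_true]
    exact ⟨(g, j, i), hg, rfl⟩
  have key : ∀ r : R, ∀ t : R, (∀ i, (univ k R f).Y t i ∈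
      Algebra.adjoin k (S : Set (Chart k R f))) → ∀ i, (univ k R f).Y (r * t) i ∈
      Algebra.adjoin k (S : Set (Chart k R f)) := by
    intro r
    have hr : r ∈ Algebra.adjoin k (s : Set R) := by rw [hs]; trivial
    induction hr using Algebra.adjoin_induction with
    | mem g hg =>
      intro t ht i
      rw [(univ k R f).Y_mul, Finset.sum_apply]
      refine sum_mem fun j _ => ?_
      rw [Pi.smul_apply, smul_eq_mul]
      exact mul_mem (ht j) (hS g hg j i)
    | algebraMap a =>
      intro t ht i
      rw [← Algebra.smul_def, map_smul, Pi.smul_apply]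
      exact Subalgebra.smul_mem _ (ht i) a
    | add x y _ _ hx hy =>
      intro t ht i
      rw [add_mul, map_add, Pi.add_apply]
      exact add_mem (hx t ht i) (hy t ht i)
    | mul x y _ _ hx hy =>
      intro t ht i
      rw [mul_assoc]
      exact hx _ (hy t ht) i
  rw [eq_top_iff, ← adjoin_eq_top, Algebra.adjoin_le_iff]
  rintro _ ⟨⟨r, i⟩, rfl⟩
  have h1 : ∀ i, (univ k R f).Y (1 : R) i ∈ Algebra.adjoin k (S : Set (Chart k R f)) := by
    intro i
    have := (univ k R f).Y_fam 0
    rw [fam_zero] at this
    rw [this, Pi.single_apply]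
    split_ifs
    · exact one_mem _
    · exact zero_mem _
  simpa using key r 1 h1 i

end Chart

end Ring

/-- functoriality of the chart ring in the algebra -/
noncomputable def Chart.mapHom {k R₁ R₂ : Type u} [CommRing k] [CommRing R₁] [CommRing R₂]
    [Algebra k R₁] [Algebra k R₂] {n : ℕ} (f : Fin n → R₁) (φ : R₁ →ₐ[k] R₂) :
    Chart k R₁ f →ₐ[k] Chart k R₂ (φ ∘ f) :=
  Chart.lift ((Chart.univ k R₂ (φ ∘ f)).restrict φ)

/-- the determinant of the passage from the basis `1, f i` to `1, g i`, an element of the chart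
ring of `f` -/
noncomputable def Chart.trans (k : Type u) {R : Type v} [CommRing k] [CommRing R] [Algebra k R]
    {n : ℕ} (f g : Fin n → R) : Chart k R f :=
  (Matrix.of fun i j => (Chart.univ k R f).Y (fam g i) j).det

end Pool.Agent.Lib.MP_26f572_ag
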