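import Pool.Agent.Lib.MP_26f572_ag.Chart

/-!
# The algebra of a point of the chart: base change and comparison
-/

namespace Pool.Agent.Lib.MP_26f572_ag

open CategoryTheory Limits
open scoped TensorProduct

universe u

/-- A square of rings `T → A`, `T' → A'` in which `A` and `A'` are free with corresponding bases
is a pushout. -/
theorem isPushout_of_basis {T T' A A' : Type u} [CommRing T] [CommRing T'] [CommRing A]
    [CommRing A'] [Algebra T A] [Algebra T' A'] (g : T →+* T') (G : A →+* A')
    (hG : ∀ t, G (algebraMap T A t) = algebraMap T' A' (g t)) {ι : Type*}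
    (b : Module.Basis ι T A) (b' : Module.Basis ι T' A') (hb : ∀ j, G (b j) = b' j) :
    IsPushout (CommRingCat.ofHom (algebraMap T A)) (CommRingCat.ofHom g)
        (CommRingCat.ofHom G) (CommRingCat.ofHom (algebraMap T' A')) := by
  let _ : Algebra T T' := g.toAlgebra
  let _ : Algebra T A' := ((algebraMap T' A').comp g).toAlgebra
  have : IsScalarTower T T' A' := IsScalarTower.of_algebraMap_eq' rfl
  let _ : Algebra A A' := G.toAlgebra
  have : IsScalarTower T A A' := IsScalarTower.of_algebraMap_eq fun x => (hG x).symm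
  have : Algebra.IsPushout T T' A A' := by
    constructor
    let e : T' ⊗[T] A ≃ₗ[T'] A' := (b.baseChange T').equiv b' (Equiv.refl _)
    refine IsBaseChange.of_equiv e fun x => ?_
    have key : (e.toLinearMap.restrictScalars T) ∘ₗ (TensorProduct.mk T T' A 1) =
        (IsScalarTower.toAlgHom T A A').toLinearMap := by
      apply b.ext
      intro j
      have h1 : (1 : T') ⊗ₜ[T] b j = (b.baseChange T') j := by
        rw [Module.Basis.baseChange_apply]
      simp only [LinearMap.coe_comp, Function.comp_apply, TensorProduct.mk_apply,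
        LinearMap.coe_restrictScalars, LinearEquiv.coe_coe, AlgHom.toLinearMap_apply]
      rw [h1, Module.Basis.equiv_apply, Equiv.refl_apply, ← hb]
      rfl
    exact LinearMap.congr_fun key x
  exact (CommRingCat.isPushout_of_isPushout T T' A A').flip

/-- maps out of the algebra of a point, along a homomorphism of coefficient rings -/
theorem exists_lift_along {k : Type u} [CommRing k] {R : Type u} [CommRing R] [Algebra k R]
    {n : ℕ} {f : Fin n → R} {T T' : Type u} [CommRing T] [Algebra k T] [CommRing T']
    [Algebra k T'] (P : ChartPt k R f T) (g : T →ₐ[k] T') {B : Type u} [CommRing B]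
    [Algebra T' B] [Algebra k B] [IsScalarTower k T' B] (φ : R →ₐ[k] B)
    (h : ∀ r, φ r = ∑ j, g (P.Y r j) • φ (fam f j)) :
    ∃ G : P.Alg →+* B, (∀ r, G (P.toAlg r) = φ r) ∧
      ∀ t, G (algebraMap T P.Alg t) = algebraMap T' B (g t) := by
  let _ : Algebra T B := ((algebraMap T' B).comp (g : T →+* T')).toAlgebra
  have : IsScalarTower k T B := by
    refine IsScalarTower.of_algebraMap_eq fun x => ?_
    change algebraMap k B x = algebraMap T' B (g (algebraMap k T x))
    rw [AlgHom.commutes, ← IsScalarTower.algebraMap_apply k T' B]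
  have hrel : ∀ r, φ r = ∑ j, P.Y r j • φ (fam f j) := by
    intro r
    rw [h r]
    refine Finset.sum_congr rfl fun j _ => ?_
    rw [Algebra.smul_def, Algebra.smul_def]
    rfl
  exact ⟨(P.liftAlg φ hrel : P.Alg →+* B), fun r => ChartPt.liftAlg_toAlg P φ hrel r,
    fun t => (P.liftAlg φ hrel).commutes t⟩

/-- the canonical map from the algebra of a point to the algebra of its push-forward -/
theorem exists_isPushout_map {k : Type u} [CommRing k] {R : Type u} [CommRing R] [Algebra k R]
    {n : ℕ} {f : Fin n → R} {T T' : Type u} [CommRing T] [Algebra k T] [CommRing T']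
    [Algebra k T'] (P : ChartPt k R f T) (g : T →ₐ[k] T') :
    ∃ G : P.Alg →+* (P.map g).Alg, (∀ r, G (P.toAlg r) = (P.map g).toAlg r) ∧
      IsPushout (CommRingCat.ofHom (algebraMap T P.Alg)) (CommRingCat.ofHom (g : T →+* T'))
        (CommRingCat.ofHom G) (CommRingCat.ofHom (algebraMap T' (P.map g).Alg)) := by
  obtain ⟨G, hG, hG'⟩ := exists_lift_along P g (P.map g).toAlg fun r => by
    rw [(P.map g).toAlg_eq_sum r]
    exact Finset.sum_congr rfl fun j _ => by rw [ChartPt.map_Y]
  refine ⟨G, hG, isPushout_of_basis _ _ hG' P.basis (P.map g).basis fun j => ?_⟩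
  rw [ChartPt.basis_apply, ChartPt.basis_apply, hG]

/-- the algebra of the point of an algebra `B` with basis `1, f i` is `B` -/
theorem exists_algEquiv_ofBasis {k : Type u} [CommRing k] {R : Type u} [CommRing R]
    [Algebra k R] {n : ℕ} {f : Fin n → R} {T B : Type u} [CommRing T] [Algebra k T]
    [CommRing B] [Algebra T B] [Algebra k B] [IsScalarTower k T B]
    (φ : R →ₐ[k] B) (b : Module.Basis (Fin (n + 1)) T B) (hb : ∀ j, b j = φ (fam f j)) :
    ∃ e : (ChartPt.ofBasis φ b hb).Alg ≃ₐ[T] B, ∀ r, e ((ChartPt.ofBasis φ b hb).toAlg r) = φ r := by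
  set P := ChartPt.ofBasis φ b hb with hP
  have hrel : ∀ r, φ r = ∑ j, P.Y r j • φ (fam f j) := by
    intro r
    conv_lhs => rw [← b.sum_repr (φ r)]
    refine Finset.sum_congr rfl fun j _ => ?_
    rw [hP, ChartPt.ofBasis_Y, hb]
  let G : P.Alg →ₐ[T] B := P.liftAlg φ hrel
  have hG : ∀ r, G (P.toAlg r) = φ r := fun r => by simp [G]
  let e : P.Alg ≃ₗ[T] B := P.basis.equiv b (Equiv.refl _)
  have key : e.toLinearMap = G.toLinearMap := by
    apply P.basis.ext
    intro j
    simp only [LinearEquiv.coe_coe, AlgHom.toLinearMap_apply]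
    rw [Module.Basis.equiv_apply, ChartPt.basis_apply, hG, Equiv.refl_apply, hb]
  have hbij : Function.Bijective G := by
    have : (G : P.Alg → B) = e := by
      ext x
      exact (LinearMap.congr_fun key x).symm
    rw [this]
    exact e.bijective
  exact ⟨AlgEquiv.ofBijective G hbij, fun r => hG r⟩

end Pool.Agent.Lib.MP_26f572_ag
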