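import Pool.Agent.Lib.MP_26f572_ag.Chart

namespace Pool.Agent.Lib.MP_26f572_ag

open Matrix

universe u v w

namespace ChartPt

variable {k : Type u} [CommRing k] {R : Type v} [CommRing R] [Algebra k R] {n : ℕ}
  {f : Fin n → R} {T : Type w} [CommRing T] [Algebra k T]

/-- the matrix of passage from `1, f i` to `1, g i` -/
def trM (P : ChartPt k R f T) (g : Fin n → R) : Matrix (Fin (n + 1)) (Fin (n + 1)) T :=
  Matrix.of fun i j => P.Y (fam g i) j

/-- the matrix of multiplication by `r` -/
def mulM (P : ChartPt k R f T) (r : R) : Matrix (Fin (n + 1)) (Fin (n + 1)) T :=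
  Matrix.of fun i j => P.Y (r * fam f i) j

lemma Y_mul' (P : ChartPt k R f T) (r s : R) : P.Y (r * s) = P.Y s ᵥ* P.mulM r := by
  rw [P.Y_mul]
  ext i
  simp [Matrix.vecMul, dotProduct, mulM, Finset.sum_apply]

lemma trM_row (P : ChartPt k R f T) (g : Fin n → R) (j : Fin (n + 1)) :
    (P.trM g) j = P.Y (fam g j) := rfl

/-- change of the basis -/
noncomputable def change (P : ChartPt k R f T) (g : Fin n → R) (hu : IsUnit (P.trM g).det) :
    ChartPt k R g T where
  Y :=
    { toFun := fun r => P.Y r ᵥ* (P.trM g)⁻¹
      map_add' := fun r s => by rw [map_add, Matrix.add_vecMul]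
      map_smul' := fun a r => by
        rw [map_smul]
        ext i
        simp only [Matrix.vecMul, dotProduct, Pi.smul_apply, RingHom.id_apply,
          Finset.smul_sum, smul_mul_assoc] }
  Y_fam j := by
    have h1 : (P.trM g) * (P.trM g)⁻¹ = 1 := Matrix.mul_nonsing_inv _ hu
    have h2 : P.Y (fam g j) ᵥ* (P.trM g)⁻¹ = ((P.trM g) * (P.trM g)⁻¹) j := by
      ext i
      simp [Matrix.mul_apply, Matrix.vecMul, dotProduct, trM]
    simp only [LinearMap.coe_mk, AddHom.coe_mk]
    rw [h2, h1]
    ext i
    simp [Matrix.one_apply, Pi.single_apply, eq_comm]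
  Y_mul r s := by
    simp only [LinearMap.coe_mk, AddHom.coe_mk]
    have h1 : (P.trM g)⁻¹ * (P.trM g) = 1 := Matrix.nonsing_inv_mul _ hu
    have h2 : P.Y (r * s) ᵥ* (P.trM g)⁻¹ =
        (P.Y s ᵥ* (P.trM g)⁻¹) ᵥ* ((P.trM g) * P.mulM r * (P.trM g)⁻¹) := by
      rw [Matrix.vecMul_vecMul, ← Matrix.mul_assoc, ← Matrix.mul_assoc, h1, Matrix.one_mul,
        P.Y_mul', Matrix.vecMul_vecMul]
    rw [h2]
    ext i
    rw [Finset.sum_apply]
    simp only [Matrix.vecMul, dotProduct, Pi.smul_apply, smul_eq_mul]
    refine Finset.sum_congr rfl fun j _ => ?_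
    congr 1
    rw [Matrix.mul_apply]
    refine Finset.sum_congr rfl fun l _ => ?_
    congr 1
    have h3 := congrFun (P.Y_mul' r (fam g j)) l
    rw [h3]
    simp [Matrix.mul_apply, Matrix.vecMul, dotProduct, trM]

lemma change_Y (P : ChartPt k R f T) (g : Fin n → R) (hu : IsUnit (P.trM g).det) (r : R) :
    (P.change g hu).Y r = P.Y r ᵥ* (P.trM g)⁻¹ := rfl

lemma trM_self (P : ChartPt k R f T) : P.trM f = 1 := by
  ext i j
  simp [trM, P.Y_fam, Matrix.one_apply, Pi.single_apply, eq_comm]

lemma trM_change (P : ChartPt k R f T) (g : Fin n → R) (hu : IsUnit (P.trM g).det) :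
    (P.change g hu).trM f = (P.trM g)⁻¹ := by
  ext i j
  have : (P.change g hu).trM f i j = ((P.trM f) * (P.trM g)⁻¹) i j := by
    simp [trM, change_Y, Matrix.mul_apply, Matrix.vecMul, dotProduct]
  rw [this, trM_self, Matrix.one_mul]

lemma isUnit_trM_change (P : ChartPt k R f T) (g : Fin n → R) (hu : IsUnit (P.trM g).det) :
    IsUnit ((P.change g hu).trM f).det := by
  rw [trM_change]
  exact (Matrix.isUnit_nonsing_inv_det_iff).2 hu

lemma change_change (P : ChartPt k R f T) (g : Fin n → R) (hu : IsUnit (P.trM g).det)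
    (hu' : IsUnit ((P.change g hu).trM f).det) : (P.change g hu).change f hu' = P := by
  ext r i
  have : ((P.change g hu).change f hu').Y r = P.Y r := by
    rw [change_Y, change_Y, trM_change, Matrix.nonsing_inv_nonsing_inv _ hu, Matrix.vecMul_vecMul,
      Matrix.nonsing_inv_mul _ hu, Matrix.vecMul_one]
  exact congrFun this i

lemma trM_map {T' : Type*} [CommRing T'] [Algebra k T'] (P : ChartPt k R f T) (h : T →ₐ[k] T')
    (g : Fin n → R) : (P.map h).trM g = (P.trM g).map h := rfl

lemma det_trM_map {T' : Type*} [CommRing T'] [Algebra k T'] (P : ChartPt k R f T)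
    (h : T →ₐ[k] T') (g : Fin n → R) : ((P.map h).trM g).det = h (P.trM g).det := by
  rw [trM_map]
  exact (AlgHom.map_det h (P.trM g)).symm

lemma map_change {T' : Type*} [CommRing T'] [Algebra k T'] (P : ChartPt k R f T)
    (h : T →ₐ[k] T') (g : Fin n → R) (hu : IsUnit (P.trM g).det)
    (hu' : IsUnit ((P.map h).trM g).det) : (P.change g hu).map h = (P.map h).change g hu' := by
  have hinv : ((P.map h).trM g)⁻¹ = ((P.trM g)⁻¹).map h := by
    apply Matrix.inv_eq_right_inv
    rw [trM_map, ← Matrix.map_mul, Matrix.mul_nonsing_inv _ hu]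
    exact Matrix.map_one h (map_zero h) (map_one h)
  ext r i
  rw [map_Y, change_Y, change_Y, hinv]
  simp [Matrix.vecMul, dotProduct, map_sum]

end ChartPt

namespace Chart

variable (k : Type u) {R : Type v} [CommRing k] [CommRing R] [Algebra k R] {n : ℕ}

/-- the universal point over the localisation at the determinant of passage -/
noncomputable def locPt (f g : Fin n → R) :
    ChartPt k R f (Localization.Away (Chart.trans k f g)) :=
  (univ k R f).map (Algebra.algHom k (Chart k R f) (Localization.Away (Chart.trans k f g)))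

lemma isUnit_locPt (f g : Fin n → R) : IsUnit ((locPt k f g).trM g).det := by
  unfold locPt
  rw [ChartPt.det_trM_map]
  exact IsLocalization.Away.algebraMap_isUnit (Chart.trans k f g)

/-- the comparison map between the localised charts -/
noncomputable def comp (f g : Fin n → R) :
    Localization.Away (Chart.trans k g f) →ₐ[k] Localization.Away (Chart.trans k f g) :=
  IsLocalization.liftAlgHom (M := Submonoid.powers (Chart.trans k g f))
    (f := lift ((locPt k f g).change g (isUnit_locPt k f g))) <| by
      have h1 : IsUnit (lift ((locPt k f g).change g (isUnit_locPt k f g)) (Chart.trans k g f)) := by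
        have := ChartPt.isUnit_trM_change (locPt k f g) g (isUnit_locPt k f g)
        rw [← univ_map_lift ((locPt k f g).change g (isUnit_locPt k f g)),
          ChartPt.det_trM_map] at this
        exact this
      rintro ⟨_, m, rfl⟩
      rw [map_pow]
      exact h1.pow m

lemma comp_comp_algebraMap (f g : Fin n → R) :
    (comp k f g).comp (Algebra.algHom k (Chart k R g) (Localization.Away (Chart.trans k g f))) =
      lift ((locPt k f g).change g (isUnit_locPt k f g)) := by
  ext r i
  simp only [AlgHom.comp_apply, comp, IsLocalization.coe_liftAlgHom]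
  exact IsLocalization.lift_eq _ _

lemma locPt_map_comp (f g : Fin n → R) :
    (locPt k g f).map (comp k f g) = (locPt k f g).change g (isUnit_locPt k f g) := by
  have h : (locPt k g f).map (comp k f g) =
      (univ k R g).map ((comp k f g).comp
        (Algebra.algHom k (Chart k R g) (Localization.Away (Chart.trans k g f)))) := rfl
  rw [h, comp_comp_algebraMap, univ_map_lift]

lemma comp_comp (f g : Fin n → R) : (comp k f g).comp (comp k g f) = AlgHom.id k _ := by
  apply IsLocalization.algHom_ext (Submonoid.powers (Chart.trans k f g))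
  rw [AlgHom.comp_assoc, comp_comp_algebraMap]
  apply hom_ext
  intro r i
  have h1 : ((locPt k g f).change f (isUnit_locPt k g f)).map (comp k f g) = locPt k f g := by
    have hu' : IsUnit (((locPt k g f).map (comp k f g)).trM f).det := by
      rw [ChartPt.det_trM_map]
      exact (isUnit_locPt k g f).map (comp k f g)
    rw [ChartPt.map_change _ _ _ _ hu']
    have h2 : ∀ (Q : ChartPt k R g (Localization.Away (Chart.trans k f g)))
        (hQ : Q = (locPt k f g).change g (isUnit_locPt k f g)) (hu : IsUnit (Q.trM f).det),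
        Q.change f hu = locPt k f g := by
      rintro _ rfl hu
      exact ChartPt.change_change _ _ _ _
    exact h2 _ (locPt_map_comp k f g) hu'
  have h3 : ((((locPt k g f).change f (isUnit_locPt k g f)).map (comp k f g))).Y r i =
    (locPt k f g).Y r i := by rw [h1]
  simp only [AlgHom.comp_apply, lift_Y, AlgHom.id_apply]
  exact h3

/-- two charts agree on their overlap -/
theorem overlap (k : Type u) {R : Type v} [CommRing k] [CommRing R] [Algebra k R]
    {n : ℕ} (f g : Fin n → R) :
    Nonempty (Localization.Away (Chart.trans k f g) ≃ₐ[k]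
      Localization.Away (Chart.trans k g f)) :=
  ⟨AlgEquiv.ofAlgHom (comp k g f) (comp k f g) (comp_comp k g f) (comp_comp k f g)⟩

end Chart

end Pool.Agent.Lib.MP_26f572_ag
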