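import Pool.Agent.Lib.MP_26f572_ag.PlTable

/-!
# The homogeneous coordinate ring of `Gr(2,6)`

It is written as an algebra over the polynomial ring in the nine parameters
`h 0 = p12, h 1 = p13, h 2 = p14 + p23, h 3 = p15 + p24, h 4 = p16 + p25 + p34, h 5 = p26 + p35,
h 6 = p36 + p45, h 7 = p46, h 8 = p56`, generated by
`z 0 = p23, z 1 = p24, z 2 = p25, z 3 = p34, z 4 = p35, z 5 = p45`.
-/

namespace Pool.Agent.Lib.MP_26f572_ag

open MvPolynomial

universe u v

variable (k : Type u) [CommRing k]

/-- the ideal of Plücker relations -/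
noncomputable def plIdeal : Ideal (MvPolynomial (Fin 6) (MvPolynomial (Fin 9) k)) :=
  Ideal.span (Set.range (plRel (pvec (fun i => C (X i)) X)))

/-- the homogeneous coordinate ring of `Gr(2,6)` over `k` -/
def Pl : Type u := MvPolynomial (Fin 6) (MvPolynomial (Fin 9) k) ⧸ plIdeal k

noncomputable instance : CommRing (Pl k) :=
  inferInstanceAs (CommRing (MvPolynomial (Fin 6) (MvPolynomial (Fin 9) k) ⧸ plIdeal k))

noncomputable instance : Algebra (MvPolynomial (Fin 9) k) (Pl k) :=
  inferInstanceAs (Algebra (MvPolynomial (Fin 9) k)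
    (MvPolynomial (Fin 6) (MvPolynomial (Fin 9) k) ⧸ plIdeal k))

noncomputable instance : Algebra k (Pl k) :=
  inferInstanceAs (Algebra k (MvPolynomial (Fin 6) (MvPolynomial (Fin 9) k) ⧸ plIdeal k))

instance : IsScalarTower k (MvPolynomial (Fin 9) k) (Pl k) :=
  inferInstanceAs (IsScalarTower k (MvPolynomial (Fin 9) k)
    (MvPolynomial (Fin 6) (MvPolynomial (Fin 9) k) ⧸ plIdeal k))

namespace Pl

variable {k}

/-- quotient map -/
noncomputable def mk : MvPolynomial (Fin 6) (MvPolynomial (Fin 9) k) →ₐ[MvPolynomial (Fin 9) k]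
    Pl k :=
  Ideal.Quotient.mkₐ _ _

lemma mk_surjective : Function.Surjective (mk : _ →ₐ[MvPolynomial (Fin 9) k] Pl k) :=
  Ideal.Quotient.mkₐ_surjective _ _

variable (k) in
/-- the nine parameters -/
noncomputable def h (i : Fin 9) : Pl k := algebraMap (MvPolynomial (Fin 9) k) (Pl k) (X i)

variable (k) in
/-- the six generators -/
noncomputable def z (i : Fin 6) : Pl k := mk (X i)

lemma mk_plRel (i : Fin 15) : mk (plRel (pvec (fun i => C (X i)) X) i) = (0 : Pl k) :=
  Ideal.Quotient.eq_zero_iff_mem.mpr (Ideal.subset_span ⟨i, rfl⟩)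

lemma map_pvec {A B : Type*} [CommRing A] [CommRing B] (φ : A →+* B) (h : Fin 9 → A)
    (z : Fin 6 → A) (i : Fin 15) : φ (pvec h z i) = pvec (fun i => φ (h i)) (fun i => φ (z i)) i := by
  fin_cases i <;> simp [pvec]

lemma map_plRel {A B : Type*} [CommRing A] [CommRing B] (φ : A →+* B) (p : Fin 15 → A)
    (i : Fin 15) : φ (plRel p i) = plRel (fun i => φ (p i)) i := by
  fin_cases i <;> simp [plRel]

variable (k) in
/-- the Plücker coordinates in `Pl k` -/
noncomputable def p : Fin 15 → Pl k := pvec (h k) (z k)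

variable (k) in
lemma plRel_p : plRel (p k) = 0 := by
  ext i
  have h1 := mk_plRel (k := k) i
  have h2 := map_plRel (mk (k := k) : MvPolynomial (Fin 6) (MvPolynomial (Fin 9) k) →+* Pl k)
    (pvec (fun i => C (X i)) X) i
  rw [Pi.zero_apply, ← h1]
  refine Eq.trans ?_ h2.symm
  congr 1
  ext j
  rw [map_pvec]
  rfl

/-- parameters in terms of Plücker coordinates -/
def hOf {T : Type v} [CommRing T] (p : Fin 15 → T) : Fin 9 → T :=
  ![p 0, p 1, p 2 + p 5, p 3 + p 6, p 4 + p 7 + p 9, p 8 + p 10, p 11 + p 12, p 13, p 14]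

/-- generators in terms of Plücker coordinates -/
def zOf {T : Type v} [CommRing T] (p : Fin 15 → T) : Fin 6 → T :=
  ![p 5, p 6, p 7, p 9, p 10, p 12]

lemma pvec_of {T : Type v} [CommRing T] (p : Fin 15 → T) : pvec (hOf p) (zOf p) = p := by
  ext i
  fin_cases i <;> simp [pvec, hOf, zOf] <;> ring

lemma hOf_pvec {T : Type v} [CommRing T] (h : Fin 9 → T) (z : Fin 6 → T) :
    hOf (pvec h z) = h := by
  ext i
  fin_cases i <;> dsimp [pvec, hOf] <;> ring

lemma zOf_pvec {T : Type v} [CommRing T] (h : Fin 9 → T) (z : Fin 6 → T) :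
    zOf (pvec h z) = z := by
  ext i
  fin_cases i <;> simp [pvec, zOf]

variable {T : Type v} [CommRing T] [Algebra k T]

lemma aevalTower_plRel (q : Fin 15 → T) (i : Fin 15) :
    aevalTower (aeval (hOf q) : MvPolynomial (Fin 9) k →ₐ[k] T) (zOf q)
      (plRel (pvec (fun i => C (X i)) X) i) = plRel q i := by
  have h2 := map_plRel ((aevalTower (aeval (hOf q) : MvPolynomial (Fin 9) k →ₐ[k] T)
    (zOf q) : _ →ₐ[k] T) : MvPolynomial (Fin 6) (MvPolynomial (Fin 9) k) →+* T)
    (pvec (fun i => C (X i)) X) i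
  refine h2.trans ?_
  congr 1
  ext j
  rw [map_pvec]
  simp [pvec_of]

/-- universal property of `Pl k`: homomorphisms are given by vectors of Plücker coordinates -/
noncomputable def lift (q : Fin 15 → T) (hq : plRel q = 0) : Pl k →ₐ[k] T :=
  Ideal.Quotient.liftₐ (plIdeal k) (aevalTower (aeval (hOf q)) (zOf q)) <| by
    intro a ha
    induction ha using Submodule.span_induction with
    | mem x hx =>
      obtain ⟨i, rfl⟩ := hx
      rw [aevalTower_plRel, hq]
      rfl
    | zero => simp
    | add x y _ _ hx hy => rw [map_add, hx, hy, add_zero]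
    | smul c x _ hx => rw [smul_eq_mul, map_mul, hx, mul_zero]

@[simp] lemma lift_h (q : Fin 15 → T) (hq : plRel q = 0) (i : Fin 9) :
    lift q hq (h k i) = hOf q i := by
  change Ideal.Quotient.liftₐ (plIdeal k) (aevalTower (aeval (hOf q)) (zOf q)) _
    (Ideal.Quotient.mk _ (C (X i))) = _
  simp

@[simp] lemma lift_z (q : Fin 15 → T) (hq : plRel q = 0) (i : Fin 6) :
    lift q hq (z k i) = zOf q i := by
  change Ideal.Quotient.liftₐ (plIdeal k) (aevalTower (aeval (hOf q)) (zOf q)) _
    (Ideal.Quotient.mk _ (X i)) = _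
  simp

@[simp] lemma lift_p (q : Fin 15 → T) (hq : plRel q = 0) (i : Fin 15) :
    lift q hq (p k i) = q i := by
  have := map_pvec (lift (k := k) q hq : Pl k →+* T) (h k) (z k) i
  refine this.trans ?_
  simp [pvec_of]

lemma hom_ext' (g g' : Pl k →ₐ[k] T) (hh : ∀ i, g (h k i) = g' (h k i))
    (hz : ∀ i, g (z k i) = g' (z k i)) : g = g' := by
  have : (g : Pl k →+* T).comp
      (mk (k := k) : MvPolynomial (Fin 6) (MvPolynomial (Fin 9) k) →+* Pl k) =
      (g' : Pl k →+* T).comp
      (mk (k := k) : MvPolynomial (Fin 6) (MvPolynomial (Fin 9) k) →+* Pl k) := by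
    apply MvPolynomial.ringHom_ext
    · intro r
      have h2 : (g.comp (IsScalarTower.toAlgHom k (MvPolynomial (Fin 9) k) (Pl k))) =
        (g'.comp (IsScalarTower.toAlgHom k (MvPolynomial (Fin 9) k) (Pl k))) := by
        apply MvPolynomial.algHom_ext
        intro i
        exact hh i
      exact DFunLike.congr_fun h2 r
    · intro i
      exact hz i
  ext x
  obtain ⟨x, rfl⟩ := mk_surjective x
  exact DFunLike.congr_fun this x

@[ext]
lemma hom_ext (g g' : Pl k →ₐ[k] T) (hp : ∀ i, g (p k i) = g' (p k i)) : g = g' := by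
  have e1 : ∀ g : Pl k →ₐ[k] T, (fun i => g (p k i)) =
      pvec (fun i => g (h k i)) (fun i => g (z k i)) := by
    intro g
    ext i
    exact map_pvec (g : Pl k →+* T) (h k) (z k) i
  have e2 : (fun i => g (p k i)) = (fun i => g' (p k i)) := funext hp
  rw [e1, e1] at e2
  apply hom_ext'
  · intro i
    have := congrFun (congrArg hOf e2) i
    simpa [hOf_pvec] using this
  · intro i
    have := congrFun (congrArg zOf e2) i
    simpa [zOf_pvec] using this

end Pl

end Pool.Agent.Lib.MP_26f572_ag
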