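import Pool.Agent.Lib.MP_26f572_ag.ScAssoc

/-! Task S2: the based algebra of rank 4 with given parameters. -/

namespace Pool.Agent.Lib.MP_26f572_ag

universe u

namespace ScAlg

variable {T : Type u} [CommRing T]

/-- the underlying type of the algebra -/

def Carrier (_ : Fin 3 → T) (p : Fin 15 → T) (_ : plRel p = 0) : Type u := Fin 4 → T

variable {t : Fin 3 → T} {p : Fin 15 → T} {hp : plRel p = 0}

instance : AddCommGroup (Carrier t p hp) := inferInstanceAs (AddCommGroup (Fin 4 → T))
instance : Module T (Carrier t p hp) := inferInstanceAs (Module T (Fin 4 → T))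

/-- the multiplication -/
def mulFun (t : Fin 3 → T) (p : Fin 15 → T) (x y : Fin 4 → T) : Fin 4 → T :=
  fun m => ∑ i, ∑ j, x i * y j * tab t p i j m

instance : Mul (Carrier t p hp) := ⟨fun x y => mulFun t p x y⟩
instance : One (Carrier t p hp) := ⟨(Pi.single 0 1 : Fin 4 → T)⟩

lemma mul_apply (x y : Carrier t p hp) (m : Fin 4) :
    (x * y) m = ∑ i, ∑ j, x i * y j * tab t p i j m := rfl

lemma add_apply (x y : Carrier t p hp) (m : Fin 4) : (x + y) m = x m + y m := rfl
lemma zero_apply (m : Fin 4) : (0 : Carrier t p hp) m = 0 := rfl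
lemma smul_apply (r : T) (x : Carrier t p hp) (m : Fin 4) : (r • x) m = r * x m := rfl
lemma one_apply (m : Fin 4) : (1 : Carrier t p hp) m = if m = 0 then 1 else 0 := by
  change (Pi.single 0 1 : Fin 4 → T) m = _
  rw [Pi.single_apply]

lemma tab_zero (j l : Fin 4) : tab t p 0 j l = if l = j then 1 else 0 := by
  fin_cases j <;> fin_cases l <;> rfl

lemma mul_comm' (x y : Carrier t p hp) : x * y = y * x := by
  funext m
  rw [mul_apply, mul_apply, Finset.sum_comm]
  refine Finset.sum_congr rfl fun i _ => Finset.sum_congr rfl fun j _ => ?_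
  rw [tab_comm, mul_comm (x j)]

lemma one_mul' (x : Carrier t p hp) : 1 * x = x := by
  funext m
  rw [mul_apply, Finset.sum_eq_single 0]
  · simp only [one_apply, if_true, one_mul, tab_zero]
    simp
  · intro i _ hi
    simp [one_apply, hi]
  · simp

lemma mul_assoc' (x y z : Carrier t p hp) : x * y * z = x * (y * z) := by
  funext m
  rw [mul_apply, mul_apply]
  have h1 : ∑ a, ∑ k, (x * y) a * z k * tab t p a k m =
      ∑ i, ∑ j, ∑ k, x i * y j * z k * ∑ a, tab t p i j a * tab t p a k m := by
    simp only [mul_apply, Finset.sum_mul, Finset.mul_sum]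
    rw [Finset.sum_comm]
    calc ∑ k, ∑ a, ∑ i, ∑ j, x i * y j * tab t p i j a * z k * tab t p a k m
        = ∑ k, ∑ i, ∑ j, ∑ a, x i * y j * tab t p i j a * z k * tab t p a k m := by
          refine Finset.sum_congr rfl fun k _ => ?_
          rw [Finset.sum_comm]
          refine Finset.sum_congr rfl fun i _ => ?_
          rw [Finset.sum_comm]
      _ = ∑ i, ∑ j, ∑ k, ∑ a, x i * y j * tab t p i j a * z k * tab t p a k m := by
          rw [Finset.sum_comm]
          refine Finset.sum_congr rfl fun i _ => ?_
          rw [Finset.sum_comm]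
      _ = _ := by
          refine Finset.sum_congr rfl fun i _ => Finset.sum_congr rfl fun j _ =>
            Finset.sum_congr rfl fun k _ => Finset.sum_congr rfl fun a _ => ?_
          ring
  have h2 : ∑ i, ∑ a, x i * (y * z) a * tab t p i a m =
      ∑ i, ∑ j, ∑ k, x i * y j * z k * ∑ a, tab t p j k a * tab t p i a m := by
    simp only [mul_apply, Finset.sum_mul, Finset.mul_sum]
    refine Finset.sum_congr rfl fun i _ => ?_
    rw [Finset.sum_comm]
    refine Finset.sum_congr rfl fun j _ => ?_
    rw [Finset.sum_comm]
    refine Finset.sum_congr rfl fun k _ => Finset.sum_congr rfl fun a _ => ?_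
    ring
  rw [h1, h2]
  refine Finset.sum_congr rfl fun i _ => Finset.sum_congr rfl fun j _ =>
    Finset.sum_congr rfl fun k _ => ?_
  congr 1
  rw [Fin.sum_univ_four, Fin.sum_univ_four]
  exact as_all hp i j k m

lemma left_distrib' (x y z : Carrier t p hp) : x * (y + z) = x * y + x * z := by
  funext m
  rw [add_apply, mul_apply, mul_apply, mul_apply, ← Finset.sum_add_distrib]
  refine Finset.sum_congr rfl fun i _ => ?_
  rw [← Finset.sum_add_distrib]
  refine Finset.sum_congr rfl fun j _ => ?_
  rw [add_apply]
  ring

lemma zero_mul' (x : Carrier t p hp) : 0 * x = 0 := by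
  funext m
  rw [mul_apply, zero_apply]
  simp [zero_apply]

instance : CommRing (Carrier t p hp) :=
  { (inferInstance : AddCommGroup (Carrier t p hp)) with
    mul := (· * ·)
    one := 1
    mul_assoc := mul_assoc'
    one_mul := one_mul'
    mul_one := fun x => by rw [mul_comm', one_mul']
    left_distrib := left_distrib'
    right_distrib := fun x y z => by
      rw [mul_comm', left_distrib', mul_comm' z x, mul_comm' z y]
    zero_mul := zero_mul'
    mul_zero := fun x => by rw [mul_comm', zero_mul']
    mul_comm := mul_comm' }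

lemma smul_mul' (r : T) (x y : Carrier t p hp) : r • x * y = r • (x * y) := by
  funext m
  rw [smul_apply, mul_apply, mul_apply, Finset.mul_sum]
  refine Finset.sum_congr rfl fun i _ => ?_
  rw [Finset.mul_sum]
  refine Finset.sum_congr rfl fun j _ => ?_
  rw [smul_apply]
  ring

instance : Algebra T (Carrier t p hp) :=
  Algebra.ofModule smul_mul' (fun r x y => by
    rw [mul_comm, smul_mul', mul_comm])

/-- the basis -/
noncomputable def basis : Module.Basis (Fin 4) T (Carrier t p hp) :=
  Pi.basisFun T (Fin 4)

lemma basis_apply (i m : Fin 4) : (basis i : Carrier t p hp) m = if m = i then 1 else 0 := by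
  change (Pi.basisFun T (Fin 4) i) m = _
  rw [Pi.basisFun_apply, Pi.single_apply]

lemma basis_mul (i j m : Fin 4) : (basis i * basis j : Carrier t p hp) m = tab t p i j m := by
  rw [mul_apply, Finset.sum_eq_single i, Finset.sum_eq_single j]
  · simp [basis_apply]
  · intro j' _ hj'
    simp [basis_apply, hj']
  · simp
  · intro i' _ hi'
    simp [basis_apply, hi']
  · simp

lemma tab_succ (i j : Fin 3) : tab t p i.succ j.succ = sc t p i j := by
  fin_cases i <;> fin_cases j <;> rfl

end ScAlg

/-- conversely there is such an algebra for all parameters satisfying the Plücker relations -/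
theorem exists_algebra_sc {T : Type u} [CommRing T] (t : Fin 3 → T) (p : Fin 15 → T)
    (hp : plRel p = 0) :
    ∃ (B : Type u) (_ : CommRing B) (_ : Algebra T B) (b : Module.Basis (Fin 4) T B), b 0 = 1 ∧
      ∀ i j : Fin 3, b i.succ * b j.succ = ∑ l, sc t p i j l • b l := by
  refine ⟨ScAlg.Carrier t p hp, inferInstance, inferInstance, ScAlg.basis, ?_, ?_⟩
  · funext m
    rw [ScAlg.basis_apply, ScAlg.one_apply]
  · intro i j
    funext m
    rw [ScAlg.basis_mul, ScAlg.tab_succ, Fin.sum_univ_four]
    simp only [ScAlg.add_apply, ScAlg.smul_apply, ScAlg.basis_apply]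
    fin_cases m <;> simp

end Pool.Agent.Lib.MP_26f572_ag
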