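import Mathlib

/-! # Structure constants of based commutative algebras of rank 4 -/

namespace Pool.Agent.Lib.MP_26f572_ag

universe u

/-- the explicit structure constants of the based algebra of rank 4 with parameters `t`, `p`:
`e_i e_j = sc t p i j 0 + ∑ k, sc t p i j (k+1) e_k`. -/
def sc {T : Type u} [CommRing T] (t : Fin 3 → T) (p : Fin 15 → T) : Fin 3 → Fin 3 → Fin 4 → T :=
  ![![![-p 0 * p 1 + p 2 * t 0 + p 3 * p 13 - p 3 * t 1 - p 4 * p 11 + p 4 * t 2 - p 14 * t 0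
          - t 0 ^ 2,
        -p 2 + p 14 + 2 * t 0, p 3, -p 4],
      ![p 0 * t 2 - p 3 * p 6 + p 4 * p 5 + p 7 * t 0 - t 0 * t 1,
        -p 7 + t 1, t 0, -p 0],
      ![p 1 * p 7 - p 1 * t 1 + p 2 * t 2 - p 3 * p 5 - p 4 * p 9 - t 0 * t 2,
        t 2, p 1, -p 2 + t 0]],
    ![![p 0 * t 2 - p 3 * p 6 + p 4 * p 5 + p 7 * t 0 - t 0 * t 1,
        -p 7 + t 1, t 0, -p 0],
      ![p 0 * p 5 - p 2 * p 6 + p 6 * p 14 + p 6 * t 0 - p 7 * p 13 + p 7 * t 1 - p 8 * t 2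
          + p 13 * t 1 - t 1 ^ 2,
        -p 6, -p 7 - p 13 + 2 * t 1, p 8],
      ![-p 1 * p 6 + p 5 * p 14 + p 5 * t 0 - p 7 * p 11 + p 11 * t 1 - t 1 * t 2,
        -p 5, -p 11 + t 2, t 1]],
    ![![p 1 * p 7 - p 1 * t 1 + p 2 * t 2 - p 3 * p 5 - p 4 * p 9 - t 0 * t 2,
        t 2, p 1, -p 2 + t 0],
      ![-p 1 * p 6 + p 5 * p 14 + p 5 * t 0 - p 7 * p 11 + p 11 * t 1 - t 1 * t 2,
        -p 5, -p 11 + t 2, t 1],
      ![-p 1 * p 5 - p 7 * p 10 - p 9 * p 14 - p 9 * t 0 + p 10 * t 1 + p 11 * t 2 - p 12 * t 2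
          - t 2 ^ 2,
        p 9, -p 10, -p 11 + p 12 + 2 * t 2]]]

end Pool.Agent.Lib.MP_26f572_ag
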