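import Pool.Agent.Lib.MP_26f572_ag.PlTable
import Pool.Agent.Lib.MP_26f572_ag.ScDef

/-! Task S1: structure constants of a based commutative algebra of rank 4. -/

namespace Pool.Agent.Lib.MP_26f572_ag

universe u v

namespace ScNec

variable {T : Type u} [CommRing T]

/-- the parameters `t` -/
def tOf (c : Fin 3 → Fin 3 → Fin 4 → T) : Fin 3 → T := ![c 0 1 2, c 1 2 3, c 0 2 1]

/-- the parameters `p` -/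
def pOf (c : Fin 3 → Fin 3 → Fin 4 → T) : Fin 15 → T :=
  ![-c 0 1 3, c 0 2 2, c 0 1 2 - c 0 2 3, c 0 0 2, -c 0 0 3, -c 1 2 1, -c 1 1 1,
    c 1 2 3 - c 0 1 1, c 1 1 3, c 2 2 1, -c 2 2 2, c 0 2 1 - c 1 2 2,
    c 2 2 3 - c 1 2 2 - c 0 2 1, c 1 2 3 + c 0 1 1 - c 1 1 2, c 0 0 1 - c 0 1 2 - c 0 2 3]

/-- associativity in coordinates -/
def AssocC (c : Fin 3 → Fin 3 → Fin 4 → T) : Prop := ∀ (i j k : Fin 3) (m : Fin 4),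
  c i j 0 * (if m = k.succ then 1 else 0) +
      (c i j 1 * c 0 k m + c i j 2 * c 1 k m + c i j 3 * c 2 k m) =
    c j k 0 * (if m = i.succ then 1 else 0) +
      (c j k 1 * c i 0 m + c j k 2 * c i 1 m + c j k 3 * c i 2 m)

theorem rel_of_assoc (c : Fin 3 → Fin 3 → Fin 4 → T) (hs : ∀ i j l, c i j l = c j i l)
    (hA : AssocC c) : plRel (pOf c) = 0 := by
  have A0011 : c 0 0 0 * 0 + (c 0 0 1 * c 0 1 1 + c 0 0 2 * c 1 1 1 + c 0 0 3 * c 2 1 1) =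
      c 0 1 0 * 1 + (c 0 1 1 * c 0 0 1 + c 0 1 2 * c 0 1 1 + c 0 1 3 * c 0 2 1) := hA 0 0 1 1
  have A0012 : c 0 0 0 * 1 + (c 0 0 1 * c 0 1 2 + c 0 0 2 * c 1 1 2 + c 0 0 3 * c 2 1 2) =
      c 0 1 0 * 0 + (c 0 1 1 * c 0 0 2 + c 0 1 2 * c 0 1 2 + c 0 1 3 * c 0 2 2) := hA 0 0 1 2
  have A0013 : c 0 0 0 * 0 + (c 0 0 1 * c 0 1 3 + c 0 0 2 * c 1 1 3 + c 0 0 3 * c 2 1 3) =
      c 0 1 0 * 0 + (c 0 1 1 * c 0 0 3 + c 0 1 2 * c 0 1 3 + c 0 1 3 * c 0 2 3) := hA 0 0 1 3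
  have A0021 : c 0 0 0 * 0 + (c 0 0 1 * c 0 2 1 + c 0 0 2 * c 1 2 1 + c 0 0 3 * c 2 2 1) =
      c 0 2 0 * 1 + (c 0 2 1 * c 0 0 1 + c 0 2 2 * c 0 1 1 + c 0 2 3 * c 0 2 1) := hA 0 0 2 1
  have A0022 : c 0 0 0 * 0 + (c 0 0 1 * c 0 2 2 + c 0 0 2 * c 1 2 2 + c 0 0 3 * c 2 2 2) =
      c 0 2 0 * 0 + (c 0 2 1 * c 0 0 2 + c 0 2 2 * c 0 1 2 + c 0 2 3 * c 0 2 2) := hA 0 0 2 2
  have A0023 : c 0 0 0 * 1 + (c 0 0 1 * c 0 2 3 + c 0 0 2 * c 1 2 3 + c 0 0 3 * c 2 2 3) =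
      c 0 2 0 * 0 + (c 0 2 1 * c 0 0 3 + c 0 2 2 * c 0 1 3 + c 0 2 3 * c 0 2 3) := hA 0 0 2 3
  have A0111 : c 0 1 0 * 0 + (c 0 1 1 * c 0 1 1 + c 0 1 2 * c 1 1 1 + c 0 1 3 * c 2 1 1) =
      c 1 1 0 * 1 + (c 1 1 1 * c 0 0 1 + c 1 1 2 * c 0 1 1 + c 1 1 3 * c 0 2 1) := hA 0 1 1 1
  have A0113 : c 0 1 0 * 0 + (c 0 1 1 * c 0 1 3 + c 0 1 2 * c 1 1 3 + c 0 1 3 * c 2 1 3) =
      c 1 1 0 * 0 + (c 1 1 1 * c 0 0 3 + c 1 1 2 * c 0 1 3 + c 1 1 3 * c 0 2 3) := hA 0 1 1 3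
  have A0122 : c 0 1 0 * 0 + (c 0 1 1 * c 0 2 2 + c 0 1 2 * c 1 2 2 + c 0 1 3 * c 2 2 2) =
      c 1 2 0 * 0 + (c 1 2 1 * c 0 0 2 + c 1 2 2 * c 0 1 2 + c 1 2 3 * c 0 2 2) := hA 0 1 2 2
  have A0123 : c 0 1 0 * 1 + (c 0 1 1 * c 0 2 3 + c 0 1 2 * c 1 2 3 + c 0 1 3 * c 2 2 3) =
      c 1 2 0 * 0 + (c 1 2 1 * c 0 0 3 + c 1 2 2 * c 0 1 3 + c 1 2 3 * c 0 2 3) := hA 0 1 2 3
  have A0211 : c 0 2 0 * 0 + (c 0 2 1 * c 0 1 1 + c 0 2 2 * c 1 1 1 + c 0 2 3 * c 2 1 1) =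
      c 2 1 0 * 1 + (c 2 1 1 * c 0 0 1 + c 2 1 2 * c 0 1 1 + c 2 1 3 * c 0 2 1) := hA 0 2 1 1
  have A0212 : c 0 2 0 * 1 + (c 0 2 1 * c 0 1 2 + c 0 2 2 * c 1 1 2 + c 0 2 3 * c 2 1 2) =
      c 2 1 0 * 0 + (c 2 1 1 * c 0 0 2 + c 2 1 2 * c 0 1 2 + c 2 1 3 * c 0 2 2) := hA 0 2 1 2
  have A0213 : c 0 2 0 * 0 + (c 0 2 1 * c 0 1 3 + c 0 2 2 * c 1 1 3 + c 0 2 3 * c 2 1 3) =
      c 2 1 0 * 0 + (c 2 1 1 * c 0 0 3 + c 2 1 2 * c 0 1 3 + c 2 1 3 * c 0 2 3) := hA 0 2 1 3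
  have A0221 : c 0 2 0 * 0 + (c 0 2 1 * c 0 2 1 + c 0 2 2 * c 1 2 1 + c 0 2 3 * c 2 2 1) =
      c 2 2 0 * 1 + (c 2 2 1 * c 0 0 1 + c 2 2 2 * c 0 1 1 + c 2 2 3 * c 0 2 1) := hA 0 2 2 1
  have A0222 : c 0 2 0 * 0 + (c 0 2 1 * c 0 2 2 + c 0 2 2 * c 1 2 2 + c 0 2 3 * c 2 2 2) =
      c 2 2 0 * 0 + (c 2 2 1 * c 0 0 2 + c 2 2 2 * c 0 1 2 + c 2 2 3 * c 0 2 2) := hA 0 2 2 2
  have A1021 : c 1 0 0 * 0 + (c 1 0 1 * c 0 2 1 + c 1 0 2 * c 1 2 1 + c 1 0 3 * c 2 2 1) =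
      c 0 2 0 * 0 + (c 0 2 1 * c 1 0 1 + c 0 2 2 * c 1 1 1 + c 0 2 3 * c 1 2 1) := hA 1 0 2 1
  have A1121 : c 1 1 0 * 0 + (c 1 1 1 * c 0 2 1 + c 1 1 2 * c 1 2 1 + c 1 1 3 * c 2 2 1) =
      c 1 2 0 * 0 + (c 1 2 1 * c 1 0 1 + c 1 2 2 * c 1 1 1 + c 1 2 3 * c 1 2 1) := hA 1 1 2 1
  have A1122 : c 1 1 0 * 0 + (c 1 1 1 * c 0 2 2 + c 1 1 2 * c 1 2 2 + c 1 1 3 * c 2 2 2) =
      c 1 2 0 * 1 + (c 1 2 1 * c 1 0 2 + c 1 2 2 * c 1 1 2 + c 1 2 3 * c 1 2 2) := hA 1 1 2 2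
  have A1123 : c 1 1 0 * 1 + (c 1 1 1 * c 0 2 3 + c 1 1 2 * c 1 2 3 + c 1 1 3 * c 2 2 3) =
      c 1 2 0 * 0 + (c 1 2 1 * c 1 0 3 + c 1 2 2 * c 1 1 3 + c 1 2 3 * c 1 2 3) := hA 1 1 2 3
  have A1221 : c 1 2 0 * 0 + (c 1 2 1 * c 0 2 1 + c 1 2 2 * c 1 2 1 + c 1 2 3 * c 2 2 1) =
      c 2 2 0 * 0 + (c 2 2 1 * c 1 0 1 + c 2 2 2 * c 1 1 1 + c 2 2 3 * c 1 2 1) := hA 1 2 2 1
  have A1222 : c 1 2 0 * 0 + (c 1 2 1 * c 0 2 2 + c 1 2 2 * c 1 2 2 + c 1 2 3 * c 2 2 2) =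
      c 2 2 0 * 1 + (c 2 2 1 * c 1 0 2 + c 2 2 2 * c 1 1 2 + c 2 2 3 * c 1 2 2) := hA 1 2 2 2
  simp only [hs 1 0, hs 2 1] at A0011 A0012 A0013 A0021 A0022 A0023 A0111 A0113 A0122 A0123 A0211 A0212 A0213 A0221 A0222 A1021 A1121 A1122 A1123 A1221 A1222
  funext r
  match r with
  | 0 =>
    change (-c 0 1 3) * (c 2 2 1) - (c 0 2 2) * (-c 1 1 1) + (c 0 1 2 - c 0 2 3) * (-c 1 2 1) = 0
    linear_combination -A1021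
  | 1 =>
    change (-c 0 1 3) * (-c 2 2 2) - (c 0 2 2) * (c 1 2 3 - c 0 1 1) + (c 0 0 2) * (-c 1 2 1) = 0
    linear_combination A0122
  | 2 =>
    change (-c 0 1 3) * (c 0 2 1 - c 1 2 2) - (c 0 2 2) * (c 1 1 3) + (-c 0 0 3) * (-c 1 2 1) = 0
    linear_combination -A0213
  | 3 =>
    change (-c 0 1 3) * (c 2 2 3 - c 1 2 2 - c 0 2 1) - (c 0 1 2 - c 0 2 3) * (c 1 2 3 - c 0 1 1) + (c 0 0 2) * (-c 1 1 1) = 0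
    linear_combination -A0011 - A0123
  | 4 =>
    change (-c 0 1 3) * (c 1 2 3 + c 0 1 1 - c 1 1 2) - (c 0 1 2 - c 0 2 3) * (c 1 1 3) + (-c 0 0 3) * (-c 1 1 1) = 0
    linear_combination -A0113
  | 5 =>
    change (-c 0 1 3) * (c 0 0 1 - c 0 1 2 - c 0 2 3) - (c 0 0 2) * (c 1 1 3) + (-c 0 0 3) * (c 1 2 3 - c 0 1 1) = 0
    linear_combination -A0013
  | 6 =>
    change (c 0 2 2) * (c 2 2 3 - c 1 2 2 - c 0 2 1) - (c 0 1 2 - c 0 2 3) * (-c 2 2 2) + (c 0 0 2) * (c 2 2 1) = 0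
    linear_combination -A0222
  | 7 =>
    change (c 0 2 2) * (c 1 2 3 + c 0 1 1 - c 1 1 2) - (c 0 1 2 - c 0 2 3) * (c 0 2 1 - c 1 2 2) + (-c 0 0 3) * (c 2 2 1) = 0
    linear_combination -A0021 - A0212
  | 8 =>
    change (c 0 2 2) * (c 0 0 1 - c 0 1 2 - c 0 2 3) - (c 0 0 2) * (c 0 2 1 - c 1 2 2) + (-c 0 0 3) * (-c 2 2 2) = 0
    linear_combination A0022
  | 9 =>
    change (c 0 1 2 - c 0 2 3) * (c 0 0 1 - c 0 1 2 - c 0 2 3) - (c 0 0 2) * (c 1 2 3 + c 0 1 1 - c 1 1 2) + (-c 0 0 3) * (c 2 2 3 - c 1 2 2 - c 0 2 1) = 0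
    linear_combination A0012 - A0023
  | 10 =>
    change (-c 1 2 1) * (c 2 2 3 - c 1 2 2 - c 0 2 1) - (-c 1 1 1) * (-c 2 2 2) + (c 1 2 3 - c 0 1 1) * (c 2 2 1) = 0
    linear_combination A1221
  | 11 =>
    change (-c 1 2 1) * (c 1 2 3 + c 0 1 1 - c 1 1 2) - (-c 1 1 1) * (c 0 2 1 - c 1 2 2) + (c 1 1 3) * (c 2 2 1) = 0
    linear_combination A1121
  | 12 =>
    change (-c 1 2 1) * (c 0 0 1 - c 0 1 2 - c 0 2 3) - (c 1 2 3 - c 0 1 1) * (c 0 2 1 - c 1 2 2) + (c 1 1 3) * (-c 2 2 2) = 0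
    linear_combination A0211 - A1122
  | 13 =>
    change (-c 1 1 1) * (c 0 0 1 - c 0 1 2 - c 0 2 3) - (c 1 2 3 - c 0 1 1) * (c 1 2 3 + c 0 1 1 - c 1 1 2) + (c 1 1 3) * (c 2 2 3 - c 1 2 2 - c 0 2 1) = 0
    linear_combination A0111 + A1123
  | 14 =>
    change (c 2 2 1) * (c 0 0 1 - c 0 1 2 - c 0 2 3) - (-c 2 2 2) * (c 1 2 3 + c 0 1 1 - c 1 1 2) + (c 0 2 1 - c 1 2 2) * (c 2 2 3 - c 1 2 2 - c 0 2 1) = 0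
    linear_combination -A0221 + A1222

theorem sc_of_assoc (c : Fin 3 → Fin 3 → Fin 4 → T) (hs : ∀ i j l, c i j l = c j i l)
    (hA : AssocC c) (i j : Fin 3) (l : Fin 4) : sc (tOf c) (pOf c) i j l = c i j l := by
  have A0011 : c 0 0 0 * 0 + (c 0 0 1 * c 0 1 1 + c 0 0 2 * c 1 1 1 + c 0 0 3 * c 2 1 1) =
      c 0 1 0 * 1 + (c 0 1 1 * c 0 0 1 + c 0 1 2 * c 0 1 1 + c 0 1 3 * c 0 2 1) := hA 0 0 1 1
  have A0012 : c 0 0 0 * 1 + (c 0 0 1 * c 0 1 2 + c 0 0 2 * c 1 1 2 + c 0 0 3 * c 2 1 2) =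
      c 0 1 0 * 0 + (c 0 1 1 * c 0 0 2 + c 0 1 2 * c 0 1 2 + c 0 1 3 * c 0 2 2) := hA 0 0 1 2
  have A0013 : c 0 0 0 * 0 + (c 0 0 1 * c 0 1 3 + c 0 0 2 * c 1 1 3 + c 0 0 3 * c 2 1 3) =
      c 0 1 0 * 0 + (c 0 1 1 * c 0 0 3 + c 0 1 2 * c 0 1 3 + c 0 1 3 * c 0 2 3) := hA 0 0 1 3
  have A0021 : c 0 0 0 * 0 + (c 0 0 1 * c 0 2 1 + c 0 0 2 * c 1 2 1 + c 0 0 3 * c 2 2 1) =
      c 0 2 0 * 1 + (c 0 2 1 * c 0 0 1 + c 0 2 2 * c 0 1 1 + c 0 2 3 * c 0 2 1) := hA 0 0 2 1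
  have A0022 : c 0 0 0 * 0 + (c 0 0 1 * c 0 2 2 + c 0 0 2 * c 1 2 2 + c 0 0 3 * c 2 2 2) =
      c 0 2 0 * 0 + (c 0 2 1 * c 0 0 2 + c 0 2 2 * c 0 1 2 + c 0 2 3 * c 0 2 2) := hA 0 0 2 2
  have A0023 : c 0 0 0 * 1 + (c 0 0 1 * c 0 2 3 + c 0 0 2 * c 1 2 3 + c 0 0 3 * c 2 2 3) =
      c 0 2 0 * 0 + (c 0 2 1 * c 0 0 3 + c 0 2 2 * c 0 1 3 + c 0 2 3 * c 0 2 3) := hA 0 0 2 3
  have A0111 : c 0 1 0 * 0 + (c 0 1 1 * c 0 1 1 + c 0 1 2 * c 1 1 1 + c 0 1 3 * c 2 1 1) =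
      c 1 1 0 * 1 + (c 1 1 1 * c 0 0 1 + c 1 1 2 * c 0 1 1 + c 1 1 3 * c 0 2 1) := hA 0 1 1 1
  have A0113 : c 0 1 0 * 0 + (c 0 1 1 * c 0 1 3 + c 0 1 2 * c 1 1 3 + c 0 1 3 * c 2 1 3) =
      c 1 1 0 * 0 + (c 1 1 1 * c 0 0 3 + c 1 1 2 * c 0 1 3 + c 1 1 3 * c 0 2 3) := hA 0 1 1 3
  have A0122 : c 0 1 0 * 0 + (c 0 1 1 * c 0 2 2 + c 0 1 2 * c 1 2 2 + c 0 1 3 * c 2 2 2) =
      c 1 2 0 * 0 + (c 1 2 1 * c 0 0 2 + c 1 2 2 * c 0 1 2 + c 1 2 3 * c 0 2 2) := hA 0 1 2 2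
  have A0123 : c 0 1 0 * 1 + (c 0 1 1 * c 0 2 3 + c 0 1 2 * c 1 2 3 + c 0 1 3 * c 2 2 3) =
      c 1 2 0 * 0 + (c 1 2 1 * c 0 0 3 + c 1 2 2 * c 0 1 3 + c 1 2 3 * c 0 2 3) := hA 0 1 2 3
  have A0211 : c 0 2 0 * 0 + (c 0 2 1 * c 0 1 1 + c 0 2 2 * c 1 1 1 + c 0 2 3 * c 2 1 1) =
      c 2 1 0 * 1 + (c 2 1 1 * c 0 0 1 + c 2 1 2 * c 0 1 1 + c 2 1 3 * c 0 2 1) := hA 0 2 1 1
  have A0212 : c 0 2 0 * 1 + (c 0 2 1 * c 0 1 2 + c 0 2 2 * c 1 1 2 + c 0 2 3 * c 2 1 2) =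
      c 2 1 0 * 0 + (c 2 1 1 * c 0 0 2 + c 2 1 2 * c 0 1 2 + c 2 1 3 * c 0 2 2) := hA 0 2 1 2
  have A0213 : c 0 2 0 * 0 + (c 0 2 1 * c 0 1 3 + c 0 2 2 * c 1 1 3 + c 0 2 3 * c 2 1 3) =
      c 2 1 0 * 0 + (c 2 1 1 * c 0 0 3 + c 2 1 2 * c 0 1 3 + c 2 1 3 * c 0 2 3) := hA 0 2 1 3
  have A0221 : c 0 2 0 * 0 + (c 0 2 1 * c 0 2 1 + c 0 2 2 * c 1 2 1 + c 0 2 3 * c 2 2 1) =
      c 2 2 0 * 1 + (c 2 2 1 * c 0 0 1 + c 2 2 2 * c 0 1 1 + c 2 2 3 * c 0 2 1) := hA 0 2 2 1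
  have A0222 : c 0 2 0 * 0 + (c 0 2 1 * c 0 2 2 + c 0 2 2 * c 1 2 2 + c 0 2 3 * c 2 2 2) =
      c 2 2 0 * 0 + (c 2 2 1 * c 0 0 2 + c 2 2 2 * c 0 1 2 + c 2 2 3 * c 0 2 2) := hA 0 2 2 2
  have A1021 : c 1 0 0 * 0 + (c 1 0 1 * c 0 2 1 + c 1 0 2 * c 1 2 1 + c 1 0 3 * c 2 2 1) =
      c 0 2 0 * 0 + (c 0 2 1 * c 1 0 1 + c 0 2 2 * c 1 1 1 + c 0 2 3 * c 1 2 1) := hA 1 0 2 1
  have A1121 : c 1 1 0 * 0 + (c 1 1 1 * c 0 2 1 + c 1 1 2 * c 1 2 1 + c 1 1 3 * c 2 2 1) =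
      c 1 2 0 * 0 + (c 1 2 1 * c 1 0 1 + c 1 2 2 * c 1 1 1 + c 1 2 3 * c 1 2 1) := hA 1 1 2 1
  have A1122 : c 1 1 0 * 0 + (c 1 1 1 * c 0 2 2 + c 1 1 2 * c 1 2 2 + c 1 1 3 * c 2 2 2) =
      c 1 2 0 * 1 + (c 1 2 1 * c 1 0 2 + c 1 2 2 * c 1 1 2 + c 1 2 3 * c 1 2 2) := hA 1 1 2 2
  have A1123 : c 1 1 0 * 1 + (c 1 1 1 * c 0 2 3 + c 1 1 2 * c 1 2 3 + c 1 1 3 * c 2 2 3) =
      c 1 2 0 * 0 + (c 1 2 1 * c 1 0 3 + c 1 2 2 * c 1 1 3 + c 1 2 3 * c 1 2 3) := hA 1 1 2 3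
  have A1221 : c 1 2 0 * 0 + (c 1 2 1 * c 0 2 1 + c 1 2 2 * c 1 2 1 + c 1 2 3 * c 2 2 1) =
      c 2 2 0 * 0 + (c 2 2 1 * c 1 0 1 + c 2 2 2 * c 1 1 1 + c 2 2 3 * c 1 2 1) := hA 1 2 2 1
  have A1222 : c 1 2 0 * 0 + (c 1 2 1 * c 0 2 2 + c 1 2 2 * c 1 2 2 + c 1 2 3 * c 2 2 2) =
      c 2 2 0 * 1 + (c 2 2 1 * c 1 0 2 + c 2 2 2 * c 1 1 2 + c 2 2 3 * c 1 2 2) := hA 1 2 2 2
  simp only [hs 1 0, hs 2 1] at A0011 A0012 A0013 A0021 A0022 A0023 A0111 A0113 A0122 A0123 A0211 A0212 A0213 A0221 A0222 A1021 A1121 A1122 A1123 A1221 A1222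
  match i, j, l with
  | 0, 0, 0 =>
    change -(-c 0 1 3) * (c 0 2 2) + (c 0 1 2 - c 0 2 3) * (c 0 1 2) + (c 0 0 2) * (c 1 2 3 + c 0 1 1 - c 1 1 2) - (c 0 0 2) * (c 1 2 3) - (-c 0 0 3) * (c 0 2 1 - c 1 2 2) + (-c 0 0 3) * (c 0 2 1) - (c 0 0 1 - c 0 1 2 - c 0 2 3) * (c 0 1 2) - (c 0 1 2) ^ 2 = c 0 0 0
    linear_combination -A0012
  | 0, 0, 1 =>
    change -(c 0 1 2 - c 0 2 3) + (c 0 0 1 - c 0 1 2 - c 0 2 3) + 2 * (c 0 1 2) = c 0 0 1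
    ring
  | 0, 0, 2 =>
    change (c 0 0 2) = c 0 0 2
    ring
  | 0, 0, 3 =>
    change -(-c 0 0 3) = c 0 0 3
    ring
  | 0, 1, 0 =>
    change (-c 0 1 3) * (c 0 2 1) - (c 0 0 2) * (-c 1 1 1) + (-c 0 0 3) * (-c 1 2 1) + (c 1 2 3 - c 0 1 1) * (c 0 1 2) - (c 0 1 2) * (c 1 2 3) = c 0 1 0
    linear_combination A0011
  | 0, 1, 1 =>
    change -(c 1 2 3 - c 0 1 1) + (c 1 2 3) = c 0 1 1
    ring
  | 0, 1, 2 =>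
    change (c 0 1 2) = c 0 1 2
    ring
  | 0, 1, 3 =>
    change -(-c 0 1 3) = c 0 1 3
    ring
  | 0, 2, 0 =>
    change (c 0 2 2) * (c 1 2 3 - c 0 1 1) - (c 0 2 2) * (c 1 2 3) + (c 0 1 2 - c 0 2 3) * (c 0 2 1) - (c 0 0 2) * (-c 1 2 1) - (-c 0 0 3) * (c 2 2 1) - (c 0 1 2) * (c 0 2 1) = c 0 2 0
    linear_combination A0021
  | 0, 2, 1 =>
    change (c 0 2 1) = c 0 2 1
    ring
  | 0, 2, 2 =>
    change (c 0 2 2) = c 0 2 2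
    ring
  | 0, 2, 3 =>
    change -(c 0 1 2 - c 0 2 3) + (c 0 1 2) = c 0 2 3
    ring
  | 1, 0, 0 =>
    change (-c 0 1 3) * (c 0 2 1) - (c 0 0 2) * (-c 1 1 1) + (-c 0 0 3) * (-c 1 2 1) + (c 1 2 3 - c 0 1 1) * (c 0 1 2) - (c 0 1 2) * (c 1 2 3) = c 1 0 0
    rw [hs 1 0]
    linear_combination A0011
  | 1, 0, 1 =>
    change -(c 1 2 3 - c 0 1 1) + (c 1 2 3) = c 1 0 1
    rw [hs 1 0]
    all_goals ring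
  | 1, 0, 2 =>
    change (c 0 1 2) = c 1 0 2
    rw [hs 1 0]
    all_goals ring
  | 1, 0, 3 =>
    change -(-c 0 1 3) = c 1 0 3
    rw [hs 1 0]
    all_goals ring
  | 1, 1, 0 =>
    change (-c 0 1 3) * (-c 1 2 1) - (c 0 1 2 - c 0 2 3) * (-c 1 1 1) + (-c 1 1 1) * (c 0 0 1 - c 0 1 2 - c 0 2 3) + (-c 1 1 1) * (c 0 1 2) - (c 1 2 3 - c 0 1 1) * (c 1 2 3 + c 0 1 1 - c 1 1 2) + (c 1 2 3 - c 0 1 1) * (c 1 2 3) - (c 1 1 3) * (c 0 2 1) + (c 1 2 3 + c 0 1 1 - c 1 1 2) * (c 1 2 3) - (c 1 2 3) ^ 2 = c 1 1 0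
    linear_combination A0111
  | 1, 1, 1 =>
    change -(-c 1 1 1) = c 1 1 1
    ring
  | 1, 1, 2 =>
    change -(c 1 2 3 - c 0 1 1) - (c 1 2 3 + c 0 1 1 - c 1 1 2) + 2 * (c 1 2 3) = c 1 1 2
    ring
  | 1, 1, 3 =>
    change (c 1 1 3) = c 1 1 3
    ring
  | 1, 2, 0 =>
    change -(c 0 2 2) * (-c 1 1 1) + (-c 1 2 1) * (c 0 0 1 - c 0 1 2 - c 0 2 3) + (-c 1 2 1) * (c 0 1 2) - (c 1 2 3 - c 0 1 1) * (c 0 2 1 - c 1 2 2) + (c 0 2 1 - c 1 2 2) * (c 1 2 3) - (c 1 2 3) * (c 0 2 1) = c 1 2 0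
    linear_combination A0211
  | 1, 2, 1 =>
    change -(-c 1 2 1) = c 1 2 1
    ring
  | 1, 2, 2 =>
    change -(c 0 2 1 - c 1 2 2) + (c 0 2 1) = c 1 2 2
    ring
  | 1, 2, 3 =>
    change (c 1 2 3) = c 1 2 3
    ring
  | 2, 0, 0 =>
    change (c 0 2 2) * (c 1 2 3 - c 0 1 1) - (c 0 2 2) * (c 1 2 3) + (c 0 1 2 - c 0 2 3) * (c 0 2 1) - (c 0 0 2) * (-c 1 2 1) - (-c 0 0 3) * (c 2 2 1) - (c 0 1 2) * (c 0 2 1) = c 2 0 0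
    rw [hs 2 0]
    linear_combination A0021
  | 2, 0, 1 =>
    change (c 0 2 1) = c 2 0 1
    rw [hs 2 0]
    all_goals ring
  | 2, 0, 2 =>
    change (c 0 2 2) = c 2 0 2
    rw [hs 2 0]
    all_goals ring
  | 2, 0, 3 =>
    change -(c 0 1 2 - c 0 2 3) + (c 0 1 2) = c 2 0 3
    rw [hs 2 0]
    all_goals ring
  | 2, 1, 0 =>
    change -(c 0 2 2) * (-c 1 1 1) + (-c 1 2 1) * (c 0 0 1 - c 0 1 2 - c 0 2 3) + (-c 1 2 1) * (c 0 1 2) - (c 1 2 3 - c 0 1 1) * (c 0 2 1 - c 1 2 2) + (c 0 2 1 - c 1 2 2) * (c 1 2 3) - (c 1 2 3) * (c 0 2 1) = c 2 1 0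
    rw [hs 2 1]
    linear_combination A0211
  | 2, 1, 1 =>
    change -(-c 1 2 1) = c 2 1 1
    rw [hs 2 1]
    all_goals ring
  | 2, 1, 2 =>
    change -(c 0 2 1 - c 1 2 2) + (c 0 2 1) = c 2 1 2
    rw [hs 2 1]
    all_goals ring
  | 2, 1, 3 =>
    change (c 1 2 3) = c 2 1 3
    rw [hs 2 1]
    all_goals ring
  | 2, 2, 0 =>
    change -(c 0 2 2) * (-c 1 2 1) - (c 1 2 3 - c 0 1 1) * (-c 2 2 2) - (c 2 2 1) * (c 0 0 1 - c 0 1 2 - c 0 2 3) - (c 2 2 1) * (c 0 1 2) + (-c 2 2 2) * (c 1 2 3) + (c 0 2 1 - c 1 2 2) * (c 0 2 1) - (c 2 2 3 - c 1 2 2 - c 0 2 1) * (c 0 2 1) - (c 0 2 1) ^ 2 = c 2 2 0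
    linear_combination A0221
  | 2, 2, 1 =>
    change (c 2 2 1) = c 2 2 1
    ring
  | 2, 2, 2 =>
    change -(-c 2 2 2) = c 2 2 2
    ring
  | 2, 2, 3 =>
    change -(c 0 2 1 - c 1 2 2) + (c 2 2 3 - c 1 2 2 - c 0 2 1) + 2 * (c 0 2 1) = c 2 2 3
    ring

end ScNec

/-- every based commutative algebra of rank 4 has structure constants of this form -/
theorem exists_sc {T : Type u} {B : Type v} [CommRing T] [CommRing B] [Algebra T B]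
    (b : Module.Basis (Fin 4) T B) (hb : b 0 = 1) :
    ∃ (t : Fin 3 → T) (p : Fin 15 → T), plRel p = 0 ∧
      ∀ i j : Fin 3, b i.succ * b j.succ = ∑ l, sc t p i j l • b l := by
  set c : Fin 3 → Fin 3 → Fin 4 → T := fun i j l => b.repr (b i.succ * b j.succ) l with hc
  have hmul : ∀ i j : Fin 3, b i.succ * b j.succ = ∑ l, c i j l • b l := fun i j =>
    (b.sum_repr _).symm
  have hs : ∀ i j l, c i j l = c j i l := fun i j l => by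
    simp only [hc, mul_comm]
  have hA : ScNec.AssocC c := by
    intro i j k m
    have h1 : b i.succ * b j.succ * b k.succ = b i.succ * (b j.succ * b k.succ) := mul_assoc _ _ _
    rw [hmul i j, hmul j k, Fin.sum_univ_succ, Fin.sum_univ_succ (n := 3), hb, add_mul, mul_add,
      Fin.sum_univ_three, Fin.sum_univ_three] at h1
    have h2 := congrArg (fun x => b.repr x m) h1
    simp only [smul_mul_assoc, one_mul, mul_smul_comm, mul_one, add_mul, mul_add, map_add,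
      map_smul, Finsupp.add_apply, Finsupp.smul_apply, smul_eq_mul, Module.Basis.repr_self] at h2
    have h3 : ∀ k : Fin 3, (Finsupp.single k.succ (1 : T)) m = if m = k.succ then 1 else 0 := by
      intro k
      rw [Finsupp.single_apply]
      simp only [eq_comm]
    rw [h3, h3] at h2
    exact h2
  refine ⟨ScNec.tOf c, ScNec.pOf c, ScNec.rel_of_assoc c hs hA, fun i j => ?_⟩
  rw [hmul]
  exact Finset.sum_congr rfl fun l _ => by rw [ScNec.sc_of_assoc c hs hA]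

/-- `t` and `p` are determined by the structure constants -/
theorem sc_injective {T : Type u} [CommRing T] (t t' : Fin 3 → T) (p p' : Fin 15 → T)
    (h : ∀ i j (l : Fin 3), sc t p i j l.succ = sc t' p' i j l.succ) : t = t' ∧ p = p' := by
  have e001 : -p 2 + p 14 + 2 * t 0 = -p' 2 + p' 14 + 2 * t' 0 := h 0 0 0
  have e002 : p 3 = p' 3 := h 0 0 1
  have e003 : -p 4 = -p' 4 := h 0 0 2
  have e011 : -p 7 + t 1 = -p' 7 + t' 1 := h 0 1 0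
  have e012 : t 0 = t' 0 := h 0 1 1
  have e013 : -p 0 = -p' 0 := h 0 1 2
  have e021 : t 2 = t' 2 := h 0 2 0
  have e022 : p 1 = p' 1 := h 0 2 1
  have e023 : -p 2 + t 0 = -p' 2 + t' 0 := h 0 2 2
  have e111 : -p 6 = -p' 6 := h 1 1 0
  have e112 : -p 7 - p 13 + 2 * t 1 = -p' 7 - p' 13 + 2 * t' 1 := h 1 1 1
  have e113 : p 8 = p' 8 := h 1 1 2
  have e121 : -p 5 = -p' 5 := h 1 2 0
  have e122 : -p 11 + t 2 = -p' 11 + t' 2 := h 1 2 1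
  have e123 : t 1 = t' 1 := h 1 2 2
  have e221 : p 9 = p' 9 := h 2 2 0
  have e222 : -p 10 = -p' 10 := h 2 2 1
  have e223 : -p 11 + p 12 + 2 * t 2 = -p' 11 + p' 12 + 2 * t' 2 := h 2 2 2
  constructor
  · funext i
    match i with
    | 0 => linear_combination e012
    | 1 => linear_combination e123
    | 2 => linear_combination e021
  · funext i
    match i with
    | 0 => linear_combination -e013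
    | 1 => linear_combination e022
    | 2 => linear_combination e012 - e023
    | 3 => linear_combination e002
    | 4 => linear_combination -e003
    | 5 => linear_combination -e121
    | 6 => linear_combination -e111
    | 7 => linear_combination -e011 + e123
    | 8 => linear_combination e113
    | 9 => linear_combination e221
    | 10 => linear_combination -e222
    | 11 => linear_combination e021 - e122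
    | 12 => linear_combination -e021 - e122 + e223
    | 13 => linear_combination e011 - e112 + e123
    | 14 => linear_combination e001 - e012 - e023

end Pool.Agent.Lib.MP_26f572_ag
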