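import Pool.Agent.Lib.MP_26f572_ag.Chart
import Pool.Agent.Lib.MP_26f572_ag.PlDef
import Pool.Agent.Lib.MP_26f572_ag.ScDef
import Pool.Agent.Lib.MP_26f572_ag.ScNec
import Pool.Agent.Lib.MP_26f572_ag.ScAlg

/-!
# The chart ring of `k[X_0,X_1,X_2]` is a polynomial ring over the coordinate ring of `Gr(2,6)`
-/

namespace Pool.Agent.Lib.MP_26f572_ag

open MvPolynomial

universe u v w

lemma map_sc {A : Type u} {B : Type v} [CommRing A] [CommRing B] (φ : A →+* B) (t : Fin 3 → A)
    (p : Fin 15 → A) (i j : Fin 3) (l : Fin 4) :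
    φ (sc t p i j l) = sc (fun i => φ (t i)) (fun i => φ (p i)) i j l := by
  fin_cases i <;> fin_cases j <;> fin_cases l <;> simp [sc, map_ofNat]

lemma algHom_sc {k : Type w} {A : Type u} {B : Type v} [CommRing k] [CommRing A] [CommRing B]
    [Algebra k A] [Algebra k B] (φ : A →ₐ[k] B) (t : Fin 3 → A)
    (p : Fin 15 → A) (i j : Fin 3) (l : Fin 4) :
    φ (sc t p i j l) = sc (fun i => φ (t i)) (fun i => φ (p i)) i j l :=
  map_sc φ.toRingHom t p i j l

/-- a homomorphism out of the chart ring of `k[X_0,X_1,X_2]` is determined by its values on the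
coordinates of the products `X_i X_j` -/
lemma Chart.poly_hom_ext {k : Type u} [CommRing k] {T : Type w} [CommRing T] [Algebra k T] {n : ℕ}
    (g g' : Chart k (MvPolynomial (Fin n) k) (X : Fin n → MvPolynomial (Fin n) k) →ₐ[k] T)
    (h : ∀ i j l, g ((Chart.univ k (MvPolynomial (Fin n) k) X).Y (X i * X j) l) =
      g' ((Chart.univ k (MvPolynomial (Fin n) k) X).Y (X i * X j) l)) : g = g' := by
  set U := Chart.univ k (MvPolynomial (Fin n) k) (X : Fin n → MvPolynomial (Fin n) k) with hU
  have hfam : ∀ j l, g (U.Y (fam X j) l) = g' (U.Y (fam X j) l) := by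
    intro j l
    rw [U.Y_fam, Pi.single_apply]
    split_ifs
    · rw [map_one, map_one]
    · rw [map_zero, map_zero]
  apply Chart.hom_ext
  intro r
  induction r using MvPolynomial.induction_on with
  | C a =>
    intro l
    have e : (C a : MvPolynomial (Fin n) k) = a • (1 : MvPolynomial (Fin n) k) := by
      rw [← MvPolynomial.algebraMap_eq, Algebra.algebraMap_eq_smul_one]
    rw [e, ← hU, map_smul, Pi.smul_apply, map_smul, map_smul]
    congr 1
    exact hfam 0 l
  | add p q hp hq =>
    intro l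
    rw [map_add, Pi.add_apply, map_add, map_add, hp, hq]
  | mul_X p i hp =>
    intro l
    rw [← hU, mul_comm, U.Y_mul, Finset.sum_apply, map_sum, map_sum]
    refine Finset.sum_congr rfl fun j _ => ?_
    rw [Pi.smul_apply, smul_eq_mul, map_mul g, map_mul g', hU, hp, ← hU]
    congr 1
    refine Fin.cases ?_ (fun j => ?_) j
    · rw [fam_zero, mul_one]
      exact hfam i.succ l
    · rw [fam_succ]
      exact h i j l

/-- The chart ring of `k[X_0,X_1,X_2]` is a polynomial ring in 3 variables over the homogeneous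
coordinate ring of `Gr(2,6)`. -/
theorem Chart.polyRing (k : Type u) [CommRing k] :
    Nonempty (Chart k (MvPolynomial (Fin 3) k) (X : Fin 3 → MvPolynomial (Fin 3) k) ≃ₐ[k]
      MvPolynomial (Fin 3) (Pl k)) := by
  set U := Chart.univ k (MvPolynomial (Fin 3) k) (X : Fin 3 → MvPolynomial (Fin 3) k) with hU
  -- the point over the polynomial ring
  let tA : Fin 3 → MvPolynomial (Fin 3) (Pl k) := X
  let pA : Fin 15 → MvPolynomial (Fin 3) (Pl k) := fun i => C (Pl.p k i)
  have hpA : plRel pA = 0 := by
    ext1 i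
    have h1 := Pl.map_plRel (C : Pl k →+* MvPolynomial (Fin 3) (Pl k)) (Pl.p k) i
    rw [Pl.plRel_p, Pi.zero_apply, map_zero] at h1
    exact h1.symm
  obtain ⟨B, hB, hAB, b, hb0, hb⟩ := exists_algebra_sc tA pA hpA
  let _ : Algebra k B :=
    ((algebraMap (MvPolynomial (Fin 3) (Pl k)) B).comp
      (algebraMap k (MvPolynomial (Fin 3) (Pl k)))).toAlgebra
  have _ : IsScalarTower k (MvPolynomial (Fin 3) (Pl k)) B := IsScalarTower.of_algebraMap_eq' rfl
  let φ : MvPolynomial (Fin 3) k →ₐ[k] B := aeval fun i => b i.succ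
  have hφX : ∀ i, φ (X i) = b i.succ := fun i => aeval_X _ _
  have hbφ : ∀ j, b j = φ (fam X j) := by
    intro j
    refine Fin.cases ?_ (fun j => ?_) j
    · rw [fam_zero, map_one, hb0]
    · rw [fam_succ, hφX]
  let P : ChartPt k (MvPolynomial (Fin 3) k) (X : Fin 3 → MvPolynomial (Fin 3) k)
    (MvPolynomial (Fin 3) (Pl k)) := ChartPt.ofBasis φ b hbφ
  let F := Chart.lift P
  have hF : ∀ i j l, F (U.Y (X i * X j) l) = sc tA pA i j l := by
    intro i j l
    have h1 : F (U.Y (X i * X j) l) = P.Y (X i * X j) l := Chart.lift_Y P _ _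
    rw [h1, ChartPt.ofBasis_Y, map_mul, hφX, hφX, hb, map_sum, Finsupp.finsetSum_apply]
    simp [Finsupp.single_apply]
  -- structure constants of the universal algebra
  have hUb0 : U.basis 0 = 1 := by
    rw [ChartPt.basis_apply, fam_zero, map_one]
  obtain ⟨t, p, hp, hsc⟩ := exists_sc U.basis hUb0
  have hUY : ∀ i j l, U.Y (X i * X j) l = sc t p i j l := by
    intro i j l
    have h1 := hsc i j
    rw [ChartPt.basis_apply, ChartPt.basis_apply, fam_succ, fam_succ, ← map_mul] at h1
    rw [← ChartPt.basis_repr_toAlg, h1, map_sum, Finsupp.finsetSum_apply]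
    simp only [map_smul, Module.Basis.repr_self, Finsupp.smul_apply, Finsupp.single_apply,
      smul_eq_mul, mul_ite, mul_one, mul_zero, Finset.sum_ite_eq', Finset.mem_univ, if_true]
  let G : MvPolynomial (Fin 3) (Pl k) →ₐ[k]
      Chart k (MvPolynomial (Fin 3) k) (X : Fin 3 → MvPolynomial (Fin 3) k) :=
    aevalTower (Pl.lift p hp) t
  have hGX : ∀ i, G (tA i) = t i := fun i => aevalTower_X _ _ _
  have hGC : ∀ i, G (pA i) = p i := by
    intro i
    have h1 : G (C (Pl.p k i)) = Pl.lift p hp (Pl.p k i) := aevalTower_C _ _ _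
    exact h1.trans (Pl.lift_p p hp i)
  have hGF : G.comp F = AlgHom.id k _ := by
    apply Chart.poly_hom_ext
    intro i j l
    rw [AlgHom.comp_apply, AlgHom.id_apply, ← hU, hF]
    rw [hUY, algHom_sc G, funext hGX, funext hGC]
  have hinj := sc_injective (fun i => F (t i)) tA (fun i => F (p i)) pA (by
    intro i j l
    rw [← hF, hUY, algHom_sc F])
  have hFG : F.comp G = AlgHom.id k _ := by
    have h1 : (F.comp (Pl.lift p hp)) = IsScalarTower.toAlgHom k (Pl k)
        (MvPolynomial (Fin 3) (Pl k)) := by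
      apply Pl.hom_ext
      intro i
      rw [AlgHom.comp_apply, Pl.lift_p]
      exact congrFun hinj.2 i
    have h2 : ((F.comp G : _ →ₐ[k] _) : MvPolynomial (Fin 3) (Pl k) →+*
        MvPolynomial (Fin 3) (Pl k)) = RingHom.id _ := by
      apply MvPolynomial.ringHom_ext
      · intro x
        have h3 : G (C x) = Pl.lift p hp x := aevalTower_C _ _ _
        have h4 := DFunLike.congr_fun h1 x
        change F (G (C x)) = C x
        rw [h3]
        exact h4
      · intro i
        have h3 : G (X i) = t i := hGX i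
        change F (G (X i)) = X i
        rw [h3]
        exact congrFun hinj.1 i
    apply AlgHom.ext
    intro x
    exact DFunLike.congr_fun h2 x
  exact ⟨AlgEquiv.ofAlgHom F G hFG hGF⟩

end Pool.Agent.Lib.MP_26f572_ag
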