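import Pool.Agent.Lib.MP_26f572_ag.Chart

namespace Pool.Agent.Lib.MP_26f572_ag

open MvPolynomial

universe u v w

namespace Chart

variable {k : Type u} {R : Type v} [CommRing k] [CommRing R] [Algebra k R] {n : ℕ}

lemma C_comp_fam {m : ℕ} (f : Fin n → R) (j : Fin (n + 1)) :
    fam (fun i => (C (f i) : MvPolynomial (Fin m) R)) j = C (fam f j) := by
  have := map_fam f (C : R →+* MvPolynomial (Fin m) R) j
  rw [this]
  rfl

/-- points for a polynomial ring agree if they agree on coefficients and on variables -/
lemma pt_ext {m : ℕ} {f : Fin n → R} {T : Type w} [CommRing T] [Algebra k T]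
    (P Q : ChartPt k (MvPolynomial (Fin m) R) (fun i => C (f i)) T)
    (hC : ∀ r, P.Y (C r) = Q.Y (C r)) (hX : ∀ i, P.Y (X i) = Q.Y (X i)) : P = Q := by
  have key : ∀ p : MvPolynomial (Fin m) R, ∀ s : R, P.Y (p * C s) = Q.Y (p * C s) := by
    intro p
    induction p using MvPolynomial.induction_on with
    | C a => intro s; rw [← C_mul]; exact hC _
    | add p q hp hq => intro s; rw [add_mul, map_add, map_add, hp, hq]
    | mul_X p i hp =>
      intro s
      have e : p * X i * C s = (p * C s) * X i := by ring
      rw [e, P.Y_mul, Q.Y_mul, hX]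
      refine Finset.sum_congr rfl fun j _ => ?_
      congr 1
      rw [C_comp_fam, mul_assoc, ← C_mul]
      exact hp _
  refine ChartPt.ext (LinearMap.ext fun p => ?_)
  have := key p 1
  rwa [map_one, mul_one] at this

section

variable (k) (f : Fin n → R) (m : ℕ)

/-- the universal point of the chart of `f`, over the polynomial ring -/
noncomputable def polyBase :
    ChartPt k R f (MvPolynomial (Fin m × Fin (n + 1)) (Chart k R f)) :=
  (univ k R f).map (IsScalarTower.toAlgHom k (Chart k R f) _)

lemma polyBase_Y (r : R) (j : Fin (n + 1)) :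
    (polyBase k f m).Y r j = C ((univ k R f).Y r j) := rfl

/-- the homomorphism with the variables sent to general elements -/
noncomputable def polyHom : MvPolynomial (Fin m) R →ₐ[k] (polyBase k f m).Alg :=
  aevalTower (polyBase k f m).toAlg fun i =>
    ∑ j, (X (i, j) : MvPolynomial (Fin m × Fin (n + 1)) (Chart k R f)) • (polyBase k f m).basis j

/-- the corresponding point -/
noncomputable def polyPt : ChartPt k (MvPolynomial (Fin m) R) (fun i => C (f i))
    (MvPolynomial (Fin m × Fin (n + 1)) (Chart k R f)) :=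
  ChartPt.ofBasis (polyHom k f m) (polyBase k f m).basis (fun j => by
    rw [C_comp_fam, polyHom, aevalTower_C, ChartPt.basis_apply])

lemma polyPt_X (i : Fin m) (j : Fin (n + 1)) : (polyPt k f m).Y (X i) j = X (i, j) := by
  rw [polyPt, ChartPt.ofBasis_Y, polyHom, aevalTower_X]
  rw [map_sum]
  simp [ChartPt.Y_fam, Pi.single_apply]

lemma polyPt_C (r : R) (j : Fin (n + 1)) :
    (polyPt k f m).Y (C r) j = C ((univ k R f).Y r j) := by
  rw [polyPt, ChartPt.ofBasis_Y, polyHom, aevalTower_C, ChartPt.basis_repr_toAlg, polyBase_Y]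

/-- the map back -/
noncomputable def polyBack : MvPolynomial (Fin m × Fin (n + 1)) (Chart k R f) →ₐ[k]
    Chart k (MvPolynomial (Fin m) R) (fun i => (C (f i) : MvPolynomial (Fin m) R)) :=
  aevalTower (lift ((univ k (MvPolynomial (Fin m) R)
      (IsScalarTower.toAlgHom k R (MvPolynomial (Fin m) R) ∘ f)).restrict
      (IsScalarTower.toAlgHom k R (MvPolynomial (Fin m) R))))
    fun x => (univ k (MvPolynomial (Fin m) R) (fun i => C (f i))).Y (X x.1) x.2

lemma polyBack_X (i : Fin m) (j : Fin (n + 1)) : polyBack k f m (X (i, j)) =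
    (univ k (MvPolynomial (Fin m) R) (fun i => C (f i))).Y (X i) j := by
  rw [polyBack, aevalTower_X]

lemma polyBack_C (r : R) (j : Fin (n + 1)) : polyBack k f m (C ((univ k R f).Y r j)) =
    (univ k (MvPolynomial (Fin m) R) (fun i => C (f i))).Y (C r) j := by
  rw [polyBack, aevalTower_C, lift_Y]
  rfl

end

/-- the chart of `f : Fin n → R` for `R[X_1..X_m]` is an affine space over the chart for `R` -/
theorem exists_polyEquiv {k : Type u} {R : Type v} [CommRing k] [CommRing R] [Algebra k R]
    {n : ℕ} (f : Fin n → R) (m : ℕ) :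
    ∃ e : Chart k (MvPolynomial (Fin m) R) (fun i => (C (f i) : MvPolynomial (Fin m) R)) ≃ₐ[k]
        MvPolynomial (Fin m × Fin (n + 1)) (Chart k R f),
      (∀ i j, e ((Chart.univ k (MvPolynomial (Fin m) R) (fun i => C (f i))).Y (X i) j) =
        X (i, j)) ∧
      (∀ r j, e ((Chart.univ k (MvPolynomial (Fin m) R) (fun i => C (f i))).Y (C r) j) =
        C ((Chart.univ k R f).Y r j)) := by
  have h1 : (lift (polyPt k f m)).comp (polyBack k f m) = AlgHom.id k _ := by
    apply MvPolynomial.algHom_ext'
    · apply hom_ext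
      intro r j
      simp only [AlgHom.comp_apply, AlgHom.id_apply, IsScalarTower.coe_toAlgHom']
      change lift (polyPt k f m) (polyBack k f m (C ((univ k R f).Y r j))) =
        C ((univ k R f).Y r j)
      rw [polyBack_C, lift_Y, polyPt_C]
    · rintro ⟨i, j⟩
      rw [AlgHom.comp_apply, polyBack_X, lift_Y, polyPt_X]
      rfl
  have h2 : (polyBack k f m).comp (lift (polyPt k f m)) = AlgHom.id k _ := by
    have h3 : (polyPt k f m).map (polyBack k f m) =
        univ k (MvPolynomial (Fin m) R) (fun i => C (f i)) := by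
      apply pt_ext
      · intro r
        ext j
        rw [ChartPt.map_Y, polyPt_C, polyBack_C]
      · intro i
        ext j
        rw [ChartPt.map_Y, polyPt_X, polyBack_X]
    apply hom_ext
    intro r j
    rw [AlgHom.comp_apply, lift_Y, ← ChartPt.map_Y, h3]
    rfl
  refine ⟨AlgEquiv.ofAlgHom (lift (polyPt k f m)) (polyBack k f m) h1 h2, fun i j => ?_,
    fun r j => ?_⟩
  · exact (lift_Y (polyPt k f m) _ _).trans (polyPt_X k f m i j)
  · exact (lift_Y (polyPt k f m) _ _).trans (polyPt_C k f m r j)

end Chart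

end Pool.Agent.Lib.MP_26f572_ag
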