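import Pool.Agent.Lib.MP_26f572_ag.Chart

/-! Task F1: functoriality of the chart ring preserves formal smoothness. -/

namespace Pool.Agent.Lib.MP_26f572_ag

open MvPolynomial

universe u v w

section aux

variable {T T' B Q ι : Type*} [CommRing T] [CommRing T'] [Algebra T T'] [CommRing B] [CommRing Q]
  [Algebra T B] [Algebra T' Q] [Algebra T Q] [IsScalarTower T T' Q] [Fintype ι]

lemma repr_of_basis_map (b : Module.Basis ι T B) (b' : Module.Basis ι T' Q) (π : B →ₐ[T] Q)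
    (hπ : ∀ j, π (b j) = b' j) (x : B) (i : ι) :
    b'.repr (π x) i = algebraMap T T' (b.repr x i) := by
  classical
  conv_lhs => rw [← b.sum_repr x]
  rw [map_sum, map_sum, Finsupp.finsetSum_apply, Finset.sum_eq_single i]
  · rw [map_smul, hπ, ← algebraMap_smul T' (b.repr x i) (b' i), map_smul, b'.repr_self]
    simp [Algebra.algebraMap_eq_smul_one]
  · intro j _ hj
    rw [map_smul, hπ, ← algebraMap_smul T' (b.repr x j) (b' j), map_smul, b'.repr_self]
    simp [hj]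
  · simp

lemma surjective_of_basis_map (b : Module.Basis ι T B) (b' : Module.Basis ι T' Q) (π : B →ₐ[T] Q)
    (hπ : ∀ j, π (b j) = b' j) (hT : Function.Surjective (algebraMap T T')) :
    Function.Surjective π := by
  intro y
  choose s hs using hT
  refine ⟨∑ j, s (b'.repr y j) • b j, ?_⟩
  conv_rhs => rw [← b'.sum_repr y]
  rw [map_sum]
  refine Finset.sum_congr rfl fun j _ => ?_
  rw [map_smul, hπ, ← algebraMap_smul T', hs]

lemma ker_sq_of_basis_map (b : Module.Basis ι T B) (b' : Module.Basis ι T' Q) (π : B →ₐ[T] Q)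
    (hπ : ∀ j, π (b j) = b' j) (hT : RingHom.ker (algebraMap T T') ^ 2 = ⊥) :
    RingHom.ker (π : B →+* Q) ^ 2 = ⊥ := by
  have hmem : ∀ x ∈ RingHom.ker (π : B →+* Q), ∀ i, b.repr x i ∈ RingHom.ker (algebraMap T T') := by
    intro x hx i
    have hx' : π x = 0 := hx
    rw [RingHom.mem_ker, ← repr_of_basis_map b b' π hπ x i, hx', map_zero]
    rfl
  rw [pow_two, eq_bot_iff, Ideal.mul_le]
  intro x hx y hy
  rw [Ideal.mem_bot, ← b.sum_repr x, ← b.sum_repr y, Finset.sum_mul_sum]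
  refine Finset.sum_eq_zero fun i _ => Finset.sum_eq_zero fun j _ => ?_
  have h1 : b.repr x i * b.repr y j = 0 := by
    have h2 : b.repr x i * b.repr y j ∈ RingHom.ker (algebraMap T T') ^ 2 := by
      rw [pow_two]
      exact Ideal.mul_mem_mul (hmem x hx i) (hmem y hy j)
    rwa [hT, Ideal.mem_bot] at h2
  rw [smul_mul_smul_comm, h1, zero_smul]

end aux

/-- functoriality sends formally smooth maps to formally smooth maps -/
theorem Chart.formallySmooth_mapHom {k R₁ R₂ : Type u} [CommRing k] [CommRing R₁] [CommRing R₂]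
    [Algebra k R₁] [Algebra k R₂] {n : ℕ} (f : Fin n → R₁) (φ : R₁ →ₐ[k] R₂)
    (hφ : (φ : R₁ →+* R₂).FormallySmooth) :
    (Chart.mapHom f φ : Chart k R₁ f →+* Chart k R₂ (φ ∘ f)).FormallySmooth := by
  let : Algebra R₁ R₂ := (φ : R₁ →+* R₂).toAlgebra
  have : Algebra.FormallySmooth R₁ R₂ := hφ
  have hst : IsScalarTower k R₁ R₂ := IsScalarTower.of_algHom φ
  let : Algebra (Chart k R₁ f) (Chart k R₂ (φ ∘ f)) :=
    (Chart.mapHom f φ : Chart k R₁ f →+* Chart k R₂ (φ ∘ f)).toAlgebra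
  change Algebra.FormallySmooth (Chart k R₁ f) (Chart k R₂ (φ ∘ f))
  apply Algebra.FormallySmooth.of_comp_surjective
  intro T _ _ I hI g
  let : Algebra k T := ((algebraMap (Chart k R₁ f) T).comp (algebraMap k (Chart k R₁ f))).toAlgebra
  have : IsScalarTower k (Chart k R₁ f) T := IsScalarTower.of_algebraMap_eq fun _ => rfl
  let u₁ : Chart k R₁ f →ₐ[k] T := IsScalarTower.toAlgHom k (Chart k R₁ f) T
  let P₁ : ChartPt k R₁ f T := (Chart.univ k R₁ f).map u₁
  have hk : IsScalarTower k (Chart k R₁ f) (T ⧸ I) := inferInstance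
  have hk' : IsScalarTower k (Chart k R₁ f) (Chart k R₂ (φ ∘ f)) :=
    IsScalarTower.of_algHom (Chart.mapHom f φ)
  let g₂ : Chart k R₂ (φ ∘ f) →ₐ[k] T ⧸ I := g.restrictScalars k
  let P₂ : ChartPt k R₂ (φ ∘ f) (T ⧸ I) := (Chart.univ k R₂ (φ ∘ f)).map g₂
  have hu₁ : ∀ x, u₁ x = algebraMap (Chart k R₁ f) T x := fun x => rfl
  -- the comparison map of the algebras of the two points
  have hrel : ∀ r, (P₂.toAlg.comp φ) r = ∑ j, P₁.Y r j • (P₂.toAlg.comp φ) (fam f j) := by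
    intro r
    rw [AlgHom.comp_apply, P₂.toAlg_eq_sum]
    refine Finset.sum_congr rfl fun j _ => ?_
    rw [AlgHom.comp_apply, map_fam (g := φ)]
    have h1 : P₂.Y (φ r) j = algebraMap T (T ⧸ I) (P₁.Y r j) := by
      have h2 : g (algebraMap (Chart k R₁ f) _ ((Chart.univ k R₁ f).Y r j)) = _ := g.commutes _
      have h3 : algebraMap (Chart k R₁ f) (Chart k R₂ (φ ∘ f)) ((Chart.univ k R₁ f).Y r j) =
          (Chart.univ k R₂ (φ ∘ f)).Y (φ r) j := by
        change Chart.mapHom f φ _ = _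
        rw [Chart.mapHom, Chart.lift_Y]
        rfl
      rw [h3] at h2
      exact h2
    rw [h1, algebraMap_smul]
  let π : P₁.Alg →ₐ[T] P₂.Alg := P₁.liftAlg (P₂.toAlg.comp φ) hrel
  have hπ : ∀ r, π (P₁.toAlg r) = P₂.toAlg (φ r) := fun r =>
    P₁.liftAlg_toAlg (P₂.toAlg.comp φ) hrel r
  have hπb : ∀ j, π (P₁.basis j) = P₂.basis j := by
    intro j
    rw [P₁.basis_apply, hπ, P₂.basis_apply, map_fam (g := φ)]
  have hker : RingHom.ker (algebraMap T (T ⧸ I)) ^ 2 = ⊥ := by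
    rw [Ideal.Quotient.algebraMap_eq, Ideal.mk_ker, hI]
  have hsurj : Function.Surjective π :=
    surjective_of_basis_map P₁.basis P₂.basis π hπb Ideal.Quotient.mk_surjective
  have hsq : RingHom.ker (π : P₁.Alg →+* P₂.Alg) ^ 2 = ⊥ :=
    ker_sq_of_basis_map P₁.basis P₂.basis π hπb hker
  -- lift
  let : Algebra R₁ P₁.Alg := (P₁.toAlg : R₁ →+* P₁.Alg).toAlgebra
  let : Algebra R₁ P₂.Alg := ((P₂.toAlg.comp φ : R₁ →ₐ[k] P₂.Alg) : R₁ →+* P₂.Alg).toAlgebra
  let a : R₂ →ₐ[R₁] P₂.Alg := { (P₂.toAlg : R₂ →+* P₂.Alg) with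
    commutes' := fun r => rfl }
  let b : P₁.Alg →ₐ[R₁] P₂.Alg := { (π : P₁.Alg →+* P₂.Alg) with
    commutes' := fun r => hπ r }
  have hbsurj : Function.Surjective b := hsurj
  have hbnil : IsNilpotent (RingHom.ker (b : P₁.Alg →+* P₂.Alg)) := ⟨2, hsq⟩
  let ψ : R₂ →ₐ[R₁] P₁.Alg := Algebra.FormallySmooth.liftOfSurjective a b hbsurj hbnil
  have hψ : ∀ r, π (ψ r) = P₂.toAlg r := fun r =>
    Algebra.FormallySmooth.liftOfSurjective_apply a b hbsurj hbnil r
  have hψ₁ : ∀ r, ψ (φ r) = P₁.toAlg r := fun r => ψ.commutes r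
  let ψ' : R₂ →ₐ[k] P₁.Alg := { (ψ : R₂ →+* P₁.Alg) with
    commutes' := fun c => by
      change ψ (algebraMap k R₂ c) = _
      rw [← φ.commutes, hψ₁, AlgHom.commutes] }
  have hψ' : ∀ r, ψ' r = ψ r := fun r => rfl
  have hb : ∀ j, P₁.basis j = ψ' (fam (φ ∘ f) j) := by
    intro j
    rw [hψ', ← map_fam, hψ₁, P₁.basis_apply]
  let Q : ChartPt k R₂ (φ ∘ f) T := ChartPt.ofBasis ψ' P₁.basis hb
  have hQ : ∀ r i, Q.Y r i = P₁.basis.repr (ψ r) i := fun r i =>
    ChartPt.ofBasis_Y ψ' P₁.basis hb r i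
  have hcomm : (Chart.lift Q).comp (Chart.mapHom f φ) = u₁ := by
    apply Chart.hom_ext
    intro r i
    rw [AlgHom.comp_apply, Chart.mapHom, Chart.lift_Y, ChartPt.restrict_Y, Chart.lift_Y, hQ, hψ₁,
      P₁.basis_repr_toAlg]
    rfl
  let G : Chart k R₂ (φ ∘ f) →ₐ[Chart k R₁ f] T := { (Chart.lift Q : _ →+* T) with
    commutes' := fun x => DFunLike.congr_fun hcomm x }
  refine ⟨G, ?_⟩
  have hfin : (Ideal.Quotient.mkₐ k I).comp (Chart.lift Q) = g₂ := by
    apply Chart.hom_ext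
    intro r i
    rw [AlgHom.comp_apply, Chart.lift_Y, hQ]
    have h1 := repr_of_basis_map P₁.basis P₂.basis π hπb (ψ r) i
    rw [hψ, P₂.basis_repr_toAlg] at h1
    exact h1.symm
  ext x
  exact DFunLike.congr_fun hfin x

end Pool.Agent.Lib.MP_26f572_ag
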