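import Mathlib
import Pool.Agent.Lib.MP_26f572_ag.Defs

/-!
Normality of smooth algebras over normal domains, and descent of normality along a section.
-/

namespace Pool.Agent.Lib.MP_26f572_ag

open IsLocalRing TensorProduct

universe u v

theorem mvPolynomial_fin_isIntegrallyClosed {A : Type u} [CommRing A] [IsDomain A]
    [IsIntegrallyClosed A] (n : ℕ) : IsIntegrallyClosed (MvPolynomial (Fin n) A) := by
  induction n with
  | zero => exact IsIntegrallyClosed.of_equiv (MvPolynomial.isEmptyRingEquiv A (Fin 0)).symm
  | succ n ih =>
    have := ih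
    exact IsIntegrallyClosed.of_equiv (MvPolynomial.finSuccEquiv A n).toRingEquiv.symm

/-- A local ring which is integrally closed in a reduced artinian ring is an integrally
closed domain. -/
theorem isIntegrallyClosed_of_artinian {E : Type u} {L : Type v} [CommRing E]
    [CommRing L] [Algebra E L] [IsLocalRing E] [IsReduced L] [IsArtinianRing L]
    [IsIntegrallyClosedIn E L] :
    IsDomain E ∧ IsIntegrallyClosed E := by
  have hinj : Function.Injective (algebraMap E L) :=
    (isIntegrallyClosedIn_iff.mp inferInstance).1
  have hnt : Nontrivial L := hinj.nontrivial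
  -- every nonzero element of `L` is a unit
  have hunit : ∀ x : L, x ≠ 0 → IsUnit x := by
    intro x hx
    obtain ⟨n, y, hy⟩ := IsArtinian.exists_pow_succ_smul_dvd (R := L) x (1 : L)
    have h1 : x ^ n * (1 - x * y) = 0 := by
      simp only [smul_eq_mul, mul_one] at hy
      rw [mul_sub, mul_one, ← mul_assoc, ← pow_succ, hy, sub_self]
    have h2 : x * (1 - x * y) = 0 := by
      apply IsReduced.eq_zero
      refine ⟨n + 1, ?_⟩
      rw [mul_pow, pow_succ x, pow_succ (1 - x * y)]
      calc x ^ n * x * ((1 - x * y) ^ n * (1 - x * y))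
          = (x ^ n * (1 - x * y)) * (x * (1 - x * y) ^ n) := by ring
        _ = 0 := by rw [h1, zero_mul]
    have h3 : (x * y) * (x * y) = x * y := by
      have : x * (x * y) = x := by
        have := h2
        rw [mul_sub, mul_one, sub_eq_zero] at this
        exact this.symm
      calc (x * y) * (x * y) = (x * (x * y)) * y := by ring
        _ = x * y := by rw [this]
    have h4 : IsIntegral E (x * y) := by
      refine ⟨Polynomial.X * (Polynomial.X - Polynomial.C 1),
        Polynomial.monic_X.mul (Polynomial.monic_X_sub_C 1), ?_⟩
      rw [Polynomial.eval₂_mul, Polynomial.eval₂_sub, Polynomial.eval₂_X, Polynomial.eval₂_C,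
        map_one, mul_sub, mul_one, h3, sub_self]
    obtain ⟨e, he⟩ := IsIntegrallyClosedIn.algebraMap_eq_of_integral h4
    have h5 : e * (1 - e) = 0 := by
      apply hinj
      rw [map_mul, map_sub, map_one, he, map_zero, mul_sub, mul_one, h3, sub_self]
    rcases IsLocalRing.isUnit_or_isUnit_one_sub_self e with hu | hu
    · have h6 : 1 - e = 0 := by
        rcases hu with ⟨u, rfl⟩
        exact (Units.mul_right_eq_zero u).mp h5
      have h7 : x * y = 1 := by
        rw [← he, ← (sub_eq_zero.mp h6), map_one]
      exact IsUnit.of_mul_eq_one y h7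
    · have h6 : e = 0 := by
        rcases hu with ⟨u, hu⟩
        rw [← hu] at h5
        exact (Units.mul_left_eq_zero u).mp h5
      exfalso
      apply hx
      have h7 : x * y = 0 := by rw [← he, h6, map_zero]
      rw [h7, sub_zero, mul_one] at h2
      exact h2
  have hF : IsField L := ⟨⟨0, 1, zero_ne_one⟩, mul_comm, fun {a} ha => by
    obtain ⟨u, rfl⟩ := hunit a ha
    exact ⟨(u⁻¹ : Lˣ), by simp⟩⟩
  let : Field L := hF.toField
  have : FaithfulSMul E L := (faithfulSMul_iff_algebraMap_injective E L).mpr hinj
  refine ⟨hinj.isDomain (algebraMap E L), ?_⟩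
  exact IsIntegrallyClosed.of_isIntegrallyClosedIn E L

/-- étale algebras over a normal domain are normal -/
theorem normal_of_etale {D S : Type u} [CommRing D] [IsDomain D] [IsIntegrallyClosed D]
    [CommRing S] [Algebra D S] [Algebra.Etale D S] (q : Ideal S) [q.IsPrime] :
    IsDomain (Localization.AtPrime q) ∧ IsIntegrallyClosed (Localization.AtPrime q) := by
  let K := FractionRing D
  let T := Localization.AtPrime q
  have hflatS : Module.Flat D S := inferInstance
  have hflatT : Module.Flat S T := inferInstance
  have hflat : Module.Flat D T := Module.Flat.trans D S T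
  have hfu : Algebra.FormallyUnramified S T := Algebra.FormallyUnramified.of_isLocalization q.primeCompl
  have hfu' : Algebra.FormallyUnramified D T := Algebra.FormallyUnramified.comp D S T
  have hess : Algebra.EssFiniteType S T := inferInstance
  have hess' : Algebra.EssFiniteType D T := Algebra.EssFiniteType.comp D S T
  have hfuK : Algebra.FormallyUnramified K (K ⊗[D] T) := inferInstance
  have hessK : Algebra.EssFiniteType K (K ⊗[D] T) := inferInstance
  have hredK : IsReduced (K ⊗[D] T) := Algebra.FormallyUnramified.isReduced_of_field K (K ⊗[D] T)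
  have hfinK : Module.Finite K (K ⊗[D] T) := Algebra.FormallyUnramified.finite_of_free K (K ⊗[D] T)
  have hartK : IsArtinianRing (K ⊗[D] T) := IsArtinianRing.of_finite K (K ⊗[D] T)
  let e : K ⊗[D] T ≃ₐ[D] T ⊗[D] K := Algebra.TensorProduct.comm D K T
  have hred : IsReduced (T ⊗[D] K) := isReduced_of_injective e.symm e.symm.injective
  have hart : IsArtinianRing (T ⊗[D] K) := e.surjective.isArtinianRing
  have hbij : Function.Bijective (TensorProduct.toIntegralClosure D T K) :=
    TensorProduct.toIntegralClosure_bijective_of_tower (S := S)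
      TensorProduct.toIntegralClosure_bijective_of_smooth
      (TensorProduct.toIntegralClosure_bijective_of_isLocalization q.primeCompl)
  have hinj : Function.Injective (algebraMap T (T ⊗[D] K)) :=
    Algebra.TensorProduct.includeLeft_injective (S := T) (IsFractionRing.injective D K)
  have hic : IsIntegrallyClosedIn T (T ⊗[D] K) := by
    rw [isIntegrallyClosedIn_iff]
    refine ⟨hinj, ?_⟩
    intro x hx
    obtain ⟨z, hz⟩ := hbij.2 ⟨x, hx⟩
    have key : ∀ z : T ⊗[D] integralClosure D K, ∃ t : T, z = t ⊗ₜ 1 := by
      intro z
      induction z with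
      | zero => exact ⟨0, by simp⟩
      | add x y hx hy =>
        obtain ⟨a, rfl⟩ := hx
        obtain ⟨b, rfl⟩ := hy
        exact ⟨a + b, by rw [TensorProduct.add_tmul]⟩
      | tmul t y =>
        obtain ⟨d, hd⟩ := IsIntegrallyClosed.algebraMap_eq_of_integral (R := D) (K := K) y.2
        refine ⟨d • t, ?_⟩
        have : y = d • (1 : integralClosure D K) := by
          apply Subtype.ext
          rw [← hd]
          simp [Algebra.smul_def]
        rw [this, TensorProduct.tmul_smul, TensorProduct.smul_tmul']
    obtain ⟨t, rfl⟩ := key z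
    refine ⟨t, ?_⟩
    have h := congrArg Subtype.val hz
    rw [Algebra.TensorProduct.algebraMap_apply]
    simpa [TensorProduct.toIntegralClosure] using h
  exact isIntegrallyClosed_of_artinian (L := T ⊗[D] K)

theorem normal_at_of_localization {B : Type u} [CommRing B] (M : Submonoid B)
    (q : Ideal (Localization M)) [q.IsPrime] (p : Ideal B) [p.IsPrime]
    (hp : p = q.comap (algebraMap B (Localization M)))
    (h : IsDomain (Localization.AtPrime q) ∧ IsIntegrallyClosed (Localization.AtPrime q)) :
    IsDomain (Localization.AtPrime p) ∧ IsIntegrallyClosed (Localization.AtPrime p) := by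
  subst hp
  let e : Localization.AtPrime (q.comap (algebraMap B (Localization M))) ≃ₐ[B]
    Localization.AtPrime q := IsLocalization.localizationLocalizationAtPrimeIsoLocalization M q
  obtain ⟨h1, h2⟩ := h
  exact ⟨e.toMulEquiv.isDomain _, IsIntegrallyClosed.of_equiv e.toRingEquiv.symm⟩

/-- smooth algebras over a normal domain are normal -/
theorem IsNormalRing.of_smooth {A B : Type u} [CommRing A] [IsDomain A] [IsIntegrallyClosed A]
    [CommRing B] [Algebra A B] [Algebra.Smooth A B] : IsNormalRing B := by
  intro p hp
  obtain ⟨f, hfp, n, _, _, _⟩ :=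
    Algebra.IsSmoothAt.exists_isStandardEtale_mvPolynomial (R := A) (p := p)
  have hdisj : Disjoint (Submonoid.powers f : Set B) (p : Set B) :=
    (Ideal.disjoint_powers_iff_notMem_of_isPrime _).mpr hfp
  have hq : (Ideal.map (algebraMap B (Localization.Away f)) p).IsPrime :=
    IsLocalization.isPrime_of_isPrime_disjoint (.powers f) _ _ ‹_› hdisj
  have hcomap : p = (Ideal.map (algebraMap B (Localization.Away f)) p).comap
      (algebraMap B (Localization.Away f)) :=
    (IsLocalization.under_map_of_isPrime_disjoint (.powers f) _ hp hdisj).symm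
  have := mvPolynomial_fin_isIntegrallyClosed (A := A) n
  refine normal_at_of_localization (.powers f) (Ideal.map (algebraMap B (Localization.Away f)) p)
    p hcomap ?_
  exact normal_of_etale (D := MvPolynomial (Fin n) A) (S := Localization.Away f) _

/-- a retract of an integrally closed domain is an integrally closed domain -/
theorem normal_of_retract {R P : Type*} [CommRing R] [CommRing P] (φ : R →+* P) (ψ : P →+* R)
    (hψ : ∀ r, ψ (φ r) = r) (h : IsDomain P) (h' : IsIntegrallyClosed P) :
    IsDomain R ∧ IsIntegrallyClosed R := by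
  have hinj : Function.Injective φ := Function.LeftInverse.injective hψ
  have hdom : IsDomain R := hinj.isDomain φ
  refine ⟨hdom, ?_⟩
  rw [isIntegrallyClosed_iff (FractionRing R)]
  intro x hx
  let : Algebra R P := φ.toAlgebra
  let Q := FractionRing P
  have hinj2 : Function.Injective (algebraMap R Q) := by
    rw [IsScalarTower.algebraMap_eq R P Q]
    exact (IsFractionRing.injective P Q).comp hinj
  let Φ : FractionRing R →ₐ[R] Q := IsFractionRing.liftAlgHom (g := Algebra.ofId R Q) hinj2
  have h1 : IsIntegral P (Φ x) := (hx.map Φ).tower_top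
  obtain ⟨l, hl⟩ := (isIntegrallyClosed_iff Q).mp h' h1
  obtain ⟨a, b, hb, rfl⟩ := IsFractionRing.div_surjective (A := R) x
  have hb0 : b ≠ 0 := nonZeroDivisors.ne_zero hb
  have hb1 : algebraMap R (FractionRing R) b ≠ 0 := by
    simpa using hb0
  refine ⟨ψ l, ?_⟩
  rw [eq_div_iff hb1, ← map_mul]
  congr 1
  have h2 : l * φ b = φ a := by
    apply IsFractionRing.injective P Q
    have h3 : algebraMap P Q (φ b) = algebraMap R Q b := rfl
    have h4 : algebraMap P Q (φ a) = algebraMap R Q a := rfl
    have hb2 : algebraMap R Q b ≠ 0 := by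
      rw [Ne, map_eq_zero_iff _ hinj2]
      exact hb0
    rw [map_mul, hl, h3, h4, map_div₀, Φ.commutes, Φ.commutes, div_mul_cancel₀ _ hb2]
  have h5 := congrArg ψ h2
  rwa [map_mul, hψ, hψ] at h5

theorem isNormal_descent {A : Type u} [CommRing A] (ι : Type)
    (v : ι → A) (q : Ideal A) [q.IsPrime]
    (h : IsDomain (Localization.AtPrime (q.comap (MvPolynomial.eval v))))
    (h' : IsIntegrallyClosed (Localization.AtPrime (q.comap (MvPolynomial.eval v)))) :
    IsDomain (Localization.AtPrime q) ∧ IsIntegrallyClosed (Localization.AtPrime q) := by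
  have hq : q = (q.comap (MvPolynomial.eval v)).comap (MvPolynomial.C (σ := ι)) := by
    rw [Ideal.comap_comap]
    have : (MvPolynomial.eval v).comp (MvPolynomial.C (σ := ι)) = RingHom.id A := by
      ext a; simp
    rw [this, Ideal.comap_id]
  refine normal_of_retract
    (Localization.localRingHom q (q.comap (MvPolynomial.eval v)) (MvPolynomial.C (σ := ι)) hq)
    (Localization.localRingHom (q.comap (MvPolynomial.eval v)) q (MvPolynomial.eval v) rfl)
    ?_ h h'
  have key : (Localization.localRingHom (q.comap (MvPolynomial.eval v)) q (MvPolynomial.eval v)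
      rfl).comp (Localization.localRingHom q (q.comap (MvPolynomial.eval v))
        (MvPolynomial.C (σ := ι)) hq) = RingHom.id _ := by
    apply IsLocalization.ringHom_ext q.primeCompl
    ext a
    simp [Localization.localRingHom_to_map]
  intro r
  exact congrArg (fun f : Localization.AtPrime q →+* Localization.AtPrime q => f r) key

end Pool.Agent.Lib.MP_26f572_ag
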