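import Pool.Agent.Lib.MP_26f572_ag.PlOps

/-!
# The homogeneous coordinate ring of `Gr(2,6)` is free of rank 14 over a polynomial ring
-/

namespace Pool.Agent.Lib.MP_26f572_ag

open MvPolynomial

universe u v

section

variable {T : Type u} [CommRing T] (h : Fin 9 → T)

/-- the subalgebra generated by the six operators -/
noncomputable abbrev opAlg : Subalgebra T (Module.End T (Fin 14 → T)) :=
  Algebra.adjoin T (Set.range (lins h))

noncomputable instance : CommRing (opAlg h) :=
  Algebra.adjoinCommRingOfComm T (by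
    rintro _ ⟨i, rfl⟩ _ ⟨j, rfl⟩
    exact lins_comm h i j)

/-- evaluation of polynomials at the six commuting operators -/
noncomputable def evalOp : MvPolynomial (Fin 6) T →ₐ[T] opAlg h :=
  aeval fun i => ⟨lins h i, Algebra.subset_adjoin ⟨i, rfl⟩⟩

/-- evaluation of polynomials at the six commuting operators -/
noncomputable def evOp : MvPolynomial (Fin 6) T →ₐ[T] Module.End T (Fin 14 → T) :=
  (opAlg h).val.comp (evalOp h)

@[simp] lemma evOp_X (i : Fin 6) : evOp h (X i) = lins h i := by
  simp [evOp, evalOp]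

lemma evOp_comm (x y : MvPolynomial (Fin 6) T) : evOp h x * evOp h y = evOp h y * evOp h x := by
  rw [← map_mul, ← map_mul, mul_comm]

lemma evOp_mul_apply (x y : MvPolynomial (Fin 6) T) (v : Fin 14 → T) :
    evOp h (x * y) v = evOp h x (evOp h y v) := by
  rw [map_mul]
  rfl

lemma evOp_C_apply (c : T) (v : Fin 14 → T) : evOp h (C c) v = c • v := by
  rw [← algebraMap_eq, AlgHom.commutes]
  rfl

/-- the Plücker coordinates as operators -/
def popV : Fin 15 → (Fin 14 → T) → (Fin 14 → T) :=
  ![pop0 h, pop1 h, pop2 h, pop3 h, pop4 h, pop5 h, pop6 h, pop7 h, pop8 h, pop9 h, pop10 h,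
    pop11 h, pop12 h, pop13 h, pop14 h]

lemma evOp_sub_apply (x y : MvPolynomial (Fin 6) T) (v : Fin 14 → T) :
    evOp h (x - y) v = evOp h x v - evOp h y v := by
  rw [map_sub]
  rfl

lemma evOp_add_apply (x y : MvPolynomial (Fin 6) T) (v : Fin 14 → T) :
    evOp h (x + y) v = evOp h x v + evOp h y v := by
  rw [map_add]
  rfl

lemma evOp_pvec (i : Fin 15) (v : Fin 14 → T) :
    evOp h (pvec (fun i => C (h i)) X i) v = popV h i v := by
  fin_cases i
  · exact evOp_C_apply h _ v
  · exact evOp_C_apply h _ v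
  · change evOp h (C (h 2) - X 0) v = _
    rw [evOp_sub_apply, evOp_C_apply, evOp_X]
    rfl
  · change evOp h (C (h 3) - X 1) v = _
    rw [evOp_sub_apply, evOp_C_apply, evOp_X]
    rfl
  · change evOp h (C (h 4) - X 2 - X 3) v = _
    rw [evOp_sub_apply, evOp_sub_apply, evOp_C_apply, evOp_X, evOp_X]
    rfl
  · refine (congrArg (fun f : Module.End T (Fin 14 → T) => f v) (evOp_X h _)).trans ?_
    rfl
  · refine (congrArg (fun f : Module.End T (Fin 14 → T) => f v) (evOp_X h _)).trans ?_
    rfl
  · refine (congrArg (fun f : Module.End T (Fin 14 → T) => f v) (evOp_X h _)).trans ?_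
    rfl
  · change evOp h (C (h 5) - X 4) v = _
    rw [evOp_sub_apply, evOp_C_apply, evOp_X]
    rfl
  · refine (congrArg (fun f : Module.End T (Fin 14 → T) => f v) (evOp_X h _)).trans ?_
    rfl
  · refine (congrArg (fun f : Module.End T (Fin 14 → T) => f v) (evOp_X h _)).trans ?_
    rfl
  · change evOp h (C (h 6) - X 5) v = _
    rw [evOp_sub_apply, evOp_C_apply, evOp_X]
    rfl
  · refine (congrArg (fun f : Module.End T (Fin 14 → T) => f v) (evOp_X h _)).trans ?_
    rfl
  · exact evOp_C_apply h _ v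
  · exact evOp_C_apply h _ v

lemma evOp_plRel (i : Fin 15) : evOp h (plRel (pvec (fun i => C (h i)) X) i) e0 = 0 := by
  have key : ∀ a b c d e f : Fin 15,
      evOp h (pvec (fun i => C (h i)) X a * pvec (fun i => C (h i)) X b -
        pvec (fun i => C (h i)) X c * pvec (fun i => C (h i)) X d +
        pvec (fun i => C (h i)) X e * pvec (fun i => C (h i)) X f) e0 =
      popV h a (popV h b e0) - popV h c (popV h d e0) + popV h e (popV h f e0) := by
    intro a b c d e f
    rw [evOp_add_apply, evOp_sub_apply, evOp_mul_apply, evOp_mul_apply, evOp_mul_apply]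
    simp only [evOp_pvec]
  fin_cases i
  · exact (key 0 9 1 6 2 5).trans (relOp0 h)
  · exact (key 0 10 1 7 3 5).trans (relOp1 h)
  · exact (key 0 11 1 8 4 5).trans (relOp2 h)
  · exact (key 0 12 2 7 3 6).trans (relOp3 h)
  · exact (key 0 13 2 8 4 6).trans (relOp4 h)
  · exact (key 0 14 3 8 4 7).trans (relOp5 h)
  · exact (key 1 12 2 10 3 9).trans (relOp6 h)
  · exact (key 1 13 2 11 4 9).trans (relOp7 h)
  · exact (key 1 14 3 11 4 10).trans (relOp8 h)
  · exact (key 2 14 3 13 4 12).trans (relOp9 h)
  · exact (key 5 12 6 10 7 9).trans (relOp10 h)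
  · exact (key 5 13 6 11 8 9).trans (relOp11 h)
  · exact (key 5 14 7 11 8 10).trans (relOp12 h)
  · exact (key 6 14 7 13 8 12).trans (relOp13 h)
  · exact (key 9 14 10 13 11 12).trans (relOp14 h)

lemma single_eq (j : Fin 14) (v : Fin 14 → T) (hv : ∀ i, v i = if i = j then 1 else 0) :
    v = Pi.single j 1 := by
  ext i
  rw [hv, Pi.single_apply]

lemma evOp_mon (j : Fin 14) : evOp h (mon X j) e0 = Pi.single j 1 := by
  fin_cases j
  · change evOp h 1 e0 = _
    rw [map_one]
    exact single_eq 0 _ (by intro i; fin_cases i <;> rfl)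
  · change evOp h (X 0) e0 = _
    rw [evOp_X]
    exact (monOp1 h).trans (single_eq 1 _ (by intro i; fin_cases i <;> rfl))
  · change evOp h (X 1) e0 = _
    rw [evOp_X]
    exact (monOp2 h).trans (single_eq 2 _ (by intro i; fin_cases i <;> rfl))
  · change evOp h (X 2) e0 = _
    rw [evOp_X]
    exact (monOp3 h).trans (single_eq 3 _ (by intro i; fin_cases i <;> rfl))
  · change evOp h (X 3) e0 = _
    rw [evOp_X]
    exact (monOp4 h).trans (single_eq 4 _ (by intro i; fin_cases i <;> rfl))
  · change evOp h (X 4) e0 = _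
    rw [evOp_X]
    exact (monOp5 h).trans (single_eq 5 _ (by intro i; fin_cases i <;> rfl))
  · change evOp h (X 5) e0 = _
    rw [evOp_X]
    exact (monOp6 h).trans (single_eq 6 _ (by intro i; fin_cases i <;> rfl))
  · change evOp h (X 0 * X 2) e0 = _
    rw [evOp_mul_apply, evOp_X, evOp_X]
    exact (monOp7 h).trans (single_eq 7 _ (by intro i; fin_cases i <;> rfl))
  · change evOp h (X 0 * X 4) e0 = _
    rw [evOp_mul_apply, evOp_X, evOp_X]
    exact (monOp8 h).trans (single_eq 8 _ (by intro i; fin_cases i <;> rfl))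
  · change evOp h (X 2 * X 2) e0 = _
    rw [evOp_mul_apply, evOp_X]
    exact (monOp9 h).trans (single_eq 9 _ (by intro i; fin_cases i <;> rfl))
  · change evOp h (X 3 * X 3) e0 = _
    rw [evOp_mul_apply, evOp_X]
    exact (monOp10 h).trans (single_eq 10 _ (by intro i; fin_cases i <;> rfl))
  · change evOp h (X 3 * X 4) e0 = _
    rw [evOp_mul_apply, evOp_X, evOp_X]
    exact (monOp11 h).trans (single_eq 11 _ (by intro i; fin_cases i <;> rfl))
  · change evOp h (X 2 * X 5) e0 = _
    rw [evOp_mul_apply, evOp_X, evOp_X]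
    exact (monOp12 h).trans (single_eq 12 _ (by intro i; fin_cases i <;> rfl))
  · change evOp h (X 0 * X 2 * X 5) e0 = _
    rw [evOp_mul_apply, evOp_mul_apply, evOp_X, evOp_X, evOp_X]
    exact (monOp13 h).trans (single_eq 13 _ (by intro i; fin_cases i <;> rfl))

lemma evOp_rel_apply (i : Fin 15) (v : Fin 14 → T) :
    evOp h (plRel (pvec (fun i => C (h i)) X) i) v = 0 := by
  have hv : v = ∑ j, v j • evOp h (mon X j) e0 := by
    simp only [evOp_mon]
    ext i
    simp [Finset.sum_apply, Pi.single_apply]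
  rw [hv, map_sum]
  refine Finset.sum_eq_zero fun j _ => ?_
  rw [map_smul, ← evOp_mul_apply, mul_comm, evOp_mul_apply, evOp_plRel, map_zero, smul_zero]

lemma map_mon {S : Type v} [CommRing S] {A : Type*} [CommRing A] (φ : S →+* A) (z : Fin 6 → S)
    (i : Fin 14) : φ (mon z i) = mon (fun i => φ (z i)) i := by
  fin_cases i <;> simp [mon]

end

namespace Pl

variable (k : Type u) [CommRing k]

/-- the linear map `P[z] → P^14`, `x ↦ x · e0`, where `P = k[h]` -/
noncomputable def toVec₀ : MvPolynomial (Fin 6) (MvPolynomial (Fin 9) k)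
    →ₗ[MvPolynomial (Fin 9) k] (Fin 14 → MvPolynomial (Fin 9) k) :=
  (LinearMap.applyₗ (R := MvPolynomial (Fin 9) k) e0) ∘ₗ (evOp X).toLinearMap

lemma toVec₀_apply (x : MvPolynomial (Fin 6) (MvPolynomial (Fin 9) k)) :
    toVec₀ k x = evOp X x e0 := rfl

lemma evOp_eq_zero (a : MvPolynomial (Fin 6) (MvPolynomial (Fin 9) k)) (ha : a ∈ plIdeal k)
    (v : Fin 14 → MvPolynomial (Fin 9) k) : evOp X a v = 0 := by
  induction ha using Submodule.span_induction with
  | mem x hx =>
    obtain ⟨i, rfl⟩ := hx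
    exact evOp_rel_apply X i v
  | zero => simp
  | add x y _ _ hx hy => rw [evOp_add_apply, hx, hy, add_zero]
  | smul c x _ hx => rw [smul_eq_mul, evOp_mul_apply, hx, map_zero]

/-- the linear map `Pl → P^14`, `x ↦ x · e0`. -/
noncomputable def toVec : Pl k →ₗ[MvPolynomial (Fin 9) k] (Fin 14 → MvPolynomial (Fin 9) k) where
  toFun := Quotient.lift (toVec₀ k) fun a b h => by
    have h' : a - b ∈ plIdeal k := (Submodule.quotientRel_def _).mp h
    rw [← sub_eq_zero, ← map_sub]
    exact evOp_eq_zero k _ h' _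
  map_add' x y := by
    obtain ⟨x, rfl⟩ := mk_surjective x
    obtain ⟨y, rfl⟩ := mk_surjective y
    exact map_add (toVec₀ k) x y
  map_smul' t x := by
    obtain ⟨x, rfl⟩ := mk_surjective x
    exact map_smul (toVec₀ k) t x

lemma toVec_mk (x : MvPolynomial (Fin 6) (MvPolynomial (Fin 9) k)) :
    toVec k (mk x) = evOp X x e0 := rfl

/-- the linear map `P^14 → Pl` given by the 14 monomials -/
noncomputable def ofVec : (Fin 14 → MvPolynomial (Fin 9) k) →ₗ[MvPolynomial (Fin 9) k] Pl k :=
  Fintype.linearCombination (MvPolynomial (Fin 9) k) (mon (z k))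

lemma ofVec_apply (v : Fin 14 → MvPolynomial (Fin 9) k) :
    ofVec k v = ∑ i, algebraMap _ (Pl k) (v i) * mon (z k) i := by
  simp [ofVec, Fintype.linearCombination_apply, Algebra.smul_def]

lemma plRel_hz : plRel (pvec (h k) (z k)) = 0 := plRel_p k

lemma ofVec_lins (i : Fin 6) (v : Fin 14 → MvPolynomial (Fin 9) k) :
    ofVec k (lins X i v) = z k i * ofVec k v := by
  rw [ofVec_apply, ofVec_apply]
  fin_cases i
  · refine Eq.trans (Finset.sum_congr rfl fun j _ => ?_)
      (actA_spec (h k) (z k) (plRel_hz k) (fun i => algebraMap _ (Pl k) (v i)))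
    exact congrArg (· * mon (z k) j)
      (map_actA (algebraMap (MvPolynomial (Fin 9) k) (Pl k)) X v j)
  · refine Eq.trans (Finset.sum_congr rfl fun j _ => ?_)
      (actB_spec (h k) (z k) (plRel_hz k) (fun i => algebraMap _ (Pl k) (v i)))
    exact congrArg (· * mon (z k) j)
      (map_actB (algebraMap (MvPolynomial (Fin 9) k) (Pl k)) X v j)
  · refine Eq.trans (Finset.sum_congr rfl fun j _ => ?_)
      (actC_spec (h k) (z k) (plRel_hz k) (fun i => algebraMap _ (Pl k) (v i)))
    exact congrArg (· * mon (z k) j)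
      (map_actC (algebraMap (MvPolynomial (Fin 9) k) (Pl k)) X v j)
  · refine Eq.trans (Finset.sum_congr rfl fun j _ => ?_)
      (actD_spec (h k) (z k) (plRel_hz k) (fun i => algebraMap _ (Pl k) (v i)))
    exact congrArg (· * mon (z k) j)
      (map_actD (algebraMap (MvPolynomial (Fin 9) k) (Pl k)) X v j)
  · refine Eq.trans (Finset.sum_congr rfl fun j _ => ?_)
      (actE_spec (h k) (z k) (plRel_hz k) (fun i => algebraMap _ (Pl k) (v i)))
    exact congrArg (· * mon (z k) j)
      (map_actE (algebraMap (MvPolynomial (Fin 9) k) (Pl k)) X v j)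
  · refine Eq.trans (Finset.sum_congr rfl fun j _ => ?_)
      (actF_spec (h k) (z k) (plRel_hz k) (fun i => algebraMap _ (Pl k) (v i)))
    exact congrArg (· * mon (z k) j)
      (map_actF (algebraMap (MvPolynomial (Fin 9) k) (Pl k)) X v j)

lemma ofVec_evOp (x : MvPolynomial (Fin 6) (MvPolynomial (Fin 9) k))
    (v : Fin 14 → MvPolynomial (Fin 9) k) : ofVec k (evOp X x v) = mk x * ofVec k v := by
  induction x using MvPolynomial.induction_on generalizing v with
  | C a =>
    rw [evOp_C_apply, map_smul, Algebra.smul_def]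
    congr 1
  | add p q hp hq => rw [evOp_add_apply, map_add, hp, hq, map_add, add_mul]
  | mul_X p i hp =>
    rw [evOp_mul_apply, hp, evOp_X, ofVec_lins, map_mul, mul_assoc]
    rfl

lemma ofVec_e0 : ofVec k e0 = 1 := by
  rw [ofVec_apply, Finset.sum_eq_single 0]
  · simp [e0, mon]
  · intro b _ hb
    have : (e0 b : MvPolynomial (Fin 9) k) = 0 := by
      fin_cases b <;> first | exact absurd rfl hb | rfl
    rw [this, map_zero, zero_mul]
  · simp

lemma toVec_mon (j : Fin 14) : toVec k (mon (z k) j) = Pi.single j 1 := by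
  have : mon (z k) j = mk (mon X j) :=
    (map_mon (mk (k := k) : MvPolynomial (Fin 6) (MvPolynomial (Fin 9) k) →+* Pl k) X j).symm
  rw [this, toVec_mk, evOp_mon]

/-- `Pl k` is free of rank 14 over the polynomial ring in the nine parameters -/
noncomputable def linEquiv : Pl k ≃ₗ[MvPolynomial (Fin 9) k] (Fin 14 → MvPolynomial (Fin 9) k) :=
  LinearEquiv.ofLinear (toVec k) (ofVec k) (by
      apply (Pi.basisFun (MvPolynomial (Fin 9) k) (Fin 14)).ext
      intro j
      rw [LinearMap.comp_apply, Pi.basisFun_apply, ofVec, Fintype.linearCombination_apply_single,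
        one_smul, toVec_mon]
      rfl) (by
      ext x
      obtain ⟨x, rfl⟩ := mk_surjective x
      rw [LinearMap.comp_apply, toVec_mk, ofVec_evOp, ofVec_e0, mul_one]
      rfl)

instance : Module.Free (MvPolynomial (Fin 9) k) (Pl k) :=
  Module.Free.of_equiv (linEquiv k).symm

instance : Module.Finite (MvPolynomial (Fin 9) k) (Pl k) :=
  Module.Finite.equiv (linEquiv k).symm

end Pl

end Pool.Agent.Lib.MP_26f572_ag
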