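import Pool.Agent.Lib.MP_26f572_ag.PlDef

/-!
# The homogeneous coordinate ring of `Gr(2,6)` over a field is a normal domain

assuming that it is a free module over the polynomial ring in the nine parameters.
-/

namespace Pool.Agent.Lib.MP_26f572_ag

open MvPolynomial

universe u v

namespace Pl

variable (k : Type u) [Field k]

/-- the map from the polynomial ring in nine variables sending the variables to
`p12,...,p16,p23,...,p26` -/
noncomputable def psi : MvPolynomial (Fin 9) k →ₐ[k] Pl k :=
  aeval (fun i : Fin 9 => p k (Fin.castLE (by decide) i))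

/-- the localisation of the polynomial ring at `X 0` -/
abbrev LL : Type u := Localization.Away (X 0 : MvPolynomial (Fin 9) k)

/-- the inverse of `X 0` -/
noncomputable def uu : LL k := IsLocalization.Away.invSelf (X 0 : MvPolynomial (Fin 9) k)

/-- the variables in the localisation -/
noncomputable def yy (i : Fin 9) : LL k := algebraMap (MvPolynomial (Fin 9) k) (LL k) (X i)

lemma yy_mul_uu : yy k 0 * uu k = 1 := IsLocalization.Away.mul_invSelf _

/-- the Plücker vector in the localisation -/
noncomputable def qq : Fin 15 → LL k :=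
  ![yy k 0, yy k 1, yy k 2, yy k 3, yy k 4, yy k 5, yy k 6, yy k 7, yy k 8,
    (yy k 1 * yy k 6 - yy k 2 * yy k 5) * uu k,
    (yy k 1 * yy k 7 - yy k 3 * yy k 5) * uu k,
    (yy k 1 * yy k 8 - yy k 4 * yy k 5) * uu k,
    (yy k 2 * yy k 7 - yy k 3 * yy k 6) * uu k,
    (yy k 2 * yy k 8 - yy k 4 * yy k 6) * uu k,
    (yy k 3 * yy k 8 - yy k 4 * yy k 7) * uu k]

lemma plRel_qq : plRel (qq k) = 0 := by
  have hu := yy_mul_uu k
  ext i
  fin_cases i
  · simp only [plRel, qq]
    simp
    linear_combination (yy k 1 * yy k 6 - yy k 2 * yy k 5) * hu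
  · simp only [plRel, qq]
    simp
    linear_combination (yy k 1 * yy k 7 - yy k 3 * yy k 5) * hu
  · simp only [plRel, qq]
    simp
    linear_combination (yy k 1 * yy k 8 - yy k 4 * yy k 5) * hu
  · simp only [plRel, qq]
    simp
    linear_combination (yy k 2 * yy k 7 - yy k 3 * yy k 6) * hu
  · simp only [plRel, qq]
    simp
    linear_combination (yy k 2 * yy k 8 - yy k 4 * yy k 6) * hu
  · simp only [plRel, qq]
    simp
    linear_combination (yy k 3 * yy k 8 - yy k 4 * yy k 7) * hu
  all_goals
    simp only [plRel, qq]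
    simp
    ring

/-- the comparison map -/
noncomputable def phi : Pl k →ₐ[k] LL k := lift (qq k) (plRel_qq k)

lemma phi_psi (s : MvPolynomial (Fin 9) k) :
    phi k (psi k s) = algebraMap (MvPolynomial (Fin 9) k) (LL k) s := by
  have : (phi k).comp (psi k) = IsScalarTower.toAlgHom k (MvPolynomial (Fin 9) k) (LL k) := by
    apply MvPolynomial.algHom_ext
    intro i
    simp only [AlgHom.comp_apply, psi, aeval_X, phi, lift_p]
    fin_cases i <;> rfl
  exact DFunLike.congr_fun this s

lemma p_zero : p k 0 = h k 0 := rfl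

lemma psi_X (i : Fin 9) : psi k (X i) = p k (Fin.castLE (by decide) i) := by
  simp [psi]

lemma psi_X0 : psi k (X 0) = h k 0 := by
  rw [psi_X]; rfl

/-- the subalgebra of elements which become polynomials after multiplication by a power of
`p12` -/
noncomputable def sub : Subalgebra k (Pl k) where
  carrier := {x | ∃ (n : ℕ) (s : MvPolynomial (Fin 9) k), h k 0 ^ n * x = psi k s}
  mul_mem' := by
    rintro x y ⟨n, s, hx⟩ ⟨m, t, hy⟩
    refine ⟨n + m, s * t, ?_⟩
    rw [map_mul, ← hx, ← hy]
    ring
  add_mem' := by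
    rintro x y ⟨n, s, hx⟩ ⟨m, t, hy⟩
    refine ⟨n + m, X 0 ^ m * s + X 0 ^ n * t, ?_⟩
    rw [map_add, map_mul, map_mul, map_pow, map_pow, psi_X0, ← hx, ← hy]
    ring
  algebraMap_mem' := by
    intro r
    exact ⟨0, algebraMap _ _ r, by simp⟩

lemma p_mem_sub (i : Fin 15) : p k i ∈ sub k := by
  have hp := plRel_p k
  have key : ∀ i : Fin 9, p k (Fin.castLE (by decide) i) ∈ sub k := fun i =>
    ⟨0, X i, by rw [psi_X]; simp⟩
  have r0 := congrFun hp 0
  have r1 := congrFun hp 1
  have r2 := congrFun hp 2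
  have r3 := congrFun hp 3
  have r4 := congrFun hp 4
  have r5 := congrFun hp 5
  simp only [plRel, Matrix.cons_val_zero, Pi.zero_apply] at r0
  simp [plRel] at r1 r2 r3 r4 r5
  have e : ∀ i : Fin 9, psi k (X i) = p k (Fin.castLE (by decide) i) := psi_X k
  have e0 : psi k (X 0) = p k 0 := e 0
  have e1 : psi k (X 1) = p k 1 := e 1
  have e2 : psi k (X 2) = p k 2 := e 2
  have e3 : psi k (X 3) = p k 3 := e 3
  have e4 : psi k (X 4) = p k 4 := e 4
  have e5 : psi k (X 5) = p k 5 := e 5
  have e6 : psi k (X 6) = p k 6 := e 6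
  have e7 : psi k (X 7) = p k 7 := e 7
  have e8 : psi k (X 8) = p k 8 := e 8
  fin_cases i
  · exact key 0
  · exact key 1
  · exact key 2
  · exact key 3
  · exact key 4
  · exact key 5
  · exact key 6
  · exact key 7
  · exact key 8
  · refine ⟨1, X 1 * X 6 - X 2 * X 5, ?_⟩
    change p k 0 ^ 1 * p k 9 = psi k _
    simp only [map_sub, map_mul, e1, e2, e5, e6, pow_one]
    linear_combination r0
  · refine ⟨1, X 1 * X 7 - X 3 * X 5, ?_⟩
    change p k 0 ^ 1 * p k 10 = psi k _
    simp only [map_sub, map_mul, e1, e3, e5, e7, pow_one]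
    linear_combination r1
  · refine ⟨1, X 1 * X 8 - X 4 * X 5, ?_⟩
    change p k 0 ^ 1 * p k 11 = psi k _
    simp only [map_sub, map_mul, e1, e4, e5, e8, pow_one]
    linear_combination r2
  · refine ⟨1, X 2 * X 7 - X 3 * X 6, ?_⟩
    change p k 0 ^ 1 * p k 12 = psi k _
    simp only [map_sub, map_mul, e2, e3, e6, e7, pow_one]
    linear_combination r3
  · refine ⟨1, X 2 * X 8 - X 4 * X 6, ?_⟩
    change p k 0 ^ 1 * p k 13 = psi k _
    simp only [map_sub, map_mul, e2, e4, e6, e8, pow_one]
    linear_combination r4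
  · refine ⟨1, X 3 * X 8 - X 4 * X 7, ?_⟩
    change p k 0 ^ 1 * p k 14 = psi k _
    simp only [map_sub, map_mul, e3, e4, e7, e8, pow_one]
    linear_combination r5

lemma hOf_mem {A : Subalgebra k (Pl k)} {q : Fin 15 → Pl k} (hp : ∀ i, q i ∈ A) (i : Fin 9) :
    hOf q i ∈ A := by
  fin_cases i
  · exact hp 0
  · exact hp 1
  · exact add_mem (hp 2) (hp 5)
  · exact add_mem (hp 3) (hp 6)
  · exact add_mem (add_mem (hp 4) (hp 7)) (hp 9)
  · exact add_mem (hp 8) (hp 10)
  · exact add_mem (hp 11) (hp 12)
  · exact hp 13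
  · exact hp 14

lemma zOf_mem {A : Subalgebra k (Pl k)} {q : Fin 15 → Pl k} (hp : ∀ i, q i ∈ A) (i : Fin 6) :
    zOf q i ∈ A := by
  fin_cases i
  · exact hp 5
  · exact hp 6
  · exact hp 7
  · exact hp 9
  · exact hp 10
  · exact hp 12

lemma mem_sub (x : Pl k) : x ∈ sub k := by
  have hh : ∀ i, h k i ∈ sub k := by
    intro i
    have e : h k i = hOf (p k) i := by
      rw [p, hOf_pvec]
    rw [e]
    exact hOf_mem k (p_mem_sub k) i
  have hz : ∀ i, z k i ∈ sub k := by
    intro i
    have e : z k i = zOf (p k) i := by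
      rw [p, zOf_pvec]
    rw [e]
    exact zOf_mem k (p_mem_sub k) i
  have hR : ∀ r : MvPolynomial (Fin 9) k, algebraMap _ (Pl k) r ∈ sub k := by
    intro r
    induction r using MvPolynomial.induction_on with
    | C a =>
      have : algebraMap (MvPolynomial (Fin 9) k) (Pl k) (C a) = algebraMap k (Pl k) a := by
        rw [IsScalarTower.algebraMap_apply k (MvPolynomial (Fin 9) k) (Pl k)]
        rfl
      rw [this]
      exact (sub k).algebraMap_mem a
    | add a b ha hb => rw [map_add]; exact add_mem ha hb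
    | mul_X a i ha => rw [map_mul]; exact mul_mem ha (hh i)
  obtain ⟨f, rfl⟩ := mk_surjective x
  induction f using MvPolynomial.induction_on with
  | C a =>
    have : (mk (C a) : Pl k) = algebraMap (MvPolynomial (Fin 9) k) (Pl k) a :=
      (mk (k := k)).commutes a
    rw [this]
    exact hR a
  | add a b ha hb => rw [map_add]; exact add_mem ha hb
  | mul_X a i ha => rw [map_mul]; exact mul_mem ha (hz i)

lemma exists_pow_mul (x : Pl k) :
    ∃ (n : ℕ) (s : MvPolynomial (Fin 9) k), h k 0 ^ n * x = psi k s := mem_sub k x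

instance : Nontrivial (Pl k) := by
  have : plRel (0 : Fin 15 → k) = 0 := by
    ext i
    fin_cases i <;> simp [plRel]
  exact (lift (k := k) (T := k) 0 this : Pl k →+* k).domain_nontrivial

variable {k} in
lemma smul_cancel [Module.Free (MvPolynomial (Fin 9) k) (Pl k)] {a : MvPolynomial (Fin 9) k}
    (ha : a ≠ 0) {x y : Pl k} (hxy : algebraMap _ (Pl k) a * x = algebraMap _ (Pl k) a * y) :
    x = y := by
  rw [← Algebra.smul_def, ← Algebra.smul_def] at hxy
  let b := Module.Free.chooseBasis (MvPolynomial (Fin 9) k) (Pl k)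
  apply b.repr.injective
  ext i : 1
  have := DFunLike.congr_fun (congrArg b.repr hxy) i
  rw [map_smul, map_smul, Finsupp.smul_apply, Finsupp.smul_apply, smul_eq_mul, smul_eq_mul] at this
  exact mul_left_cancel₀ ha this

lemma phi_injective [Module.Free (MvPolynomial (Fin 9) k) (Pl k)] :
    Function.Injective (phi k) := by
  rw [injective_iff_map_eq_zero]
  intro x hx
  obtain ⟨n, s, hs⟩ := exists_pow_mul k x
  have h1 := congrArg (phi k) hs
  rw [map_mul, hx, mul_zero, phi_psi] at h1
  have h2 : s = 0 := by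
    have inj : Function.Injective (algebraMap (MvPolynomial (Fin 9) k) (LL k)) :=
      IsLocalization.injective _
        (powers_le_nonZeroDivisors_of_noZeroDivisors (X_ne_zero (0 : Fin 9)))
    apply inj
    rw [← h1, map_zero]
  rw [h2, map_zero] at hs
  apply smul_cancel (pow_ne_zero n (X_ne_zero (R := k) (0 : Fin 9)))
  rw [mul_zero, map_pow]
  exact hs

theorem isDomain (k : Type u) [Field k]
    [Module.Free (MvPolynomial (Fin 9) k) (Pl k)] [Module.Finite (MvPolynomial (Fin 9) k) (Pl k)] :
    IsDomain (Pl k) := by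
  have : IsDomain (LL k) := IsLocalization.isDomain_localization
    (powers_le_nonZeroDivisors_of_noZeroDivisors (X_ne_zero (0 : Fin 9)))
  exact (phi_injective k).isDomain (phi k : Pl k →+* LL k)

/-- reversal of the index set `1,...,6` on Plücker coordinates -/
def rv {T : Type v} (q : Fin 15 → T) : Fin 15 → T :=
  ![q 14, q 13, q 11, q 8, q 4, q 12, q 10, q 7, q 3, q 9, q 6, q 2, q 5, q 1, q 0]

lemma plRel_rv {T : Type v} [CommRing T] {q : Fin 15 → T} (hq : plRel q = 0) :
    plRel (rv q) = 0 := by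
  have r := congrFun hq
  have r0 := r 0
  have r1 := r 1
  have r2 := r 2
  have r3 := r 3
  have r4 := r 4
  have r5 := r 5
  have r6 := r 6
  have r7 := r 7
  have r8 := r 8
  have r9 := r 9
  have r10 := r 10
  have r11 := r 11
  have r12 := r 12
  have r13 := r 13
  have r14 := r 14
  simp [plRel] at r0 r1 r2 r3 r4 r5 r6 r7 r8 r9 r10 r11 r12 r13 r14
  ext i
  fin_cases i
  · simp [plRel, rv]; linear_combination r14
  · simp [plRel, rv]; linear_combination r13
  · simp [plRel, rv]; linear_combination r9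
  · simp [plRel, rv]; linear_combination r12
  · simp [plRel, rv]; linear_combination r8
  · simp [plRel, rv]; linear_combination r5
  · simp [plRel, rv]; linear_combination r11
  · simp [plRel, rv]; linear_combination r7
  · simp [plRel, rv]; linear_combination r4
  · simp [plRel, rv]; linear_combination r2
  · simp [plRel, rv]; linear_combination r10
  · simp [plRel, rv]; linear_combination r6
  · simp [plRel, rv]; linear_combination r3
  · simp [plRel, rv]; linear_combination r1
  · simp [plRel, rv]; linear_combination r0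

lemma map_rv {A : Type u} {B : Type v} (g : A → B) (q : Fin 15 → A) (i : Fin 15) :
    g (rv q i) = rv (fun j => g (q j)) i := by
  fin_cases i <;> rfl

lemma rv_rv {T : Type v} (q : Fin 15 → T) : rv (rv q) = q := by
  ext i
  fin_cases i <;> rfl

/-- the reversal automorphism -/
noncomputable def rev : Pl k →ₐ[k] Pl k := lift (rv (p k)) (plRel_rv (plRel_p k))

lemma rev_rev (x : Pl k) : rev k (rev k x) = x := by
  have : (rev k).comp (rev k) = AlgHom.id k (Pl k) := by
    apply hom_ext
    intro i
    rw [AlgHom.comp_apply, AlgHom.id_apply, rev, lift_p]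
    rw [map_rv (lift (rv (p k)) (plRel_rv (plRel_p k)) : Pl k → Pl k)]
    simp only [lift_p]
    rw [show (fun j => rv (p k) j) = rv (p k) from rfl, rv_rv]
  exact DFunLike.congr_fun this x

lemma rev_h0 : rev k (h k 0) = h k 8 := by
  rw [rev, lift_h]
  rfl

lemma exists_pow_of_isIntegral [Module.Free (MvPolynomial (Fin 9) k) (Pl k)]
    [IsDomain (Pl k)] (σ : Pl k →ₐ[k] Pl k) (hσ : ∀ x, σ (σ x) = x)
    {x : FractionRing (Pl k)} (hx : IsIntegral (Pl k) x) :
    ∃ (n : ℕ) (y : Pl k), algebraMap (Pl k) (FractionRing (Pl k)) (σ (h k 0)) ^ n * x =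
      algebraMap (Pl k) (FractionRing (Pl k)) y := by
  have hM : Submonoid.powers (X 0 : MvPolynomial (Fin 9) k) ≤
      nonZeroDivisors (MvPolynomial (Fin 9) k) :=
    powers_le_nonZeroDivisors_of_noZeroDivisors (X_ne_zero (0 : Fin 9))
  have : IsDomain (LL k) := IsLocalization.isDomain_localization hM
  have : IsIntegrallyClosed (LL k) :=
    isIntegrallyClosed_of_isLocalization (LL k) (Submonoid.powers (X 0 : MvPolynomial (Fin 9) k)) hM
  let E := FractionRing (LL k)
  let g : Pl k →+* E := (algebraMap (LL k) E).comp ((phi k : Pl k →+* LL k).comp (σ : Pl k →+* Pl k))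
  have hσi : Function.Injective σ := fun a b hab => by rw [← hσ a, hab, hσ]
  have hg : Function.Injective g :=
    (IsFractionRing.injective (LL k) E).comp ((phi_injective k).comp hσi)
  let G : FractionRing (Pl k) →+* E := IsFractionRing.lift hg
  have hG : ∀ y, G (algebraMap (Pl k) (FractionRing (Pl k)) y) = g y :=
    fun y => IsFractionRing.lift_algebraMap hg y
  have hint : IsIntegral (LL k) (G x) := by
    apply IsIntegral.map_of_comp_eq ((phi k : Pl k →+* LL k).comp (σ : Pl k →+* Pl k)) G ?_ hx
    ext y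
    exact (hG y).symm
  obtain ⟨l, hl⟩ := IsIntegrallyClosed.algebraMap_eq_of_integral hint
  obtain ⟨⟨s, ⟨m, n, hn⟩⟩, hs⟩ := IsLocalization.surj
    (Submonoid.powers (X 0 : MvPolynomial (Fin 9) k)) l
  have hn' : (X 0 : MvPolynomial (Fin 9) k) ^ n = m := hn
  subst hn'
  refine ⟨n, σ (psi k s), ?_⟩
  apply G.injective
  rw [map_mul, map_pow, hG, hG, ← hl]
  change algebraMap (LL k) E (phi k (σ (σ (h k 0)))) ^ n * _ =
    algebraMap (LL k) E (phi k (σ (σ (psi k s))))
  rw [hσ, hσ, phi_psi, ← psi_X0, phi_psi, ← map_pow, ← map_mul, ← map_pow]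
  congr 1
  rw [mul_comm]
  exact hs

theorem isIntegrallyClosed (k : Type u) [Field k]
    [Module.Free (MvPolynomial (Fin 9) k) (Pl k)] [Module.Finite (MvPolynomial (Fin 9) k) (Pl k)] :
    IsIntegrallyClosed (Pl k) := by
  have := isDomain k
  rw [isIntegrallyClosed_iff (FractionRing (Pl k))]
  intro x hx
  obtain ⟨n, u, hu⟩ := exists_pow_of_isIntegral k (AlgHom.id k _) (fun _ => rfl) hx
  obtain ⟨m, v, hv⟩ := exists_pow_of_isIntegral k (rev k) (rev_rev k) hx
  rw [rev_h0] at hv
  rw [AlgHom.id_apply] at hu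
  have inj := IsFractionRing.injective (Pl k) (FractionRing (Pl k))
  have huv : h k 8 ^ m * u = h k 0 ^ n * v := by
    apply inj
    rw [map_mul, map_mul, map_pow, map_pow, ← hu, ← hv]
    ring
  have h0 : h k 0 = algebraMap (MvPolynomial (Fin 9) k) (Pl k) (X 0) := rfl
  have h8 : h k 8 = algebraMap (MvPolynomial (Fin 9) k) (Pl k) (X 8) := rfl
  rw [h0, h8, ← map_pow, ← map_pow, ← Algebra.smul_def, ← Algebra.smul_def] at huv
  let b := Module.Free.chooseBasis (MvPolynomial (Fin 9) k) (Pl k)
  have hdvd : ∀ i, ∃ c, b.repr u i = X 0 ^ n * c := by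
    intro i
    have h1 := DFunLike.congr_fun (congrArg b.repr huv) i
    rw [map_smul, map_smul, Finsupp.smul_apply, Finsupp.smul_apply, smul_eq_mul,
      smul_eq_mul] at h1
    have hp : Prime (X 0 : MvPolynomial (Fin 9) k) := X_prime
    have hnd : ¬ (X 0 : MvPolynomial (Fin 9) k) ∣ X 8 ^ m := by
      intro hd
      have := hp.dvd_of_dvd_pow hd
      rw [X_dvd_X] at this
      revert this
      decide
    exact hp.pow_dvd_of_dvd_mul_left n hnd ⟨_, h1⟩
  choose c hc using hdvd
  let w : Pl k := ∑ i, c i • b i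
  have hw : u = algebraMap (MvPolynomial (Fin 9) k) (Pl k) (X 0 ^ n) * w := by
    rw [← Algebra.smul_def, Finset.smul_sum]
    conv_lhs => rw [← b.sum_repr u]
    apply Finset.sum_congr rfl
    intro i _
    rw [hc i, mul_smul]
  refine ⟨w, ?_⟩
  have hne : algebraMap (Pl k) (FractionRing (Pl k)) (h k 0) ^ n ≠ 0 := by
    apply pow_ne_zero
    rw [Ne, map_eq_zero_iff _ inj]
    intro h00
    have : (1 : Pl k) = 0 := by
      apply smul_cancel (X_ne_zero (R := k) (0 : Fin 9))
      rw [mul_one, mul_zero]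
      exact h00
    exact one_ne_zero this
  apply mul_left_cancel₀ hne
  rw [hu, hw, map_mul, h0, map_pow, map_pow]

end Pl

end Pool.Agent.Lib.MP_26f572_ag
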