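import Pool.Agent.Lib.MP_26f572_ag.CMSmooth
import Pool.Agent.Lib.MP_26f572_ag.CMDescent
import Pool.Agent.Lib.MP_26f572_ag.Normal
import Pool.Agent.Lib.MP_26f572_ag.ChartSmooth
import Pool.Agent.Lib.MP_26f572_ag.ChartOverlap
import Pool.Agent.Lib.MP_26f572_ag.ChartPoly
import Pool.Agent.Lib.MP_26f572_ag.PlNormal
import Pool.Agent.Lib.MP_26f572_ag.PlFree
import Pool.Agent.Lib.MP_26f572_ag.ChartPlucker

/-!
# The chart rings of `Hilb^4` of a smooth affine scheme are normal and Cohen–Macaulay
-/

namespace Pool.Agent.Lib.MP_26f572_ag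

open MvPolynomial

universe u v

/-- transport of localisations along an isomorphism of principal localisations -/
theorem exists_localization_equiv {A : Type u} {B : Type v} [CommRing A] [CommRing B] (a : A)
    (b : B) (e : Localization.Away a ≃+* Localization.Away b) (P : Ideal A) [P.IsPrime]
    (ha : a ∉ P) : ∃ (Q : Ideal B) (_ : Q.IsPrime),
      Nonempty (Localization.AtPrime P ≃+* Localization.AtPrime Q) := by
  have hdisj : Disjoint (Submonoid.powers a : Set A) (P : Set A) := by
    rw [Set.disjoint_left]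
    rintro _ ⟨n, rfl⟩ h
    exact ha (Ideal.IsPrime.mem_of_pow_mem inferInstance n h)
  let P' : Ideal (Localization.Away a) := P.map (algebraMap A (Localization.Away a))
  have hP' : P'.IsPrime := IsLocalization.isPrime_of_isPrime_disjoint (Submonoid.powers a) _ P
    inferInstance hdisj
  have hc : P'.comap (algebraMap A (Localization.Away a)) = P :=
    IsLocalization.under_map_of_isPrime_disjoint (Submonoid.powers a) _ inferInstance hdisj
  let Q' : Ideal (Localization.Away b) := P'.comap (e.symm : Localization.Away b →+* _)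
  have hQ' : Q'.IsPrime := inferInstance
  refine ⟨Q'.comap (algebraMap B (Localization.Away b)), inferInstance, ⟨?_⟩⟩
  have e1 := IsLocalization.localizationLocalizationAtPrimeIsoLocalization
    (Submonoid.powers a) P'
  have e2 := IsLocalization.localizationLocalizationAtPrimeIsoLocalization
    (Submonoid.powers b) Q'
  have e0 : Localization.AtPrime P ≃+*
      Localization.AtPrime (P'.comap (algebraMap A (Localization.Away a))) := by
    have H : P.primeCompl.map (RingEquiv.refl A).toMonoidHom =
        (P'.comap (algebraMap A (Localization.Away a))).primeCompl := by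
      ext x
      simp [Ideal.primeCompl, hc]
    exact IsLocalization.ringEquivOfRingEquiv _ _ (RingEquiv.refl A) H
  have e3 : Localization.AtPrime P' ≃+* Localization.AtPrime Q' := by
    have H : P'.primeCompl.map e.toMonoidHom = Q'.primeCompl := by
      ext x
      constructor
      · rintro ⟨y, hy, rfl⟩ hx
        apply hy
        have hx' : e.symm (e y) ∈ P' := hx
        rwa [e.symm_apply_apply] at hx'
      · intro hx
        refine ⟨e.symm x, fun h => hx h, ?_⟩
        exact e.apply_symm_apply x
    exact IsLocalization.ringEquivOfRingEquiv _ _ e H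
  exact e0.trans ((e1.toRingEquiv.trans e3).trans e2.symm.toRingEquiv)

/-- the chart ring of affine 3-space -/
theorem chart_base (k : Type u) [Field k] {f : Fin 3 → MvPolynomial (Fin 3) k} (hf : f = X) :
    IsDomain (Chart k (MvPolynomial (Fin 3) k) f) ∧
    IsIntegrallyClosed (Chart k (MvPolynomial (Fin 3) k) f) ∧
    IsCM (Chart k (MvPolynomial (Fin 3) k) f) := by
  subst hf
  obtain ⟨e⟩ := Chart.polyRing k
  have h1 : IsDomain (Pl k) := Pl.isDomain k
  have h2 : IsIntegrallyClosed (Pl k) := Pl.isIntegrallyClosed k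
  have h3 : IsIntegrallyClosed (MvPolynomial (Fin 3) (Pl k)) :=
    mvPolynomial_fin_isIntegrallyClosed 3
  have h4 : IsCM (MvPolynomial (Fin 3) (Pl k)) := by
    apply IsCM.mvPolynomial
    exact IsCM.of_finite_flat (A := MvPolynomial (Fin 9) k) ((isCM_of_field k).mvPolynomial _)
  have h5 : IsDomain (Chart k (MvPolynomial (Fin 3) k) (X : Fin 3 → MvPolynomial (Fin 3) k)) :=
    e.toRingEquiv.toMulEquiv.isDomain _
  refine ⟨h5, ?_, h4.of_ringEquiv e.toRingEquiv.symm⟩
  exact IsIntegrallyClosed.of_equiv e.toRingEquiv.symm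

theorem chart_poly (k : Type u) [Field k] (R : Type u) [CommRing R] [Algebra k R]
    [Algebra.Smooth k R] {f : Fin 3 → MvPolynomial (Fin 3) R} (hf : f = X) :
    IsNormalRing (Chart k (MvPolynomial (Fin 3) R) f) ∧
    IsCM (Chart k (MvPolynomial (Fin 3) R) f) := by
  let φ : MvPolynomial (Fin 3) k →ₐ[k] MvPolynomial (Fin 3) R :=
    MvPolynomial.mapAlgHom (Algebra.ofId k R)
  have hφ : (φ : MvPolynomial (Fin 3) k →+* MvPolynomial (Fin 3) R).FormallySmooth := by
    letI := MvPolynomial.algebraMvPolynomial (R := k) (S := R) (σ := Fin 3)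
    have : Algebra.FormallySmooth (MvPolynomial (Fin 3) k)
        (TensorProduct k (MvPolynomial (Fin 3) k) R) := inferInstance
    have e := Algebra.IsPushout.equiv k (MvPolynomial (Fin 3) k) R (MvPolynomial (Fin 3) R)
    exact Algebra.FormallySmooth.of_equiv e
  obtain rfl : f = φ ∘ (X : Fin 3 → MvPolynomial (Fin 3) k) := by
    rw [hf]; ext1 i; simp [φ]
  obtain ⟨h1, h2, h3⟩ := chart_base k (f := (X : Fin 3 → MvPolynomial (Fin 3) k)) rfl
  have hs := Chart.formallySmooth_mapHom X φ hφ
  letI : Algebra (Chart k (MvPolynomial (Fin 3) k) X)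
      (Chart k (MvPolynomial (Fin 3) R) (φ ∘ X)) := (Chart.mapHom X φ).toRingHom.toAlgebra
  have hs' : Algebra.FormallySmooth (Chart k (MvPolynomial (Fin 3) k) X)
      (Chart k (MvPolynomial (Fin 3) R) (φ ∘ X)) := hs
  have : IsScalarTower k (Chart k (MvPolynomial (Fin 3) k) X)
      (Chart k (MvPolynomial (Fin 3) R) (φ ∘ X)) :=
    IsScalarTower.of_algebraMap_eq fun x => ((Chart.mapHom X φ).commutes x).symm
  have hft : Algebra.FiniteType k (Chart k (MvPolynomial (Fin 3) R) (φ ∘ X)) :=
    Chart.finiteType
  have hft' : Algebra.FiniteType (Chart k (MvPolynomial (Fin 3) k) X)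
      (Chart k (MvPolynomial (Fin 3) R) (φ ∘ X)) :=
    Algebra.FiniteType.of_restrictScalars_finiteType k _ _
  have hn : IsNoetherianRing (Chart k (MvPolynomial (Fin 3) k) X) := h3.1
  have hfp : Algebra.FinitePresentation (Chart k (MvPolynomial (Fin 3) k) X)
      (Chart k (MvPolynomial (Fin 3) R) (φ ∘ X)) :=
    Algebra.FinitePresentation.of_finiteType.mp hft'
  have hsm : Algebra.Smooth (Chart k (MvPolynomial (Fin 3) k) X)
      (Chart k (MvPolynomial (Fin 3) R) (φ ∘ X)) := ⟨hs', hfp⟩
  exact ⟨IsNormalRing.of_smooth (A := Chart k (MvPolynomial (Fin 3) k) X),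
    IsCM.of_smooth (A := Chart k (MvPolynomial (Fin 3) k) X) h3⟩

theorem Chart.normal_cm (k : Type u) [Field k] (R : Type u) [CommRing R] [Algebra k R]
    [Algebra.Smooth k R] (f : Fin 3 → R) (q : Ideal (Chart k R f)) [q.IsPrime] :
    IsDomain (Localization.AtPrime q) ∧ IsIntegrallyClosed (Localization.AtPrime q) ∧
      IsCMLocal (Localization.AtPrime q) := by
  have hft : Algebra.FiniteType k (Chart k R f) := Chart.finiteType
  have hn : IsNoetherianRing (Chart k R f) := Algebra.FiniteType.isNoetherianRing k _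
  obtain ⟨hN, hC⟩ := chart_poly k R (f := (X : Fin 3 → MvPolynomial (Fin 3) R)) rfl
  obtain ⟨e, he1, he2⟩ := Chart.exists_polyEquiv (k := k) f 3
  obtain ⟨e'⟩ := Chart.overlap k (fun i => (C (f i) : MvPolynomial (Fin 3) R))
    (X : Fin 3 → MvPolynomial (Fin 3) R)
  let v : Fin 3 × Fin 4 → Chart k R f := fun x => if x.2 = x.1.succ then 1 else 0
  let P : Ideal (MvPolynomial (Fin 3 × Fin 4) (Chart k R f)) := q.comap (MvPolynomial.eval v)
  let P' : Ideal (Chart k (MvPolynomial (Fin 3) R)
    (fun i => (C (f i) : MvPolynomial (Fin 3) R))) := P.comap (e : _ →+* _)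
  have ht : Chart.trans k (fun i => (C (f i) : MvPolynomial (Fin 3) R))
      (X : Fin 3 → MvPolynomial (Fin 3) R) ∉ P' := by
    intro h
    have h1 : MvPolynomial.eval v (e (Chart.trans k (fun i => (C (f i) : MvPolynomial (Fin 3) R))
      (X : Fin 3 → MvPolynomial (Fin 3) R))) ∈ q := h
    have h2 : MvPolynomial.eval v (e (Chart.trans k
        (fun i => (C (f i) : MvPolynomial (Fin 3) R))
        (X : Fin 3 → MvPolynomial (Fin 3) R))) = 1 := by
      rw [Chart.trans]
      have h3 := RingHom.map_det ((MvPolynomial.eval v).comp (e : Chart k (MvPolynomial (Fin 3) R)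
        (fun i => (C (f i) : MvPolynomial (Fin 3) R)) →+* _)) (Matrix.of fun i j =>
          (Chart.univ k (MvPolynomial (Fin 3) R)
            (fun i => (C (f i) : MvPolynomial (Fin 3) R))).Y (fam X i) j)
      refine h3.trans ?_
      rw [← Matrix.det_one (n := Fin 4)]
      congr 1
      ext i j
      rw [RingHom.mapMatrix_apply, Matrix.map_apply, Matrix.of_apply, RingHom.comp_apply]
      refine Fin.cases ?_ (fun i => ?_) i
      · have h4 := (Chart.univ k (MvPolynomial (Fin 3) R)
            (fun i => (C (f i) : MvPolynomial (Fin 3) R))).Y_fam 0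
        rw [fam_zero] at h4
        rw [fam_zero, h4, Matrix.one_apply, Pi.single_apply]
        split_ifs with h5 h6 h6
        · simp
        · exact absurd h5.symm h6
        · exact absurd h6.symm h5
        · simp
      · rw [fam_succ]
        have h4 := he1 i j
        change MvPolynomial.eval v (e _) = _
        rw [h4, MvPolynomial.eval_X, Matrix.one_apply]
        simp only [v]
        split_ifs with h5 h6 h6
        · rfl
        · exact absurd h5.symm h6
        · exact absurd h6.symm h5
        · rfl
    rw [h2] at h1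
    exact (Ideal.ne_top_iff_one q).mp (Ideal.IsPrime.ne_top inferInstance) h1
  obtain ⟨Q, hQ, ⟨e2⟩⟩ := exists_localization_equiv _ _ e'.toRingEquiv P' ht
  have e3 : Localization.AtPrime P' ≃+* Localization.AtPrime P := by
    have H : P'.primeCompl.map (e : Chart k (MvPolynomial (Fin 3) R)
        (fun i => (C (f i) : MvPolynomial (Fin 3) R)) ≃+* _).toMonoidHom = P.primeCompl := by
      ext x
      constructor
      · rintro ⟨y, hy, rfl⟩ hx
        exact hy hx
      · intro hx
        refine ⟨e.symm x, fun h => hx ?_, ?_⟩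
        · have h' : e (e.symm x) ∈ P := h
          rwa [e.apply_symm_apply] at h'
        · exact e.apply_symm_apply x
    exact IsLocalization.ringEquivOfRingEquiv _ _ _ H
  have e4 := e3.symm.trans e2
  obtain ⟨hd, hi⟩ := hN Q
  have hc := hC.2 Q
  have hd' : IsDomain (Localization.AtPrime P) := e4.toMulEquiv.isDomain _
  have hi' : IsIntegrallyClosed (Localization.AtPrime P) := IsIntegrallyClosed.of_equiv e4.symm
  have hc' : IsCMLocal (Localization.AtPrime P) := hc.of_ringEquiv e4.symm
  obtain ⟨a1, a2⟩ := isNormal_descent _ v q hd' hi'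
  exact ⟨a1, a2, IsCMLocal.descent _ v q hc'⟩

end Pool.Agent.Lib.MP_26f572_ag
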