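import Pool.Agent.Lib.MP_26f572_ag.HilbDef
import Pool.Agent.Lib.MP_26f572_ag.Chart

/-!
# A point of the chart gives a family of closed subschemes
-/

namespace Pool.Agent.Lib.MP_26f572_ag

open CategoryTheory Limits AlgebraicGeometry
open scoped TensorProduct

universe u

/-- a point of the chart gives a family of closed subschemes of `X` -/
theorem isFamily_of_chartPt {k : Type u} [Field k] {X : Scheme.{u}} (πX : X ⟶ Spec (.of k))
    [IsSeparated πX] (U : X.Opens) (hU : IsAffineOpen U) [Algebra k Γ(X, U)]
    (he : hU.fromSpec ≫ πX = Spec.map (CommRingCat.ofHom (algebraMap k Γ(X, U))))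
    {n : ℕ} (f : Fin n → Γ(X, U)) {T : Type u} [CommRing T] [Algebra k T]
    (P : ChartPt k Γ(X, U) f T) :
    IsFamily πX (Spec.map (CommRingCat.ofHom (algebraMap k T))) (n + 1)
      (Spec.map (CommRingCat.ofHom (algebraMap T P.Alg)))
      (Spec.map (CommRingCat.ofHom (P.toAlg : Γ(X, U) →+* P.Alg)) ≫ hU.fromSpec) := by
  have hfin : Module.Finite T P.Alg := Module.Finite.of_basis P.basis
  have hfree : Module.Free T P.Alg := Module.Free.of_basis P.basis
  have hcomm : (Spec.map (CommRingCat.ofHom (P.toAlg : Γ(X, U) →+* P.Alg)) ≫ hU.fromSpec) ≫ πX =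
      Spec.map (CommRingCat.ofHom (algebraMap T P.Alg)) ≫
        Spec.map (CommRingCat.ofHom (algebraMap k T)) := by
    rw [Category.assoc, he, ← Spec.map_comp, ← Spec.map_comp, ← CommRingCat.ofHom_comp,
      ← CommRingCat.ofHom_comp]
    congr 2
    ext x
    simp only [RingHom.coe_comp, Function.comp_apply, RingHom.coe_coe, AlgHom.commutes]
    exact IsScalarTower.algebraMap_apply k T P.Alg x
  have h1 : IsFinite (Spec.map (CommRingCat.ofHom (algebraMap T P.Alg))) := by
    rw [IsFinite.SpecMap_iff]
    exact RingHom.finite_algebraMap.2 hfin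
  have h2 : Flat (Spec.map (CommRingCat.ofHom (algebraMap T P.Alg))) := by
    rw [Flat.SpecMap_iff]
    exact RingHom.flat_algebraMap_iff.2 inferInstance
  refine ⟨hcomm, h1, h2, ?_, ?_⟩
  · intro t
    rw [Scheme.Hom.finrank_SpecMap_algebraMap T P.Alg t]
    have : Nontrivial T := PrimeSpectrum.nontrivial t
    rw [Module.rankAtStalk_eq_finrank_of_free, Module.finrank_eq_card_basis P.basis,
      Fintype.card_fin]
    rfl
  · rw [IsClosedImmersion.iff_isFinite_and_mono]
    set ι := pullback.lift (Spec.map (CommRingCat.ofHom (P.toAlg : Γ(X, U) →+* P.Alg)) ≫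
      hU.fromSpec) (Spec.map (CommRingCat.ofHom (algebraMap T P.Alg))) hcomm with hι
    have e1 : ι ≫ pullback.snd πX (Spec.map (CommRingCat.ofHom (algebraMap k T))) =
        Spec.map (CommRingCat.ofHom (algebraMap T P.Alg)) := pullback.lift_snd _ _ _
    have e2 : ι ≫ pullback.fst πX (Spec.map (CommRingCat.ofHom (algebraMap k T))) =
        Spec.map (CommRingCat.ofHom (P.toAlg : Γ(X, U) →+* P.Alg)) ≫ hU.fromSpec :=
      pullback.lift_fst _ _ _
    constructor
    · have : IsFinite (ι ≫ pullback.snd πX (Spec.map (CommRingCat.ofHom (algebraMap k T)))) := by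
        rw [e1]
        exact h1
      exact IsFinite.of_comp ι (pullback.snd _ _)
    · constructor
      intro W a b hab
      have ha : a ≫ Spec.map (CommRingCat.ofHom (algebraMap T P.Alg)) =
          b ≫ Spec.map (CommRingCat.ofHom (algebraMap T P.Alg)) := by
        rw [← e1, ← Category.assoc, hab, Category.assoc]
      have hb : a ≫ Spec.map (CommRingCat.ofHom (P.toAlg : Γ(X, U) →+* P.Alg)) =
          b ≫ Spec.map (CommRingCat.ofHom (P.toAlg : Γ(X, U) →+* P.Alg)) := by
        rw [← cancel_mono hU.fromSpec]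
        rw [Category.assoc, Category.assoc, ← e2, ← Category.assoc, hab, Category.assoc]
      have hpb := isPullback_SpecMap_of_isPushout _ _ _ _
        (CommRingCat.isPushout_tensorProduct k T Γ(X, U))
      have hq : IsClosedImmersion (Spec.map (CommRingCat.ofHom (Ideal.Quotient.mk P.ker))) :=
        IsClosedImmersion.spec_of_surjective _ Ideal.Quotient.mk_surjective
      rw [← cancel_mono (Spec.map (CommRingCat.ofHom (Ideal.Quotient.mk P.ker)))]
      apply hpb.hom_ext
      · rw [Category.assoc, Category.assoc, ← Spec.map_comp]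
        exact ha
      · rw [Category.assoc, Category.assoc, ← Spec.map_comp]
        exact hb

end Pool.Agent.Lib.MP_26f572_ag
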