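import Mathlib

/-!
# Flat families of finite closed subschemes and the Hilbert scheme of points
-/

namespace Pool.Agent.Lib.MP_26f572_ag

open CategoryTheory Limits AlgebraicGeometry

universe u

/-- Let `X` and `T` be schemes over `S`.  The scheme `W` with the maps `p : W ⟶ T` and `q : W ⟶ X`
is a (flat) family of closed subschemes of length `n` of (the fibres of) `X`, parametrised by `T`:
`p` is finite and flat of constant rank `n` and `(q, p)` is a closed immersion of `W` in
`X ×_S T`. -/
structure IsFamily {S X T W : Scheme.{u}} (πX : X ⟶ S) (πT : T ⟶ S) (n : ℕ) (p : W ⟶ T)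
    (q : W ⟶ X) : Prop where
  comm : q ≫ πX = p ≫ πT
  finite : IsFinite p
  flat : Flat p
  rank : ∀ t : T, p.finrank t = n
  closed : IsClosedImmersion (pullback.lift q p comm : W ⟶ pullback πX πT)

/-- `H` (with the structure map `πH : H ⟶ S` and the universal family `p : Z ⟶ H`, `q : Z ⟶ X`)
is the Hilbert scheme of `n` points of `X / S`: every family of closed subschemes of length `n` of
`X`, parametrised by an `S`-scheme `T`, is the pull-back of the universal family along a unique
`S`-morphism `T ⟶ H`. -/
structure IsHilbertScheme {S X H Z : Scheme.{u}} (πX : X ⟶ S) (πH : H ⟶ S) (n : ℕ) (p : Z ⟶ H)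
    (q : Z ⟶ X) : Prop where
  family : IsFamily πX πH n p q
  existsUnique : ∀ {T W : Scheme.{u}} (πT : T ⟶ S) (p' : W ⟶ T) (q' : W ⟶ X),
    IsFamily πX πT n p' q' →
      ∃! g : T ⟶ H, g ≫ πH = πT ∧ ∃ w : W ⟶ Z, IsPullback w p' p g ∧ w ≫ q = q'

end Pool.Agent.Lib.MP_26f572_ag
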