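import Pool.Agent.Lib.MP_26f572_ag.LocalBasis
import Pool.Agent.Lib.MP_26f572_ag.FamilyOfPt
import Pool.Agent.Lib.MP_26f572_ag.ChartAlg

/-!
# Local structure of the Hilbert scheme of points
-/

namespace Pool.Agent.Lib.MP_26f572_ag

open CategoryTheory Limits AlgebraicGeometry

universe u

lemma ChartPt.eq_of_ringHom {k : Type u} [CommRing k] {R : Type u} [CommRing R] [Algebra k R]
    {n : ℕ} {f : Fin n → R} {T : Type u} [CommRing T] [Algebra k T] (P₁ P₂ : ChartPt k R f T)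
    (ε : P₂.Alg →+* P₁.Alg) (h1 : ∀ t, ε (algebraMap T P₂.Alg t) = algebraMap T P₁.Alg t)
    (h2 : ∀ r, ε (P₂.toAlg r) = P₁.toAlg r) : P₁ = P₂ := by
  let ε' : P₂.Alg →ₐ[T] P₁.Alg := { ε with commutes' := h1 }
  have h2' : ∀ r, ε' (P₂.toAlg r) = P₁.toAlg r := h2
  ext r i
  have h3 : P₁.toAlg r = ∑ j, P₂.Y r j • P₁.basis j := by
    rw [← h2' r, P₂.toAlg_eq_sum r, map_sum]
    refine Finset.sum_congr rfl fun j _ => ?_
    rw [map_smul, h2', ChartPt.basis_apply]
  rw [← ChartPt.basis_repr_toAlg, h3]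
  simp [Finsupp.single_apply, -ChartPt.basis_apply]

/-- A morphism `β : Spec (Chart k Γ(X, U) f) ⟶ H` classifies the universal family over the chart,
if it satisfies this condition. -/
structure IsClassifying {k : Type u} [Field k] {X H Z : Scheme.{u}}
    (πH : H ⟶ Spec (.of k)) (p : Z ⟶ H) (q : Z ⟶ X)
    (U : X.Opens) (hU : IsAffineOpen U) [Algebra k Γ(X, U)]
    {n : ℕ} (f : Fin n → Γ(X, U)) (β : Spec (.of (Chart k Γ(X, U) f)) ⟶ H) : Prop where
  compat : β ≫ πH = Spec.map (CommRingCat.ofHom (algebraMap k (Chart k Γ(X, U) f)))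
  pull : ∃ w : Spec (.of (Chart.univ k Γ(X, U) f).Alg) ⟶ Z,
    IsPullback w (Spec.map (CommRingCat.ofHom
      (algebraMap (Chart k Γ(X, U) f) (Chart.univ k Γ(X, U) f).Alg))) p β ∧
    w ≫ q = Spec.map (CommRingCat.ofHom ((Chart.univ k Γ(X, U) f).toAlg : Γ(X, U) →+* _)) ≫
      hU.fromSpec

section

variable {k : Type u} [Field k] {X H Z : Scheme.{u}} {πX : X ⟶ Spec (.of k)}
    {πH : H ⟶ Spec (.of k)} {p : Z ⟶ H} {q : Z ⟶ X}
    {U : X.Opens} {hU : IsAffineOpen U} [Algebra k Γ(X, U)]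
    {n : ℕ} {f : Fin n → Γ(X, U)} {β : Spec (.of (Chart k Γ(X, U) f)) ⟶ H}

/-- the morphism attached to a point classifies the family attached to the point -/
lemma IsClassifying.pull_map (hβ : IsClassifying πH p q U hU f β)
    {T : Type u} [CommRing T] [Algebra k T] (γ : Chart k Γ(X, U) f →ₐ[k] T) :
    ∃ w : Spec (.of ((Chart.univ k Γ(X, U) f).map γ).Alg) ⟶ Z,
      IsPullback w (Spec.map (CommRingCat.ofHom
        (algebraMap T ((Chart.univ k Γ(X, U) f).map γ).Alg))) p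
        (Spec.map (CommRingCat.ofHom (γ : _ →+* T)) ≫ β) ∧
      w ≫ q = Spec.map (CommRingCat.ofHom
        (((Chart.univ k Γ(X, U) f).map γ).toAlg : Γ(X, U) →+* _)) ≫ hU.fromSpec := by
  obtain ⟨w, hw1, hw2⟩ := hβ.pull
  obtain ⟨G, hG1, hG2⟩ := exists_isPushout_map (Chart.univ k Γ(X, U) f) γ
  refine ⟨Spec.map (CommRingCat.ofHom G) ≫ w, ?_, ?_⟩
  · exact IsPullback.paste_horiz (isPullback_SpecMap_of_isPushout _ _ _ _ hG2) hw1
  · rw [Category.assoc, hw2, ← Category.assoc, ← Spec.map_comp]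
    congr 2
    ext r
    exact hG1 r

lemma IsClassifying.hom_ext_Spec (hβ : IsClassifying πH p q U hU f β) {T : CommRingCat.{u}}
    (c₁ c₂ : Spec T ⟶ Spec (.of (Chart k Γ(X, U) f))) (hc : c₁ ≫ β = c₂ ≫ β) : c₁ = c₂ := by
  obtain ⟨γ₁, rfl⟩ := Spec.map_surjective c₁
  obtain ⟨γ₂, rfl⟩ := Spec.map_surjective c₂
  have hk : CommRingCat.ofHom (algebraMap k (Chart k Γ(X, U) f)) ≫ γ₁ =
      CommRingCat.ofHom (algebraMap k (Chart k Γ(X, U) f)) ≫ γ₂ := by
    apply Spec.map_injective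
    rw [Spec.map_comp, Spec.map_comp, ← hβ.compat, ← Category.assoc, ← Category.assoc, hc]
  let : Algebra k T := (CommRingCat.ofHom (algebraMap k (Chart k Γ(X, U) f)) ≫ γ₁).hom.toAlgebra
  let g₁ : Chart k Γ(X, U) f →ₐ[k] T := { γ₁.hom with commutes' := fun r => rfl }
  let g₂ : Chart k Γ(X, U) f →ₐ[k] T :=
    { γ₂.hom with commutes' := fun r => (congrArg (fun g => g.hom r) hk).symm }
  obtain ⟨w₁, hw₁, hq₁⟩ := hβ.pull_map g₁
  obtain ⟨w₂, hw₂, hq₂⟩ := hβ.pull_map g₂
  let θ := hw₂.lift w₁ (Spec.map (CommRingCat.ofHom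
        (algebraMap T ((Chart.univ k Γ(X, U) f).map g₁).Alg))) (by
          rw [hw₁.w]
          congr 1)
  have hθ₁ : θ ≫ w₂ = w₁ := hw₂.lift_fst _ _ _
  have hθ₂ : θ ≫ Spec.map (CommRingCat.ofHom
        (algebraMap T ((Chart.univ k Γ(X, U) f).map g₂).Alg)) = Spec.map (CommRingCat.ofHom
        (algebraMap T ((Chart.univ k Γ(X, U) f).map g₁).Alg)) := hw₂.lift_snd _ _ _
  have hθ₃ : θ ≫ Spec.map (CommRingCat.ofHom
        (((Chart.univ k Γ(X, U) f).map g₂).toAlg : Γ(X, U) →+* _)) = Spec.map (CommRingCat.ofHom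
        (((Chart.univ k Γ(X, U) f).map g₁).toAlg : Γ(X, U) →+* _)) := by
    rw [← cancel_mono hU.fromSpec, Category.assoc, ← hq₂, ← hq₁, ← Category.assoc, hθ₁]
  obtain ⟨ε, hε⟩ := Spec.map_surjective θ
  rw [← hε, ← Spec.map_comp] at hθ₂ hθ₃
  have e2 := Spec.map_injective hθ₂
  have e3 := Spec.map_injective hθ₃
  have key : (Chart.univ k Γ(X, U) f).map g₁ = (Chart.univ k Γ(X, U) f).map g₂ :=
    ChartPt.eq_of_ringHom _ _ ε.hom (fun t => congrArg (fun g => g.hom t) e2)
      (fun r => congrArg (fun g => g.hom r) e3)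
  have key' : g₁ = g₂ := by rw [← Chart.lift_map_univ g₁, key, Chart.lift_map_univ]
  have : γ₁.hom = γ₂.hom := by
    ext x
    exact DFunLike.congr_fun key' x
  rw [CommRingCat.hom_ext this]

/-- classifying morphisms are monomorphisms -/
lemma IsClassifying.mono (hβ : IsClassifying πH p q U hU f β) : Mono β := by
  constructor
  intro T c₁ c₂ hc
  refine T.affineCover.hom_ext _ _ fun i => ?_
  apply hβ.hom_ext_Spec
  exact (Category.assoc _ _ _).trans ((congrArg _ hc).trans (Category.assoc _ _ _).symm)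

/-- if the family over `Spec T` is given by the algebra `B` with basis `1, f i`, then
its classifying morphism factors through the chart. -/
lemma IsClassifying.fac (hβ : IsClassifying πH p q U hU f β)
    (hH : IsHilbertScheme πX πH (n + 1) p q) [IsSeparated πX]
    (he : hU.fromSpec ≫ πX = Spec.map (CommRingCat.ofHom (algebraMap k Γ(X, U))))
    {A B : Type u} [CommRing A] [CommRing B] [Algebra A B] [Algebra k A] [Algebra k B]
    [IsScalarTower k A B] (ψ : Γ(X, U) →ₐ[k] B) (b : Module.Basis (Fin (n + 1)) A B)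
    (hb : ∀ j, b j = ψ (fam f j)) (t : Spec (.of A) ⟶ H)
    (ht : t ≫ πH = Spec.map (CommRingCat.ofHom (algebraMap k A))) (w : Spec (.of B) ⟶ Z)
    (hw : IsPullback w (Spec.map (CommRingCat.ofHom (algebraMap A B))) p t)
    (hwq : w ≫ q = Spec.map (CommRingCat.ofHom (ψ : Γ(X, U) →+* B)) ≫ hU.fromSpec) :
    Spec.map (CommRingCat.ofHom (Chart.lift (ChartPt.ofBasis ψ b hb) : _ →+* A)) ≫ β = t := by
  let P := ChartPt.ofBasis ψ b hb
  have hF := isFamily_of_chartPt πX U hU he f P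
  obtain ⟨g, -, hg⟩ := hH.existsUnique _ _ _ hF
  refine (hg _ ⟨?_, ?_⟩).trans (hg _ ⟨ht, ?_⟩).symm
  · rw [Category.assoc, hβ.compat, ← Spec.map_comp]
    congr 1
    ext r
    exact (Chart.lift P).commutes r
  · have := hβ.pull_map (Chart.lift P)
    rw [Chart.univ_map_lift] at this
    exact this
  · obtain ⟨e, he⟩ := exists_algEquiv_ofBasis ψ b hb
    let e' : CommRingCat.of B ≅ CommRingCat.of P.Alg := e.symm.toRingEquiv.toCommRingCatIso
    refine ⟨Spec.map e'.hom ≫ w, ?_, ?_⟩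
    · have h1 : IsPullback (Spec.map e'.hom) (Spec.map (CommRingCat.ofHom
          (algebraMap A P.Alg))) (Spec.map (CommRingCat.ofHom (algebraMap A B))) (𝟙 _) := by
        refine IsPullback.of_horiz_isIso ⟨?_⟩
        rw [Category.comp_id, ← Spec.map_comp]
        congr 1
        ext r
        exact e.symm.commutes r
      simpa using h1.paste_horiz hw
    · rw [Category.assoc, hwq, ← Category.assoc, ← Spec.map_comp]
      congr 2
      ext r
      change e.symm (ψ r) = P.toAlg r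
      rw [← he r, e.symm_apply_apply]

end

/-- A point of the Hilbert scheme of `n + 1` points of `X`, whose fibre lies in an affine open
subset `U` of `X`, has an affine open neighbourhood which is isomorphic to an open subscheme of the
chart attached to some `f : Fin n → Γ(X, U)`. -/
theorem exists_chart_nhds {k : Type u} [Field k] {X H Z : Scheme.{u}} (πX : X ⟶ Spec (.of k))
    [IsSeparated πX] (πH : H ⟶ Spec (.of k)) (n : ℕ) (p : Z ⟶ H) (q : Z ⟶ X)
    (hH : IsHilbertScheme πX πH (n + 1) p q) (h : H) (U : X.Opens) (hU : IsAffineOpen U)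
    (hq : ∀ z : Z, p z = h → q z ∈ U) [Algebra k Γ(X, U)]
    (he : hU.fromSpec ≫ πX = Spec.map (CommRingCat.ofHom (algebraMap k Γ(X, U)))) :
    ∃ (f : Fin n → Γ(X, U)) (A : CommRingCat.{u}) (t : Spec A ⟶ H)
      (a : Spec A ⟶ Spec (.of (Chart k Γ(X, U) f))),
      IsOpenImmersion t ∧ IsOpenImmersion a ∧ h ∈ Set.range t ∧
      t ≫ πH = a ≫ Spec.map (CommRingCat.ofHom (algebraMap k (Chart k Γ(X, U) f))) := by
  obtain ⟨A, B, t, φ, w, ψ, f, ht, hh, hw, hwq, hb⟩ :=
    exists_local_basis πX πH n p q hH.family h U hU hq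
  algebraize [φ.hom]
  obtain ⟨b, hb⟩ := hb
  obtain ⟨κ, hκ⟩ := Spec.map_surjective (t ≫ πH)
  let _ : Algebra k A := κ.hom.toAlgebra
  let _ : Algebra k B := (φ.hom.comp κ.hom).toAlgebra
  have _ : IsScalarTower k A B := IsScalarTower.of_algebraMap_eq' rfl
  have hψ : CommRingCat.ofHom (algebraMap k Γ(X, U)) ≫ ψ = κ ≫ φ := by
    apply Spec.map_injective
    rw [Spec.map_comp, Spec.map_comp, ← he, hκ, ← Category.assoc, ← hwq, ← Category.assoc,
      ← hw.w, Category.assoc, Category.assoc, hH.family.comm]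
  let ψ' : Γ(X, U) →ₐ[k] B :=
    { ψ.hom with commutes' := fun r => congrArg (fun g => g.hom r) hψ }
  have hFC := isFamily_of_chartPt πX U hU he f (Chart.univ k Γ(X, U) f)
  obtain ⟨β, ⟨hβ1, hβ2⟩, -⟩ := hH.existsUnique _ _ _ hFC
  have hβ : IsClassifying πH p q U hU f β := ⟨hβ1, hβ2⟩
  have hmono := hβ.mono
  have hfac := hβ.fac hH he (A := A) (B := B) ψ' b hb t hκ.symm w hw hwq
  set a : Spec A ⟶ Spec (.of (Chart k Γ(X, U) f)) :=
    Spec.map (CommRingCat.ofHom (Chart.lift (ChartPt.ofBasis ψ' b hb) : _ →+* A)) with ha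
  have hopen : IsOpenImmersion a := by
    have h1 : IsOpenImmersion (a ≫ β) := by rw [hfac]; exact ht
    exact MorphismProperty.of_postcomp (W := @IsOpenImmersion)
      (W' := MorphismProperty.monomorphisms Scheme) a β hmono h1
  refine ⟨f, A, t, a, ht, hopen, hh, ?_⟩
  rw [← hfac, Category.assoc, hβ1]

/-- The local rings of the Hilbert scheme of `n + 1` points of `X` at points whose fibre lies in
an affine open subset `U` of `X` are local rings of chart rings of `U`. -/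
theorem exists_chart_stalk {k : Type u} [Field k] {X H Z : Scheme.{u}} (πX : X ⟶ Spec (.of k))
    [IsSeparated πX] (πH : H ⟶ Spec (.of k)) (n : ℕ) (p : Z ⟶ H) (q : Z ⟶ X)
    (hH : IsHilbertScheme πX πH (n + 1) p q) (h : H) (U : X.Opens) (hU : IsAffineOpen U)
    (hq : ∀ z : Z, p z = h → q z ∈ U) [Algebra k Γ(X, U)]
    (he : hU.fromSpec ≫ πX = Spec.map (CommRingCat.ofHom (algebraMap k Γ(X, U)))) :
    ∃ (f : Fin n → Γ(X, U)) (x : Ideal (Chart k Γ(X, U) f)) (_ : x.IsPrime),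
      Nonempty (Localization.AtPrime x ≃+* H.presheaf.stalk h) := by
  obtain ⟨f, A, t, a, ht, ha, ⟨y, rfl⟩, -⟩ := exists_chart_nhds πX πH n p q hH h U hU hq he
  refine ⟨f, (a y).asIdeal, (a y).isPrime, ⟨?_⟩⟩
  have i1 : H.presheaf.stalk (t y) ≅ (Spec A).presheaf.stalk y := asIso (t.stalkMap y)
  have i2 : (Spec (.of (Chart k Γ(X, U) f))).presheaf.stalk (a y) ≅
      (Spec A).presheaf.stalk y := asIso (a.stalkMap y)
  have i3 : Localization.AtPrime (a y).asIdeal ≃+*
      (Spec (.of (Chart k Γ(X, U) f))).presheaf.stalk (a y) :=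
    (StructureSheaf.stalkIso (Chart k Γ(X, U) f) (a y)).toRingEquiv
  exact i3.trans (i2 ≪≫ i1.symm).commRingCatIsoToRingEquiv

end Pool.Agent.Lib.MP_26f572_ag
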