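import Pool.Agent.Lib.MP_26f572_ag.HilbDef
import Pool.Agent.Lib.MP_26f572_ag.Chart

/-!
# Local bases of a flat family of finite subschemes
-/

namespace Pool.Agent.Lib.MP_26f572_ag

open CategoryTheory Limits AlgebraicGeometry

universe u

open scoped TensorProduct

/-- A surjection from a free module of rank `m` onto a finite flat module of constant rank `m` is
injective. -/
theorem injective_of_surjective_of_rank {A M : Type u} [CommRing A] [AddCommGroup M] [Module A M]
    [Module.Finite A M] [Module.Flat A M] (m : ℕ)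
    (hrank : ∀ P : PrimeSpectrum A, Module.rankAtStalk M P = m)
    (T : (Fin m → A) →ₗ[A] M) (hT : Function.Surjective T) : Function.Injective T := by
  refine injective_of_localized_maximal T fun J hJ => ?_
  have hJ' : J.IsPrime := hJ.isPrime
  have hnt : Nontrivial A := ⟨0, 1, fun h => hJ.ne_top
    ((Ideal.eq_top_iff_one J).mpr (h ▸ J.zero_mem))⟩
  have h1 : Module.Free (Localization.AtPrime J) (LocalizedModule J.primeCompl M) :=
    Module.free_of_flat_of_isLocalRing
  have h1' : Module.Free (Localization.AtPrime J) (LocalizedModule J.primeCompl (Fin m → A)) :=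
    Module.free_of_flat_of_isLocalRing
  have h2 : Module.finrank (Localization.AtPrime J) (LocalizedModule J.primeCompl M) = m :=
    hrank ⟨J, hJ.isPrime⟩
  have h3 : Module.finrank (Localization.AtPrime J)
      (LocalizedModule J.primeCompl (Fin m → A)) = m := by
    have := Module.rankAtStalk_eq_finrank_of_free (R := A) (M := Fin m → A)
    have h4 := congrFun this ⟨J, hJ.isPrime⟩
    simpa [Module.rankAtStalk] using h4
  have hs : Function.Surjective (LocalizedModule.map J.primeCompl T) :=
    LocalizedModule.map_surjective J.primeCompl T hT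
  let e : LocalizedModule J.primeCompl (Fin m → A) ≃ₗ[Localization.AtPrime J]
      LocalizedModule J.primeCompl M := LinearEquiv.ofFinrankEq _ _ (by rw [h2, h3])
  exact OrzechProperty.injective_of_surjective_of_injective e.toLinearMap _ e.injective hs

/-- Algebraic core: a finite flat algebra of constant rank `n+1` whose fibres are spanned by the
image of `R` has, locally on the base, a basis of the form `1, f 0, …`. -/
theorem exists_fam_basis {R A B : Type u} [CommRing R] [CommRing A] [CommRing B] [Algebra A B]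
    [Module.Finite A B] [Module.Flat A B] (n : ℕ)
    (hrank : ∀ P : PrimeSpectrum A, Module.rankAtStalk B P = n + 1)
    (ψ : R →+* B) (hspan : Submodule.span A (Set.range ψ) = ⊤) (P : PrimeSpectrum A) :
    ∃ (f : Fin n → R) (g : A), g ∉ P.asIdeal ∧
      ∃ b : Module.Basis (Fin (n + 1)) (Localization.Away g) (Localization.Away g ⊗[A] B),
        ∀ j, b j = 1 ⊗ₜ ψ (fam f j) := by
  have hfr : Module.finrank P.asIdeal.ResidueField (P.asIdeal.ResidueField ⊗[A] B) = n + 1 := by
    rw [← hrank P, Module.rankAtStalk_eq]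
  have hnt : Nontrivial (P.asIdeal.ResidueField ⊗[A] B) :=
    Module.nontrivial_of_finrank_pos (R := P.asIdeal.ResidueField) (by rw [hfr]; omega)
  -- the span of the image of `R` in the fibre
  have hspan' : Submodule.span P.asIdeal.ResidueField
      (Set.range fun r : R => (1 : P.asIdeal.ResidueField) ⊗ₜ[A] ψ r) = ⊤ := by
    rw [eq_top_iff]
    rintro x -
    induction x with
    | zero => exact Submodule.zero_mem _
    | add x y hx hy => exact Submodule.add_mem _ hx hy
    | tmul c b =>
      have hb : b ∈ Submodule.span A (Set.range ψ) := by rw [hspan]; trivial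
      rw [show c ⊗ₜ[A] b = c • ((1 : P.asIdeal.ResidueField) ⊗ₜ[A] b) by
        rw [TensorProduct.smul_tmul', smul_eq_mul, mul_one]]
      refine Submodule.smul_mem _ _ ?_
      induction hb using Submodule.span_induction with
      | mem x hx =>
        obtain ⟨r, rfl⟩ := hx
        exact Submodule.subset_span ⟨r, rfl⟩
      | zero => rw [TensorProduct.tmul_zero]; exact Submodule.zero_mem _
      | add x y _ _ hx hy => rw [TensorProduct.tmul_add]; exact Submodule.add_mem _ hx hy
      | smul a x _ hx =>
        rw [show (1 : P.asIdeal.ResidueField) ⊗ₜ[A] (a • x) =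
          (algebraMap A P.asIdeal.ResidueField a) • ((1 : P.asIdeal.ResidueField) ⊗ₜ[A] x) by
          rw [TensorProduct.tmul_smul, algebraMap_smul]]
        exact Submodule.smul_mem _ _ hx
  have hfam : ∀ m : ℕ, m ≤ n → ∃ f : Fin m → R, LinearIndependent P.asIdeal.ResidueField
      (fun j : Fin (m + 1) => (1 : P.asIdeal.ResidueField) ⊗ₜ[A] ψ (fam f j)) := by
    intro m
    induction m with
    | zero =>
      intro _
      refine ⟨Fin.elim0, ?_⟩
      have h0 : (fun j : Fin (0 + 1) => (1 : P.asIdeal.ResidueField) ⊗ₜ[A]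
          ψ (fam (Fin.elim0 : Fin 0 → R) j)) = fun _ => 1 := by
        funext j
        obtain rfl : j = 0 := Fin.fin_one_eq_zero j
        rw [fam_zero, map_one]
        rfl
      have hu : Unique (Fin (0 + 1)) := inferInstanceAs (Unique (Fin 1))
      rw [h0, linearIndependent_unique_iff]
      exact one_ne_zero
    | succ m ih =>
      intro hm
      obtain ⟨f, hf⟩ := ih (by omega)
      have hex : ∃ r : R, (1 : P.asIdeal.ResidueField) ⊗ₜ[A] ψ r ∉
          Submodule.span P.asIdeal.ResidueField
            (Set.range fun j : Fin (m + 1) => (1 : P.asIdeal.ResidueField) ⊗ₜ[A] ψ (fam f j)) := by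
        by_contra hcon
        push Not at hcon
        have h1 : Submodule.span P.asIdeal.ResidueField
            (Set.range fun j : Fin (m + 1) =>
              (1 : P.asIdeal.ResidueField) ⊗ₜ[A] ψ (fam f j)) = ⊤ := by
          rw [eq_top_iff, ← hspan', Submodule.span_le]
          rintro _ ⟨r, rfl⟩
          exact hcon r
        have h2 := finrank_span_eq_card hf
        rw [h1, finrank_top, hfr, Fintype.card_fin] at h2
        omega
      obtain ⟨r, hr⟩ := hex
      refine ⟨Fin.snoc f r, ?_⟩
      have h3 : (fun j : Fin (m + 1 + 1) => (1 : P.asIdeal.ResidueField) ⊗ₜ[A]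
          ψ (fam (Fin.snoc f r) j)) = Fin.snoc (fun j : Fin (m + 1) =>
            (1 : P.asIdeal.ResidueField) ⊗ₜ[A] ψ (fam f j)) (1 ⊗ₜ[A] ψ r) := by
        have h4 : fam (Fin.snoc f r : Fin (m + 1) → R) = Fin.snoc (fam f) r := by
          unfold fam
          exact Fin.cons_snoc_eq_snoc_cons _ _ _
        funext j
        rw [h4]
        refine Fin.lastCases ?_ (fun i => ?_) j
        · simp
        · simp
      rw [h3, linearIndependent_finSnoc]
      exact ⟨hf, hr⟩
  obtain ⟨f, hf⟩ := hfam n le_rfl
  have hf' : Submodule.span P.asIdeal.ResidueField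
      (Set.range fun j : Fin (n + 1) => (1 : P.asIdeal.ResidueField) ⊗ₜ[A] ψ (fam f j)) = ⊤ :=
    hf.span_eq_top_of_card_eq_finrank (by rw [hfr, Fintype.card_fin])
  -- the cokernel
  set N : Submodule A B := Submodule.span A (Set.range fun j => ψ (fam f j)) with hN
  have hsub : Subsingleton (P.asIdeal.ResidueField ⊗[A] (B ⧸ N)) := by
    refine ⟨fun a b => ?_⟩
    suffices h : ∀ a : P.asIdeal.ResidueField ⊗[A] (B ⧸ N), a = 0 by rw [h a, h b]
    intro a
    let L : P.asIdeal.ResidueField ⊗[A] B →ₗ[P.asIdeal.ResidueField]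
      P.asIdeal.ResidueField ⊗[A] (B ⧸ N) := N.mkQ.baseChange P.asIdeal.ResidueField
    have hL : Function.Surjective L :=
      LinearMap.lTensor_surjective _ (Submodule.mkQ_surjective N)
    obtain ⟨x, rfl⟩ := hL a
    have hx : x ∈ Submodule.span P.asIdeal.ResidueField
      (Set.range fun j : Fin (n + 1) => (1 : P.asIdeal.ResidueField) ⊗ₜ[A] ψ (fam f j)) := by
      rw [hf']; trivial
    induction hx using Submodule.span_induction with
    | mem x hx =>
      obtain ⟨j, rfl⟩ := hx
      have : N.mkQ (ψ (fam f j)) = 0 := by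
        rw [Submodule.mkQ_apply, Submodule.Quotient.mk_eq_zero]
        exact Submodule.subset_span ⟨j, rfl⟩
      simp only [L, LinearMap.baseChange_tmul, this, TensorProduct.tmul_zero]
    | zero => exact map_zero _
    | add x y _ _ hx hy => rw [map_add, hx, hy, add_zero]
    | smul a x _ hx => rw [map_smul, hx, smul_zero]
  have hns : P ∉ Module.support A (B ⧸ N) := by
    rw [Module.mem_support_iff_nontrivial_residueField_tensorProduct, not_nontrivial_iff_subsingleton]
    exact hsub
  rw [Module.mem_support_iff_of_finite] at hns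
  obtain ⟨g, hg1, hg2⟩ := SetLike.not_le_iff_exists.mp hns
  refine ⟨f, g, hg2, ?_⟩
  have hgN : ∀ b : B, g • b ∈ N := by
    intro b
    have := Module.mem_annihilator.mp hg1 (N.mkQ b)
    rwa [← map_smul, Submodule.mkQ_apply, Submodule.Quotient.mk_eq_zero] at this
  -- the map from the free module
  let T : (Fin (n + 1) → Localization.Away g) →ₗ[Localization.Away g]
      (Localization.Away g ⊗[A] B) :=
    Fintype.linearCombination (Localization.Away g) (fun j => 1 ⊗ₜ[A] ψ (fam f j))
  have hT1 : ∀ j, T (Pi.single j 1) = 1 ⊗ₜ[A] ψ (fam f j) := by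
    intro j
    simp [T, Fintype.linearCombination_apply_single]
  have hTN : ∀ b ∈ N, (1 : Localization.Away g) ⊗ₜ[A] b ∈ LinearMap.range T := by
    intro b hb
    induction hb using Submodule.span_induction with
    | mem x hx =>
      obtain ⟨j, rfl⟩ := hx
      exact ⟨_, hT1 j⟩
    | zero => rw [TensorProduct.tmul_zero]; exact Submodule.zero_mem _
    | add x y _ _ hx hy => rw [TensorProduct.tmul_add]; exact Submodule.add_mem _ hx hy
    | smul a x _ hx =>
      rw [show (1 : Localization.Away g) ⊗ₜ[A] (a • x) =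
        (algebraMap A (Localization.Away g) a) • ((1 : Localization.Away g) ⊗ₜ[A] x) by
        rw [TensorProduct.tmul_smul, algebraMap_smul]]
      exact Submodule.smul_mem _ _ hx
  have hTs : Function.Surjective T := by
    rw [← LinearMap.range_eq_top, eq_top_iff]
    rintro x -
    induction x with
    | zero => exact Submodule.zero_mem _
    | add x y hx hy => exact Submodule.add_mem _ hx hy
    | tmul c b =>
      obtain ⟨u, hu⟩ := IsLocalization.Away.algebraMap_isUnit (S := Localization.Away g) g
      rw [show c ⊗ₜ[A] b = (c * (u⁻¹ : (Localization.Away g)ˣ)) •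
        ((1 : Localization.Away g) ⊗ₜ[A] (g • b)) by
        rw [TensorProduct.tmul_smul, ← algebraMap_smul (Localization.Away g) g, ← hu, smul_smul,
          mul_assoc, Units.inv_mul, mul_one, TensorProduct.smul_tmul', smul_eq_mul, mul_one]]
      exact Submodule.smul_mem _ _ (hTN _ (hgN b))
  have hTi : Function.Injective T := by
    refine injective_of_surjective_of_rank (n + 1) (fun Q => ?_) T hTs
    rw [Module.rankAtStalk_baseChange, hrank]
  refine ⟨Module.Basis.ofEquivFun (LinearEquiv.ofBijective T ⟨hTi, hTs⟩).symm, fun j => ?_⟩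
  rw [Module.Basis.coe_ofEquivFun, LinearEquiv.symm_symm]
  exact hT1 j

/-- A square whose right edge is a monomorphism is a pullback if it becomes one after composing
with a further square. -/
theorem isPullback_of_mono {C : Type*} [Category C] {P Z Q XH A H : C} (w : P ⟶ Z) (c' : P ⟶ Q)
    (c : Z ⟶ XH) (j : Q ⟶ XH) (s : XH ⟶ H) (t : A ⟶ H) (s' : Q ⟶ A) [Mono j]
    (hsq : w ≫ c = c' ≫ j) (hr : j ≫ s = s' ≫ t)
    (hout : IsPullback w (c' ≫ s') (c ≫ s) t) : IsPullback w c' c j := by
  have hc : ∀ (cone : PullbackCone c j), cone.fst ≫ c ≫ s = (cone.snd ≫ s') ≫ t := by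
    intro cone
    rw [← Category.assoc, cone.condition, Category.assoc, hr, Category.assoc]
  refine ⟨⟨hsq⟩, ⟨PullbackCone.IsLimit.mk _
    (fun cone => hout.lift cone.fst (cone.snd ≫ s') (hc cone)) (fun cone => ?_) (fun cone => ?_)
    (fun cone m h1 h2 => ?_)⟩⟩
  · exact hout.lift_fst _ _ _
  · rw [← cancel_mono j, Category.assoc, ← hsq, ← Category.assoc, hout.lift_fst, cone.condition]
  · refine hout.hom_ext ?_ ?_
    · rw [hout.lift_fst, h1]
    · rw [hout.lift_snd, ← h2, Category.assoc]

/-- Local structure of a family near a point `h` of the base: if all points of the fibre over `h`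
lie in the affine open `U` of `X`, then, over an affine open neighbourhood `Spec A` of `h`, the
family is `Spec B → Spec A`, it maps to `U`, and for suitable functions `f` on `U` the family
`1, f 0, …, f (n-1)` is an `A`-basis of `B`. -/
theorem exists_local_basis {k : Type u} [Field k] {X H Z : Scheme.{u}} (πX : X ⟶ Spec (.of k))
    (πH : H ⟶ Spec (.of k)) (n : ℕ)
    (p : Z ⟶ H) (q : Z ⟶ X) (hF : IsFamily πX πH (n + 1) p q) (h : H) (U : X.Opens)
    (hU : IsAffineOpen U) (hq : ∀ z : Z, p z = h → q z ∈ U) :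
    ∃ (A B : CommRingCat.{u}) (t : Spec A ⟶ H) (φ : A ⟶ B) (w : Spec B ⟶ Z)
      (ψ : Γ(X, U) ⟶ B) (f : Fin n → Γ(X, U)),
      IsOpenImmersion t ∧ h ∈ Set.range t ∧ IsPullback w (Spec.map φ) p t ∧
      w ≫ q = Spec.map ψ ≫ hU.fromSpec ∧
      letI := φ.hom.toAlgebra
      ∃ b : Module.Basis (Fin (n + 1)) A B, ∀ j, b j = ψ.hom (fam f j) := by
  have hfin : IsFinite p := hF.finite
  have hflat : Flat p := hF.flat
  have hcl := hF.closed
  -- the neighbourhood of `h`
  have hclosed : IsClosed (p '' ((q ⁻¹ᵁ U : Z.Opens) : Set Z)ᶜ) :=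
    p.isClosedMap _ (q ⁻¹ᵁ U).isOpen.isClosed_compl
  let V0 : H.Opens := ⟨(p '' ((q ⁻¹ᵁ U : Z.Opens) : Set Z)ᶜ)ᶜ, hclosed.isOpen_compl⟩
  have hV0 : h ∈ V0 := by
    rintro ⟨z, hz, hpz⟩
    exact hz (hq z hpz)
  have hV0' : ∀ z : Z, p z ∈ V0 → q z ∈ U := by
    intro z hz
    by_contra hcon
    exact hz ⟨z, hcon, rfl⟩
  obtain ⟨A, t1, ht1, y, hy⟩ := (V0 : Scheme).exists_Spec_apply_eq ⟨h, hV0⟩
  let t0 : Spec A ⟶ H := t1 ≫ V0.ι
  have ht0y : t0 y = h := by
    have : t0 y = V0.ι (t1 y) := by simp [t0]
    rw [this]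
    have h2 : t1 y = ⟨h, hV0⟩ := hy
    rw [h2]
    rfl
  have ht0V : ∀ a : Spec A, t0 a ∈ V0 := by
    intro a
    have : t0 a = V0.ι (t1 a) := by simp [t0]
    rw [this]
    exact (t1 a).2
  -- the total space over `Spec A`
  have haff : IsAffine (pullback p t0) := isAffine_of_isAffineHom (pullback.snd p t0)
  let B : CommRingCat.{u} := Γ(pullback p t0, ⊤)
  obtain ⟨φ0, hφ0⟩ := Spec.map_surjective ((pullback p t0).isoSpec.inv ≫ pullback.snd p t0)
  let w0 : Spec B ⟶ Z := (pullback p t0).isoSpec.inv ≫ pullback.fst p t0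
  have hout : IsPullback w0 (Spec.map φ0) p t0 := by
    refine IsPullback.of_iso (IsPullback.of_hasPullback p t0) (pullback p t0).isoSpec (Iso.refl _)
      (Iso.refl _) (Iso.refl _) ?_ ?_ ?_ ?_
    · simp [w0]
    · simp [hφ0]
    · simp
    · simp
  -- the map to `U`
  have hrange : Set.range (w0 ≫ q) ⊆ Set.range hU.fromSpec := by
    rw [hU.range_fromSpec]
    rintro _ ⟨b, rfl⟩
    have h1 : (w0 ≫ q) b = q (w0 b) := by simp
    rw [h1]
    refine hV0' _ ?_
    have h2 : p (w0 b) = t0 (Spec.map φ0 b) := by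
      rw [← Scheme.Hom.comp_apply, ← Scheme.Hom.comp_apply, hout.w]
    rw [h2]
    exact ht0V _
  obtain ⟨ψ, hψ⟩ := Spec.map_surjective (IsOpenImmersion.lift hU.fromSpec (w0 ≫ q) hrange)
  have hwq : w0 ≫ q = Spec.map ψ ≫ hU.fromSpec := by
    rw [hψ, IsOpenImmersion.lift_fac]
  -- structure maps
  obtain ⟨κX, hκX⟩ := Spec.map_surjective (hU.fromSpec ≫ πX)
  obtain ⟨κA, hκA⟩ := Spec.map_surjective (t0 ≫ πH)
  algebraize [κX.hom, κA.hom]
  let Q : CommRingCat.{u} := .of (Γ(X, U) ⊗[k] A)
  let inl : Γ(X, U) ⟶ Q := CommRingCat.ofHom Algebra.TensorProduct.includeLeftRingHom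
  let inr : A ⟶ Q := CommRingCat.ofHom Algebra.TensorProduct.includeRight.toRingHom
  have hpo : IsPushout κX κA inl inr := CommRingCat.isPushout_tensorProduct k Γ(X, U) A
  have hpb := isPullback_SpecMap_of_isPushout _ _ _ _ hpo
  -- the open immersion `Spec (Γ(X, U) ⊗ A) → X ×_k H`
  have hj : (Spec.map inl ≫ hU.fromSpec) ≫ πX = (Spec.map inr ≫ t0) ≫ πH := by
    rw [Category.assoc, Category.assoc, ← hκX, ← hκA, hpb.w]
  let j : Spec Q ⟶ pullback πX πH :=
    pullback.lift (Spec.map inl ≫ hU.fromSpec) (Spec.map inr ≫ t0) hj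
  have hj1 : j ≫ pullback.fst πX πH = Spec.map inl ≫ hU.fromSpec := pullback.lift_fst _ _ _
  have hj2 : j ≫ pullback.snd πX πH = Spec.map inr ≫ t0 := pullback.lift_snd _ _ _
  have hjmono : Mono j := by
    refine ⟨fun a b hab => ?_⟩
    refine hpb.hom_ext ?_ ?_
    · rw [← cancel_mono hU.fromSpec, Category.assoc, Category.assoc, ← hj1, ← Category.assoc,
        ← Category.assoc, hab]
    · rw [← cancel_mono t0, Category.assoc, Category.assoc, ← hj2, ← Category.assoc,
        ← Category.assoc, hab]
  have hcc : Spec.map ψ ≫ Spec.map κX = Spec.map φ0 ≫ Spec.map κA := by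
    rw [hκX, hκA, ← Category.assoc, ← hwq, ← Category.assoc, ← hout.w, Category.assoc, hF.comm]
    exact (Category.assoc _ _ _).symm
  let c' : Spec B ⟶ Spec Q := hpb.lift (Spec.map ψ) (Spec.map φ0) hcc
  have hc'1 : c' ≫ Spec.map inl = Spec.map ψ := hpb.lift_fst _ _ _
  have hc'2 : c' ≫ Spec.map inr = Spec.map φ0 := hpb.lift_snd _ _ _
  have hpb2 : IsPullback w0 c' (pullback.lift q p hF.comm) j := by
    refine isPullback_of_mono w0 c' _ j (pullback.snd πX πH) t0 (Spec.map inr) ?_ ?_ ?_
    · refine pullback.hom_ext ?_ ?_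
      · rw [Category.assoc w0, pullback.lift_fst, Category.assoc c' j, hj1, hwq, ← hc'1,
          Category.assoc]
      · rw [Category.assoc w0, pullback.lift_snd, Category.assoc c' j, hj2, hout.w, ← hc'2,
          Category.assoc]
    · exact hj2
    · rw [hc'2, pullback.lift_snd]
      exact hout
  have hc'cl : IsClosedImmersion c' := MorphismProperty.of_isPullback hpb2 hcl
  obtain ⟨m, hm⟩ := Spec.map_surjective c'
  have hmsurj : Function.Surjective m.hom := by
    rw [← hm] at hc'cl
    exact (HasAffineProperty.SpecMap_iff_of_affineAnd IsClosedImmersion.hasAffineProperty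
      RingHom.surjective_respectsIso m).mp hc'cl
  have hm1 : inl ≫ m = ψ := by
    apply Spec.map_injective
    rw [Spec.map_comp, hm, hc'1]
  have hm2 : inr ≫ m = φ0 := by
    apply Spec.map_injective
    rw [Spec.map_comp, hm, hc'2]
  -- finiteness and flatness over `A`
  have hfin0 : IsFinite (Spec.map φ0) := MorphismProperty.of_isPullback hout hfin
  have hflat0 : Flat (Spec.map φ0) := MorphismProperty.of_isPullback hout hflat
  have hφfin : φ0.hom.Finite := (IsFinite.SpecMap_iff φ0).mp hfin0
  have hφflat : φ0.hom.Flat := Flat.SpecMap_iff.mp hflat0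
  let algAB : Algebra A B := φ0.hom.toAlgebra
  have hfinAB : Module.Finite A B := hφfin
  have hflatAB : Module.Flat A B := hφflat
  have hrank : ∀ P : PrimeSpectrum A, Module.rankAtStalk B P = n + 1 := by
    intro P
    have h1 := Scheme.Hom.finrank_of_isPullback w0 (Spec.map φ0) p t0 hout P
    rw [hF.rank] at h1
    rw [← h1]
    exact (Scheme.Hom.finrank_SpecMap_algebraMap A B P).symm
  have hspan : Submodule.span A (Set.range ψ.hom) = ⊤ := by
    rw [eq_top_iff]
    rintro b -
    obtain ⟨x, rfl⟩ := hmsurj b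
    induction x using TensorProduct.induction_on with
    | zero => rw [map_zero]; exact Submodule.zero_mem _
    | add x y hx hy => rw [map_add]; exact Submodule.add_mem _ hx hy
    | tmul r a =>
      have h1 : m.hom (r ⊗ₜ[k] a) = a • ψ.hom r := by
        have h2 : r ⊗ₜ[k] a = inr.hom a * inl.hom r := by
          change r ⊗ₜ[k] a = ((1 : Γ(X, U)) ⊗ₜ[k] a) * (r ⊗ₜ[k] (1 : A))
          rw [Algebra.TensorProduct.tmul_mul_tmul, one_mul, mul_one]
        rw [h2, map_mul, Algebra.smul_def]
        have h3 : m.hom (inr.hom a) = φ0.hom a := by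
          rw [← hm2]; rfl
        have h4 : m.hom (inl.hom r) = ψ.hom r := by
          rw [← hm1]; rfl
        rw [h3, h4]
        rfl
      rw [h1]
      exact Submodule.smul_mem _ _ (Submodule.subset_span ⟨r, rfl⟩)
  obtain ⟨f, g, hg, b, hb⟩ := exists_fam_basis n hrank ψ.hom hspan y
  -- localise at `g`
  let A' : CommRingCat.{u} := .of (Localization.Away g)
  let B' : CommRingCat.{u} := .of (Localization.Away g ⊗[A] B)
  let loc : A ⟶ A' := CommRingCat.ofHom (algebraMap A (Localization.Away g))
  let φ : A' ⟶ B' := CommRingCat.ofHom (algebraMap (Localization.Away g)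
    (Localization.Away g ⊗[A] B))
  let ir : B ⟶ B' := CommRingCat.ofHom Algebra.TensorProduct.includeRight.toRingHom
  have hpo2 : IsPushout loc φ0 φ ir :=
    CommRingCat.isPushout_tensorProduct A (Localization.Away g) B
  have hpb3 := isPullback_SpecMap_of_isPushout _ _ _ _ hpo2
  have hloc : IsOpenImmersion (Spec.map loc) := by
    infer_instance
  refine ⟨A', B', Spec.map loc ≫ t0, φ, Spec.map ir ≫ w0, ψ ≫ ir, f, inferInstance, ?_,
    hpb3.flip.paste_horiz hout, ?_, ?_⟩
  · have hy2 : y ∈ Set.range (Spec.map loc) := by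
      have h1 : Set.range (PrimeSpectrum.comap (algebraMap A (Localization.Away g))) =
          (PrimeSpectrum.basicOpen g : Set (PrimeSpectrum A)) :=
        PrimeSpectrum.localization_away_comap_range (Localization.Away g) g
      have h2 : y ∈ (PrimeSpectrum.basicOpen g : Set (PrimeSpectrum A)) := hg
      rw [← h1] at h2
      exact h2
    obtain ⟨y', hy'⟩ := hy2
    refine ⟨y', ?_⟩
    rw [Scheme.Hom.comp_apply, hy', ht0y]
  · rw [Category.assoc, hwq, Spec.map_comp, Category.assoc]
  · have key : (φ.hom.toAlgebra : Algebra A' B') =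
        (inferInstance : Algebra (Localization.Away g) (Localization.Away g ⊗[A] B)) :=
      toAlgebra_algebraMap
    rw [key]
    exact ⟨b, hb⟩

end Pool.Agent.Lib.MP_26f572_ag
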