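import Mathlib
import Pool.Agent.Lib.MP_26f572_ag.Defs

/-!
Finite sets of points of quasi-projective schemes lie in affine opens (for `MP_26f572_ag`).
-/

namespace Pool.Agent.Lib.MP_26f572_ag

universe u v

section Avoid

variable {A : Type u} {σ : Type v} [CommRing A] [SetLike σ A] [AddSubgroupClass σ A]
  (𝒜 : ℕ → σ) [GradedRing 𝒜]

/-- A homogeneous ideal not contained in a homogeneous ideal `J` contains a homogeneous element
outside `J`. -/
theorem exists_homogeneous_notMem {I J : HomogeneousIdeal 𝒜}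
    (h : ¬ I.toIdeal ≤ J.toIdeal) : ∃ (d : ℕ) (g : A), g ∈ 𝒜 d ∧ g ∈ I.toIdeal ∧ g ∉ J.toIdeal := by
  classical
  obtain ⟨x, hxI, hxJ⟩ := SetLike.not_le_iff_exists.mp h
  by_contra hcon
  push Not at hcon
  apply hxJ
  rw [← DirectSum.sum_support_decompose 𝒜 x]
  refine Ideal.sum_mem _ fun i _ => ?_
  exact hcon i _ (SetLike.coe_mem _) (I.isHomogeneous i hxI)

/-- A relevant homogeneous prime does not contain all homogeneous elements of positive degree. -/
theorem exists_pos_degree_notMem (x : ProjectiveSpectrum 𝒜) :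
    ∃ (d : ℕ) (g : A), 0 < d ∧ g ∈ 𝒜 d ∧ g ∉ x.asHomogeneousIdeal.toIdeal := by
  by_contra hcon
  push Not at hcon
  exact x.not_irrelevant_le (HomogeneousIdeal.irrelevant_le 𝒜 |>.mpr
    (fun i hi y hy => hcon i y hi hy))

/-- Homogeneous prime avoidance. -/
theorem homogeneous_avoidance (I : HomogeneousIdeal 𝒜) (s : Finset (ProjectiveSpectrum 𝒜))
    (h : ∀ x ∈ s, ¬ I.toIdeal ≤ x.asHomogeneousIdeal.toIdeal) :
    ∃ (d : ℕ) (f : A), 0 < d ∧ f ∈ 𝒜 d ∧ f ∈ I.toIdeal ∧
      ∀ x ∈ s, f ∉ x.asHomogeneousIdeal.toIdeal := by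
  classical
  induction s using Finset.strongInduction with
  | _ s ih =>
    rcases s.eq_empty_or_nonempty with rfl | hne
    · refine ⟨1, 0, one_pos, zero_mem _, zero_mem _, by simp⟩
    obtain ⟨p, hp⟩ := s.exists_minimal hne
    obtain ⟨d, f, hd, hfd, hfI, hf⟩ := ih (s.erase p) (Finset.erase_ssubset hp.prop)
      (fun x hx => h x (Finset.mem_of_mem_erase hx))
    by_cases hfp : f ∈ p.asHomogeneousIdeal.toIdeal
    swap
    · refine ⟨d, f, hd, hfd, hfI, fun x hx => ?_⟩
      by_cases hxp : x = p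
      · rw [hxp]; exact hfp
      · exact hf x (Finset.mem_erase.mpr ⟨hxp, hx⟩)
    -- a homogeneous element `g` of positive degree in `I` and in all `q ≠ p`, not in `p`
    have key : ∀ t : Finset (ProjectiveSpectrum 𝒜), t ⊆ s.erase p →
        ∃ (e : ℕ) (g : A), 0 < e ∧ g ∈ 𝒜 e ∧ g ∈ I.toIdeal ∧
          g ∉ p.asHomogeneousIdeal.toIdeal ∧ ∀ x ∈ t, g ∈ x.asHomogeneousIdeal.toIdeal := by
      intro t
      induction t using Finset.induction_on with
      | empty =>
        intro _
        obtain ⟨e1, g1, hg1, hg1I, hg1p⟩ := exists_homogeneous_notMem 𝒜 (h p hp.prop)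
        obtain ⟨e2, g2, he2, hg2, hg2p⟩ := exists_pos_degree_notMem 𝒜 p
        refine ⟨e1 + e2, g1 * g2, by omega, SetLike.mul_mem_graded hg1 hg2,
          Ideal.mul_mem_right _ _ hg1I, ?_, by simp⟩
        intro hmem
        rcases p.isPrime.mem_or_mem hmem with h1 | h2
        · exact hg1p h1
        · exact hg2p h2
      | insert q t hqt iht =>
        intro hsub
        obtain ⟨e, g, he, hg, hgI, hgp, hgt⟩ := iht
          (fun x hx => hsub (Finset.mem_insert_of_mem hx))
        have hq : q ∈ s.erase p := hsub (Finset.mem_insert_self q t)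
        have hqp : ¬ q.asHomogeneousIdeal.toIdeal ≤ p.asHomogeneousIdeal.toIdeal := by
          intro hle
          have h1 : q ≤ p := hle
          have h2 : p ≤ q := hp.le_of_le (Finset.mem_of_mem_erase hq) h1
          exact (Finset.ne_of_mem_erase hq) (le_antisymm h1 h2)
        obtain ⟨e3, g3, hg3, hg3q, hg3p⟩ := exists_homogeneous_notMem 𝒜 hqp
        refine ⟨e + e3, g * g3, by omega, SetLike.mul_mem_graded hg hg3,
          Ideal.mul_mem_right _ _ hgI, ?_, ?_⟩
        · intro hmem
          rcases p.isPrime.mem_or_mem hmem with h1 | h2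
          · exact hgp h1
          · exact hg3p h2
        · intro x hx
          rcases Finset.mem_insert.mp hx with rfl | hx
          · exact Ideal.mul_mem_left _ _ hg3q
          · exact Ideal.mul_mem_right _ _ (hgt x hx)
    obtain ⟨e, g, he, hg, hgI, hgp, hgt⟩ := key _ (Finset.Subset.refl _)
    refine ⟨e * d, f ^ e + g ^ d, by positivity, ?_, ?_, ?_⟩
    · have h1 : f ^ e ∈ 𝒜 (e * d) := by
        simpa [smul_eq_mul] using SetLike.pow_mem_graded e hfd
      have h2 : g ^ d ∈ 𝒜 (e * d) := by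
        have := SetLike.pow_mem_graded d hg
        rwa [smul_eq_mul, mul_comm d e] at this
      exact add_mem h1 h2
    · exact add_mem (Ideal.pow_mem_of_mem _ hfI _ he) (Ideal.pow_mem_of_mem _ hgI _ hd)
    · intro x hx
      by_cases hxp : x = p
      · subst hxp
        intro hmem
        have h1 : g ^ d ∈ x.asHomogeneousIdeal.toIdeal := by
          have h2 := Ideal.pow_mem_of_mem _ hfp _ he
          exact (Submodule.add_mem_iff_right _ h2).mp hmem
        exact hgp (x.isPrime.mem_of_pow_mem _ h1)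
      · have hx' : x ∈ s.erase p := Finset.mem_erase.mpr ⟨hxp, hx⟩
        intro hmem
        have h1 : f ^ e ∈ x.asHomogeneousIdeal.toIdeal := by
          have h2 := Ideal.pow_mem_of_mem _ (hgt x hx') _ hd
          exact (Submodule.add_mem_iff_left _ h2).mp hmem
        exact hf x hx' (x.isPrime.mem_of_pow_mem _ h1)

end Avoid

open AlgebraicGeometry CategoryTheory

/-- Finite subsets of a scheme immersed in `Proj` of a graded ring are contained in affine
opens. -/
theorem immersion_proj_finite_subset_affine {A : Type u} {σ : Type v} [CommRing A] [SetLike σ A]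
    [AddSubgroupClass σ A] (𝒜 : ℕ → σ) [GradedRing 𝒜] {X : Scheme.{u}}
    (i : X ⟶ Proj 𝒜) [IsImmersion i] (s : Set X) (hs : s.Finite) :
    ∃ U : X.Opens, IsAffineOpen U ∧ s ⊆ U := by
  classical
  let W : (Proj 𝒜).Opens := i.coborderRange
  let Z : Set (ProjectiveSpectrum 𝒜) := ((W : Set (Proj 𝒜)))ᶜ
  have hZ : IsClosed Z := W.isOpen.isClosed_compl
  let I : HomogeneousIdeal 𝒜 := ProjectiveSpectrum.vanishingIdeal Z
  have hI : ProjectiveSpectrum.zeroLocus 𝒜 (I : Set A) = Z := by
    rw [ProjectiveSpectrum.zeroLocus_vanishingIdeal_eq_closure, hZ.closure_eq]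
  let t : Set (ProjectiveSpectrum 𝒜) := (fun x : X => (i x : Proj 𝒜)) '' s
  have ht : t.Finite := hs.image _
  have hrange : ∀ x : X, i x ∈ W := fun x => subset_coborder (Set.mem_range_self x)
  obtain ⟨d, f, hd, hfd, hfI, hf⟩ := homogeneous_avoidance 𝒜 I ht.toFinset (by
    intro x hx hle
    rw [Set.Finite.mem_toFinset] at hx
    obtain ⟨y, hy, rfl⟩ := hx
    have h1 : (i y : ProjectiveSpectrum 𝒜) ∈ ProjectiveSpectrum.zeroLocus 𝒜 (I : Set A) := hle
    rw [hI] at h1
    exact h1 (hrange y))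
  have hDW : Proj.basicOpen 𝒜 f ≤ W := by
    intro x hx
    by_contra hxW
    have hxZ : (x : ProjectiveSpectrum 𝒜) ∈ Z := hxW
    rw [← hI] at hxZ
    exact hx (hxZ hfI)
  have haff : IsAffineOpen (Proj.basicOpen 𝒜 f) := Proj.isAffineOpen_basicOpen 𝒜 f hfd hd
  have haff2 : IsAffineOpen (W.ι ⁻¹ᵁ Proj.basicOpen 𝒜 f) :=
    haff.preimage_of_isOpenImmersion W.ι (by simpa using hDW)
  have haff3 : IsAffineOpen (i.liftCoborder ⁻¹ᵁ (W.ι ⁻¹ᵁ Proj.basicOpen 𝒜 f)) :=
    haff2.preimage i.liftCoborder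
  refine ⟨_, haff3, ?_⟩
  intro x hx
  have h1 : i x ∈ Proj.basicOpen 𝒜 f := hf _ (by
    rw [Set.Finite.mem_toFinset]
    exact ⟨x, hx, rfl⟩)
  rw [← Scheme.Hom.comp_preimage]
  have h2 : i.liftCoborder ≫ W.ι = i := i.liftCoborder_ι
  rw [h2]
  exact h1

/-- Finite subsets of a quasi-projective scheme over a field are contained in affine opens. -/
theorem quasiProjective_finite_subset_affine {k : Type u} [Field k] {n : ℕ} {X : Scheme.{u}}
    (i : X ⟶ projSpace k n) [IsImmersion i] (s : Set X) (hs : s.Finite) :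
    ∃ U : X.Opens, IsAffineOpen U ∧ s ⊆ U := by
  let _ := MvPolynomial.gradedAlgebra (σ := Fin (n + 1)) (R := k)
  have h : IsImmersion (Y := Proj (MvPolynomial.homogeneousSubmodule (Fin (n + 1)) k)) i :=
    inferInstanceAs (IsImmersion (X := X) (Y := projSpace k n) i)
  exact immersion_proj_finite_subset_affine (MvPolynomial.homogeneousSubmodule (Fin (n + 1)) k)
    i s hs

end Pool.Agent.Lib.MP_26f572_ag
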