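import Pool.Agent.Lib.MP_26f572_ag.HilbLocal
import Pool.Agent.Lib.MP_26f572_ag.ChartNormalCM
import Pool.Agent.Lib.MP_26f572_ag.QProj

/-!
# The Hilbert scheme of four points of a smooth quasi-projective scheme is normal and
Cohen–Macaulay
-/

namespace Pool.Agent.Lib.MP_26f572_ag

open CategoryTheory Limits AlgebraicGeometry

universe u

/-- the structure map `Proj k[X_0,…,X_n] ⟶ Spec k` of projective space: the canonical morphism to
the spectrum of the degree zero part, followed by the morphism attached to the inclusion of `k` in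
the degree zero part. -/
noncomputable def projSpaceMap (k : Type u) [Field k] (n : ℕ) :
    projSpace k n ⟶ Spec (.of k) :=
  letI := MvPolynomial.gradedAlgebra (σ := Fin (n + 1)) (R := k)
  Proj.toSpecZero (MvPolynomial.homogeneousSubmodule (Fin (n + 1)) k) ≫
    Spec.map (CommRingCat.ofHom
      (algebraMap k (MvPolynomial.homogeneousSubmodule (Fin (n + 1)) k 0)))

/-- `πX : X ⟶ Spec k` is quasi-projective: it factors as an immersion (an isomorphism onto a
locally closed subscheme) in some projective space over `k` followed by the structure map. -/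
def IsQuasiProjective {k : Type u} [Field k] {X : Scheme.{u}} (πX : X ⟶ Spec (.of k)) : Prop :=
  ∃ (n : ℕ) (i : X ⟶ projSpace k n), IsImmersion i ∧ i ≫ projSpaceMap k n = πX

instance (k : Type u) [Field k] (n : ℕ) : IsSeparated (projSpaceMap k n) := by
  let _ := MvPolynomial.gradedAlgebra (σ := Fin (n + 1)) (R := k)
  have h1 : IsSeparated
      (Proj.toSpecZero (MvPolynomial.homogeneousSubmodule (Fin (n + 1)) k)) := inferInstance
  have h2 : IsSeparated (Spec.map (CommRingCat.ofHom
      (algebraMap k (MvPolynomial.homogeneousSubmodule (Fin (n + 1)) k 0)))) := inferInstance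
  exact MorphismProperty.comp_mem @IsSeparated _ _ h1 h2

lemma IsQuasiProjective.isSeparated {k : Type u} [Field k] {X : Scheme.{u}}
    {πX : X ⟶ Spec (.of k)} (h : IsQuasiProjective πX) : IsSeparated πX := by
  obtain ⟨n, i, hi, rfl⟩ := h
  infer_instance

/-- the fibre of the universal family over a point of the Hilbert scheme lies in an affine open
subscheme of the (smooth quasi-projective) `X` -/
lemma exists_affine_of_fibre {k : Type u} [Field k] {X H Z : Scheme.{u}} (πX : X ⟶ Spec (.of k))
    [Smooth πX] (hX : IsQuasiProjective πX) (πH : H ⟶ Spec (.of k)) (n : ℕ) (p : Z ⟶ H)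
    (q : Z ⟶ X) (hH : IsHilbertScheme πX πH n p q) (h : H) :
    ∃ (U : X.Opens) (hU : IsAffineOpen U) (_ : Algebra k Γ(X, U)),
      (∀ z : Z, p z = h → q z ∈ U) ∧
      hU.fromSpec ≫ πX = Spec.map (CommRingCat.ofHom (algebraMap k Γ(X, U))) ∧
      Algebra.Smooth k Γ(X, U) := by
  obtain ⟨n, i, hi, -⟩ := hX
  have hp := hH.family.finite
  have hfin : (p ⁻¹' {h}).Finite := p.finite_preimage_singleton h
  obtain ⟨U, hU, hs⟩ := quasiProjective_finite_subset_affine i (q '' (p ⁻¹' {h}))
    (hfin.image _)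
  obtain ⟨κ, hκ⟩ := Spec.map_surjective (hU.fromSpec ≫ πX)
  let _ : Algebra k Γ(X, U) := κ.hom.toAlgebra
  have hsm : Algebra.Smooth k Γ(X, U) := by
    have h1 : Smooth (Spec.map κ) := by rw [hκ]; infer_instance
    have h2 : κ.hom.Smooth := (HasRingHomProperty.Spec_iff (P := @Smooth)).mp h1
    exact h2
  exact ⟨U, hU, inferInstance, fun z hz => hs ⟨z, hz, rfl⟩, hκ.symm, hsm⟩

theorem normal_cm_stalk {k : Type u} [Field k] {X H Z : Scheme.{u}} (πX : X ⟶ Spec (.of k))
    [Smooth πX] (hX : IsQuasiProjective πX) (πH : H ⟶ Spec (.of k)) (p : Z ⟶ H) (q : Z ⟶ X)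
    (hH : IsHilbertScheme πX πH 4 p q) (h : H) :
    IsDomain (H.presheaf.stalk h) ∧ IsIntegrallyClosed (H.presheaf.stalk h) ∧
      IsCMLocal (H.presheaf.stalk h) := by
  have hsep := hX.isSeparated
  obtain ⟨U, hU, _, hs, he, hsm⟩ := exists_affine_of_fibre πX hX πH 4 p q hH h
  obtain ⟨f, x, hx, ⟨e⟩⟩ := exists_chart_stalk πX πH 3 p q hH h U hU hs he
  obtain ⟨h1, h2, h3⟩ := Chart.normal_cm k Γ(X, U) f x
  exact ⟨e.symm.toMulEquiv.isDomain _, IsIntegrallyClosed.of_equiv e, h3.of_ringEquiv e⟩

/-- The Hilbert scheme of `n + 1` points of a smooth quasi-projective scheme is locally of finite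
type over the field. -/
theorem locallyOfFiniteType {k : Type u} [Field k] {X H Z : Scheme.{u}}
    (πX : X ⟶ Spec (.of k)) [Smooth πX] (hX : IsQuasiProjective πX) (πH : H ⟶ Spec (.of k))
    (n : ℕ) (p : Z ⟶ H) (q : Z ⟶ X) (hH : IsHilbertScheme πX πH (n + 1) p q) :
    LocallyOfFiniteType πH := by
  have hsep := hX.isSeparated
  have key : ∀ h : H, ∃ (Y : Scheme.{u}) (t : Y ⟶ H), IsOpenImmersion t ∧ h ∈ Set.range t ∧
      LocallyOfFiniteType (t ≫ πH) := by
    intro h
    obtain ⟨U, hU, _, hs, he, hsm⟩ := exists_affine_of_fibre πX hX πH _ p q hH h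
    obtain ⟨f, A, t, a, ht, ha, hh, hc⟩ := exists_chart_nhds πX πH n p q hH h U hU hs he
    refine ⟨_, t, ht, hh, ?_⟩
    rw [hc]
    have hft : Algebra.FiniteType k (Chart k Γ(X, U) f) := Chart.finiteType
    have : LocallyOfFiniteType
        (Spec.map (CommRingCat.ofHom (algebraMap k (Chart k Γ(X, U) f)))) := by
      rw [HasRingHomProperty.Spec_iff (P := @LocallyOfFiniteType)]
      exact RingHom.finiteType_algebraMap.mpr hft
    infer_instance
  choose Y t ht hh hc using key
  let W : H → H.Opens := fun h => (t h).opensRange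
  have hW : iSup W = ⊤ := by
    rw [eq_top_iff]
    intro h _
    exact TopologicalSpace.Opens.mem_iSup.mpr ⟨h, hh h⟩
  refine IsZariskiLocalAtSource.of_iSup_eq_top W hW fun h => ?_
  have := hc h
  rw [← IsOpenImmersion.isoOfRangeEq_inv_fac (t h) (Scheme.Opens.ι _)
      (congr_arg TopologicalSpace.Opens.carrier (t h).opensRange.opensRange_ι.symm),
    Category.assoc]
  infer_instance

end Pool.Agent.Lib.MP_26f572_ag
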