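import Pool.Agent.Lib.MP_26f572_ag.PlTable

/-! Generated file: the multiplication operators commute -/

namespace Pool.Agent.Lib.MP_26f572_ag

open Matrix

universe u

variable {T : Type u} [CommRing T]

theorem commAB (h : Fin 9 → T) (v : Fin 14 → T) : actA h (actB h v) = actB h (actA h v) := by
  ext i
  fin_cases i <;> (dsimp [actA, actB]; ring)

theorem commAC (h : Fin 9 → T) (v : Fin 14 → T) : actA h (actC h v) = actC h (actA h v) := by
  ext i
  fin_cases i <;> (dsimp [actA, actC]; ring)

theorem commAD (h : Fin 9 → T) (v : Fin 14 → T) : actA h (actD h v) = actD h (actA h v) := by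
  ext i
  fin_cases i <;> (dsimp [actA, actD]; ring)

theorem commAE (h : Fin 9 → T) (v : Fin 14 → T) : actA h (actE h v) = actE h (actA h v) := by
  ext i
  fin_cases i <;> (dsimp [actA, actE]; ring)

theorem commAF (h : Fin 9 → T) (v : Fin 14 → T) : actA h (actF h v) = actF h (actA h v) := by
  ext i
  fin_cases i <;> (dsimp [actA, actF]; ring)

theorem commBC (h : Fin 9 → T) (v : Fin 14 → T) : actB h (actC h v) = actC h (actB h v) := by
  ext i
  fin_cases i <;> (dsimp [actB, actC]; ring)

theorem commBD (h : Fin 9 → T) (v : Fin 14 → T) : actB h (actD h v) = actD h (actB h v) := by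
  ext i
  fin_cases i <;> (dsimp [actB, actD]; ring)

theorem commBE (h : Fin 9 → T) (v : Fin 14 → T) : actB h (actE h v) = actE h (actB h v) := by
  ext i
  fin_cases i <;> (dsimp [actB, actE]; ring)

theorem commBF (h : Fin 9 → T) (v : Fin 14 → T) : actB h (actF h v) = actF h (actB h v) := by
  ext i
  fin_cases i <;> (dsimp [actB, actF]; ring)

theorem commCD (h : Fin 9 → T) (v : Fin 14 → T) : actC h (actD h v) = actD h (actC h v) := by
  ext i
  fin_cases i <;> (dsimp [actC, actD]; ring)

theorem commCE (h : Fin 9 → T) (v : Fin 14 → T) : actC h (actE h v) = actE h (actC h v) := by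
  ext i
  fin_cases i <;> (dsimp [actC, actE]; ring)

theorem commCF (h : Fin 9 → T) (v : Fin 14 → T) : actC h (actF h v) = actF h (actC h v) := by
  ext i
  fin_cases i <;> (dsimp [actC, actF]; ring)

theorem commDE (h : Fin 9 → T) (v : Fin 14 → T) : actD h (actE h v) = actE h (actD h v) := by
  ext i
  fin_cases i <;> (dsimp [actD, actE]; ring)

theorem commDF (h : Fin 9 → T) (v : Fin 14 → T) : actD h (actF h v) = actF h (actD h v) := by
  ext i
  fin_cases i <;> (dsimp [actD, actF]; ring)

theorem commEF (h : Fin 9 → T) (v : Fin 14 → T) : actE h (actF h v) = actF h (actE h v) := by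
  ext i
  fin_cases i <;> (dsimp [actE, actF]; ring)

end Pool.Agent.Lib.MP_26f572_ag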