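import Pool.Agent.Lib.MP_26f572_ag.PlTable

/-! Generated file: the multiplication operators satisfy the relations on the first basis vector -/

namespace Pool.Agent.Lib.MP_26f572_ag

open Matrix

universe u

variable {T : Type u} [CommRing T]

/-- the first basis vector -/
def e0 : Fin 14 → T := ![1, 0, 0, 0, 0, 0, 0, 0, 0, 0, 0, 0, 0, 0]

/-- Plücker coordinate 0 as an operator -/
def pop0 (h : Fin 9 → T) (v : Fin 14 → T) : Fin 14 → T := h 0 • v

/-- Plücker coordinate 1 as an operator -/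
def pop1 (h : Fin 9 → T) (v : Fin 14 → T) : Fin 14 → T := h 1 • v

/-- Plücker coordinate 2 as an operator -/
def pop2 (h : Fin 9 → T) (v : Fin 14 → T) : Fin 14 → T := h 2 • v - actA h v

/-- Plücker coordinate 3 as an operator -/
def pop3 (h : Fin 9 → T) (v : Fin 14 → T) : Fin 14 → T := h 3 • v - actB h v

/-- Plücker coordinate 4 as an operator -/
def pop4 (h : Fin 9 → T) (v : Fin 14 → T) : Fin 14 → T := h 4 • v - actC h v - actD h v

/-- Plücker coordinate 5 as an operator -/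
def pop5 (h : Fin 9 → T) (v : Fin 14 → T) : Fin 14 → T := actA h v

/-- Plücker coordinate 6 as an operator -/
def pop6 (h : Fin 9 → T) (v : Fin 14 → T) : Fin 14 → T := actB h v

/-- Plücker coordinate 7 as an operator -/
def pop7 (h : Fin 9 → T) (v : Fin 14 → T) : Fin 14 → T := actC h v

/-- Plücker coordinate 8 as an operator -/
def pop8 (h : Fin 9 → T) (v : Fin 14 → T) : Fin 14 → T := h 5 • v - actE h v

/-- Plücker coordinate 9 as an operator -/
def pop9 (h : Fin 9 → T) (v : Fin 14 → T) : Fin 14 → T := actD h v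

/-- Plücker coordinate 10 as an operator -/
def pop10 (h : Fin 9 → T) (v : Fin 14 → T) : Fin 14 → T := actE h v

/-- Plücker coordinate 11 as an operator -/
def pop11 (h : Fin 9 → T) (v : Fin 14 → T) : Fin 14 → T := h 6 • v - actF h v

/-- Plücker coordinate 12 as an operator -/
def pop12 (h : Fin 9 → T) (v : Fin 14 → T) : Fin 14 → T := actF h v

/-- Plücker coordinate 13 as an operator -/
def pop13 (h : Fin 9 → T) (v : Fin 14 → T) : Fin 14 → T := h 7 • v

/-- Plücker coordinate 14 as an operator -/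
def pop14 (h : Fin 9 → T) (v : Fin 14 → T) : Fin 14 → T := h 8 • v

theorem relOp0 (h : Fin 9 → T) :
    pop0 h (pop9 h e0) - pop1 h (pop6 h e0) + pop2 h (pop5 h e0) = 0 := by
  ext i
  fin_cases i <;> (dsimp [actA, actB, actD, pop0, pop1, pop2, pop5, pop6, pop9, e0]; ring)

theorem relOp1 (h : Fin 9 → T) :
    pop0 h (pop10 h e0) - pop1 h (pop7 h e0) + pop3 h (pop5 h e0) = 0 := by
  ext i
  fin_cases i <;> (dsimp [actA, actB, actC, actE, pop0, pop1, pop10, pop3, pop5, pop7, e0]; ring)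

theorem relOp2 (h : Fin 9 → T) :
    pop0 h (pop11 h e0) - pop1 h (pop8 h e0) + pop4 h (pop5 h e0) = 0 := by
  ext i
  fin_cases i <;> (dsimp [actA, actC, actD, actE, actF, pop0, pop1, pop11, pop4, pop5, pop8, e0]; ring)

theorem relOp3 (h : Fin 9 → T) :
    pop0 h (pop12 h e0) - pop2 h (pop7 h e0) + pop3 h (pop6 h e0) = 0 := by
  ext i
  fin_cases i <;> (dsimp [actA, actB, actC, actF, pop0, pop12, pop2, pop3, pop6, pop7, e0]; ring)

theorem relOp4 (h : Fin 9 → T) :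
    pop0 h (pop13 h e0) - pop2 h (pop8 h e0) + pop4 h (pop6 h e0) = 0 := by
  ext i
  fin_cases i <;> (dsimp [actA, actB, actC, actD, actE, pop0, pop13, pop2, pop4, pop6, pop8, e0]; ring)

theorem relOp5 (h : Fin 9 → T) :
    pop0 h (pop14 h e0) - pop3 h (pop8 h e0) + pop4 h (pop7 h e0) = 0 := by
  ext i
  fin_cases i <;> (dsimp [actB, actC, actD, actE, pop0, pop14, pop3, pop4, pop7, pop8, e0]; ring)

theorem relOp6 (h : Fin 9 → T) :
    pop1 h (pop12 h e0) - pop2 h (pop10 h e0) + pop3 h (pop9 h e0) = 0 := by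
  ext i
  fin_cases i <;> (dsimp [actA, actB, actD, actE, actF, pop1, pop10, pop12, pop2, pop3, pop9, e0]; ring)

theorem relOp7 (h : Fin 9 → T) :
    pop1 h (pop13 h e0) - pop2 h (pop11 h e0) + pop4 h (pop9 h e0) = 0 := by
  ext i
  fin_cases i <;> (dsimp [actA, actC, actD, actF, pop1, pop11, pop13, pop2, pop4, pop9, e0]; ring)

theorem relOp8 (h : Fin 9 → T) :
    pop1 h (pop14 h e0) - pop3 h (pop11 h e0) + pop4 h (pop10 h e0) = 0 := by
  ext i
  fin_cases i <;> (dsimp [actB, actC, actD, actE, actF, pop1, pop10, pop11, pop14, pop3, pop4, e0]; ring)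

theorem relOp9 (h : Fin 9 → T) :
    pop2 h (pop14 h e0) - pop3 h (pop13 h e0) + pop4 h (pop12 h e0) = 0 := by
  ext i
  fin_cases i <;> (dsimp [actA, actB, actC, actD, actF, pop12, pop13, pop14, pop2, pop3, pop4, e0]; ring)

theorem relOp10 (h : Fin 9 → T) :
    pop5 h (pop12 h e0) - pop6 h (pop10 h e0) + pop7 h (pop9 h e0) = 0 := by
  ext i
  fin_cases i <;> (dsimp [actA, actB, actC, actD, actE, actF, pop10, pop12, pop5, pop6, pop7, pop9, e0]; ring)

theorem relOp11 (h : Fin 9 → T) :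
    pop5 h (pop13 h e0) - pop6 h (pop11 h e0) + pop8 h (pop9 h e0) = 0 := by
  ext i
  fin_cases i <;> (dsimp [actA, actB, actD, actE, actF, pop11, pop13, pop5, pop6, pop8, pop9, e0]; ring)

theorem relOp12 (h : Fin 9 → T) :
    pop5 h (pop14 h e0) - pop7 h (pop11 h e0) + pop8 h (pop10 h e0) = 0 := by
  ext i
  fin_cases i <;> (dsimp [actA, actC, actE, actF, pop10, pop11, pop14, pop5, pop7, pop8, e0]; ring)

theorem relOp13 (h : Fin 9 → T) :
    pop6 h (pop14 h e0) - pop7 h (pop13 h e0) + pop8 h (pop12 h e0) = 0 := by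
  ext i
  fin_cases i <;> (dsimp [actB, actC, actE, actF, pop12, pop13, pop14, pop6, pop7, pop8, e0]; ring)

theorem relOp14 (h : Fin 9 → T) :
    pop9 h (pop14 h e0) - pop10 h (pop13 h e0) + pop11 h (pop12 h e0) = 0 := by
  ext i
  fin_cases i <;> (dsimp [actD, actE, actF, pop10, pop11, pop12, pop13, pop14, pop9, e0]; ring)

theorem monOp0 (h : Fin 9 → T) : (e0 : Fin 14 → T) = ![1, 0, 0, 0, 0, 0, 0, 0, 0, 0, 0, 0, 0, 0] := by
  ext i
  fin_cases i <;> rfl

theorem monOp1 (h : Fin 9 → T) : actA h ((e0 : Fin 14 → T)) = ![0, 1, 0, 0, 0, 0, 0, 0, 0, 0, 0, 0, 0, 0] := by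
  ext i
  fin_cases i <;> (dsimp [actA, e0]; ring)

theorem monOp2 (h : Fin 9 → T) : actB h ((e0 : Fin 14 → T)) = ![0, 0, 1, 0, 0, 0, 0, 0, 0, 0, 0, 0, 0, 0] := by
  ext i
  fin_cases i <;> (dsimp [actB, e0]; ring)

theorem monOp3 (h : Fin 9 → T) : actC h ((e0 : Fin 14 → T)) = ![0, 0, 0, 1, 0, 0, 0, 0, 0, 0, 0, 0, 0, 0] := by
  ext i
  fin_cases i <;> (dsimp [actC, e0]; ring)

theorem monOp4 (h : Fin 9 → T) : actD h ((e0 : Fin 14 → T)) = ![0, 0, 0, 0, 1, 0, 0, 0, 0, 0, 0, 0, 0, 0] := by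
  ext i
  fin_cases i <;> (dsimp [actD, e0]; ring)

theorem monOp5 (h : Fin 9 → T) : actE h ((e0 : Fin 14 → T)) = ![0, 0, 0, 0, 0, 1, 0, 0, 0, 0, 0, 0, 0, 0] := by
  ext i
  fin_cases i <;> (dsimp [actE, e0]; ring)

theorem monOp6 (h : Fin 9 → T) : actF h ((e0 : Fin 14 → T)) = ![0, 0, 0, 0, 0, 0, 1, 0, 0, 0, 0, 0, 0, 0] := by
  ext i
  fin_cases i <;> (dsimp [actF, e0]; ring)

theorem monOp7 (h : Fin 9 → T) : actA h (actC h ((e0 : Fin 14 → T))) = ![0, 0, 0, 0, 0, 0, 0, 1, 0, 0, 0, 0, 0, 0] := by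
  ext i
  fin_cases i <;> (dsimp [actA, actC, e0]; ring)

theorem monOp8 (h : Fin 9 → T) : actA h (actE h ((e0 : Fin 14 → T))) = ![0, 0, 0, 0, 0, 0, 0, 0, 1, 0, 0, 0, 0, 0] := by
  ext i
  fin_cases i <;> (dsimp [actA, actE, e0]; ring)

theorem monOp9 (h : Fin 9 → T) : actC h (actC h ((e0 : Fin 14 → T))) = ![0, 0, 0, 0, 0, 0, 0, 0, 0, 1, 0, 0, 0, 0] := by
  ext i
  fin_cases i <;> (dsimp [actC, e0]; ring)

theorem monOp10 (h : Fin 9 → T) : actD h (actD h ((e0 : Fin 14 → T))) = ![0, 0, 0, 0, 0, 0, 0, 0, 0, 0, 1, 0, 0, 0] := by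
  ext i
  fin_cases i <;> (dsimp [actD, e0]; ring)

theorem monOp11 (h : Fin 9 → T) : actD h (actE h ((e0 : Fin 14 → T))) = ![0, 0, 0, 0, 0, 0, 0, 0, 0, 0, 0, 1, 0, 0] := by
  ext i
  fin_cases i <;> (dsimp [actD, actE, e0]; ring)

theorem monOp12 (h : Fin 9 → T) : actC h (actF h ((e0 : Fin 14 → T))) = ![0, 0, 0, 0, 0, 0, 0, 0, 0, 0, 0, 0, 1, 0] := by
  ext i
  fin_cases i <;> (dsimp [actC, actF, e0]; ring)

theorem monOp13 (h : Fin 9 → T) : actA h (actC h (actF h ((e0 : Fin 14 → T)))) = ![0, 0, 0, 0, 0, 0, 0, 0, 0, 0, 0, 0, 0, 1] := by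
  ext i
  fin_cases i <;> (dsimp [actA, actC, actF, e0]; ring)

end Pool.Agent.Lib.MP_26f572_ag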