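import Pool.Agent.Lib.MP_26f572_ag.PlTable

/-! Generated file: the multiplication table holds in every ring satisfying the relations -/

namespace Pool.Agent.Lib.MP_26f572_ag

open Matrix

universe u

variable {T : Type u} [CommRing T]

theorem actA_spec (h : Fin 9 → T) (z : Fin 6 → T) (hr : plRel (pvec h z) = 0)
    (v : Fin 14 → T) : ∑ i, actA h v i * mon z i = z 0 * ∑ i, v i * mon z i := by
  have r0 : h 0 * z 3 - h 1 * z 1 + (h 2 - z 0) * z 0 = 0 := congrFun hr 0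
  have r1 : h 0 * z 4 - h 1 * z 2 + (h 3 - z 1) * z 0 = 0 := congrFun hr 1
  have r2 : h 0 * (h 6 - z 5) - h 1 * (h 5 - z 4) + (h 4 - z 2 - z 3) * z 0 = 0 := congrFun hr 2
  have r3 : h 0 * z 5 - (h 2 - z 0) * z 2 + (h 3 - z 1) * z 1 = 0 := congrFun hr 3
  have r4 : h 0 * h 7 - (h 2 - z 0) * (h 5 - z 4) + (h 4 - z 2 - z 3) * z 1 = 0 := congrFun hr 4
  have r5 : h 0 * h 8 - (h 3 - z 1) * (h 5 - z 4) + (h 4 - z 2 - z 3) * z 2 = 0 := congrFun hr 5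
  have r6 : h 1 * z 5 - (h 2 - z 0) * z 4 + (h 3 - z 1) * z 3 = 0 := congrFun hr 6
  have r7 : h 1 * h 7 - (h 2 - z 0) * (h 6 - z 5) + (h 4 - z 2 - z 3) * z 3 = 0 := congrFun hr 7
  have r8 : h 1 * h 8 - (h 3 - z 1) * (h 6 - z 5) + (h 4 - z 2 - z 3) * z 4 = 0 := congrFun hr 8
  have r9 : (h 2 - z 0) * h 8 - (h 3 - z 1) * h 7 + (h 4 - z 2 - z 3) * z 5 = 0 := congrFun hr 9
  have r10 : z 0 * z 5 - z 1 * z 4 + z 2 * z 3 = 0 := congrFun hr 10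
  have r11 : z 0 * h 7 - z 1 * (h 6 - z 5) + (h 5 - z 4) * z 3 = 0 := congrFun hr 11
  have r12 : z 0 * h 8 - z 2 * (h 6 - z 5) + (h 5 - z 4) * z 4 = 0 := congrFun hr 12
  have r13 : z 1 * h 8 - z 2 * h 7 + (h 5 - z 4) * z 5 = 0 := congrFun hr 13
  have r14 : z 3 * h 8 - z 4 * h 7 + (h 6 - z 5) * z 5 = 0 := congrFun hr 14
  simp only [Fin.sum_univ_succ, Fin.sum_univ_zero, actA, mon]
  dsimp
  linear_combination (v 1 + v 7 * z 2 + v 8 * z 4 + v 9 * z 5 + v 10 * z 5 + v 11 * h 7 + v 13 * z 2 * z 5) * r0 +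
    (v 2 - v 9 * z 4 - v 10 * z 4 + v 11 * z 5 - v 11 * h 6 + 2 * v 13 * h 1 * h 8) * r1 +
    (v 4 + v 9 * z 2 + v 10 * z 3 + v 10 * h 4 + v 11 * h 5 - v 13 * h 0 * h 8) * r2 +
    (v 13 * h 0 * h 8) * r3 +
    (-v 7 * h 1 - v 13 * z 5 * h 1 - v 13 * h 0 * h 7) * r4 +
    (-v 6 + v 7 * h 0 - v 9 * h 2 - v 10 * h 2 - v 11 * h 3 - v 13 * h 1 * h 5 + v 13 * h 0 * h 6) * r5 +
    (v 7 * h 1 + v 13 * z 5 * h 1 + v 13 * h 0 * h 7) * r6 +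
    (2 * v 6 - v 7 * h 0 - v 8 * h 1 + 2 * v 9 * h 2 + 2 * v 10 * h 2 + 2 * v 11 * h 3 + 2 * v 13 * h 1 * h 5 - 2 * v 13 * h 0 * h 6) * r7 +
    (2 * v 9 * h 1 + v 10 * h 1) * r8 +
    (v 9 * h 0 + v 13 * h 1 * h 3) * r9 +
    (v 6 - v 7 * h 0 - v 8 * h 1 + v 9 * z 0 + v 9 * h 2 + v 10 * z 0 + v 10 * h 2 + v 11 * h 3 + v 13 * h 1 * h 5 - v 13 * z 5 * h 0 - v 13 * h 0 * h 6) * r10 +
    (3 * v 9 * h 1 + 2 * v 10 * h 1 + v 11 * z 0 + v 13 * h 1 * h 4 - v 13 * h 0 * h 5) * r11 +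
    (-v 9 * h 0 - v 10 * h 0) * r12 +
    (v 11 * h 0 + 2 * v 13 * z 0 * h 1 - 2 * v 13 * h 1 * h 2 + v 13 * z 1 * h 0) * r13 +
    (v 13 * h 1 * h 1 - v 13 * z 0 * h 0) * r14

theorem actB_spec (h : Fin 9 → T) (z : Fin 6 → T) (hr : plRel (pvec h z) = 0)
    (v : Fin 14 → T) : ∑ i, actB h v i * mon z i = z 1 * ∑ i, v i * mon z i := by
  have r0 : h 0 * z 3 - h 1 * z 1 + (h 2 - z 0) * z 0 = 0 := congrFun hr 0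
  have r1 : h 0 * z 4 - h 1 * z 2 + (h 3 - z 1) * z 0 = 0 := congrFun hr 1
  have r2 : h 0 * (h 6 - z 5) - h 1 * (h 5 - z 4) + (h 4 - z 2 - z 3) * z 0 = 0 := congrFun hr 2
  have r3 : h 0 * z 5 - (h 2 - z 0) * z 2 + (h 3 - z 1) * z 1 = 0 := congrFun hr 3
  have r4 : h 0 * h 7 - (h 2 - z 0) * (h 5 - z 4) + (h 4 - z 2 - z 3) * z 1 = 0 := congrFun hr 4
  have r5 : h 0 * h 8 - (h 3 - z 1) * (h 5 - z 4) + (h 4 - z 2 - z 3) * z 2 = 0 := congrFun hr 5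
  have r6 : h 1 * z 5 - (h 2 - z 0) * z 4 + (h 3 - z 1) * z 3 = 0 := congrFun hr 6
  have r7 : h 1 * h 7 - (h 2 - z 0) * (h 6 - z 5) + (h 4 - z 2 - z 3) * z 3 = 0 := congrFun hr 7
  have r8 : h 1 * h 8 - (h 3 - z 1) * (h 6 - z 5) + (h 4 - z 2 - z 3) * z 4 = 0 := congrFun hr 8
  have r9 : (h 2 - z 0) * h 8 - (h 3 - z 1) * h 7 + (h 4 - z 2 - z 3) * z 5 = 0 := congrFun hr 9
  have r10 : z 0 * z 5 - z 1 * z 4 + z 2 * z 3 = 0 := congrFun hr 10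
  have r11 : z 0 * h 7 - z 1 * (h 6 - z 5) + (h 5 - z 4) * z 3 = 0 := congrFun hr 11
  have r12 : z 0 * h 8 - z 2 * (h 6 - z 5) + (h 5 - z 4) * z 4 = 0 := congrFun hr 12
  have r13 : z 1 * h 8 - z 2 * h 7 + (h 5 - z 4) * z 5 = 0 := congrFun hr 13
  have r14 : z 3 * h 8 - z 4 * h 7 + (h 6 - z 5) * z 5 = 0 := congrFun hr 14
  simp only [Fin.sum_univ_succ, Fin.sum_univ_zero, actB, mon]
  dsimp
  linear_combination (2 * v 9 * h 7 + v 10 * h 7 + v 11 * h 8 - v 13 * h 3 * h 8 - 2 * v 13 * h 5 * h 6 + 2 * v 13 * z 2 * h 7 + v 13 * z 5 * h 5) * r0 +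
    (v 1 + v 7 * z 2 + v 8 * z 4 + 4 * v 9 * z 5 - 4 * v 9 * h 6 + v 10 * z 5 - v 10 * h 6 - 2 * v 12 * h 8 - 2 * v 13 * z 0 * h 8 + 2 * v 13 * h 2 * h 8 - v 13 * h 3 * h 7 + v 13 * h 5 * h 5 - v 13 * z 4 * h 5 + v 13 * z 5 * h 4) * r1 +
    (2 * v 9 * h 5 + v 10 * h 5 - v 13 * h 1 * h 8 - v 13 * z 2 * h 5 + 2 * v 13 * z 3 * h 5) * r2 +
    (v 2) * r3 +
    (v 3 + v 9 * z 2 + v 9 * h 4 + v 12 * z 5 + v 13 * z 0 * z 5 - 2 * v 13 * h 1 * h 7) * r4 +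
    (-3 * v 9 * h 3 - v 10 * h 3 + v 12 * h 5 + v 13 * z 0 * h 5 + v 13 * h 0 * h 7 + v 13 * h 1 * h 6) * r5 +
    (-v 3 + v 4 - v 9 * z 2 - v 9 * h 4 + v 10 * z 3 + v 11 * z 4 - v 12 * z 5 - v 13 * z 0 * z 5 + 2 * v 13 * h 1 * h 7) * r6 +
    (v 5 + 5 * v 9 * h 3 + 2 * v 10 * h 3 - 2 * v 12 * h 5 - 2 * v 13 * z 0 * h 5 - 2 * v 13 * h 1 * h 6) * r7 +
    (v 7 * h 0 - v 8 * h 1 - 2 * v 9 * z 0 + 2 * v 9 * h 2) * r8 +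
    (v 10 * h 1 - v 12 * h 3 - v 13 * z 0 * h 3 - v 13 * h 0 * h 5) * r9 +
    (v 5 + 3 * v 9 * h 3 + v 10 * h 3 - v 12 * h 5 - v 13 * h 0 * h 7 - v 13 * h 1 * h 6) * r10 +
    (-v 6 + v 7 * h 0 - v 8 * h 1 + 2 * v 9 * z 0 + 2 * v 9 * h 2 + v 10 * z 0 - v 12 * h 4 + v 13 * h 1 * h 5) * r11 +
    (v 8 * h 0 + v 11 * z 0 - v 11 * h 2 - v 13 * h 0 * h 5) * r12 +
    (4 * v 9 * h 0 + v 10 * h 0 + v 11 * h 1 - 2 * v 12 * z 0 + 2 * v 12 * h 2 - 2 * v 13 * z 0 * z 0 + 2 * v 13 * z 0 * h 2 + v 13 * h 0 * h 4) * r13 +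
    (-v 12 * h 1 - v 13 * z 0 * h 1) * r14

theorem actC_spec (h : Fin 9 → T) (z : Fin 6 → T) (hr : plRel (pvec h z) = 0)
    (v : Fin 14 → T) : ∑ i, actC h v i * mon z i = z 2 * ∑ i, v i * mon z i := by
  have r0 : h 0 * z 3 - h 1 * z 1 + (h 2 - z 0) * z 0 = 0 := congrFun hr 0
  have r1 : h 0 * z 4 - h 1 * z 2 + (h 3 - z 1) * z 0 = 0 := congrFun hr 1
  have r2 : h 0 * (h 6 - z 5) - h 1 * (h 5 - z 4) + (h 4 - z 2 - z 3) * z 0 = 0 := congrFun hr 2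
  have r3 : h 0 * z 5 - (h 2 - z 0) * z 2 + (h 3 - z 1) * z 1 = 0 := congrFun hr 3
  have r4 : h 0 * h 7 - (h 2 - z 0) * (h 5 - z 4) + (h 4 - z 2 - z 3) * z 1 = 0 := congrFun hr 4
  have r5 : h 0 * h 8 - (h 3 - z 1) * (h 5 - z 4) + (h 4 - z 2 - z 3) * z 2 = 0 := congrFun hr 5
  have r6 : h 1 * z 5 - (h 2 - z 0) * z 4 + (h 3 - z 1) * z 3 = 0 := congrFun hr 6
  have r7 : h 1 * h 7 - (h 2 - z 0) * (h 6 - z 5) + (h 4 - z 2 - z 3) * z 3 = 0 := congrFun hr 7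
  have r8 : h 1 * h 8 - (h 3 - z 1) * (h 6 - z 5) + (h 4 - z 2 - z 3) * z 4 = 0 := congrFun hr 8
  have r9 : (h 2 - z 0) * h 8 - (h 3 - z 1) * h 7 + (h 4 - z 2 - z 3) * z 5 = 0 := congrFun hr 9
  have r10 : z 0 * z 5 - z 1 * z 4 + z 2 * z 3 = 0 := congrFun hr 10
  have r11 : z 0 * h 7 - z 1 * (h 6 - z 5) + (h 5 - z 4) * z 3 = 0 := congrFun hr 11
  have r12 : z 0 * h 8 - z 2 * (h 6 - z 5) + (h 5 - z 4) * z 4 = 0 := congrFun hr 12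
  have r13 : z 1 * h 8 - z 2 * h 7 + (h 5 - z 4) * z 5 = 0 := congrFun hr 13
  have r14 : z 3 * h 8 - z 4 * h 7 + (h 6 - z 5) * z 5 = 0 := congrFun hr 14
  simp only [Fin.sum_univ_succ, Fin.sum_univ_zero, actC, mon]
  dsimp
  linear_combination (v 7 * z 5 - v 8 * h 7 + 4 * v 9 * h 8 + v 10 * h 8 + 2 * v 13 * h 5 * h 7 + v 13 * h 4 * h 8 + 2 * v 13 * h 6 * h 6 - 3 * v 13 * z 2 * h 8 - 5 * v 13 * z 4 * h 7 - v 13 * z 5 * h 6) * r0 +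
    (-v 7 * z 4 - 2 * v 8 * z 5 + 2 * v 8 * h 6 - 2 * v 11 * h 8 + 2 * v 13 * h 4 * h 7 - v 13 * h 5 * h 6 - v 13 * h 3 * h 8 + v 13 * z 4 * h 6 - v 13 * z 5 * h 5) * r1 +
    (v 7 * z 2 - v 8 * h 5 - v 10 * z 5 + v 12 * h 8 + v 13 * z 0 * h 8 - 2 * v 13 * h 3 * h 7 + v 13 * z 2 * h 6 - 2 * v 13 * z 3 * h 6) * r2 +
    (-v 12 * h 8 - v 13 * z 0 * h 8) * r3 +
    (v 2 - 2 * v 9 * z 4 + v 9 * h 5 + v 11 * z 5 - v 11 * h 6 + 2 * v 12 * h 7 + 2 * v 13 * z 0 * h 7 + 3 * v 13 * h 1 * h 8) * r4 +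
    (v 4 - v 7 * h 2 + v 8 * h 3 + v 9 * z 2 + v 10 * h 4 + 2 * v 11 * h 5 - v 12 * h 6 - v 13 * z 0 * h 6 - v 13 * h 0 * h 8 + 2 * v 13 * h 1 * h 7 - v 13 * h 2 * h 6 + v 13 * h 3 * h 5) * r5 +
    (-v 2 + 2 * v 9 * z 4 - v 9 * h 5 + v 10 * z 4 - v 11 * z 5 + v 11 * h 6 - 2 * v 12 * h 7 - 2 * v 13 * z 0 * h 7 - 3 * v 13 * h 1 * h 8) * r6 +
    (-v 4 + 2 * v 7 * h 2 - 2 * v 8 * h 3 - 2 * v 9 * h 4 - 2 * v 10 * h 4 - 3 * v 11 * h 5 + 2 * v 12 * h 6 + 2 * v 13 * z 0 * h 6 - v 13 * h 0 * h 8 + v 13 * h 1 * h 7 + 2 * v 13 * h 2 * h 6 - 2 * v 13 * h 3 * h 5) * r7 +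
    (v 5 + 2 * v 7 * h 1 + v 8 * z 0 + v 9 * h 3) * r8 +
    (v 7 * h 0 - v 11 * h 3 + v 12 * z 2 + v 13 * z 0 * z 2 + v 13 * h 0 * h 6) * r9 +
    (-v 4 + v 7 * z 0 + v 7 * h 2 - v 8 * h 3 + v 9 * z 2 - 2 * v 9 * h 4 - v 10 * z 3 - v 10 * h 4 - v 11 * z 4 - v 11 * h 5 + v 12 * z 5 + v 12 * h 6 + v 13 * z 0 * z 5 + v 13 * h 0 * h 8 + 3 * v 13 * h 1 * h 7 + v 13 * h 2 * h 6 - v 13 * h 3 * h 5) * r10 +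
    (v 5 + 3 * v 7 * h 1 - v 8 * z 0 + v 9 * h 3 - v 11 * h 4 + v 12 * h 5 - v 13 * h 1 * h 6) * r11 +
    (-v 7 * h 0 + 4 * v 9 * z 0 - 4 * v 9 * h 2 + v 10 * z 0 - v 10 * h 2 + v 11 * z 1 + v 13 * h 0 * h 6) * r12 +
    (-2 * v 8 * h 0 + 2 * v 9 * h 1 - 3 * v 11 * z 0 + 2 * v 11 * h 2 - v 12 * z 1 - v 13 * z 0 * z 1 - v 13 * h 0 * h 5) * r13 +
    (v 10 * h 0 - v 11 * h 1 + v 12 * z 0 + v 13 * z 0 * z 0) * r14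

theorem actD_spec (h : Fin 9 → T) (z : Fin 6 → T) (hr : plRel (pvec h z) = 0)
    (v : Fin 14 → T) : ∑ i, actD h v i * mon z i = z 3 * ∑ i, v i * mon z i := by
  have r0 : h 0 * z 3 - h 1 * z 1 + (h 2 - z 0) * z 0 = 0 := congrFun hr 0
  have r1 : h 0 * z 4 - h 1 * z 2 + (h 3 - z 1) * z 0 = 0 := congrFun hr 1
  have r2 : h 0 * (h 6 - z 5) - h 1 * (h 5 - z 4) + (h 4 - z 2 - z 3) * z 0 = 0 := congrFun hr 2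
  have r3 : h 0 * z 5 - (h 2 - z 0) * z 2 + (h 3 - z 1) * z 1 = 0 := congrFun hr 3
  have r4 : h 0 * h 7 - (h 2 - z 0) * (h 5 - z 4) + (h 4 - z 2 - z 3) * z 1 = 0 := congrFun hr 4
  have r5 : h 0 * h 8 - (h 3 - z 1) * (h 5 - z 4) + (h 4 - z 2 - z 3) * z 2 = 0 := congrFun hr 5
  have r6 : h 1 * z 5 - (h 2 - z 0) * z 4 + (h 3 - z 1) * z 3 = 0 := congrFun hr 6
  have r7 : h 1 * h 7 - (h 2 - z 0) * (h 6 - z 5) + (h 4 - z 2 - z 3) * z 3 = 0 := congrFun hr 7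
  have r8 : h 1 * h 8 - (h 3 - z 1) * (h 6 - z 5) + (h 4 - z 2 - z 3) * z 4 = 0 := congrFun hr 8
  have r9 : (h 2 - z 0) * h 8 - (h 3 - z 1) * h 7 + (h 4 - z 2 - z 3) * z 5 = 0 := congrFun hr 9
  have r10 : z 0 * z 5 - z 1 * z 4 + z 2 * z 3 = 0 := congrFun hr 10
  have r11 : z 0 * h 7 - z 1 * (h 6 - z 5) + (h 5 - z 4) * z 3 = 0 := congrFun hr 11
  have r12 : z 0 * h 8 - z 2 * (h 6 - z 5) + (h 5 - z 4) * z 4 = 0 := congrFun hr 12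
  have r13 : z 1 * h 8 - z 2 * h 7 + (h 5 - z 4) * z 5 = 0 := congrFun hr 13
  have r14 : z 3 * h 8 - z 4 * h 7 + (h 6 - z 5) * z 5 = 0 := congrFun hr 14
  simp only [Fin.sum_univ_succ, Fin.sum_univ_zero, actD, mon]
  dsimp
  linear_combination (-v 7 * z 5 + v 8 * h 7 - 2 * v 9 * h 8 - v 10 * h 8 - v 13 * h 5 * h 7 - v 13 * h 4 * h 8 - 2 * v 13 * h 6 * h 6 + 2 * v 13 * z 2 * h 8 + 3 * v 13 * z 4 * h 7 + v 13 * z 5 * h 6) * r0 +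
    (v 7 * z 4 + v 8 * z 5 - v 8 * h 6 + v 11 * h 8 - v 13 * h 4 * h 7 + v 13 * h 5 * h 6 + v 13 * h 3 * h 8 - v 13 * z 4 * h 6 + v 13 * z 5 * h 5) * r1 +
    (v 1 + v 8 * h 5 + v 10 * h 6 + v 11 * h 7 - v 12 * h 8 - v 13 * z 0 * h 8 + v 13 * h 3 * h 7 - v 13 * z 2 * h 6 + 2 * v 13 * z 3 * h 6) * r2 +
    (v 12 * h 8 + v 13 * z 0 * h 8) * r3 +
    (v 9 * z 4 - v 12 * h 7 - v 13 * z 0 * h 7 - 2 * v 13 * h 1 * h 8) * r4 +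
    (v 3 + v 7 * h 2 - v 8 * h 3 - v 11 * h 5 + v 12 * h 6 + v 13 * z 0 * h 6 - v 13 * h 1 * h 7 + v 13 * h 2 * h 6 - v 13 * h 3 * h 5) * r5 +
    (v 2 - v 9 * z 4 - v 10 * z 4 + v 11 * z 5 - v 11 * h 6 + v 12 * h 7 + v 13 * z 0 * h 7 + 2 * v 13 * h 1 * h 8) * r6 +
    (-v 3 - 2 * v 7 * h 2 + 2 * v 8 * h 3 + v 9 * h 4 + v 10 * z 3 + 2 * v 11 * h 5 - 2 * v 12 * h 6 - 2 * v 13 * z 0 * h 6 + 2 * v 13 * h 0 * h 8 - v 13 * h 1 * h 7 - 2 * v 13 * h 2 * h 6 + 2 * v 13 * h 3 * h 5) * r7 +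
    (-v 7 * h 1) * r8 +
    (v 6 - v 7 * h 0 + v 10 * h 2 + v 11 * h 3 - v 13 * h 0 * h 6) * r9 +
    (-v 3 - v 7 * z 0 - v 7 * h 2 + v 8 * h 3 - v 9 * z 2 + v 9 * h 4 + v 10 * z 3 + v 11 * h 5 - v 12 * z 5 - v 12 * h 6 - v 13 * z 0 * z 5 - 2 * v 13 * h 1 * h 7 - v 13 * h 2 * h 6 + v 13 * h 3 * h 5) * r10 +
    (-2 * v 7 * h 1 + v 8 * z 0 + v 11 * z 3 - v 12 * h 5 + v 13 * h 1 * h 6) * r11 +
    (v 7 * h 0 - 2 * v 9 * z 0 + 2 * v 9 * h 2 - v 10 * z 0 + v 10 * h 2 - v 13 * h 0 * h 6) * r12 +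
    (v 8 * h 0 - v 9 * h 1 - v 10 * h 1 + v 11 * z 0 - v 11 * h 2 + v 12 * z 1 + v 13 * z 0 * z 1 + v 13 * h 0 * h 5) * r13 +
    (v 11 * h 1 - v 12 * z 0 - v 13 * z 0 * z 0) * r14

theorem actE_spec (h : Fin 9 → T) (z : Fin 6 → T) (hr : plRel (pvec h z) = 0)
    (v : Fin 14 → T) : ∑ i, actE h v i * mon z i = z 4 * ∑ i, v i * mon z i := by
  have r0 : h 0 * z 3 - h 1 * z 1 + (h 2 - z 0) * z 0 = 0 := congrFun hr 0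
  have r1 : h 0 * z 4 - h 1 * z 2 + (h 3 - z 1) * z 0 = 0 := congrFun hr 1
  have r2 : h 0 * (h 6 - z 5) - h 1 * (h 5 - z 4) + (h 4 - z 2 - z 3) * z 0 = 0 := congrFun hr 2
  have r3 : h 0 * z 5 - (h 2 - z 0) * z 2 + (h 3 - z 1) * z 1 = 0 := congrFun hr 3
  have r4 : h 0 * h 7 - (h 2 - z 0) * (h 5 - z 4) + (h 4 - z 2 - z 3) * z 1 = 0 := congrFun hr 4
  have r5 : h 0 * h 8 - (h 3 - z 1) * (h 5 - z 4) + (h 4 - z 2 - z 3) * z 2 = 0 := congrFun hr 5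
  have r6 : h 1 * z 5 - (h 2 - z 0) * z 4 + (h 3 - z 1) * z 3 = 0 := congrFun hr 6
  have r7 : h 1 * h 7 - (h 2 - z 0) * (h 6 - z 5) + (h 4 - z 2 - z 3) * z 3 = 0 := congrFun hr 7
  have r8 : h 1 * h 8 - (h 3 - z 1) * (h 6 - z 5) + (h 4 - z 2 - z 3) * z 4 = 0 := congrFun hr 8
  have r9 : (h 2 - z 0) * h 8 - (h 3 - z 1) * h 7 + (h 4 - z 2 - z 3) * z 5 = 0 := congrFun hr 9
  have r10 : z 0 * z 5 - z 1 * z 4 + z 2 * z 3 = 0 := congrFun hr 10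
  have r11 : z 0 * h 7 - z 1 * (h 6 - z 5) + (h 5 - z 4) * z 3 = 0 := congrFun hr 11
  have r12 : z 0 * h 8 - z 2 * (h 6 - z 5) + (h 5 - z 4) * z 4 = 0 := congrFun hr 12
  have r13 : z 1 * h 8 - z 2 * h 7 + (h 5 - z 4) * z 5 = 0 := congrFun hr 13
  have r14 : z 3 * h 8 - z 4 * h 7 + (h 6 - z 5) * z 5 = 0 := congrFun hr 14
  simp only [Fin.sum_univ_succ, Fin.sum_univ_zero, actE, mon]
  dsimp
  linear_combination (-v 7 * h 7 + v 8 * h 8 + v 13 * h 5 * h 8 - 2 * v 13 * z 4 * h 8 - v 13 * z 5 * h 7) * r0 +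
    (-2 * v 7 * z 5 + 2 * v 7 * h 6 + 3 * v 9 * h 8 + v 10 * h 8 + v 13 * h 4 * h 8 + v 13 * z 4 * h 7) * r1 +
    (-v 7 * h 5 + v 10 * h 7 - v 13 * h 3 * h 8 - v 13 * z 2 * h 7) * r2 +
    (v 11 * h 8) * r3 +
    (-2 * v 9 * z 5 + 2 * v 9 * h 6 - v 11 * h 7 + v 12 * h 8 + v 13 * z 0 * h 8) * r4 +
    (v 7 * h 3 + v 9 * z 4 - 3 * v 9 * h 5 - v 10 * h 5 + v 13 * h 1 * h 8 + v 13 * h 2 * h 7) * r5 +
    (2 * v 9 * z 5 - 2 * v 9 * h 6 + v 10 * z 5 - v 10 * h 6 + v 11 * h 7 - v 12 * h 8 - v 13 * z 0 * h 8) * r6 +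
    (v 2 - 2 * v 7 * h 3 + 5 * v 9 * h 5 + 2 * v 10 * h 5 - v 11 * h 6 - 2 * v 13 * h 2 * h 7) * r7 +
    (v 3 + v 7 * z 0 + v 9 * h 4 - 2 * v 13 * h 1 * h 7) * r8 +
    (2 * v 9 * h 3 + v 10 * h 3 - v 13 * h 0 * h 7) * r9 +
    (v 2 - v 7 * h 3 + v 9 * z 4 + 2 * v 9 * h 5 + v 10 * h 5 - v 11 * h 6 + v 13 * h 1 * h 8 - v 13 * z 0 * h 7 - v 13 * h 2 * h 7) * r10 +
    (v 3 - v 7 * z 0 + 3 * v 9 * h 4 + v 10 * z 3 + v 11 * z 4 - v 11 * h 5 - 3 * v 13 * h 1 * h 7) * r11 +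
    (v 5 + v 8 * z 0 - 2 * v 9 * z 1 + v 9 * h 3 + v 13 * h 0 * h 7) * r12 +
    (v 6 - 2 * v 7 * h 0 + 5 * v 9 * z 0 - 4 * v 9 * h 2 + v 10 * z 0 - v 10 * h 2 + v 11 * z 1 + v 12 * z 2 + v 13 * z 0 * z 2) * r13 +
    (2 * v 9 * h 1 + v 10 * h 1) * r14

theorem actF_spec (h : Fin 9 → T) (z : Fin 6 → T) (hr : plRel (pvec h z) = 0)
    (v : Fin 14 → T) : ∑ i, actF h v i * mon z i = z 5 * ∑ i, v i * mon z i := by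
  have r0 : h 0 * z 3 - h 1 * z 1 + (h 2 - z 0) * z 0 = 0 := congrFun hr 0
  have r1 : h 0 * z 4 - h 1 * z 2 + (h 3 - z 1) * z 0 = 0 := congrFun hr 1
  have r2 : h 0 * (h 6 - z 5) - h 1 * (h 5 - z 4) + (h 4 - z 2 - z 3) * z 0 = 0 := congrFun hr 2
  have r3 : h 0 * z 5 - (h 2 - z 0) * z 2 + (h 3 - z 1) * z 1 = 0 := congrFun hr 3
  have r4 : h 0 * h 7 - (h 2 - z 0) * (h 5 - z 4) + (h 4 - z 2 - z 3) * z 1 = 0 := congrFun hr 4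
  have r5 : h 0 * h 8 - (h 3 - z 1) * (h 5 - z 4) + (h 4 - z 2 - z 3) * z 2 = 0 := congrFun hr 5
  have r6 : h 1 * z 5 - (h 2 - z 0) * z 4 + (h 3 - z 1) * z 3 = 0 := congrFun hr 6
  have r7 : h 1 * h 7 - (h 2 - z 0) * (h 6 - z 5) + (h 4 - z 2 - z 3) * z 3 = 0 := congrFun hr 7
  have r8 : h 1 * h 8 - (h 3 - z 1) * (h 6 - z 5) + (h 4 - z 2 - z 3) * z 4 = 0 := congrFun hr 8
  have r9 : (h 2 - z 0) * h 8 - (h 3 - z 1) * h 7 + (h 4 - z 2 - z 3) * z 5 = 0 := congrFun hr 9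
  have r10 : z 0 * z 5 - z 1 * z 4 + z 2 * z 3 = 0 := congrFun hr 10
  have r11 : z 0 * h 7 - z 1 * (h 6 - z 5) + (h 5 - z 4) * z 3 = 0 := congrFun hr 11
  have r12 : z 0 * h 8 - z 2 * (h 6 - z 5) + (h 5 - z 4) * z 4 = 0 := congrFun hr 12
  have r13 : z 1 * h 8 - z 2 * h 7 + (h 5 - z 4) * z 5 = 0 := congrFun hr 13
  have r14 : z 3 * h 8 - z 4 * h 7 + (h 6 - z 5) * z 5 = 0 := congrFun hr 14
  simp only [Fin.sum_univ_succ, Fin.sum_univ_zero, actF, mon]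
  dsimp
  linear_combination (-v 13 * h 6 * h 8 + v 13 * h 7 * h 7) * r0 +
    (v 8 * h 8 + v 13 * h 5 * h 8 + 2 * v 13 * z 5 * h 7 - 2 * v 13 * h 6 * h 7) * r1 +
    (v 9 * h 8 + v 13 * h 5 * h 7 - v 13 * z 2 * h 8 + v 13 * z 3 * h 8) * r2 +
    (-v 9 * h 8 - v 10 * h 8) * r3 +
    (2 * v 9 * h 7 + v 10 * h 7) * r4 +
    (-v 1 - v 8 * h 5 - v 9 * h 6 - v 10 * h 6 - v 11 * h 7 + v 12 * h 8 + v 13 * z 0 * h 8 + v 13 * h 2 * h 8 - v 13 * h 3 * h 7) * r5 +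
    (-2 * v 9 * h 7 + v 11 * h 8) * r6 +
    (2 * v 1 + 2 * v 8 * h 5 + 2 * v 9 * h 6 + 2 * v 10 * h 6 + v 11 * h 7 - v 12 * h 8 - v 13 * z 0 * h 8 - 2 * v 13 * h 2 * h 8 + 2 * v 13 * h 3 * h 7) * r7 +
    (-v 12 * h 7 - v 13 * z 0 * h 7 - v 13 * h 1 * h 8) * r8 +
    (v 4 + v 9 * z 2 + v 10 * z 3 + v 10 * h 4 + v 11 * h 5 - v 13 * h 0 * h 8) * r9 +
    (v 1 + v 8 * h 5 + v 9 * z 5 + v 9 * h 6 + v 10 * z 5 + v 10 * h 6 + v 11 * h 7 - v 12 * h 8 - v 13 * z 0 * h 8 - v 13 * h 2 * h 8 + v 13 * h 3 * h 7) * r10 +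
    (-v 2 + v 9 * h 5 + v 10 * h 5 - v 12 * h 7 + v 13 * z 0 * h 7 - v 13 * h 1 * h 8) * r11 +
    (v 5 + v 8 * z 0 - v 9 * z 1 - v 10 * z 1 + v 11 * z 3 + 2 * v 13 * h 0 * h 7) * r13 +
    (v 6 + v 9 * z 0 + v 10 * z 0 + v 12 * z 2 + v 13 * z 0 * z 2) * r14

end Pool.Agent.Lib.MP_26f572_ag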