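import Pool.Agent.Lib.MP_26f572_ag.PlDef
import Pool.Agent.Lib.MP_26f572_ag.PlSpec
import Pool.Agent.Lib.MP_26f572_ag.PlComm
import Pool.Agent.Lib.MP_26f572_ag.PlRelOp

/-!
# The homogeneous coordinate ring of `Gr(2,6)` is free of rank 14 over a polynomial ring
-/

namespace Pool.Agent.Lib.MP_26f572_ag

open MvPolynomial

universe u v

section Ops

variable {T : Type u} [CommRing T]

/-- multiplication by `z` number 0 as a linear map -/
def linA (h : Fin 9 → T) : Module.End T (Fin 14 → T) where
  toFun := actA h
  map_add' v w := by
    ext i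
    fin_cases i <;> (dsimp [actA]; ring)
  map_smul' c v := by
    ext i
    fin_cases i <;> (dsimp [actA]; ring)

lemma map_actA {S : Type v} [CommRing S] (φ : T →+* S) (h : Fin 9 → T) (v : Fin 14 → T)
    (i : Fin 14) : φ (actA h v i) = actA (fun i => φ (h i)) (fun i => φ (v i)) i := by
  fin_cases i <;> (dsimp [actA]; simp only [map_add, map_sub, map_mul, map_neg, map_ofNat])

/-- multiplication by `z` number 1 as a linear map -/
def linB (h : Fin 9 → T) : Module.End T (Fin 14 → T) where
  toFun := actB h
  map_add' v w := by
    ext i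
    fin_cases i <;> (dsimp [actB]; ring)
  map_smul' c v := by
    ext i
    fin_cases i <;> (dsimp [actB]; ring)

lemma map_actB {S : Type v} [CommRing S] (φ : T →+* S) (h : Fin 9 → T) (v : Fin 14 → T)
    (i : Fin 14) : φ (actB h v i) = actB (fun i => φ (h i)) (fun i => φ (v i)) i := by
  fin_cases i <;> (dsimp [actB]; simp only [map_add, map_sub, map_mul, map_neg, map_ofNat])

/-- multiplication by `z` number 2 as a linear map -/
def linC (h : Fin 9 → T) : Module.End T (Fin 14 → T) where
  toFun := actC h
  map_add' v w := by
    ext i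
    fin_cases i <;> (dsimp [actC]; ring)
  map_smul' c v := by
    ext i
    fin_cases i <;> (dsimp [actC]; ring)

lemma map_actC {S : Type v} [CommRing S] (φ : T →+* S) (h : Fin 9 → T) (v : Fin 14 → T)
    (i : Fin 14) : φ (actC h v i) = actC (fun i => φ (h i)) (fun i => φ (v i)) i := by
  fin_cases i <;> (dsimp [actC]; simp only [map_add, map_sub, map_mul, map_neg, map_ofNat])

/-- multiplication by `z` number 3 as a linear map -/
def linD (h : Fin 9 → T) : Module.End T (Fin 14 → T) where
  toFun := actD h
  map_add' v w := by
    ext i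
    fin_cases i <;> (dsimp [actD]; ring)
  map_smul' c v := by
    ext i
    fin_cases i <;> (dsimp [actD]; ring)

lemma map_actD {S : Type v} [CommRing S] (φ : T →+* S) (h : Fin 9 → T) (v : Fin 14 → T)
    (i : Fin 14) : φ (actD h v i) = actD (fun i => φ (h i)) (fun i => φ (v i)) i := by
  fin_cases i <;> (dsimp [actD]; simp only [map_add, map_sub, map_mul, map_neg, map_ofNat])

/-- multiplication by `z` number 4 as a linear map -/
def linE (h : Fin 9 → T) : Module.End T (Fin 14 → T) where
  toFun := actE h
  map_add' v w := by
    ext i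
    fin_cases i <;> (dsimp [actE]; ring)
  map_smul' c v := by
    ext i
    fin_cases i <;> (dsimp [actE]; ring)

lemma map_actE {S : Type v} [CommRing S] (φ : T →+* S) (h : Fin 9 → T) (v : Fin 14 → T)
    (i : Fin 14) : φ (actE h v i) = actE (fun i => φ (h i)) (fun i => φ (v i)) i := by
  fin_cases i <;> (dsimp [actE]; simp only [map_add, map_sub, map_mul, map_neg, map_ofNat])

/-- multiplication by `z` number 5 as a linear map -/
def linF (h : Fin 9 → T) : Module.End T (Fin 14 → T) where
  toFun := actF h
  map_add' v w := by
    ext i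
    fin_cases i <;> (dsimp [actF]; ring)
  map_smul' c v := by
    ext i
    fin_cases i <;> (dsimp [actF]; ring)

lemma map_actF {S : Type v} [CommRing S] (φ : T →+* S) (h : Fin 9 → T) (v : Fin 14 → T)
    (i : Fin 14) : φ (actF h v i) = actF (fun i => φ (h i)) (fun i => φ (v i)) i := by
  fin_cases i <;> (dsimp [actF]; simp only [map_add, map_sub, map_mul, map_neg, map_ofNat])

/-- the six commuting operators -/
def lins (h : Fin 9 → T) : Fin 6 → Module.End T (Fin 14 → T) :=
  ![linA h, linB h, linC h, linD h, linE h, linF h]

lemma lin_commAB (h : Fin 9 → T) : linA h * linB h = linB h * linA h :=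
  LinearMap.ext fun v => commAB h v

lemma lin_commAC (h : Fin 9 → T) : linA h * linC h = linC h * linA h :=
  LinearMap.ext fun v => commAC h v

lemma lin_commAD (h : Fin 9 → T) : linA h * linD h = linD h * linA h :=
  LinearMap.ext fun v => commAD h v

lemma lin_commAE (h : Fin 9 → T) : linA h * linE h = linE h * linA h :=
  LinearMap.ext fun v => commAE h v

lemma lin_commAF (h : Fin 9 → T) : linA h * linF h = linF h * linA h :=
  LinearMap.ext fun v => commAF h v

lemma lin_commBC (h : Fin 9 → T) : linB h * linC h = linC h * linB h :=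
  LinearMap.ext fun v => commBC h v

lemma lin_commBD (h : Fin 9 → T) : linB h * linD h = linD h * linB h :=
  LinearMap.ext fun v => commBD h v

lemma lin_commBE (h : Fin 9 → T) : linB h * linE h = linE h * linB h :=
  LinearMap.ext fun v => commBE h v

lemma lin_commBF (h : Fin 9 → T) : linB h * linF h = linF h * linB h :=
  LinearMap.ext fun v => commBF h v

lemma lin_commCD (h : Fin 9 → T) : linC h * linD h = linD h * linC h :=
  LinearMap.ext fun v => commCD h v

lemma lin_commCE (h : Fin 9 → T) : linC h * linE h = linE h * linC h :=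
  LinearMap.ext fun v => commCE h v

lemma lin_commCF (h : Fin 9 → T) : linC h * linF h = linF h * linC h :=
  LinearMap.ext fun v => commCF h v

lemma lin_commDE (h : Fin 9 → T) : linD h * linE h = linE h * linD h :=
  LinearMap.ext fun v => commDE h v

lemma lin_commDF (h : Fin 9 → T) : linD h * linF h = linF h * linD h :=
  LinearMap.ext fun v => commDF h v

lemma lin_commEF (h : Fin 9 → T) : linE h * linF h = linF h * linE h :=
  LinearMap.ext fun v => commEF h v

lemma lins_comm (h : Fin 9 → T) (i j : Fin 6) : lins h i * lins h j = lins h j * lins h i := by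
  fin_cases i <;> fin_cases j
  · rfl
  · exact lin_commAB h
  · exact lin_commAC h
  · exact lin_commAD h
  · exact lin_commAE h
  · exact lin_commAF h
  · exact (lin_commAB h).symm
  · rfl
  · exact lin_commBC h
  · exact lin_commBD h
  · exact lin_commBE h
  · exact lin_commBF h
  · exact (lin_commAC h).symm
  · exact (lin_commBC h).symm
  · rfl
  · exact lin_commCD h
  · exact lin_commCE h
  · exact lin_commCF h
  · exact (lin_commAD h).symm
  · exact (lin_commBD h).symm
  · exact (lin_commCD h).symm
  · rfl
  · exact lin_commDE h
  · exact lin_commDF h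
  · exact (lin_commAE h).symm
  · exact (lin_commBE h).symm
  · exact (lin_commCE h).symm
  · exact (lin_commDE h).symm
  · rfl
  · exact lin_commEF h
  · exact (lin_commAF h).symm
  · exact (lin_commBF h).symm
  · exact (lin_commCF h).symm
  · exact (lin_commDF h).symm
  · exact (lin_commEF h).symm
  · rfl

end Ops

end Pool.Agent.Lib.MP_26f572_ag
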