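import Pool.Agent.Lib.MP_26f572_ag.Defs

/-!
The multiplication table of the homogeneous coordinate ring of `Gr(2,6)` as a free module of
rank 14 over a polynomial ring in 9 variables.  Generated by a script.
-/

namespace Pool.Agent.Lib.MP_26f572_ag

open Matrix

universe u

variable {T : Type u} [CommRing T]

/-- The 15 Plücker coordinates (order 12,13,14,15,16,23,24,25,26,34,35,36,45,46,56) in terms of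
the parameters `h` and `z`. -/
def pvec (h : Fin 9 → T) (z : Fin 6 → T) : Fin 15 → T :=
  ![h 0, h 1, h 2 - z 0, h 3 - z 1, h 4 - z 2 - z 3, z 0, z 1, z 2, h 5 - z 4, z 3, z 4,
    h 6 - z 5, z 5, h 7, h 8]

/-- The 15 Plücker relations of `Gr(2,6)` -/
def plRel (p : Fin 15 → T) : Fin 15 → T :=

  ![p 0 * p 9 - p 1 * p 6 + p 2 * p 5,
    p 0 * p 10 - p 1 * p 7 + p 3 * p 5,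
    p 0 * p 11 - p 1 * p 8 + p 4 * p 5,
    p 0 * p 12 - p 2 * p 7 + p 3 * p 6,
    p 0 * p 13 - p 2 * p 8 + p 4 * p 6,
    p 0 * p 14 - p 3 * p 8 + p 4 * p 7,
    p 1 * p 12 - p 2 * p 10 + p 3 * p 9,
    p 1 * p 13 - p 2 * p 11 + p 4 * p 9,
    p 1 * p 14 - p 3 * p 11 + p 4 * p 10,
    p 2 * p 14 - p 3 * p 13 + p 4 * p 12,
    p 5 * p 12 - p 6 * p 10 + p 7 * p 9,
    p 5 * p 13 - p 6 * p 11 + p 8 * p 9,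
    p 5 * p 14 - p 7 * p 11 + p 8 * p 10,
    p 6 * p 14 - p 7 * p 13 + p 8 * p 12,
    p 9 * p 14 - p 10 * p 13 + p 11 * p 12]

/-- the module basis -/
def mon (z : Fin 6 → T) : Fin 14 → T :=
  ![1, z 0, z 1, z 2, z 3, z 4, z 5, z 0 * z 2, z 0 * z 4, z 2 * z 2, z 3 * z 3, z 3 * z 4, z 2 * z 5, z 0 * z 2 * z 5]

/-- multiplication by `z 0` -/
def actA (h : Fin 9 → T) (v : Fin 14 → T) : Fin 14 → T :=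
  ![(h 0 * h 6 - h 1 * h 5) * v 4 + (-h 0 * h 8 + 2 * h 1 * h 7 - 2 * h 2 * h 6 + h 3 * h 5) * v 6 + (-2 * h 0 * h 1 * h 7 + h 0 * h 2 * h 6 - h 0 * h 3 * h 5 + h 0 * h 0 * h 8 + h 1 * h 2 * h 5) * v 7 + (h 1 * h 2 * h 6 - h 1 * h 1 * h 7) * v 8 + (-h 0 * h 3 * h 7 + 2 * h 1 * h 2 * h 7 - 2 * h 1 * h 3 * h 6 + 2 * h 1 * h 1 * h 8 + h 2 * h 3 * h 5 - 2 * h 2 * h 2 * h 6) * v 9 + (-h 0 * h 2 * h 8 + h 0 * h 4 * h 6 + 2 * h 1 * h 2 * h 7 - h 1 * h 3 * h 6 - h 1 * h 4 * h 5 + h 1 * h 1 * h 8 + h 2 * h 3 * h 5 - 2 * h 2 * h 2 * h 6) * v 10 + (-h 0 * h 3 * h 8 + h 0 * h 5 * h 6 + 2 * h 1 * h 3 * h 7 - h 1 * h 5 * h 5 - 2 * h 2 * h 3 * h 6 + h 3 * h 3 * h 5) * v 11 + (-2 * h 0 * h 1 * h 6 * h 7 + h 0 * h 2 * h 5 * h 7 + 2 * h 0 * h 2 * h 6 *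 h 6 - h 0 * h 3 * h 5 * h 6 - h 0 * h 0 * h 7 * h 7 + h 1 * h 2 * h 3 * h 8 - 2 * h 1 * h 2 * h 5 * h 6 + h 1 * h 3 * h 5 * h 5 - h 1 * h 3 * h 3 * h 7 + 2 * h 1 * h 1 * h 5 * h 7) * v 13,
    v 0 + h 2 * v 1 + h 3 * v 2 + h 4 * v 4 + 2 * h 6 * v 6 + (-h 0 * h 6 - h 1 * h 5) * v 7 - h 1 * h 6 * v 8 + (-2 * h 0 * h 8 + 3 * h 1 * h 7 + 2 * h 2 * h 6) * v 9 + (-h 0 * h 8 + 2 * h 1 * h 7 + 2 * h 2 * h 6 + h 4 * h 4) * v 10 + (h 2 * h 7 + h 3 * h 6 + h 4 * h 5) * v 11 + (-h 0 * h 4 * h 8 - 2 * h 0 * h 5 * h 7 - 2 * h 0 * h 6 * h 6 + h 1 * h 3 * h 8 + h 1 * h 4 * h 7 + 2 * h 1 * h 5 * h 6) * v 13,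
    -h 1 * v 1 - h 5 * v 6 + (h 0 * h 5 - h 1 * h 4) * v 7 + (h 0 * h 7 - h 1 * h 6 - h 2 * h 5) * v 9 + (-h 1 * h 6 - h 2 * h 5) * v 10 + (h 0 * h 8 - h 1 * h 7 - h 3 * h 5) * v 11 + (h 0 * h 3 * h 8 - h 0 * h 4 * h 7 + 2 * h 0 * h 5 * h 6 - 2 * h 1 * h 2 * h 8 + h 1 * h 3 * h 7 - h 1 * h 4 * h 6 - h 1 * h 5 * h 5) * v 13,
    -h 1 * v 2 - h 4 * v 6 + h 0 * h 4 * v 7 + (2 * h 0 * h 6 - h 1 * h 5 - h 2 * h 4) * v 9 + (h 0 * h 6 - h 2 * h 4) * v 10 + (-h 0 * h 7 + h 1 * h 6 - h 3 * h 4) * v 11 + (-h 0 * h 2 * h 8 + h 0 * h 4 * h 6 + 2 * h 1 * h 2 * h 7 - h 1 * h 4 * h 5 - 2 * h 1 * h 1 * h 8) * v 13,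
    h 0 * v 1 + 2 * h 4 * v 6 + (-h 0 * h 4 + h 1 * h 3) * v 7 - h 1 * h 4 * v 8 + (3 * h 1 * h 5 + 2 * h 2 * h 4) * v 9 + (h 0 * h 6 + h 1 * h 5 + 2 * h 2 * h 4) * v 10 + (h 0 * h 7 + 2 * h 3 * h 4) * v 11 + (h 0 * h 3 * h 7 - 2 * h 0 * h 4 * h 6 - h 0 * h 5 * h 5 + 3 * h 1 * h 4 * h 5 + h 1 * h 1 * h 8) * v 13,
    h 0 * v 2 + h 1 * v 4 - h 3 * v 6 + (h 0 * h 3 - 2 * h 1 * h 2) * v 7 + (-h 0 * h 5 + 2 * h 1 * h 4 - h 2 * h 3) * v 9 + (-h 0 * h 5 + 2 * h 1 * h 4 - h 2 * h 3) * v 10 + (-h 0 * h 6 + h 1 * h 5 - h 3 * h 3) * v 11 + (h 0 * h 1 * h 8 - 2 * h 0 * h 2 * h 7 + h 0 * h 3 * h 6 - h 1 * h 3 * h 5 - h 1 * h 1 * h 7) * v 13,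
    -h 0 * v 4 + 2 * h 2 * v 6 + (-h 0 * h 2 + h 1 * h 1) * v 7 - h 1 * h 2 * v 8 + (h 0 * h 4 + 2 * h 1 * h 3 + 2 * h 2 * h 2) * v 9 + (-h 0 * h 4 + h 1 * h 3 + 2 * h 2 * h 2) * v 10 + 2 * h 2 * h 3 * v 11 + (-2 * h 0 * h 2 * h 6 + 2 * h 0 * h 0 * h 8 + h 1 * h 2 * h 5 + h 1 * h 3 * h 4 + h 1 * h 1 * h 6) * v 13,
    v 3 - v 4 + h 2 * v 7 + h 4 * v 9 - h 4 * v 10 - h 5 * v 11 + (2 * h 0 * h 8 - 2 * h 1 * h 7) * v 13,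
    v 5 + 2 * h 1 * v 7 + h 2 * v 8 - h 3 * v 9 - h 3 * v 10 + 3 * h 0 * h 7 * v 13,
    v 6 - h 0 * v 7 + h 2 * v 9 + h 2 * v 10 + h 3 * v 11 + (-h 0 * h 6 + h 1 * h 5) * v 13,
    -2 * v 6 + h 0 * v 7 + h 1 * v 8 - 2 * h 2 * v 9 - 2 * h 2 * v 10 - 2 * h 3 * v 11 + (2 * h 0 * h 6 - 2 * h 1 * h 5) * v 13,
    h 0 * v 8 - 5 * h 1 * v 9 - 2 * h 1 * v 10 + (h 0 * h 5 - h 1 * h 4) * v 13,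
    -3 * h 0 * v 9 - h 0 * v 10 - h 1 * v 11 - h 1 * h 3 * v 13,
    v 12 + h 2 * v 13]

/-- multiplication by `z 1` -/
def actB (h : Fin 9 → T) (v : Fin 14 → T) : Fin 14 → T :=
  ![(h 0 * h 7 - h 2 * h 5) * v 3 + (h 1 * h 7 - h 2 * h 6) * v 5 + (h 0 * h 1 * h 8 - h 0 * h 3 * h 6) * v 7 + (h 1 * h 3 * h 6 - h 1 * h 1 * h 8) * v 8 + (-3 * h 0 * h 3 * h 8 + h 0 * h 4 * h 7 + 2 * h 0 * h 5 * h 6 + 2 * h 1 * h 2 * h 8 + 5 * h 1 * h 3 * h 7 - 2 * h 1 * h 5 * h 5 - 7 * h 2 * h 3 * h 6 - h 2 * h 4 * h 5 + 3 * h 3 * h 3 * h 5) * v 9 + (-h 0 * h 3 * h 8 + h 0 * h 5 * h 6 + h 1 * h 2 * h 8 + h 1 * h 3 * h 7 - h 1 * h 5 * h 5 - 2 * h 2 * h 3 * h 6 + h 3 * h 3 * h 5) * v 10 + (h 0 * h 5 * h 8 - 2 * h 1 * h 5 * h 7 - h 2 * h 3 * h 8 + 2 * h 2 * h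 5 * h 6 - h 3 * h 5 * h 5 + h 3 * h 3 * h 7) * v 12 + (-2 * h 0 * h 1 * h 7 * h 7 - h 0 * h 2 * h 5 * h 8 + h 0 * h 0 * h 7 * h 8 + 2 * h 1 * h 2 * h 5 * h 7 + 2 * h 1 * h 2 * h 6 * h 6 - h 1 * h 3 * h 5 * h 6 + h 1 * h 1 * h 5 * h 8 - 2 * h 1 * h 1 * h 6 * h 7) * v 13,
    h 3 * v 1 + h 5 * v 3 + h 6 * v 5 - h 7 * v 6 + h 0 * h 7 * v 7 + (h 0 * h 8 - h 1 * h 7) * v 8 + (-2 * h 1 * h 8 + 4 * h 2 * h 7 + 3 * h 3 * h 6 + 3 * h 4 * h 5) * v 9 + (-h 1 * h 8 + h 2 * h 7 + h 3 * h 6 + h 4 * h 5) * v 10 + (-h 3 * h 8 - h 4 * h 7 - 2 * h 5 * h 6) * v 12 + (h 0 * h 5 * h 8 - h 1 * h 4 * h 8 - 3 * h 1 * h 5 * h 7 - 2 * h 1 * h 6 * h 6) * v 13,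
    v 0 + h 3 * v 2 + h 4 * v 3 + h 6 * v 6 + (4 * h 0 * h 8 - 2 * h 1 * h 7 - 3 * h 3 * h 5 + h 4 * h 4) * v 9 + (h 0 * h 8 - h 3 * h 5) * v 10 + (2 * h 2 * h 8 - h 3 * h 7 + h 4 * h 6 + h 5 * h 5) * v 12 + (h 0 * h 4 * h 8 + h 1 * h 3 * h 8 - 2 * h 1 * h 4 * h 7 + 2 * h 1 * h 5 * h 6) * v 13,
    -h 1 * v 1 - h 2 * v 2 - h 0 * h 6 * v 8 + (-3 * h 0 * h 7 + 4 * h 1 * h 6 - h 2 * h 5 - 3 * h 3 * h 4) * v 9 + (-h 0 * h 7 + h 1 * h 6 - h 3 * h 4) * v 10 + (-h 1 * h 7 + h 2 * h 6) * v 11 + (2 * h 1 * h 8 - 2 * h 2 * h 7 + h 4 * h 5) * v 12 + (-2 * h 1 * h 2 * h 8 + h 1 * h 3 * h 7 + h 1 * h 4 * h 6) * v 13,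
    -h 3 * v 3 + h 3 * v 4 + h 4 * v 5 - h 5 * v 6 + h 0 * h 5 * v 7 - h 1 * h 5 * v 8 + (2 * h 0 * h 7 + 2 * h 2 * h 5 + 4 * h 3 * h 4) * v 9 + (h 0 * h 7 + 2 * h 3 * h 4) * v 10 + h 0 * h 8 * v 11 + (-h 1 * h 8 - 3 * h 4 * h 5) * v 12 + (-h 0 * h 3 * h 8 + 2 * h 1 * h 3 * h 7 - 2 * h 1 * h 4 * h 6 - h 1 * h 5 * h 5) * v 13,
    h 0 * v 1 + 2 * h 2 * v 3 - h 2 * v 4 + h 0 * h 4 * v 7 + (h 0 * h 5 - h 1 * h 4) * v 8 + (-4 * h 0 * h 6 + 2 * h 1 * h 5 + 4 * h 2 * h 4 - 3 * h 3 * h 3) * v 9 + (-h 0 * h 6 + h 1 * h 5 - h 3 * h 3) * v 10 - h 2 * h 5 * v 11 + (-2 * h 0 * h 8 + h 1 * h 7 + h 3 * h 5) * v 12 + (2 * h 0 * h 2 * h 8 - 4 * h 1 * h 2 * h 7 + h 1 * h 3 * h 6 - h 1 * h 1 * h 8) * v 13,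
    h 0 * v 2 - h 1 * v 3 + h 1 * v 4 + h 2 * v 5 + h 0 * h 3 * v 7 - h 1 * h 3 * v 8 + (2 * h 0 * h 5 - h 1 * h 4 + 7 * h 2 * h 3) * v 9 + (h 1 * h 4 + 2 * h 2 * h 3) * v 10 + h 1 * h 5 * v 11 + (h 0 * h 7 - h 1 * h 6 - h 2 * h 5 - h 3 * h 4) * v 12 + (h 0 * h 1 * h 8 - 2 * h 1 * h 2 * h 6 + 2 * h 1 * h 1 * h 7) * v 13,
    v 2 + h 3 * v 7 - h 5 * v 9 - h 5 * v 10 - h 6 * v 11 + 2 * h 7 * v 12 + 3 * h 1 * h 8 * v 13,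
    -2 * v 3 + v 4 + h 3 * v 8 - 4 * h 4 * v 9 + h 5 * v 11 + (-2 * h 0 * h 8 + 5 * h 1 * h 7) * v 13,
    -h 1 * v 7 + 3 * h 3 * v 9 + h 3 * v 10 - h 5 * v 12 + (-h 0 * h 7 - h 1 * h 6) * v 13,
    -v 5 - 5 * h 3 * v 9 - h 3 * v 10 + 2 * h 5 * v 12 + 2 * h 1 * h 6 * v 13,
    v 6 - 2 * h 0 * v 7 + 2 * h 1 * v 8 - 4 * h 2 * v 9 - h 2 * v 10 + h 3 * v 11 + h 4 * v 12 + h 1 * h 5 * v 13,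
    h 0 * v 8 - 5 * h 1 * v 9 - 2 * h 1 * v 10 - h 2 * v 11 + h 3 * v 12 + (h 0 * h 5 - h 1 * h 4) * v 13,
    v 11 + h 3 * v 13]

/-- multiplication by `z 2` -/
def actC (h : Fin 9 → T) (v : Fin 14 → T) : Fin 14 → T :=
  ![(h 0 * h 7 - h 2 * h 5) * v 2 + (h 0 * h 8 - h 1 * h 7 + h 2 * h 6 - h 3 * h 5) * v 4 + (h 1 * h 8 - h 3 * h 6) * v 5 + (-h 0 * h 3 * h 7 + 2 * h 1 * h 2 * h 7 - 2 * h 1 * h 3 * h 6 + 2 * h 1 * h 1 * h 8 + h 2 * h 3 * h 5 - 2 * h 2 * h 2 * h 6) * v 7 + (h 0 * h 3 * h 8 - h 0 * h 5 * h 6 - 2 * h 1 * h 3 * h 7 + h 1 * h 5 * h 5 + 2 * h 2 * h 3 * h 6 - h 3 * h 3 * h 5) * v 8 + (h 0 * h 5 * h 7 + h 1 * h 3 * h 8 - 2 * h 1 * h 4 * h 7 + 2 * h 2 * h 4 * h 6 - h 2 * h 5 * h 5 - h 3 * h 3 * h 6) * v 9 + (h 0 * h 4 * h 8 -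 2 * h 1 * h 4 * h 7 + 2 * h 2 * h 4 * h 6 - h 3 * h 4 * h 5) * v 10 + (2 * h 0 * h 5 * h 8 - h 0 * h 6 * h 7 - 3 * h 1 * h 5 * h 7 - h 2 * h 3 * h 8 + 4 * h 2 * h 5 * h 6 - 2 * h 3 * h 5 * h 5 + h 3 * h 3 * h 7) * v 11 + (2 * h 0 * h 7 * h 7 - h 1 * h 5 * h 8 + 2 * h 1 * h 6 * h 7 - 2 * h 2 * h 5 * h 7 - 2 * h 2 * h 6 * h 6 + h 3 * h 5 * h 6) * v 12 + (4 * h 0 * h 1 * h 7 * h 8 + h 0 * h 2 * h 6 * h 8 + 2 * h 0 * h 3 * h 5 * h 8 - 3 * h 0 * h 3 * h 6 * h 7 - h 0 * h 0 * h 8 * h 8 - 3 * h 1 * h 2 * h 5 * h 8 + h 1 * h 2 * h 6 * h 7 - 2 * h 1 * h 3 * h 5 * h 7 + h 1 * h 1 * h 7 * h 7 + 3 * h 2 * h 3 * h 5 * h 6 - 2 * h 2 * h 2 * h 6 * h 6 - h 3 * h 3 * h 5 * h 5) * v 13,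
    h 5 * v 2 - h 6 * v 4 + h 7 * v 5 + (-2 * h 0 * h 8 + 3 * h 1 * h 7 + 2 * h 2 * h 6) * v 7 + (h 1 * h 8 - h 2 * h 7 - h 3 * h 6 - h 4 * h 5) * v 8 + (h 3 * h 7 - 2 * h 4 * h 6 + h 5 * h 5) * v 9 - 2 * h 4 * h 6 * v 10 + (-h 3 * h 8 - h 4 * h 7 - 4 * h 5 * h 6) * v 11 + (h 4 * h 8 + 3 * h 5 * h 7 + 2 * h 6 * h 6) * v 12 + (-h 0 * h 6 * h 8 + 2 * h 0 * h 7 * h 7 + 2 * h 1 * h 5 * h 8 + 2 * h 1 * h 6 * h 7 + h 2 * h 4 * h 8 + 2 * h 2 * h 6 * h 6 - 2 * h 3 * h 5 * h 6 - h 3 * h 3 * h 8) * v 13,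
    h 4 * v 2 + h 5 * v 4 + (h 0 * h 7 - h 1 * h 6 - h 2 * h 5) * v 7 + (-2 * h 0 * h 8 + h 1 * h 7 + h 3 * h 5) * v 8 + (-2 * h 1 * h 8 + h 4 * h 5) * v 9 + (-h 1 * h 8 + h 4 * h 5) * v 10 + (2 * h 2 * h 8 - h 3 * h 7 + 2 * h 5 * h 5) * v 11 + (-h 3 * h 8 + 2 * h 4 * h 7 - 2 * h 5 * h 6) * v 12 + (-2 * h 0 * h 5 * h 8 + h 0 * h 6 * h 7 + 2 * h 1 * h 4 * h 8 - h 1 * h 6 * h 6 - h 2 * h 5 * h 6 + h 3 * h 5 * h 5) * v 13,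
    v 0 + h 4 * v 4 + (2 * h 0 * h 6 - h 1 * h 5 - h 2 * h 4) * v 7 + (2 * h 0 * h 7 - 2 * h 1 * h 6 + h 3 * h 4) * v 8 + (h 0 * h 8 - 2 * h 1 * h 7 + 4 * h 2 * h 6 - h 3 * h 5) * v 9 + (h 2 * h 6 + h 4 * h 4) * v 10 + (2 * h 1 * h 8 - 2 * h 2 * h 7 + 2 * h 4 * h 5) * v 11 + (2 * h 2 * h 8 - h 3 * h 7 - h 4 * h 6) * v 12 + (-h 0 * h 4 * h 8 + h 0 * h 5 * h 7 + h 1 * h 3 * h 8 - h 2 * h 4 * h 6 + h 3 * h 4 * h 5) * v 13,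
    -h 3 * v 2 - h 4 * v 4 + h 5 * v 5 + (3 * h 1 * h 5 + 2 * h 2 * h 4) * v 7 + (-h 0 * h 7 - 2 * h 3 * h 4) * v 8 + (4 * h 0 * h 8 - 2 * h 4 * h 4) * v 9 + (2 * h 0 * h 8 - 2 * h 4 * h 4) * v 10 + (-h 1 * h 8 + h 3 * h 6 - 4 * h 4 * h 5) * v 11 + (-2 * h 3 * h 7 + 2 * h 4 * h 6 + h 5 * h 5) * v 12 + (2 * h 0 * h 5 * h 7 - 3 * h 1 * h 3 * h 8 + h 1 * h 4 * h 7 + h 1 * h 5 * h 6 + 2 * h 2 * h 4 * h 6 - 2 * h 3 * h 4 * h 5) * v 13,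
    2 * h 2 * v 2 + h 3 * v 4 + h 4 * v 5 + (-h 0 * h 5 + 2 * h 1 * h 4 - h 2 * h 3) * v 7 + (2 * h 0 * h 6 - h 1 * h 5 + h 3 * h 3) * v 8 + (-2 * h 0 * h 7 + h 3 * h 4) * v 9 + (-h 0 * h 7 - h 2 * h 5 + h 3 * h 4) * v 10 + (-2 * h 0 * h 8 + h 1 * h 7 - 2 * h 2 * h 6 + 2 * h 3 * h 5) * v 11 + (h 1 * h 8 + 4 * h 2 * h 7 - h 3 * h 6) * v 12 + (-2 * h 0 * h 3 * h 8 + 2 * h 0 * h 4 * h 7 + 6 * h 1 * h 2 * h 8 - h 2 * h 3 * h 6 + h 3 * h 3 * h 5) * v 13,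
    -h 1 * v 2 - h 2 * v 4 + h 3 * v 5 + (h 0 * h 4 + 2 * h 1 * h 3 + 2 * h 2 * h 2) * v 7 + (-h 0 * h 5 - 2 * h 2 * h 3) * v 8 + (h 1 * h 5 - 2 * h 2 * h 4 + h 3 * h 3) * v 9 + (h 1 * h 5 - 2 * h 2 * h 4) * v 10 + (h 0 * h 7 - 2 * h 2 * h 5 - h 3 * h 4) * v 11 + (-2 * h 0 * h 8 - 2 * h 1 * h 7 + 2 * h 2 * h 6) * v 12 + (-h 0 * h 2 * h 8 + 2 * h 0 * h 3 * h 7 + h 0 * h 4 * h 6 - h 0 * h 5 * h 5 + h 1 * h 2 * h 7 - 3 * h 1 * h 1 * h 8 - 2 * h 2 * h 3 * h 5 + 2 * h 2 * h 2 * h 6) * v 13,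
    v 1 + h 4 * v 7 + h 5 * v 8 - 4 * h 6 * v 9 - h 6 * v 10 + 3 * h 7 * v 11 - 3 * h 8 * v 12 + (-h 2 * h 8 + h 3 * h 7) * v 13,
    -2 * v 2 - h 3 * v 7 + h 4 * v 8 + h 5 * v 10 + 2 * h 6 * v 11 - 5 * h 7 * v 12 + (-5 * h 1 * h 8 - h 2 * h 7) * v 13,
    v 3 - v 4 + h 2 * v 7 - h 3 * v 8 + h 4 * v 9 - h 4 * v 10 - 2 * h 5 * v 11 + h 6 * v 12 + (h 0 * h 8 - 2 * h 1 * h 7 + h 2 * h 6 - h 3 * h 5) * v 13,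
    v 4 - 2 * h 2 * v 7 + 2 * h 3 * v 8 + 2 * h 4 * v 9 + 2 * h 4 * v 10 + 3 * h 5 * v 11 - 2 * h 6 * v 12 + (h 0 * h 8 - h 1 * h 7 - 2 * h 2 * h 6 + 2 * h 3 * h 5) * v 13,
    -2 * v 5 - 5 * h 1 * v 7 + h 3 * v 10 + h 4 * v 11 - h 5 * v 12 + (-5 * h 0 * h 7 - h 1 * h 6) * v 13,
    v 6 - 3 * h 0 * v 7 + 2 * h 1 * v 8 - 4 * h 2 * v 9 - h 2 * v 10 + h 3 * v 11 + h 4 * v 12 + (-h 0 * h 6 + h 1 * h 5) * v 13,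
    5 * v 9 + 2 * v 10 + h 4 * v 13]

/-- multiplication by `z 3` -/
def actD (h : Fin 9 → T) (v : Fin 14 → T) : Fin 14 → T :=
  ![(h 0 * h 6 - h 1 * h 5) * v 1 + (h 0 * h 8 - h 1 * h 7 + h 2 * h 6 - h 3 * h 5) * v 3 + (h 2 * h 8 - h 3 * h 7) * v 6 + (h 0 * h 3 * h 7 - 2 * h 1 * h 2 * h 7 + h 1 * h 3 * h 6 - h 1 * h 1 * h 8 - h 2 * h 3 * h 5 + 2 * h 2 * h 2 * h 6) * v 7 + (-h 0 * h 3 * h 8 + h 0 * h 5 * h 6 + 2 * h 1 * h 3 * h 7 - h 1 * h 5 * h 5 - 2 * h 2 * h 3 * h 6 + h 3 * h 3 * h 5) * v 8 + (h 1 * h 4 * h 7 - h 2 * h 4 * h 6) * v 9 + (h 0 * h 6 * h 6 - h 1 * h 5 * h 6 - h 2 * h 3 * h 7 + h 2 * h 2 * h 8) * v 10 + (-h 0 * h 5 * h 8 + h 0 * h 6 * h 7 + h 1 * h 5 * h 7 + h 2 * h 3 * h 8 - 2 * h 2 * h 5 * h 6 + h 3 * h 5 * h 5 - h 3 *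 h 3 * h 7) * v 11 + (-h 0 * h 7 * h 7 + h 1 * h 5 * h 8 - 2 * h 1 * h 6 * h 7 + h 2 * h 5 * h 7 + 2 * h 2 * h 6 * h 6 - h 3 * h 5 * h 6) * v 12 + (-h 0 * h 1 * h 7 * h 8 - 2 * h 0 * h 2 * h 6 * h 8 - h 0 * h 3 * h 5 * h 8 + 2 * h 0 * h 3 * h 6 * h 7 + 2 * h 1 * h 2 * h 5 * h 8 - h 1 * h 2 * h 6 * h 7 + 2 * h 1 * h 3 * h 5 * h 7 - h 1 * h 1 * h 7 * h 7 - 3 * h 2 * h 3 * h 5 * h 6 + 2 * h 2 * h 2 * h 6 * h 6 + h 3 * h 3 * h 5 * h 5) * v 13,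
    h 4 * v 1 - h 6 * v 3 - h 8 * v 6 + (2 * h 0 * h 8 - 2 * h 1 * h 7 - 2 * h 2 * h 6) * v 7 + (h 2 * h 7 + h 3 * h 6 + h 4 * h 5) * v 8 + h 4 * h 6 * v 9 + (-h 2 * h 8 + h 4 * h 6) * v 10 + (h 4 * h 7 + 2 * h 5 * h 6) * v 11 + (-h 4 * h 8 - 2 * h 5 * h 7 - 2 * h 6 * h 6) * v 12 + (2 * h 0 * h 6 * h 8 - h 0 * h 7 * h 7 - h 1 * h 5 * h 8 - 2 * h 1 * h 6 * h 7 - h 2 * h 4 * h 8 - 2 * h 2 * h 6 * h 6 + 2 * h 3 * h 5 * h 6 + h 3 * h 3 * h 8) * v 13,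
    h 5 * v 3 + h 7 * v 6 + (-h 0 * h 7 + h 1 * h 6 + h 2 * h 5) * v 7 + (h 0 * h 8 - h 1 * h 7 - h 3 * h 5) * v 8 + h 1 * h 8 * v 9 + h 2 * h 7 * v 10 + (-h 2 * h 8 + h 3 * h 7 - h 5 * h 5) * v 11 + (h 3 * h 8 - h 4 * h 7 + 2 * h 5 * h 6) * v 12 + (h 0 * h 5 * h 8 - h 0 * h 6 * h 7 - h 1 * h 4 * h 8 + h 1 * h 6 * h 6 + h 2 * h 5 * h 6 - h 3 * h 5 * h 5) * v 13,
    h 4 * v 3 + (-h 0 * h 6 + h 2 * h 4) * v 7 + (-h 0 * h 7 + h 1 * h 6 - h 3 * h 4) * v 8 + (h 1 * h 7 - 2 * h 2 * h 6) * v 9 + (h 1 * h 7 - h 2 * h 6) * v 10 + (-h 1 * h 8 + h 2 * h 7 - h 4 * h 5) * v 11 + (-h 2 * h 8 + h 4 * h 6) * v 12 + (-h 0 * h 5 * h 7 - h 1 * h 3 * h 8 + h 2 * h 4 * h 6 - h 3 * h 4 * h 5) * v 13,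
    v 0 + h 3 * v 2 - h 4 * v 3 + (-2 * h 1 * h 5 - 2 * h 2 * h 4) * v 7 + (h 0 * h 7 + 2 * h 3 * h 4) * v 8 + (-2 * h 0 * h 8 + h 4 * h 4) * v 9 + (-h 0 * h 8 + h 1 * h 7 - h 2 * h 6) * v 10 + (h 1 * h 8 - h 3 * h 6 + 2 * h 4 * h 5) * v 11 + (h 3 * h 7 - 2 * h 4 * h 6 - h 5 * h 5) * v 12 + (h 0 * h 4 * h 8 - h 0 * h 5 * h 7 + 2 * h 1 * h 3 * h 8 - h 1 * h 4 * h 7 - h 1 * h 5 * h 6 - 2 * h 2 * h 4 * h 6 + 2 * h 3 * h 4 * h 5) * v 13,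
    h 1 * v 1 - h 2 * v 2 + h 3 * v 3 + (h 0 * h 5 - h 1 * h 4 + h 2 * h 3) * v 7 + (-h 0 * h 6 + h 1 * h 5 - h 3 * h 3) * v 8 + (h 0 * h 7 + h 2 * h 5) * v 9 + (h 1 * h 6 + h 2 * h 5) * v 10 + (h 0 * h 8 + h 2 * h 6 - h 3 * h 5) * v 11 + (-h 1 * h 8 - 2 * h 2 * h 7 + h 3 * h 6) * v 12 + (h 0 * h 3 * h 8 - h 0 * h 4 * h 7 - 4 * h 1 * h 2 * h 8 + h 2 * h 3 * h 6 - h 3 * h 3 * h 5) * v 13,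
    -h 0 * v 1 + h 1 * v 2 - h 2 * v 3 + h 4 * v 6 + (-h 0 * h 4 - h 1 * h 3 - 2 * h 2 * h 2) * v 7 + 2 * h 2 * h 3 * v 8 + (-h 1 * h 5 + h 2 * h 4) * v 9 + (-h 0 * h 6 - h 1 * h 5 + h 2 * h 4) * v 10 + (-h 0 * h 7 + h 2 * h 5 + h 3 * h 4) * v 11 + (2 * h 0 * h 8 + h 1 * h 7 - 2 * h 2 * h 6) * v 12 + (2 * h 0 * h 2 * h 8 - h 0 * h 3 * h 7 - h 0 * h 4 * h 6 + h 0 * h 5 * h 5 - h 1 * h 2 * h 7 + 2 * h 1 * h 1 * h 8 + 2 * h 2 * h 3 * h 5 - 2 * h 2 * h 2 * h 6) * v 13,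
    -v 1 - h 5 * v 8 + 2 * h 6 * v 9 - 2 * h 7 * v 11 + 2 * h 8 * v 12 + (h 2 * h 8 - h 3 * h 7) * v 13,
    v 2 + h 3 * v 7 - h 5 * v 9 - h 5 * v 10 - h 6 * v 11 + 3 * h 7 * v 12 + (3 * h 1 * h 8 + h 2 * h 7) * v 13,
    -v 3 - h 2 * v 7 + h 3 * v 8 + h 5 * v 11 - h 6 * v 12 + (h 1 * h 7 - h 2 * h 6 + h 3 * h 5) * v 13,
    v 3 + v 4 + 2 * h 2 * v 7 - 2 * h 3 * v 8 - h 4 * v 9 + h 4 * v 10 - h 5 * v 11 + 2 * h 6 * v 12 + (-2 * h 0 * h 8 + h 1 * h 7 + 2 * h 2 * h 6 - 2 * h 3 * h 5) * v 13,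
    v 5 + 3 * h 1 * v 7 - h 3 * v 9 - h 3 * v 10 + h 5 * v 12 + (3 * h 0 * h 7 + h 1 * h 6) * v 13,
    -v 6 + 2 * h 0 * v 7 - h 1 * v 8 + 2 * h 2 * v 9 - h 3 * v 11 + (h 0 * h 6 - h 1 * h 5) * v 13,
    -3 * v 9 - v 10]

/-- multiplication by `z 4` -/
def actE (h : Fin 9 → T) (v : Fin 14 → T) : Fin 14 → T :=
  ![(h 1 * h 7 - h 2 * h 6) * v 2 + (h 1 * h 8 - h 3 * h 6) * v 3 + (h 0 * h 3 * h 8 - h 0 * h 5 * h 6 - 2 * h 1 * h 3 * h 7 + h 1 * h 5 * h 5 + 2 * h 2 * h 3 * h 6 - h 3 * h 3 * h 5) * v 7 + (-3 * h 0 * h 5 * h 8 + 2 * h 0 * h 6 * h 7 + h 1 * h 4 * h 8 + 5 * h 1 * h 5 * h 7 + 2 * h 2 * h 3 * h 8 - 7 * h 2 * h 5 * h 6 - h 3 * h 4 * h 6 + 3 * h 3 * h 5 * h 5 - 2 * h 3 * h 3 * h 7) * v 9 + (-h 0 * h 5 * h 8 + h 0 * h 6 * h 7 + h 1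 * h 5 * h 7 + h 2 * h 3 * h 8 - 2 * h 2 * h 5 * h 6 + h 3 * h 5 * h 5 - h 3 * h 3 * h 7) * v 10 + (-h 0 * h 7 * h 7 - h 1 * h 6 * h 7 + h 2 * h 5 * h 7 + h 2 * h 6 * h 6) * v 11 + (h 0 * h 7 * h 8 - h 2 * h 5 * h 8) * v 12 + (h 0 * h 1 * h 8 * h 8 - h 0 * h 3 * h 6 * h 8 + h 0 * h 3 * h 7 * h 7 - 2 * h 1 * h 2 * h 7 * h 7 + 2 * h 1 * h 3 * h 6 * h 7 - 2 * h 1 * h 1 * h 7 * h 8 - h 2 * h 3 * h 5 * h 7 + 2 * h 2 * h 2 * h 6 * h 7) * v 13,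
    h 6 * v 2 + h 7 * v 3 + h 8 * v 5 + (h 1 * h 8 - h 2 * h 7 - h 3 * h 6 - h 4 * h 5) * v 7 + h 2 * h 8 * v 8 + (2 * h 3 * h 8 + 3 * h 4 * h 7 + 7 * h 5 * h 6) * v 9 + (h 4 * h 7 + 2 * h 5 * h 6) * v 10 + (-2 * h 5 * h 7 - h 6 * h 6) * v 11 + h 5 * h 8 * v 12 + (3 * h 0 * h 7 * h 8 - 3 * h 1 * h 7 * h 7 - 2 * h 2 * h 6 * h 7) * v 13,
    h 8 * v 6 + (-2 * h 0 * h 8 + h 1 * h 7 + h 3 * h 5) * v 7 - h 1 * h 8 * v 8 + (-4 * h 2 * h 8 + 2 * h 3 * h 7 - 3 * h 5 * h 5) * v 9 + (-h 2 * h 8 + h 3 * h 7 - h 5 * h 5) * v 10 + (h 3 * h 8 - h 4 * h 7 + h 5 * h 6) * v 11 + h 4 * h 8 * v 12 + (-h 0 * h 7 * h 7 + h 1 * h 6 * h 7 + h 2 * h 5 * h 7) * v 13,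
    -h 6 * v 5 - h 7 * v 6 + (2 * h 0 * h 7 - 2 * h 1 * h 6 + h 3 * h 4) * v 7 + (-3 * h 1 * h 8 + 4 * h 2 * h 7 - h 3 * h 6 - 3 * h 4 * h 5) * v 9 + (-h 1 * h 8 + h 2 * h 7 - h 4 * h 5) * v 10 - h 2 * h 8 * v 11 + (-2 * h 0 * h 6 * h 7 + h 1 * h 5 * h 7 + h 2 * h 4 * h 7) * v 13,
    h 4 * v 2 + h 5 * v 3 + (-h 0 * h 7 - 2 * h 3 * h 4) * v 7 + h 0 * h 8 * v 8 + (2 * h 1 * h 8 - 2 * h 3 * h 6 + 8 * h 4 * h 5) * v 9 + (h 1 * h 8 - h 3 * h 6 + 2 * h 4 * h 5) * v 10 + (h 3 * h 7 - h 4 * h 6 - h 5 * h 5) * v 11 - h 3 * h 8 * v 12 + (h 0 * h 5 * h 8 - 3 * h 1 * h 5 * h 7 - 2 * h 2 * h 4 * h 7) * v 13,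
    v 0 + h 4 * v 3 + h 5 * v 5 + (2 * h 0 * h 6 - h 1 * h 5 + h 3 * h 3) * v 7 + (4 * h 0 * h 8 - 2 * h 1 * h 7 + 4 * h 2 * h 6 - 3 * h 3 * h 5 + h 4 * h 4) * v 9 + (h 0 * h 8 + h 2 * h 6 - h 3 * h 5) * v 10 - 2 * h 2 * h 7 * v 11 + 2 * h 2 * h 8 * v 12 + (h 0 * h 4 * h 8 + h 0 * h 5 * h 7 - 2 * h 1 * h 4 * h 7 + h 2 * h 3 * h 7) * v 13,
    h 2 * v 2 + h 3 * v 3 + h 5 * v 6 + (-h 0 * h 5 - 2 * h 2 * h 3) * v 7 + (-2 * h 0 * h 7 + 3 * h 2 * h 5 + 3 * h 3 * h 4) * v 9 + (-h 0 * h 7 + h 2 * h 5 + h 3 * h 4) * v 10 + (h 0 * h 8 + h 1 * h 7 - h 2 * h 6) * v 11 - h 1 * h 8 * v 12 + (h 0 * h 3 * h 8 - h 0 * h 4 * h 7 - 2 * h 1 * h 3 * h 7 - 2 * h 2 * h 2 * h 7) * v 13,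
    h 5 * v 7 - h 6 * v 8 - 5 * h 7 * v 9 - 2 * h 7 * v 10 + h 8 * v 11 + (h 3 * h 8 - h 4 * h 7) * v 13,
    v 1 + h 4 * v 7 + h 5 * v 8 - 4 * h 6 * v 9 - h 6 * v 10 + 3 * h 7 * v 11 - 2 * h 8 * v 12 + h 3 * h 7 * v 13,
    -h 3 * v 7 + 3 * h 5 * v 9 + h 5 * v 10 - h 7 * v 12 + (-h 1 * h 8 - h 2 * h 7) * v 13,
    -v 2 + 2 * h 3 * v 7 - 5 * h 5 * v 9 - h 5 * v 10 + h 6 * v 11 + 2 * h 2 * h 7 * v 13,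
    -2 * v 3 + v 4 - 4 * h 4 * v 9 + 2 * h 5 * v 11 + (-2 * h 0 * h 8 + 5 * h 1 * h 7) * v 13,
    v 5 + 2 * h 1 * v 7 - h 3 * v 9 - h 3 * v 10 + h 5 * v 12 + 3 * h 0 * h 7 * v 13,
    v 8 + h 5 * v 13]

/-- multiplication by `z 5` -/
def actF (h : Fin 9 → T) (v : Fin 14 → T) : Fin 14 → T :=
  ![(-h 0 * h 8 + 2 * h 1 * h 7 - 2 * h 2 * h 6 + h 3 * h 5) * v 1 + (h 2 * h 8 - h 3 * h 7) * v 4 + (-h 0 * h 5 * h 8 + 2 * h 1 * h 5 * h 7 - 2 * h 2 * h 5 * h 6 + h 3 * h 5 * h 5) * v 8 + (2 * h 0 * h 7 * h 7 - h 1 * h 5 * h 8 + 2 * h 1 * h 6 * h 7 - 2 * h 2 * h 5 * h 7 - 2 * h 2 * h 6 * h 6 + h 3 * h 5 * h 6) * v 9 + (-h 0 * h 6 * h 8 + h 0 * h 7 * h 7 + 2 * h 1 * h 6 * h 7 + h 2 * h 4 * h 8 - h 2 * h 5 * h 7 - 2 * h 2 * h 6 * h 6 - h 3 * h 4 *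 h 7 + h 3 * h 5 * h 6) * v 10 + (-h 0 * h 7 * h 8 + h 1 * h 7 * h 7 + h 2 * h 5 * h 8 - h 2 * h 6 * h 7) * v 11 + (h 0 * h 8 * h 8 - 2 * h 1 * h 7 * h 8 + h 2 * h 6 * h 8 - h 3 * h 5 * h 8 + h 3 * h 6 * h 7) * v 12 + (h 0 * h 5 * h 6 * h 7 - 2 * h 1 * h 2 * h 7 * h 8 + h 1 * h 3 * h 6 * h 8 + 2 * h 1 * h 3 * h 7 * h 7 - h 1 * h 5 * h 5 * h 7 - h 1 * h 1 * h 8 * h 8 - h 2 * h 3 * h 5 * h 8 - 2 * h 2 * h 3 * h 6 * h 7 + 2 * h 2 * h 2 * h 6 * h 8 + h 3 * h 3 * h 5 * h 7) * v 13,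
    2 * h 6 * v 1 - h 7 * v 2 - h 8 * v 4 + (h 3 * h 8 + 2 * h 5 * h 6) * v 8 + (h 4 * h 8 + 3 * h 5 * h 7 + 2 * h 6 * h 6) * v 9 + (-h 4 * h 8 + 2 * h 5 * h 7 + 2 * h 6 * h 6) * v 10 + (-h 5 * h 8 + h 6 * h 7) * v 11 + (-h 6 * h 8 - h 7 * h 7) * v 12 + (2 * h 0 * h 8 * h 8 - 3 * h 1 * h 7 * h 8 - 2 * h 2 * h 6 * h 8 + h 2 * h 7 * h 7 + h 3 * h 6 * h 7 + h 4 * h 5 * h 7) * v 13,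
    -h 5 * v 1 + h 6 * v 2 + h 7 * v 4 + h 8 * v 5 - h 5 * h 5 * v 8 + (-h 3 * h 8 + 2 * h 4 * h 7 - 2 * h 5 * h 6) * v 9 + (-h 3 * h 8 + 2 * h 4 * h 7 - 2 * h 5 * h 6) * v 10 + h 5 * h 8 * v 12 + (h 0 * h 7 * h 8 + h 1 * h 6 * h 8 - h 1 * h 7 * h 7 + h 2 * h 5 * h 8 - h 3 * h 5 * h 7) * v 13,
    -h 4 * v 1 - h 7 * v 5 + (-h 1 * h 8 - h 4 * h 5) * v 8 + (2 * h 2 * h 8 - h 3 * h 7 - h 4 * h 6) * v 9 + (h 2 * h 8 - h 4 * h 6) * v 10 - h 4 * h 7 * v 11 + h 4 * h 8 * v 12 + (-h 0 * h 6 * h 8 - 2 * h 0 * h 7 * h 7 + 2 * h 1 * h 6 * h 7 + h 2 * h 4 * h 8 - h 3 * h 4 * h 7) * v 13,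
    2 * h 4 * v 1 - h 5 * v 2 + h 8 * v 6 + 2 * h 4 * h 5 * v 8 + (-2 * h 3 * h 7 + 2 * h 4 * h 6 + h 5 * h 5) * v 9 + (h 2 * h 8 - h 3 * h 7 + 2 * h 4 * h 6 + h 5 * h 5) * v 10 + (h 3 * h 8 + h 4 * h 7) * v 11 + (-h 4 * h 8 - h 5 * h 7) * v 12 + (h 0 * h 7 * h 7 - 2 * h 1 * h 5 * h 8 - 2 * h 2 * h 4 * h 8 + 2 * h 3 * h 4 * h 7) * v 13,
    -h 3 * v 1 - h 7 * v 6 + (h 0 * h 8 - h 3 * h 5) * v 8 + (h 1 * h 8 + 4 * h 2 * h 7 - h 3 * h 6) * v 9 + (h 2 * h 7 - h 3 * h 6) * v 10 + (-h 2 * h 8 - h 3 * h 7) * v 11 + (h 3 * h 8 - h 4 * h 7) * v 12 + (h 0 * h 5 * h 8 - 2 * h 0 * h 6 * h 7 - h 1 * h 4 * h 8 + h 1 * h 5 * h 7 + h 2 * h 3 * h 8 - h 3 * h 3 * h 7) * v 13,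
    v 0 + 2 * h 2 * v 1 + h 4 * v 4 + h 5 * v 5 + h 6 * v 6 + 2 * h 2 * h 5 * v 8 + (-2 * h 0 * h 8 - 2 * h 1 * h 7 + 2 * h 2 * h 6) * v 9 + (-h 0 * h 8 + 2 * h 2 * h 6 + h 4 * h 4) * v 10 + (h 1 * h 8 + h 2 * h 7 + h 4 * h 5) * v 11 + (-h 2 * h 8 - h 3 * h 7) * v 12 + (-h 0 * h 4 * h 8 + h 0 * h 5 * h 7 - h 1 * h 3 * h 8 + 2 * h 2 * h 3 * h 7 - 2 * h 2 * h 2 * h 8) * v 13,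
    -h 7 * v 8 - 3 * h 8 * v 9 - h 8 * v 10 - h 5 * h 7 * v 13,
    -5 * h 7 * v 9 - 2 * h 7 * v 10 + h 8 * v 11 + (h 3 * h 8 - h 4 * h 7) * v 13,
    v 1 + h 5 * v 8 + h 6 * v 9 + h 6 * v 10 + h 7 * v 11 - h 8 * v 12 + (-h 2 * h 8 + h 3 * h 7) * v 13,
    -2 * v 1 - 2 * h 5 * v 8 - 2 * h 6 * v 9 - 2 * h 6 * v 10 - h 7 * v 11 + h 8 * v 12 + (2 * h 2 * h 8 - 2 * h 3 * h 7) * v 13,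
    v 2 - h 5 * v 9 - h 5 * v 10 + 2 * h 7 * v 12 + 3 * h 1 * h 8 * v 13,
    v 3 - v 4 + h 4 * v 9 - h 4 * v 10 - h 5 * v 11 + h 6 * v 12 + (2 * h 0 * h 8 - 2 * h 1 * h 7) * v 13,
    v 7 + h 6 * v 13]

end Pool.Agent.Lib.MP_26f572_ag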