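import Pool.Agent.Lib.MP_26f572_ag.PlTable
import Pool.Agent.Lib.MP_26f572_ag.ScDef

/-! Task S2: the based algebra of rank 4 with given parameters. The associativity identities are
generated by a script. -/

namespace Pool.Agent.Lib.MP_26f572_ag

universe u

namespace ScAlg

variable {T : Type u} [CommRing T]

/-- the full multiplication table, unit included -/
def tab (t : Fin 3 → T) (p : Fin 15 → T) : Fin 4 → Fin 4 → Fin 4 → T :=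
  ![![![1, 0, 0, 0], ![0, 1, 0, 0], ![0, 0, 1, 0], ![0, 0, 0, 1]],
    ![![0, 1, 0, 0], sc t p 0 0, sc t p 0 1, sc t p 0 2],
    ![![0, 0, 1, 0], sc t p 1 0, sc t p 1 1, sc t p 1 2],
    ![![0, 0, 0, 1], sc t p 2 0, sc t p 2 1, sc t p 2 2]]

/-- associativity on basis vectors, coefficient `m` -/
def Asc (t : Fin 3 → T) (p : Fin 15 → T) (i j k m : Fin 4) : Prop :=
  tab t p i j 0 * tab t p 0 k m + tab t p i j 1 * tab t p 1 k m + tab t p i j 2 * tab t p 2 k m +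
    tab t p i j 3 * tab t p 3 k m =
  tab t p j k 0 * tab t p i 0 m + tab t p j k 1 * tab t p i 1 m + tab t p j k 2 * tab t p i 2 m +
    tab t p j k 3 * tab t p i 3 m

variable {t : Fin 3 → T} {p : Fin 15 → T}

theorem as_1_1_1 (hp : plRel p = 0) (m : Fin 4) : Asc t p 1 1 1 m := by
  match m with
  | 0 =>
    change (-p 0 * p 1 + p 2 * t 0 + p 3 * p 13 - p 3 * t 1 - p 4 * p 11 + p 4 * t 2 - p 14 * t 0 - t 0 ^ 2) * 0 + (-p 2 + p 14 + 2 * t 0) * (-p 0 * p 1 + p 2 * t 0 + p 3 * p 13 - p 3 * t 1 - p 4 * p 11 + p 4 * t 2 - p 14 * t 0 - t 0 ^ 2) + (p 3) * (p 0 * t 2 - p 3 * p 6 + p 4 * p 5 + p 7 * t 0 - t 0 * t 1) + (-p 4) * (p 1 * p 7 - p 1 * t 1 + p 2 * t 2 - p 3 * p 5 - p 4 * p 9 - t 0 * t 2) =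
      (-p 0 * p 1 + p 2 * t 0 + p 3 * p 13 - p 3 * t 1 - p 4 * p 11 + p 4 * t 2 - p 14 * t 0 - t 0 ^ 2) * 0 + (-p 2 + p 14 + 2 * t 0) * (-p 0 * p 1 + p 2 * t 0 + p 3 * p 13 - p 3 * t 1 - p 4 * p 11 + p 4 * t 2 - p 14 * t 0 - t 0 ^ 2) + (p 3) * (p 0 * t 2 - p 3 * p 6 + p 4 * p 5 + p 7 * t 0 - t 0 * t 1) + (-p 4) * (p 1 * p 7 - p 1 * t 1 + p 2 * t 2 - p 3 * p 5 - p 4 * p 9 - t 0 * t 2)
    ring
  | 1 =>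
    change (-p 0 * p 1 + p 2 * t 0 + p 3 * p 13 - p 3 * t 1 - p 4 * p 11 + p 4 * t 2 - p 14 * t 0 - t 0 ^ 2) * 1 + (-p 2 + p 14 + 2 * t 0) * (-p 2 + p 14 + 2 * t 0) + (p 3) * (-p 7 + t 1) + (-p 4) * (t 2) =
      (-p 0 * p 1 + p 2 * t 0 + p 3 * p 13 - p 3 * t 1 - p 4 * p 11 + p 4 * t 2 - p 14 * t 0 - t 0 ^ 2) * 1 + (-p 2 + p 14 + 2 * t 0) * (-p 2 + p 14 + 2 * t 0) + (p 3) * (-p 7 + t 1) + (-p 4) * (t 2)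
    ring
  | 2 =>
    change (-p 0 * p 1 + p 2 * t 0 + p 3 * p 13 - p 3 * t 1 - p 4 * p 11 + p 4 * t 2 - p 14 * t 0 - t 0 ^ 2) * 0 + (-p 2 + p 14 + 2 * t 0) * (p 3) + (p 3) * (t 0) + (-p 4) * (p 1) =
      (-p 0 * p 1 + p 2 * t 0 + p 3 * p 13 - p 3 * t 1 - p 4 * p 11 + p 4 * t 2 - p 14 * t 0 - t 0 ^ 2) * 0 + (-p 2 + p 14 + 2 * t 0) * (p 3) + (p 3) * (t 0) + (-p 4) * (p 1)
    ring
  | 3 =>
    change (-p 0 * p 1 + p 2 * t 0 + p 3 * p 13 - p 3 * t 1 - p 4 * p 11 + p 4 * t 2 - p 14 * t 0 - t 0 ^ 2) * 0 + (-p 2 + p 14 + 2 * t 0) * (-p 4) + (p 3) * (-p 0) + (-p 4) * (-p 2 + t 0) =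
      (-p 0 * p 1 + p 2 * t 0 + p 3 * p 13 - p 3 * t 1 - p 4 * p 11 + p 4 * t 2 - p 14 * t 0 - t 0 ^ 2) * 0 + (-p 2 + p 14 + 2 * t 0) * (-p 4) + (p 3) * (-p 0) + (-p 4) * (-p 2 + t 0)
    ring

theorem as_1_1_2 (hp : plRel p = 0) (m : Fin 4) : Asc t p 1 1 2 m := by
  have h2 : p 0 * p 11 - p 1 * p 8 + p 4 * p 5 = 0 := congrFun hp 2
  have h4 : p 0 * p 13 - p 2 * p 8 + p 4 * p 6 = 0 := congrFun hp 4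
  have h5 : p 0 * p 14 - p 3 * p 8 + p 4 * p 7 = 0 := congrFun hp 5
  have h7 : p 1 * p 13 - p 2 * p 11 + p 4 * p 9 = 0 := congrFun hp 7
  match m with
  | 0 =>
    change (-p 0 * p 1 + p 2 * t 0 + p 3 * p 13 - p 3 * t 1 - p 4 * p 11 + p 4 * t 2 - p 14 * t 0 - t 0 ^ 2) * 0 + (-p 2 + p 14 + 2 * t 0) * (p 0 * t 2 - p 3 * p 6 + p 4 * p 5 + p 7 * t 0 - t 0 * t 1) + (p 3) * (p 0 * p 5 - p 2 * p 6 + p 6 * p 14 + p 6 * t 0 - p 7 * p 13 + p 7 * t 1 - p 8 * t 2 + p 13 * t 1 - t 1 ^ 2) + (-p 4) * (-p 1 * p 6 + p 5 * p 14 + p 5 * t 0 - p 7 * p 11 + p 11 * t 1 - t 1 * t 2) =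
      (p 0 * t 2 - p 3 * p 6 + p 4 * p 5 + p 7 * t 0 - t 0 * t 1) * 0 + (-p 7 + t 1) * (-p 0 * p 1 + p 2 * t 0 + p 3 * p 13 - p 3 * t 1 - p 4 * p 11 + p 4 * t 2 - p 14 * t 0 - t 0 ^ 2) + (t 0) * (p 0 * t 2 - p 3 * p 6 + p 4 * p 5 + p 7 * t 0 - t 0 * t 1) + (-p 0) * (p 1 * p 7 - p 1 * t 1 + p 2 * t 2 - p 3 * p 5 - p 4 * p 9 - t 0 * t 2)
    linear_combination -p 0 * h7 + p 1 * h4 - p 2 * h2 + t 2 * h5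
  | 1 =>
    change (-p 0 * p 1 + p 2 * t 0 + p 3 * p 13 - p 3 * t 1 - p 4 * p 11 + p 4 * t 2 - p 14 * t 0 - t 0 ^ 2) * 0 + (-p 2 + p 14 + 2 * t 0) * (-p 7 + t 1) + (p 3) * (-p 6) + (-p 4) * (-p 5) =
      (p 0 * t 2 - p 3 * p 6 + p 4 * p 5 + p 7 * t 0 - t 0 * t 1) * 1 + (-p 7 + t 1) * (-p 2 + p 14 + 2 * t 0) + (t 0) * (-p 7 + t 1) + (-p 0) * (t 2)
    ring
  | 2 =>
    change (-p 0 * p 1 + p 2 * t 0 + p 3 * p 13 - p 3 * t 1 - p 4 * p 11 + p 4 * t 2 - p 14 * t 0 - t 0 ^ 2) * 1 + (-p 2 + p 14 + 2 * t 0) * (t 0) + (p 3) * (-p 7 - p 13 + 2 * t 1) + (-p 4) * (-p 11 + t 2) =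
      (p 0 * t 2 - p 3 * p 6 + p 4 * p 5 + p 7 * t 0 - t 0 * t 1) * 0 + (-p 7 + t 1) * (p 3) + (t 0) * (t 0) + (-p 0) * (p 1)
    ring
  | 3 =>
    change (-p 0 * p 1 + p 2 * t 0 + p 3 * p 13 - p 3 * t 1 - p 4 * p 11 + p 4 * t 2 - p 14 * t 0 - t 0 ^ 2) * 0 + (-p 2 + p 14 + 2 * t 0) * (-p 0) + (p 3) * (p 8) + (-p 4) * (t 1) =
      (p 0 * t 2 - p 3 * p 6 + p 4 * p 5 + p 7 * t 0 - t 0 * t 1) * 0 + (-p 7 + t 1) * (-p 4) + (t 0) * (-p 0) + (-p 0) * (-p 2 + t 0)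
    linear_combination -h5

theorem as_1_1_3 (hp : plRel p = 0) (m : Fin 4) : Asc t p 1 1 3 m := by
  have h8 : p 1 * p 14 - p 3 * p 11 + p 4 * p 10 = 0 := congrFun hp 8
  have h9 : p 2 * p 14 - p 3 * p 13 + p 4 * p 12 = 0 := congrFun hp 9
  match m with
  | 0 =>
    change (-p 0 * p 1 + p 2 * t 0 + p 3 * p 13 - p 3 * t 1 - p 4 * p 11 + p 4 * t 2 - p 14 * t 0 - t 0 ^ 2) * 0 + (-p 2 + p 14 + 2 * t 0) * (p 1 * p 7 - p 1 * t 1 + p 2 * t 2 - p 3 * p 5 - p 4 * p 9 - t 0 * t 2) + (p 3) * (-p 1 * p 6 + p 5 * p 14 + p 5 * t 0 - p 7 * p 11 + p 11 * t 1 - t 1 * t 2) + (-p 4) * (-p 1 * p 5 - p 7 * p 10 - p 9 * p 14 - p 9 * t 0 + p 10 * t 1 + p 11 * t 2 - p 12 * t 2 - t 2 ^ 2) =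
      (p 1 * p 7 - p 1 * t 1 + p 2 * t 2 - p 3 * p 5 - p 4 * p 9 - t 0 * t 2) * 0 + (t 2) * (-p 0 * p 1 + p 2 * t 0 + p 3 * p 13 - p 3 * t 1 - p 4 * p 11 + p 4 * t 2 - p 14 * t 0 - t 0 ^ 2) + (p 1) * (p 0 * t 2 - p 3 * p 6 + p 4 * p 5 + p 7 * t 0 - t 0 * t 1) + (-p 2 + t 0) * (p 1 * p 7 - p 1 * t 1 + p 2 * t 2 - p 3 * p 5 - p 4 * p 9 - t 0 * t 2)
    linear_combination p 7 * h8 - t 1 * h8 + t 2 * h9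
  | 1 =>
    change (-p 0 * p 1 + p 2 * t 0 + p 3 * p 13 - p 3 * t 1 - p 4 * p 11 + p 4 * t 2 - p 14 * t 0 - t 0 ^ 2) * 0 + (-p 2 + p 14 + 2 * t 0) * (t 2) + (p 3) * (-p 5) + (-p 4) * (p 9) =
      (p 1 * p 7 - p 1 * t 1 + p 2 * t 2 - p 3 * p 5 - p 4 * p 9 - t 0 * t 2) * 1 + (t 2) * (-p 2 + p 14 + 2 * t 0) + (p 1) * (-p 7 + t 1) + (-p 2 + t 0) * (t 2)
    ring
  | 2 =>
    change (-p 0 * p 1 + p 2 * t 0 + p 3 * p 13 - p 3 * t 1 - p 4 * p 11 + p 4 * t 2 - p 14 * t 0 - t 0 ^ 2) * 0 + (-p 2 + p 14 + 2 * t 0) * (p 1) + (p 3) * (-p 11 + t 2) + (-p 4) * (-p 10) =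
      (p 1 * p 7 - p 1 * t 1 + p 2 * t 2 - p 3 * p 5 - p 4 * p 9 - t 0 * t 2) * 0 + (t 2) * (p 3) + (p 1) * (t 0) + (-p 2 + t 0) * (p 1)
    linear_combination h8
  | 3 =>
    change (-p 0 * p 1 + p 2 * t 0 + p 3 * p 13 - p 3 * t 1 - p 4 * p 11 + p 4 * t 2 - p 14 * t 0 - t 0 ^ 2) * 1 + (-p 2 + p 14 + 2 * t 0) * (-p 2 + t 0) + (p 3) * (t 1) + (-p 4) * (-p 11 + p 12 + 2 * t 2) =
      (p 1 * p 7 - p 1 * t 1 + p 2 * t 2 - p 3 * p 5 - p 4 * p 9 - t 0 * t 2) * 0 + (t 2) * (-p 4) + (p 1) * (-p 0) + (-p 2 + t 0) * (-p 2 + t 0)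
    linear_combination -h9

theorem as_1_2_1 (hp : plRel p = 0) (m : Fin 4) : Asc t p 1 2 1 m := by
  match m with
  | 0 =>
    change (p 0 * t 2 - p 3 * p 6 + p 4 * p 5 + p 7 * t 0 - t 0 * t 1) * 0 + (-p 7 + t 1) * (-p 0 * p 1 + p 2 * t 0 + p 3 * p 13 - p 3 * t 1 - p 4 * p 11 + p 4 * t 2 - p 14 * t 0 - t 0 ^ 2) + (t 0) * (p 0 * t 2 - p 3 * p 6 + p 4 * p 5 + p 7 * t 0 - t 0 * t 1) + (-p 0) * (p 1 * p 7 - p 1 * t 1 + p 2 * t 2 - p 3 * p 5 - p 4 * p 9 - t 0 * t 2) =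
      (p 0 * t 2 - p 3 * p 6 + p 4 * p 5 + p 7 * t 0 - t 0 * t 1) * 0 + (-p 7 + t 1) * (-p 0 * p 1 + p 2 * t 0 + p 3 * p 13 - p 3 * t 1 - p 4 * p 11 + p 4 * t 2 - p 14 * t 0 - t 0 ^ 2) + (t 0) * (p 0 * t 2 - p 3 * p 6 + p 4 * p 5 + p 7 * t 0 - t 0 * t 1) + (-p 0) * (p 1 * p 7 - p 1 * t 1 + p 2 * t 2 - p 3 * p 5 - p 4 * p 9 - t 0 * t 2)
    ring
  | 1 =>
    change (p 0 * t 2 - p 3 * p 6 + p 4 * p 5 + p 7 * t 0 - t 0 * t 1) * 1 + (-p 7 + t 1) * (-p 2 + p 14 + 2 * t 0) + (t 0) * (-p 7 + t 1) + (-p 0) * (t 2) =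
      (p 0 * t 2 - p 3 * p 6 + p 4 * p 5 + p 7 * t 0 - t 0 * t 1) * 1 + (-p 7 + t 1) * (-p 2 + p 14 + 2 * t 0) + (t 0) * (-p 7 + t 1) + (-p 0) * (t 2)
    ring
  | 2 =>
    change (p 0 * t 2 - p 3 * p 6 + p 4 * p 5 + p 7 * t 0 - t 0 * t 1) * 0 + (-p 7 + t 1) * (p 3) + (t 0) * (t 0) + (-p 0) * (p 1) =
      (p 0 * t 2 - p 3 * p 6 + p 4 * p 5 + p 7 * t 0 - t 0 * t 1) * 0 + (-p 7 + t 1) * (p 3) + (t 0) * (t 0) + (-p 0) * (p 1)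
    ring
  | 3 =>
    change (p 0 * t 2 - p 3 * p 6 + p 4 * p 5 + p 7 * t 0 - t 0 * t 1) * 0 + (-p 7 + t 1) * (-p 4) + (t 0) * (-p 0) + (-p 0) * (-p 2 + t 0) =
      (p 0 * t 2 - p 3 * p 6 + p 4 * p 5 + p 7 * t 0 - t 0 * t 1) * 0 + (-p 7 + t 1) * (-p 4) + (t 0) * (-p 0) + (-p 0) * (-p 2 + t 0)
    ring

theorem as_1_2_2 (hp : plRel p = 0) (m : Fin 4) : Asc t p 1 2 2 m := by
  have h2 : p 0 * p 11 - p 1 * p 8 + p 4 * p 5 = 0 := congrFun hp 2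
  have h4 : p 0 * p 13 - p 2 * p 8 + p 4 * p 6 = 0 := congrFun hp 4
  have h5 : p 0 * p 14 - p 3 * p 8 + p 4 * p 7 = 0 := congrFun hp 5
  have h11 : p 5 * p 13 - p 6 * p 11 + p 8 * p 9 = 0 := congrFun hp 11
  match m with
  | 0 =>
    change (p 0 * t 2 - p 3 * p 6 + p 4 * p 5 + p 7 * t 0 - t 0 * t 1) * 0 + (-p 7 + t 1) * (p 0 * t 2 - p 3 * p 6 + p 4 * p 5 + p 7 * t 0 - t 0 * t 1) + (t 0) * (p 0 * p 5 - p 2 * p 6 + p 6 * p 14 + p 6 * t 0 - p 7 * p 13 + p 7 * t 1 - p 8 * t 2 + p 13 * t 1 - t 1 ^ 2) + (-p 0) * (-p 1 * p 6 + p 5 * p 14 + p 5 * t 0 - p 7 * p 11 + p 11 * t 1 - t 1 * t 2) =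
      (p 0 * p 5 - p 2 * p 6 + p 6 * p 14 + p 6 * t 0 - p 7 * p 13 + p 7 * t 1 - p 8 * t 2 + p 13 * t 1 - t 1 ^ 2) * 0 + (-p 6) * (-p 0 * p 1 + p 2 * t 0 + p 3 * p 13 - p 3 * t 1 - p 4 * p 11 + p 4 * t 2 - p 14 * t 0 - t 0 ^ 2) + (-p 7 - p 13 + 2 * t 1) * (p 0 * t 2 - p 3 * p 6 + p 4 * p 5 + p 7 * t 0 - t 0 * t 1) + (p 8) * (p 1 * p 7 - p 1 * t 1 + p 2 * t 2 - p 3 * p 5 - p 4 * p 9 - t 0 * t 2)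
    linear_combination p 4 * h11 - p 5 * h5 + p 7 * h2 - t 1 * h2 + t 2 * h4
  | 1 =>
    change (p 0 * t 2 - p 3 * p 6 + p 4 * p 5 + p 7 * t 0 - t 0 * t 1) * 0 + (-p 7 + t 1) * (-p 7 + t 1) + (t 0) * (-p 6) + (-p 0) * (-p 5) =
      (p 0 * p 5 - p 2 * p 6 + p 6 * p 14 + p 6 * t 0 - p 7 * p 13 + p 7 * t 1 - p 8 * t 2 + p 13 * t 1 - t 1 ^ 2) * 1 + (-p 6) * (-p 2 + p 14 + 2 * t 0) + (-p 7 - p 13 + 2 * t 1) * (-p 7 + t 1) + (p 8) * (t 2)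
    ring
  | 2 =>
    change (p 0 * t 2 - p 3 * p 6 + p 4 * p 5 + p 7 * t 0 - t 0 * t 1) * 1 + (-p 7 + t 1) * (t 0) + (t 0) * (-p 7 - p 13 + 2 * t 1) + (-p 0) * (-p 11 + t 2) =
      (p 0 * p 5 - p 2 * p 6 + p 6 * p 14 + p 6 * t 0 - p 7 * p 13 + p 7 * t 1 - p 8 * t 2 + p 13 * t 1 - t 1 ^ 2) * 0 + (-p 6) * (p 3) + (-p 7 - p 13 + 2 * t 1) * (t 0) + (p 8) * (p 1)
    linear_combination h2
  | 3 =>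
    change (p 0 * t 2 - p 3 * p 6 + p 4 * p 5 + p 7 * t 0 - t 0 * t 1) * 0 + (-p 7 + t 1) * (-p 0) + (t 0) * (p 8) + (-p 0) * (t 1) =
      (p 0 * p 5 - p 2 * p 6 + p 6 * p 14 + p 6 * t 0 - p 7 * p 13 + p 7 * t 1 - p 8 * t 2 + p 13 * t 1 - t 1 ^ 2) * 0 + (-p 6) * (-p 4) + (-p 7 - p 13 + 2 * t 1) * (-p 0) + (p 8) * (-p 2 + t 0)
    linear_combination -h4

theorem as_1_2_3 (hp : plRel p = 0) (m : Fin 4) : Asc t p 1 2 3 m := by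
  have h0 : p 0 * p 9 - p 1 * p 6 + p 2 * p 5 = 0 := congrFun hp 0
  have h1 : p 0 * p 10 - p 1 * p 7 + p 3 * p 5 = 0 := congrFun hp 1
  have h3 : p 0 * p 12 - p 2 * p 7 + p 3 * p 6 = 0 := congrFun hp 3
  have h5 : p 0 * p 14 - p 3 * p 8 + p 4 * p 7 = 0 := congrFun hp 5
  have h11 : p 5 * p 13 - p 6 * p 11 + p 8 * p 9 = 0 := congrFun hp 11
  match m with
  | 0 =>
    change (p 0 * t 2 - p 3 * p 6 + p 4 * p 5 + p 7 * t 0 - t 0 * t 1) * 0 + (-p 7 + t 1) * (p 1 * p 7 - p 1 * t 1 + p 2 * t 2 - p 3 * p 5 - p 4 * p 9 - t 0 * t 2) + (t 0) * (-p 1 * p 6 + p 5 * p 14 + p 5 * t 0 - p 7 * p 11 + p 11 * t 1 - t 1 * t 2) + (-p 0) * (-p 1 * p 5 - p 7 * p 10 - p 9 * p 14 - p 9 * t 0 + p 10 * t 1 + p 11 * t 2 - p 12 * t 2 - t 2 ^ 2) =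
      (-p 1 * p 6 + p 5 * p 14 + p 5 * t 0 - p 7 * p 11 + p 11 * t 1 - t 1 * t 2) * 0 + (-p 5) * (-p 0 * p 1 + p 2 * t 0 + p 3 * p 13 - p 3 * t 1 - p 4 * p 11 + p 4 * t 2 - p 14 * t 0 - t 0 ^ 2) + (-p 11 + t 2) * (p 0 * t 2 - p 3 * p 6 + p 4 * p 5 + p 7 * t 0 - t 0 * t 1) + (t 1) * (p 1 * p 7 - p 1 * t 1 + p 2 * t 2 - p 3 * p 5 - p 4 * p 9 - t 0 * t 2)
    linear_combination p 3 * h11 + p 7 * h1 + p 9 * h5 + t 0 * h0 - t 1 * h1 + t 2 * h3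
  | 1 =>
    change (p 0 * t 2 - p 3 * p 6 + p 4 * p 5 + p 7 * t 0 - t 0 * t 1) * 0 + (-p 7 + t 1) * (t 2) + (t 0) * (-p 5) + (-p 0) * (p 9) =
      (-p 1 * p 6 + p 5 * p 14 + p 5 * t 0 - p 7 * p 11 + p 11 * t 1 - t 1 * t 2) * 1 + (-p 5) * (-p 2 + p 14 + 2 * t 0) + (-p 11 + t 2) * (-p 7 + t 1) + (t 1) * (t 2)
    linear_combination -h0
  | 2 =>
    change (p 0 * t 2 - p 3 * p 6 + p 4 * p 5 + p 7 * t 0 - t 0 * t 1) * 0 + (-p 7 + t 1) * (p 1) + (t 0) * (-p 11 + t 2) + (-p 0) * (-p 10) =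
      (-p 1 * p 6 + p 5 * p 14 + p 5 * t 0 - p 7 * p 11 + p 11 * t 1 - t 1 * t 2) * 0 + (-p 5) * (p 3) + (-p 11 + t 2) * (t 0) + (t 1) * (p 1)
    linear_combination h1
  | 3 =>
    change (p 0 * t 2 - p 3 * p 6 + p 4 * p 5 + p 7 * t 0 - t 0 * t 1) * 1 + (-p 7 + t 1) * (-p 2 + t 0) + (t 0) * (t 1) + (-p 0) * (-p 11 + p 12 + 2 * t 2) =
      (-p 1 * p 6 + p 5 * p 14 + p 5 * t 0 - p 7 * p 11 + p 11 * t 1 - t 1 * t 2) * 0 + (-p 5) * (-p 4) + (-p 11 + t 2) * (-p 0) + (t 1) * (-p 2 + t 0)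
    linear_combination -h3

theorem as_1_3_1 (hp : plRel p = 0) (m : Fin 4) : Asc t p 1 3 1 m := by
  match m with
  | 0 =>
    change (p 1 * p 7 - p 1 * t 1 + p 2 * t 2 - p 3 * p 5 - p 4 * p 9 - t 0 * t 2) * 0 + (t 2) * (-p 0 * p 1 + p 2 * t 0 + p 3 * p 13 - p 3 * t 1 - p 4 * p 11 + p 4 * t 2 - p 14 * t 0 - t 0 ^ 2) + (p 1) * (p 0 * t 2 - p 3 * p 6 + p 4 * p 5 + p 7 * t 0 - t 0 * t 1) + (-p 2 + t 0) * (p 1 * p 7 - p 1 * t 1 + p 2 * t 2 - p 3 * p 5 - p 4 * p 9 - t 0 * t 2) =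
      (p 1 * p 7 - p 1 * t 1 + p 2 * t 2 - p 3 * p 5 - p 4 * p 9 - t 0 * t 2) * 0 + (t 2) * (-p 0 * p 1 + p 2 * t 0 + p 3 * p 13 - p 3 * t 1 - p 4 * p 11 + p 4 * t 2 - p 14 * t 0 - t 0 ^ 2) + (p 1) * (p 0 * t 2 - p 3 * p 6 + p 4 * p 5 + p 7 * t 0 - t 0 * t 1) + (-p 2 + t 0) * (p 1 * p 7 - p 1 * t 1 + p 2 * t 2 - p 3 * p 5 - p 4 * p 9 - t 0 * t 2)
    ring
  | 1 =>
    change (p 1 * p 7 - p 1 * t 1 + p 2 * t 2 - p 3 * p 5 - p 4 * p 9 - t 0 * t 2) * 1 + (t 2) * (-p 2 + p 14 + 2 * t 0) + (p 1) * (-p 7 + t 1) + (-p 2 + t 0) * (t 2) =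
      (p 1 * p 7 - p 1 * t 1 + p 2 * t 2 - p 3 * p 5 - p 4 * p 9 - t 0 * t 2) * 1 + (t 2) * (-p 2 + p 14 + 2 * t 0) + (p 1) * (-p 7 + t 1) + (-p 2 + t 0) * (t 2)
    ring
  | 2 =>
    change (p 1 * p 7 - p 1 * t 1 + p 2 * t 2 - p 3 * p 5 - p 4 * p 9 - t 0 * t 2) * 0 + (t 2) * (p 3) + (p 1) * (t 0) + (-p 2 + t 0) * (p 1) =
      (p 1 * p 7 - p 1 * t 1 + p 2 * t 2 - p 3 * p 5 - p 4 * p 9 - t 0 * t 2) * 0 + (t 2) * (p 3) + (p 1) * (t 0) + (-p 2 + t 0) * (p 1)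
    ring
  | 3 =>
    change (p 1 * p 7 - p 1 * t 1 + p 2 * t 2 - p 3 * p 5 - p 4 * p 9 - t 0 * t 2) * 0 + (t 2) * (-p 4) + (p 1) * (-p 0) + (-p 2 + t 0) * (-p 2 + t 0) =
      (p 1 * p 7 - p 1 * t 1 + p 2 * t 2 - p 3 * p 5 - p 4 * p 9 - t 0 * t 2) * 0 + (t 2) * (-p 4) + (p 1) * (-p 0) + (-p 2 + t 0) * (-p 2 + t 0)
    ring

theorem as_1_3_2 (hp : plRel p = 0) (m : Fin 4) : Asc t p 1 3 2 m := by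
  have h2 : p 0 * p 11 - p 1 * p 8 + p 4 * p 5 = 0 := congrFun hp 2
  have h7 : p 1 * p 13 - p 2 * p 11 + p 4 * p 9 = 0 := congrFun hp 7
  have h8 : p 1 * p 14 - p 3 * p 11 + p 4 * p 10 = 0 := congrFun hp 8
  have h9 : p 2 * p 14 - p 3 * p 13 + p 4 * p 12 = 0 := congrFun hp 9
  have h10 : p 5 * p 12 - p 6 * p 10 + p 7 * p 9 = 0 := congrFun hp 10
  match m with
  | 0 =>
    change (p 1 * p 7 - p 1 * t 1 + p 2 * t 2 - p 3 * p 5 - p 4 * p 9 - t 0 * t 2) * 0 + (t 2) * (p 0 * t 2 - p 3 * p 6 + p 4 * p 5 + p 7 * t 0 - t 0 * t 1) + (p 1) * (p 0 * p 5 - p 2 * p 6 + p 6 * p 14 + p 6 * t 0 - p 7 * p 13 + p 7 * t 1 - p 8 * t 2 + p 13 * t 1 - t 1 ^ 2) + (-p 2 + t 0) * (-p 1 * p 6 + p 5 * p 14 + p 5 * t 0 - p 7 * p 11 + p 11 * t 1 - t 1 * t 2) =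
      (-p 1 * p 6 + p 5 * p 14 + p 5 * t 0 - p 7 * p 11 + p 11 * t 1 - t 1 * t 2) * 0 + (-p 5) * (-p 0 * p 1 + p 2 * t 0 + p 3 * p 13 - p 3 * t 1 - p 4 * p 11 + p 4 * t 2 - p 14 * t 0 - t 0 ^ 2) + (-p 11 + t 2) * (p 0 * t 2 - p 3 * p 6 + p 4 * p 5 + p 7 * t 0 - t 0 * t 1) + (t 1) * (p 1 * p 7 - p 1 * t 1 + p 2 * t 2 - p 3 * p 5 - p 4 * p 9 - t 0 * t 2)
    linear_combination p 4 * h10 - p 5 * h9 + p 6 * h8 - p 7 * h7 + t 1 * h7 + t 2 * h2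
  | 1 =>
    change (p 1 * p 7 - p 1 * t 1 + p 2 * t 2 - p 3 * p 5 - p 4 * p 9 - t 0 * t 2) * 0 + (t 2) * (-p 7 + t 1) + (p 1) * (-p 6) + (-p 2 + t 0) * (-p 5) =
      (-p 1 * p 6 + p 5 * p 14 + p 5 * t 0 - p 7 * p 11 + p 11 * t 1 - t 1 * t 2) * 1 + (-p 5) * (-p 2 + p 14 + 2 * t 0) + (-p 11 + t 2) * (-p 7 + t 1) + (t 1) * (t 2)
    ring
  | 2 =>
    change (p 1 * p 7 - p 1 * t 1 + p 2 * t 2 - p 3 * p 5 - p 4 * p 9 - t 0 * t 2) * 1 + (t 2) * (t 0) + (p 1) * (-p 7 - p 13 + 2 * t 1) + (-p 2 + t 0) * (-p 11 + t 2) =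
      (-p 1 * p 6 + p 5 * p 14 + p 5 * t 0 - p 7 * p 11 + p 11 * t 1 - t 1 * t 2) * 0 + (-p 5) * (p 3) + (-p 11 + t 2) * (t 0) + (t 1) * (p 1)
    linear_combination -h7
  | 3 =>
    change (p 1 * p 7 - p 1 * t 1 + p 2 * t 2 - p 3 * p 5 - p 4 * p 9 - t 0 * t 2) * 0 + (t 2) * (-p 0) + (p 1) * (p 8) + (-p 2 + t 0) * (t 1) =
      (-p 1 * p 6 + p 5 * p 14 + p 5 * t 0 - p 7 * p 11 + p 11 * t 1 - t 1 * t 2) * 0 + (-p 5) * (-p 4) + (-p 11 + t 2) * (-p 0) + (t 1) * (-p 2 + t 0)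
    linear_combination -h2

theorem as_1_3_3 (hp : plRel p = 0) (m : Fin 4) : Asc t p 1 3 3 m := by
  have h0 : p 0 * p 9 - p 1 * p 6 + p 2 * p 5 = 0 := congrFun hp 0
  have h1 : p 0 * p 10 - p 1 * p 7 + p 3 * p 5 = 0 := congrFun hp 1
  have h6 : p 1 * p 12 - p 2 * p 10 + p 3 * p 9 = 0 := congrFun hp 6
  have h8 : p 1 * p 14 - p 3 * p 11 + p 4 * p 10 = 0 := congrFun hp 8
  have h9 : p 2 * p 14 - p 3 * p 13 + p 4 * p 12 = 0 := congrFun hp 9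
  have h10 : p 5 * p 12 - p 6 * p 10 + p 7 * p 9 = 0 := congrFun hp 10
  match m with
  | 0 =>
    change (p 1 * p 7 - p 1 * t 1 + p 2 * t 2 - p 3 * p 5 - p 4 * p 9 - t 0 * t 2) * 0 + (t 2) * (p 1 * p 7 - p 1 * t 1 + p 2 * t 2 - p 3 * p 5 - p 4 * p 9 - t 0 * t 2) + (p 1) * (-p 1 * p 6 + p 5 * p 14 + p 5 * t 0 - p 7 * p 11 + p 11 * t 1 - t 1 * t 2) + (-p 2 + t 0) * (-p 1 * p 5 - p 7 * p 10 - p 9 * p 14 - p 9 * t 0 + p 10 * t 1 + p 11 * t 2 - p 12 * t 2 - t 2 ^ 2) =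
      (-p 1 * p 5 - p 7 * p 10 - p 9 * p 14 - p 9 * t 0 + p 10 * t 1 + p 11 * t 2 - p 12 * t 2 - t 2 ^ 2) * 0 + (p 9) * (-p 0 * p 1 + p 2 * t 0 + p 3 * p 13 - p 3 * t 1 - p 4 * p 11 + p 4 * t 2 - p 14 * t 0 - t 0 ^ 2) + (-p 10) * (p 0 * t 2 - p 3 * p 6 + p 4 * p 5 + p 7 * t 0 - t 0 * t 1) + (-p 11 + p 12 + 2 * t 2) * (p 1 * p 7 - p 1 * t 1 + p 2 * t 2 - p 3 * p 5 - p 4 * p 9 - t 0 * t 2)
    linear_combination p 1 * h0 + p 3 * h10 + p 5 * h8 - p 7 * h6 + p 9 * h9 + t 1 * h6 + t 2 * h1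
  | 1 =>
    change (p 1 * p 7 - p 1 * t 1 + p 2 * t 2 - p 3 * p 5 - p 4 * p 9 - t 0 * t 2) * 0 + (t 2) * (t 2) + (p 1) * (-p 5) + (-p 2 + t 0) * (p 9) =
      (-p 1 * p 5 - p 7 * p 10 - p 9 * p 14 - p 9 * t 0 + p 10 * t 1 + p 11 * t 2 - p 12 * t 2 - t 2 ^ 2) * 1 + (p 9) * (-p 2 + p 14 + 2 * t 0) + (-p 10) * (-p 7 + t 1) + (-p 11 + p 12 + 2 * t 2) * (t 2)
    ring
  | 2 =>
    change (p 1 * p 7 - p 1 * t 1 + p 2 * t 2 - p 3 * p 5 - p 4 * p 9 - t 0 * t 2) * 0 + (t 2) * (p 1) + (p 1) * (-p 11 + t 2) + (-p 2 + t 0) * (-p 10) =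
      (-p 1 * p 5 - p 7 * p 10 - p 9 * p 14 - p 9 * t 0 + p 10 * t 1 + p 11 * t 2 - p 12 * t 2 - t 2 ^ 2) * 0 + (p 9) * (p 3) + (-p 10) * (t 0) + (-p 11 + p 12 + 2 * t 2) * (p 1)
    linear_combination -h6
  | 3 =>
    change (p 1 * p 7 - p 1 * t 1 + p 2 * t 2 - p 3 * p 5 - p 4 * p 9 - t 0 * t 2) * 1 + (t 2) * (-p 2 + t 0) + (p 1) * (t 1) + (-p 2 + t 0) * (-p 11 + p 12 + 2 * t 2) =
      (-p 1 * p 5 - p 7 * p 10 - p 9 * p 14 - p 9 * t 0 + p 10 * t 1 + p 11 * t 2 - p 12 * t 2 - t 2 ^ 2) * 0 + (p 9) * (-p 4) + (-p 10) * (-p 0) + (-p 11 + p 12 + 2 * t 2) * (-p 2 + t 0)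
    linear_combination -h1

theorem as_2_1_1 (hp : plRel p = 0) (m : Fin 4) : Asc t p 2 1 1 m := by
  have h2 : p 0 * p 11 - p 1 * p 8 + p 4 * p 5 = 0 := congrFun hp 2
  have h4 : p 0 * p 13 - p 2 * p 8 + p 4 * p 6 = 0 := congrFun hp 4
  have h5 : p 0 * p 14 - p 3 * p 8 + p 4 * p 7 = 0 := congrFun hp 5
  have h7 : p 1 * p 13 - p 2 * p 11 + p 4 * p 9 = 0 := congrFun hp 7
  match m with
  | 0 =>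
    change (p 0 * t 2 - p 3 * p 6 + p 4 * p 5 + p 7 * t 0 - t 0 * t 1) * 0 + (-p 7 + t 1) * (-p 0 * p 1 + p 2 * t 0 + p 3 * p 13 - p 3 * t 1 - p 4 * p 11 + p 4 * t 2 - p 14 * t 0 - t 0 ^ 2) + (t 0) * (p 0 * t 2 - p 3 * p 6 + p 4 * p 5 + p 7 * t 0 - t 0 * t 1) + (-p 0) * (p 1 * p 7 - p 1 * t 1 + p 2 * t 2 - p 3 * p 5 - p 4 * p 9 - t 0 * t 2) =
      (-p 0 * p 1 + p 2 * t 0 + p 3 * p 13 - p 3 * t 1 - p 4 * p 11 + p 4 * t 2 - p 14 * t 0 - t 0 ^ 2) * 0 + (-p 2 + p 14 + 2 * t 0) * (p 0 * t 2 - p 3 * p 6 + p 4 * p 5 + p 7 * t 0 - t 0 * t 1) + (p 3) * (p 0 * p 5 - p 2 * p 6 + p 6 * p 14 + p 6 * t 0 - p 7 * p 13 + p 7 * t 1 - p 8 * t 2 + p 13 * t 1 - t 1 ^ 2) + (-p 4) * (-p 1 * p 6 + p 5 * p 14 + p 5 * t 0 - p 7 * p 11 + p 11 * t 1 - t 1 * t 2)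
    linear_combination p 0 * h7 - p 1 * h4 + p 2 * h2 - t 2 * h5
  | 1 =>
    change (p 0 * t 2 - p 3 * p 6 + p 4 * p 5 + p 7 * t 0 - t 0 * t 1) * 1 + (-p 7 + t 1) * (-p 2 + p 14 + 2 * t 0) + (t 0) * (-p 7 + t 1) + (-p 0) * (t 2) =
      (-p 0 * p 1 + p 2 * t 0 + p 3 * p 13 - p 3 * t 1 - p 4 * p 11 + p 4 * t 2 - p 14 * t 0 - t 0 ^ 2) * 0 + (-p 2 + p 14 + 2 * t 0) * (-p 7 + t 1) + (p 3) * (-p 6) + (-p 4) * (-p 5)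
    ring
  | 2 =>
    change (p 0 * t 2 - p 3 * p 6 + p 4 * p 5 + p 7 * t 0 - t 0 * t 1) * 0 + (-p 7 + t 1) * (p 3) + (t 0) * (t 0) + (-p 0) * (p 1) =
      (-p 0 * p 1 + p 2 * t 0 + p 3 * p 13 - p 3 * t 1 - p 4 * p 11 + p 4 * t 2 - p 14 * t 0 - t 0 ^ 2) * 1 + (-p 2 + p 14 + 2 * t 0) * (t 0) + (p 3) * (-p 7 - p 13 + 2 * t 1) + (-p 4) * (-p 11 + t 2)
    ring
  | 3 =>
    change (p 0 * t 2 - p 3 * p 6 + p 4 * p 5 + p 7 * t 0 - t 0 * t 1) * 0 + (-p 7 + t 1) * (-p 4) + (t 0) * (-p 0) + (-p 0) * (-p 2 + t 0) =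
      (-p 0 * p 1 + p 2 * t 0 + p 3 * p 13 - p 3 * t 1 - p 4 * p 11 + p 4 * t 2 - p 14 * t 0 - t 0 ^ 2) * 0 + (-p 2 + p 14 + 2 * t 0) * (-p 0) + (p 3) * (p 8) + (-p 4) * (t 1)
    linear_combination h5

theorem as_2_1_2 (hp : plRel p = 0) (m : Fin 4) : Asc t p 2 1 2 m := by
  match m with
  | 0 =>
    change (p 0 * t 2 - p 3 * p 6 + p 4 * p 5 + p 7 * t 0 - t 0 * t 1) * 0 + (-p 7 + t 1) * (p 0 * t 2 - p 3 * p 6 + p 4 * p 5 + p 7 * t 0 - t 0 * t 1) + (t 0) * (p 0 * p 5 - p 2 * p 6 + p 6 * p 14 + p 6 * t 0 - p 7 * p 13 + p 7 * t 1 - p 8 * t 2 + p 13 * t 1 - t 1 ^ 2) + (-p 0) * (-p 1 * p 6 + p 5 * p 14 + p 5 * t 0 - p 7 * p 11 + p 11 * t 1 - t 1 * t 2) =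
      (p 0 * t 2 - p 3 * p 6 + p 4 * p 5 + p 7 * t 0 - t 0 * t 1) * 0 + (-p 7 + t 1) * (p 0 * t 2 - p 3 * p 6 + p 4 * p 5 + p 7 * t 0 - t 0 * t 1) + (t 0) * (p 0 * p 5 - p 2 * p 6 + p 6 * p 14 + p 6 * t 0 - p 7 * p 13 + p 7 * t 1 - p 8 * t 2 + p 13 * t 1 - t 1 ^ 2) + (-p 0) * (-p 1 * p 6 + p 5 * p 14 + p 5 * t 0 - p 7 * p 11 + p 11 * t 1 - t 1 * t 2)
    ring
  | 1 =>
    change (p 0 * t 2 - p 3 * p 6 + p 4 * p 5 + p 7 * t 0 - t 0 * t 1) * 0 + (-p 7 + t 1) * (-p 7 + t 1) + (t 0) * (-p 6) + (-p 0) * (-p 5) =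
      (p 0 * t 2 - p 3 * p 6 + p 4 * p 5 + p 7 * t 0 - t 0 * t 1) * 0 + (-p 7 + t 1) * (-p 7 + t 1) + (t 0) * (-p 6) + (-p 0) * (-p 5)
    ring
  | 2 =>
    change (p 0 * t 2 - p 3 * p 6 + p 4 * p 5 + p 7 * t 0 - t 0 * t 1) * 1 + (-p 7 + t 1) * (t 0) + (t 0) * (-p 7 - p 13 + 2 * t 1) + (-p 0) * (-p 11 + t 2) =
      (p 0 * t 2 - p 3 * p 6 + p 4 * p 5 + p 7 * t 0 - t 0 * t 1) * 1 + (-p 7 + t 1) * (t 0) + (t 0) * (-p 7 - p 13 + 2 * t 1) + (-p 0) * (-p 11 + t 2)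
    ring
  | 3 =>
    change (p 0 * t 2 - p 3 * p 6 + p 4 * p 5 + p 7 * t 0 - t 0 * t 1) * 0 + (-p 7 + t 1) * (-p 0) + (t 0) * (p 8) + (-p 0) * (t 1) =
      (p 0 * t 2 - p 3 * p 6 + p 4 * p 5 + p 7 * t 0 - t 0 * t 1) * 0 + (-p 7 + t 1) * (-p 0) + (t 0) * (p 8) + (-p 0) * (t 1)
    ring

theorem as_2_1_3 (hp : plRel p = 0) (m : Fin 4) : Asc t p 2 1 3 m := by
  have h0 : p 0 * p 9 - p 1 * p 6 + p 2 * p 5 = 0 := congrFun hp 0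
  have h1 : p 0 * p 10 - p 1 * p 7 + p 3 * p 5 = 0 := congrFun hp 1
  have h2 : p 0 * p 11 - p 1 * p 8 + p 4 * p 5 = 0 := congrFun hp 2
  have h3 : p 0 * p 12 - p 2 * p 7 + p 3 * p 6 = 0 := congrFun hp 3
  have h5 : p 0 * p 14 - p 3 * p 8 + p 4 * p 7 = 0 := congrFun hp 5
  have h7 : p 1 * p 13 - p 2 * p 11 + p 4 * p 9 = 0 := congrFun hp 7
  have h8 : p 1 * p 14 - p 3 * p 11 + p 4 * p 10 = 0 := congrFun hp 8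
  have h9 : p 2 * p 14 - p 3 * p 13 + p 4 * p 12 = 0 := congrFun hp 9
  have h10 : p 5 * p 12 - p 6 * p 10 + p 7 * p 9 = 0 := congrFun hp 10
  have h11 : p 5 * p 13 - p 6 * p 11 + p 8 * p 9 = 0 := congrFun hp 11
  match m with
  | 0 =>
    change (p 0 * t 2 - p 3 * p 6 + p 4 * p 5 + p 7 * t 0 - t 0 * t 1) * 0 + (-p 7 + t 1) * (p 1 * p 7 - p 1 * t 1 + p 2 * t 2 - p 3 * p 5 - p 4 * p 9 - t 0 * t 2) + (t 0) * (-p 1 * p 6 + p 5 * p 14 + p 5 * t 0 - p 7 * p 11 + p 11 * t 1 - t 1 * t 2) + (-p 0) * (-p 1 * p 5 - p 7 * p 10 - p 9 * p 14 - p 9 * t 0 + p 10 * t 1 + p 11 * t 2 - p 12 * t 2 - t 2 ^ 2) =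
      (p 1 * p 7 - p 1 * t 1 + p 2 * t 2 - p 3 * p 5 - p 4 * p 9 - t 0 * t 2) * 0 + (t 2) * (p 0 * t 2 - p 3 * p 6 + p 4 * p 5 + p 7 * t 0 - t 0 * t 1) + (p 1) * (p 0 * p 5 - p 2 * p 6 + p 6 * p 14 + p 6 * t 0 - p 7 * p 13 + p 7 * t 1 - p 8 * t 2 + p 13 * t 1 - t 1 ^ 2) + (-p 2 + t 0) * (-p 1 * p 6 + p 5 * p 14 + p 5 * t 0 - p 7 * p 11 + p 11 * t 1 - t 1 * t 2)
    linear_combination p 3 * h11 - p 4 * h10 + p 5 * h9 - p 6 * h8 + p 7 * h1 + p 7 * h7 + p 9 * h5 + t 0 * h0 - t 1 * h1 - t 1 * h7 - t 2 * h2 + t 2 * h3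
  | 1 =>
    change (p 0 * t 2 - p 3 * p 6 + p 4 * p 5 + p 7 * t 0 - t 0 * t 1) * 0 + (-p 7 + t 1) * (t 2) + (t 0) * (-p 5) + (-p 0) * (p 9) =
      (p 1 * p 7 - p 1 * t 1 + p 2 * t 2 - p 3 * p 5 - p 4 * p 9 - t 0 * t 2) * 0 + (t 2) * (-p 7 + t 1) + (p 1) * (-p 6) + (-p 2 + t 0) * (-p 5)
    linear_combination -h0
  | 2 =>
    change (p 0 * t 2 - p 3 * p 6 + p 4 * p 5 + p 7 * t 0 - t 0 * t 1) * 0 + (-p 7 + t 1) * (p 1) + (t 0) * (-p 11 + t 2) + (-p 0) * (-p 10) =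
      (p 1 * p 7 - p 1 * t 1 + p 2 * t 2 - p 3 * p 5 - p 4 * p 9 - t 0 * t 2) * 1 + (t 2) * (t 0) + (p 1) * (-p 7 - p 13 + 2 * t 1) + (-p 2 + t 0) * (-p 11 + t 2)
    linear_combination h1 + h7
  | 3 =>
    change (p 0 * t 2 - p 3 * p 6 + p 4 * p 5 + p 7 * t 0 - t 0 * t 1) * 1 + (-p 7 + t 1) * (-p 2 + t 0) + (t 0) * (t 1) + (-p 0) * (-p 11 + p 12 + 2 * t 2) =
      (p 1 * p 7 - p 1 * t 1 + p 2 * t 2 - p 3 * p 5 - p 4 * p 9 - t 0 * t 2) * 0 + (t 2) * (-p 0) + (p 1) * (p 8) + (-p 2 + t 0) * (t 1)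
    linear_combination h2 - h3

theorem as_2_2_1 (hp : plRel p = 0) (m : Fin 4) : Asc t p 2 2 1 m := by
  have h2 : p 0 * p 11 - p 1 * p 8 + p 4 * p 5 = 0 := congrFun hp 2
  have h4 : p 0 * p 13 - p 2 * p 8 + p 4 * p 6 = 0 := congrFun hp 4
  have h5 : p 0 * p 14 - p 3 * p 8 + p 4 * p 7 = 0 := congrFun hp 5
  have h11 : p 5 * p 13 - p 6 * p 11 + p 8 * p 9 = 0 := congrFun hp 11
  match m with
  | 0 =>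
    change (p 0 * p 5 - p 2 * p 6 + p 6 * p 14 + p 6 * t 0 - p 7 * p 13 + p 7 * t 1 - p 8 * t 2 + p 13 * t 1 - t 1 ^ 2) * 0 + (-p 6) * (-p 0 * p 1 + p 2 * t 0 + p 3 * p 13 - p 3 * t 1 - p 4 * p 11 + p 4 * t 2 - p 14 * t 0 - t 0 ^ 2) + (-p 7 - p 13 + 2 * t 1) * (p 0 * t 2 - p 3 * p 6 + p 4 * p 5 + p 7 * t 0 - t 0 * t 1) + (p 8) * (p 1 * p 7 - p 1 * t 1 + p 2 * t 2 - p 3 * p 5 - p 4 * p 9 - t 0 * t 2) =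
      (p 0 * t 2 - p 3 * p 6 + p 4 * p 5 + p 7 * t 0 - t 0 * t 1) * 0 + (-p 7 + t 1) * (p 0 * t 2 - p 3 * p 6 + p 4 * p 5 + p 7 * t 0 - t 0 * t 1) + (t 0) * (p 0 * p 5 - p 2 * p 6 + p 6 * p 14 + p 6 * t 0 - p 7 * p 13 + p 7 * t 1 - p 8 * t 2 + p 13 * t 1 - t 1 ^ 2) + (-p 0) * (-p 1 * p 6 + p 5 * p 14 + p 5 * t 0 - p 7 * p 11 + p 11 * t 1 - t 1 * t 2)
    linear_combination -p 4 * h11 + p 5 * h5 - p 7 * h2 + t 1 * h2 - t 2 * h4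
  | 1 =>
    change (p 0 * p 5 - p 2 * p 6 + p 6 * p 14 + p 6 * t 0 - p 7 * p 13 + p 7 * t 1 - p 8 * t 2 + p 13 * t 1 - t 1 ^ 2) * 1 + (-p 6) * (-p 2 + p 14 + 2 * t 0) + (-p 7 - p 13 + 2 * t 1) * (-p 7 + t 1) + (p 8) * (t 2) =
      (p 0 * t 2 - p 3 * p 6 + p 4 * p 5 + p 7 * t 0 - t 0 * t 1) * 0 + (-p 7 + t 1) * (-p 7 + t 1) + (t 0) * (-p 6) + (-p 0) * (-p 5)
    ring
  | 2 =>
    change (p 0 * p 5 - p 2 * p 6 + p 6 * p 14 + p 6 * t 0 - p 7 * p 13 + p 7 * t 1 - p 8 * t 2 + p 13 * t 1 - t 1 ^ 2) * 0 + (-p 6) * (p 3) + (-p 7 - p 13 + 2 * t 1) * (t 0) + (p 8) * (p 1) =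
      (p 0 * t 2 - p 3 * p 6 + p 4 * p 5 + p 7 * t 0 - t 0 * t 1) * 1 + (-p 7 + t 1) * (t 0) + (t 0) * (-p 7 - p 13 + 2 * t 1) + (-p 0) * (-p 11 + t 2)
    linear_combination -h2
  | 3 =>
    change (p 0 * p 5 - p 2 * p 6 + p 6 * p 14 + p 6 * t 0 - p 7 * p 13 + p 7 * t 1 - p 8 * t 2 + p 13 * t 1 - t 1 ^ 2) * 0 + (-p 6) * (-p 4) + (-p 7 - p 13 + 2 * t 1) * (-p 0) + (p 8) * (-p 2 + t 0) =
      (p 0 * t 2 - p 3 * p 6 + p 4 * p 5 + p 7 * t 0 - t 0 * t 1) * 0 + (-p 7 + t 1) * (-p 0) + (t 0) * (p 8) + (-p 0) * (t 1)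
    linear_combination h4

theorem as_2_2_2 (hp : plRel p = 0) (m : Fin 4) : Asc t p 2 2 2 m := by
  match m with
  | 0 =>
    change (p 0 * p 5 - p 2 * p 6 + p 6 * p 14 + p 6 * t 0 - p 7 * p 13 + p 7 * t 1 - p 8 * t 2 + p 13 * t 1 - t 1 ^ 2) * 0 + (-p 6) * (p 0 * t 2 - p 3 * p 6 + p 4 * p 5 + p 7 * t 0 - t 0 * t 1) + (-p 7 - p 13 + 2 * t 1) * (p 0 * p 5 - p 2 * p 6 + p 6 * p 14 + p 6 * t 0 - p 7 * p 13 + p 7 * t 1 - p 8 * t 2 + p 13 * t 1 - t 1 ^ 2) + (p 8) * (-p 1 * p 6 + p 5 * p 14 + p 5 * t 0 - p 7 * p 11 + p 11 * t 1 - t 1 * t 2) =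
      (p 0 * p 5 - p 2 * p 6 + p 6 * p 14 + p 6 * t 0 - p 7 * p 13 + p 7 * t 1 - p 8 * t 2 + p 13 * t 1 - t 1 ^ 2) * 0 + (-p 6) * (p 0 * t 2 - p 3 * p 6 + p 4 * p 5 + p 7 * t 0 - t 0 * t 1) + (-p 7 - p 13 + 2 * t 1) * (p 0 * p 5 - p 2 * p 6 + p 6 * p 14 + p 6 * t 0 - p 7 * p 13 + p 7 * t 1 - p 8 * t 2 + p 13 * t 1 - t 1 ^ 2) + (p 8) * (-p 1 * p 6 + p 5 * p 14 + p 5 * t 0 - p 7 * p 11 + p 11 * t 1 - t 1 * t 2)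
    ring
  | 1 =>
    change (p 0 * p 5 - p 2 * p 6 + p 6 * p 14 + p 6 * t 0 - p 7 * p 13 + p 7 * t 1 - p 8 * t 2 + p 13 * t 1 - t 1 ^ 2) * 0 + (-p 6) * (-p 7 + t 1) + (-p 7 - p 13 + 2 * t 1) * (-p 6) + (p 8) * (-p 5) =
      (p 0 * p 5 - p 2 * p 6 + p 6 * p 14 + p 6 * t 0 - p 7 * p 13 + p 7 * t 1 - p 8 * t 2 + p 13 * t 1 - t 1 ^ 2) * 0 + (-p 6) * (-p 7 + t 1) + (-p 7 - p 13 + 2 * t 1) * (-p 6) + (p 8) * (-p 5)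
    ring
  | 2 =>
    change (p 0 * p 5 - p 2 * p 6 + p 6 * p 14 + p 6 * t 0 - p 7 * p 13 + p 7 * t 1 - p 8 * t 2 + p 13 * t 1 - t 1 ^ 2) * 1 + (-p 6) * (t 0) + (-p 7 - p 13 + 2 * t 1) * (-p 7 - p 13 + 2 * t 1) + (p 8) * (-p 11 + t 2) =
      (p 0 * p 5 - p 2 * p 6 + p 6 * p 14 + p 6 * t 0 - p 7 * p 13 + p 7 * t 1 - p 8 * t 2 + p 13 * t 1 - t 1 ^ 2) * 1 + (-p 6) * (t 0) + (-p 7 - p 13 + 2 * t 1) * (-p 7 - p 13 + 2 * t 1) + (p 8) * (-p 11 + t 2)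
    ring
  | 3 =>
    change (p 0 * p 5 - p 2 * p 6 + p 6 * p 14 + p 6 * t 0 - p 7 * p 13 + p 7 * t 1 - p 8 * t 2 + p 13 * t 1 - t 1 ^ 2) * 0 + (-p 6) * (-p 0) + (-p 7 - p 13 + 2 * t 1) * (p 8) + (p 8) * (t 1) =
      (p 0 * p 5 - p 2 * p 6 + p 6 * p 14 + p 6 * t 0 - p 7 * p 13 + p 7 * t 1 - p 8 * t 2 + p 13 * t 1 - t 1 ^ 2) * 0 + (-p 6) * (-p 0) + (-p 7 - p 13 + 2 * t 1) * (p 8) + (p 8) * (t 1)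
    ring

theorem as_2_2_3 (hp : plRel p = 0) (m : Fin 4) : Asc t p 2 2 3 m := by
  have h2 : p 0 * p 11 - p 1 * p 8 + p 4 * p 5 = 0 := congrFun hp 2
  have h7 : p 1 * p 13 - p 2 * p 11 + p 4 * p 9 = 0 := congrFun hp 7
  have h11 : p 5 * p 13 - p 6 * p 11 + p 8 * p 9 = 0 := congrFun hp 11
  have h12 : p 5 * p 14 - p 7 * p 11 + p 8 * p 10 = 0 := congrFun hp 12
  have h13 : p 6 * p 14 - p 7 * p 13 + p 8 * p 12 = 0 := congrFun hp 13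
  have h14 : p 9 * p 14 - p 10 * p 13 + p 11 * p 12 = 0 := congrFun hp 14
  match m with
  | 0 =>
    change (p 0 * p 5 - p 2 * p 6 + p 6 * p 14 + p 6 * t 0 - p 7 * p 13 + p 7 * t 1 - p 8 * t 2 + p 13 * t 1 - t 1 ^ 2) * 0 + (-p 6) * (p 1 * p 7 - p 1 * t 1 + p 2 * t 2 - p 3 * p 5 - p 4 * p 9 - t 0 * t 2) + (-p 7 - p 13 + 2 * t 1) * (-p 1 * p 6 + p 5 * p 14 + p 5 * t 0 - p 7 * p 11 + p 11 * t 1 - t 1 * t 2) + (p 8) * (-p 1 * p 5 - p 7 * p 10 - p 9 * p 14 - p 9 * t 0 + p 10 * t 1 + p 11 * t 2 - p 12 * t 2 - t 2 ^ 2) =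
      (-p 1 * p 6 + p 5 * p 14 + p 5 * t 0 - p 7 * p 11 + p 11 * t 1 - t 1 * t 2) * 0 + (-p 5) * (p 0 * t 2 - p 3 * p 6 + p 4 * p 5 + p 7 * t 0 - t 0 * t 1) + (-p 11 + t 2) * (p 0 * p 5 - p 2 * p 6 + p 6 * p 14 + p 6 * t 0 - p 7 * p 13 + p 7 * t 1 - p 8 * t 2 + p 13 * t 1 - t 1 ^ 2) + (t 1) * (-p 1 * p 6 + p 5 * p 14 + p 5 * t 0 - p 7 * p 11 + p 11 * t 1 - t 1 * t 2)
    linear_combination p 5 * h2 + p 6 * h7 - p 7 * h12 - p 8 * h14 + p 11 * h13 - p 13 * h12 - t 0 * h11 + t 1 * h12 - t 2 * h13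
  | 1 =>
    change (p 0 * p 5 - p 2 * p 6 + p 6 * p 14 + p 6 * t 0 - p 7 * p 13 + p 7 * t 1 - p 8 * t 2 + p 13 * t 1 - t 1 ^ 2) * 0 + (-p 6) * (t 2) + (-p 7 - p 13 + 2 * t 1) * (-p 5) + (p 8) * (p 9) =
      (-p 1 * p 6 + p 5 * p 14 + p 5 * t 0 - p 7 * p 11 + p 11 * t 1 - t 1 * t 2) * 0 + (-p 5) * (-p 7 + t 1) + (-p 11 + t 2) * (-p 6) + (t 1) * (-p 5)
    linear_combination h11
  | 2 =>
    change (p 0 * p 5 - p 2 * p 6 + p 6 * p 14 + p 6 * t 0 - p 7 * p 13 + p 7 * t 1 - p 8 * t 2 + p 13 * t 1 - t 1 ^ 2) * 0 + (-p 6) * (p 1) + (-p 7 - p 13 + 2 * t 1) * (-p 11 + t 2) + (p 8) * (-p 10) =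
      (-p 1 * p 6 + p 5 * p 14 + p 5 * t 0 - p 7 * p 11 + p 11 * t 1 - t 1 * t 2) * 1 + (-p 5) * (t 0) + (-p 11 + t 2) * (-p 7 - p 13 + 2 * t 1) + (t 1) * (-p 11 + t 2)
    linear_combination -h12
  | 3 =>
    change (p 0 * p 5 - p 2 * p 6 + p 6 * p 14 + p 6 * t 0 - p 7 * p 13 + p 7 * t 1 - p 8 * t 2 + p 13 * t 1 - t 1 ^ 2) * 1 + (-p 6) * (-p 2 + t 0) + (-p 7 - p 13 + 2 * t 1) * (t 1) + (p 8) * (-p 11 + p 12 + 2 * t 2) =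
      (-p 1 * p 6 + p 5 * p 14 + p 5 * t 0 - p 7 * p 11 + p 11 * t 1 - t 1 * t 2) * 0 + (-p 5) * (-p 0) + (-p 11 + t 2) * (p 8) + (t 1) * (t 1)
    linear_combination h13

theorem as_2_3_1 (hp : plRel p = 0) (m : Fin 4) : Asc t p 2 3 1 m := by
  have h2 : p 0 * p 11 - p 1 * p 8 + p 4 * p 5 = 0 := congrFun hp 2
  have h7 : p 1 * p 13 - p 2 * p 11 + p 4 * p 9 = 0 := congrFun hp 7
  have h8 : p 1 * p 14 - p 3 * p 11 + p 4 * p 10 = 0 := congrFun hp 8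
  have h9 : p 2 * p 14 - p 3 * p 13 + p 4 * p 12 = 0 := congrFun hp 9
  have h10 : p 5 * p 12 - p 6 * p 10 + p 7 * p 9 = 0 := congrFun hp 10
  match m with
  | 0 =>
    change (-p 1 * p 6 + p 5 * p 14 + p 5 * t 0 - p 7 * p 11 + p 11 * t 1 - t 1 * t 2) * 0 + (-p 5) * (-p 0 * p 1 + p 2 * t 0 + p 3 * p 13 - p 3 * t 1 - p 4 * p 11 + p 4 * t 2 - p 14 * t 0 - t 0 ^ 2) + (-p 11 + t 2) * (p 0 * t 2 - p 3 * p 6 + p 4 * p 5 + p 7 * t 0 - t 0 * t 1) + (t 1) * (p 1 * p 7 - p 1 * t 1 + p 2 * t 2 - p 3 * p 5 - p 4 * p 9 - t 0 * t 2) =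
      (p 1 * p 7 - p 1 * t 1 + p 2 * t 2 - p 3 * p 5 - p 4 * p 9 - t 0 * t 2) * 0 + (t 2) * (p 0 * t 2 - p 3 * p 6 + p 4 * p 5 + p 7 * t 0 - t 0 * t 1) + (p 1) * (p 0 * p 5 - p 2 * p 6 + p 6 * p 14 + p 6 * t 0 - p 7 * p 13 + p 7 * t 1 - p 8 * t 2 + p 13 * t 1 - t 1 ^ 2) + (-p 2 + t 0) * (-p 1 * p 6 + p 5 * p 14 + p 5 * t 0 - p 7 * p 11 + p 11 * t 1 - t 1 * t 2)
    linear_combination -p 4 * h10 + p 5 * h9 - p 6 * h8 + p 7 * h7 - t 1 * h7 - t 2 * h2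
  | 1 =>
    change (-p 1 * p 6 + p 5 * p 14 + p 5 * t 0 - p 7 * p 11 + p 11 * t 1 - t 1 * t 2) * 1 + (-p 5) * (-p 2 + p 14 + 2 * t 0) + (-p 11 + t 2) * (-p 7 + t 1) + (t 1) * (t 2) =
      (p 1 * p 7 - p 1 * t 1 + p 2 * t 2 - p 3 * p 5 - p 4 * p 9 - t 0 * t 2) * 0 + (t 2) * (-p 7 + t 1) + (p 1) * (-p 6) + (-p 2 + t 0) * (-p 5)
    ring
  | 2 =>
    change (-p 1 * p 6 + p 5 * p 14 + p 5 * t 0 - p 7 * p 11 + p 11 * t 1 - t 1 * t 2) * 0 + (-p 5) * (p 3) + (-p 11 + t 2) * (t 0) + (t 1) * (p 1) =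
      (p 1 * p 7 - p 1 * t 1 + p 2 * t 2 - p 3 * p 5 - p 4 * p 9 - t 0 * t 2) * 1 + (t 2) * (t 0) + (p 1) * (-p 7 - p 13 + 2 * t 1) + (-p 2 + t 0) * (-p 11 + t 2)
    linear_combination h7
  | 3 =>
    change (-p 1 * p 6 + p 5 * p 14 + p 5 * t 0 - p 7 * p 11 + p 11 * t 1 - t 1 * t 2) * 0 + (-p 5) * (-p 4) + (-p 11 + t 2) * (-p 0) + (t 1) * (-p 2 + t 0) =
      (p 1 * p 7 - p 1 * t 1 + p 2 * t 2 - p 3 * p 5 - p 4 * p 9 - t 0 * t 2) * 0 + (t 2) * (-p 0) + (p 1) * (p 8) + (-p 2 + t 0) * (t 1)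
    linear_combination h2

theorem as_2_3_2 (hp : plRel p = 0) (m : Fin 4) : Asc t p 2 3 2 m := by
  match m with
  | 0 =>
    change (-p 1 * p 6 + p 5 * p 14 + p 5 * t 0 - p 7 * p 11 + p 11 * t 1 - t 1 * t 2) * 0 + (-p 5) * (p 0 * t 2 - p 3 * p 6 + p 4 * p 5 + p 7 * t 0 - t 0 * t 1) + (-p 11 + t 2) * (p 0 * p 5 - p 2 * p 6 + p 6 * p 14 + p 6 * t 0 - p 7 * p 13 + p 7 * t 1 - p 8 * t 2 + p 13 * t 1 - t 1 ^ 2) + (t 1) * (-p 1 * p 6 + p 5 * p 14 + p 5 * t 0 - p 7 * p 11 + p 11 * t 1 - t 1 * t 2) =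
      (-p 1 * p 6 + p 5 * p 14 + p 5 * t 0 - p 7 * p 11 + p 11 * t 1 - t 1 * t 2) * 0 + (-p 5) * (p 0 * t 2 - p 3 * p 6 + p 4 * p 5 + p 7 * t 0 - t 0 * t 1) + (-p 11 + t 2) * (p 0 * p 5 - p 2 * p 6 + p 6 * p 14 + p 6 * t 0 - p 7 * p 13 + p 7 * t 1 - p 8 * t 2 + p 13 * t 1 - t 1 ^ 2) + (t 1) * (-p 1 * p 6 + p 5 * p 14 + p 5 * t 0 - p 7 * p 11 + p 11 * t 1 - t 1 * t 2)
    ring
  | 1 =>
    change (-p 1 * p 6 + p 5 * p 14 + p 5 * t 0 - p 7 * p 11 + p 11 * t 1 - t 1 * t 2) * 0 + (-p 5) * (-p 7 + t 1) + (-p 11 + t 2) * (-p 6) + (t 1) * (-p 5) =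
      (-p 1 * p 6 + p 5 * p 14 + p 5 * t 0 - p 7 * p 11 + p 11 * t 1 - t 1 * t 2) * 0 + (-p 5) * (-p 7 + t 1) + (-p 11 + t 2) * (-p 6) + (t 1) * (-p 5)
    ring
  | 2 =>
    change (-p 1 * p 6 + p 5 * p 14 + p 5 * t 0 - p 7 * p 11 + p 11 * t 1 - t 1 * t 2) * 1 + (-p 5) * (t 0) + (-p 11 + t 2) * (-p 7 - p 13 + 2 * t 1) + (t 1) * (-p 11 + t 2) =
      (-p 1 * p 6 + p 5 * p 14 + p 5 * t 0 - p 7 * p 11 + p 11 * t 1 - t 1 * t 2) * 1 + (-p 5) * (t 0) + (-p 11 + t 2) * (-p 7 - p 13 + 2 * t 1) + (t 1) * (-p 11 + t 2)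
    ring
  | 3 =>
    change (-p 1 * p 6 + p 5 * p 14 + p 5 * t 0 - p 7 * p 11 + p 11 * t 1 - t 1 * t 2) * 0 + (-p 5) * (-p 0) + (-p 11 + t 2) * (p 8) + (t 1) * (t 1) =
      (-p 1 * p 6 + p 5 * p 14 + p 5 * t 0 - p 7 * p 11 + p 11 * t 1 - t 1 * t 2) * 0 + (-p 5) * (-p 0) + (-p 11 + t 2) * (p 8) + (t 1) * (t 1)
    ring

theorem as_2_3_3 (hp : plRel p = 0) (m : Fin 4) : Asc t p 2 3 3 m := by
  have h0 : p 0 * p 9 - p 1 * p 6 + p 2 * p 5 = 0 := congrFun hp 0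
  have h1 : p 0 * p 10 - p 1 * p 7 + p 3 * p 5 = 0 := congrFun hp 1
  have h6 : p 1 * p 12 - p 2 * p 10 + p 3 * p 9 = 0 := congrFun hp 6
  have h10 : p 5 * p 12 - p 6 * p 10 + p 7 * p 9 = 0 := congrFun hp 10
  have h12 : p 5 * p 14 - p 7 * p 11 + p 8 * p 10 = 0 := congrFun hp 12
  have h13 : p 6 * p 14 - p 7 * p 13 + p 8 * p 12 = 0 := congrFun hp 13
  have h14 : p 9 * p 14 - p 10 * p 13 + p 11 * p 12 = 0 := congrFun hp 14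
  match m with
  | 0 =>
    change (-p 1 * p 6 + p 5 * p 14 + p 5 * t 0 - p 7 * p 11 + p 11 * t 1 - t 1 * t 2) * 0 + (-p 5) * (p 1 * p 7 - p 1 * t 1 + p 2 * t 2 - p 3 * p 5 - p 4 * p 9 - t 0 * t 2) + (-p 11 + t 2) * (-p 1 * p 6 + p 5 * p 14 + p 5 * t 0 - p 7 * p 11 + p 11 * t 1 - t 1 * t 2) + (t 1) * (-p 1 * p 5 - p 7 * p 10 - p 9 * p 14 - p 9 * t 0 + p 10 * t 1 + p 11 * t 2 - p 12 * t 2 - t 2 ^ 2) =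
      (-p 1 * p 5 - p 7 * p 10 - p 9 * p 14 - p 9 * t 0 + p 10 * t 1 + p 11 * t 2 - p 12 * t 2 - t 2 ^ 2) * 0 + (p 9) * (p 0 * t 2 - p 3 * p 6 + p 4 * p 5 + p 7 * t 0 - t 0 * t 1) + (-p 10) * (p 0 * p 5 - p 2 * p 6 + p 6 * p 14 + p 6 * t 0 - p 7 * p 13 + p 7 * t 1 - p 8 * t 2 + p 13 * t 1 - t 1 ^ 2) + (-p 11 + p 12 + 2 * t 2) * (-p 1 * p 6 + p 5 * p 14 + p 5 * t 0 - p 7 * p 11 + p 11 * t 1 - t 1 * t 2)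
    linear_combination p 5 * h1 + p 6 * h6 + p 10 * h13 - p 12 * h12 - t 0 * h10 - t 1 * h14 - t 2 * h0 - t 2 * h12
  | 1 =>
    change (-p 1 * p 6 + p 5 * p 14 + p 5 * t 0 - p 7 * p 11 + p 11 * t 1 - t 1 * t 2) * 0 + (-p 5) * (t 2) + (-p 11 + t 2) * (-p 5) + (t 1) * (p 9) =
      (-p 1 * p 5 - p 7 * p 10 - p 9 * p 14 - p 9 * t 0 + p 10 * t 1 + p 11 * t 2 - p 12 * t 2 - t 2 ^ 2) * 0 + (p 9) * (-p 7 + t 1) + (-p 10) * (-p 6) + (-p 11 + p 12 + 2 * t 2) * (-p 5)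
    linear_combination h10
  | 2 =>
    change (-p 1 * p 6 + p 5 * p 14 + p 5 * t 0 - p 7 * p 11 + p 11 * t 1 - t 1 * t 2) * 0 + (-p 5) * (p 1) + (-p 11 + t 2) * (-p 11 + t 2) + (t 1) * (-p 10) =
      (-p 1 * p 5 - p 7 * p 10 - p 9 * p 14 - p 9 * t 0 + p 10 * t 1 + p 11 * t 2 - p 12 * t 2 - t 2 ^ 2) * 1 + (p 9) * (t 0) + (-p 10) * (-p 7 - p 13 + 2 * t 1) + (-p 11 + p 12 + 2 * t 2) * (-p 11 + t 2)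
    linear_combination h14
  | 3 =>
    change (-p 1 * p 6 + p 5 * p 14 + p 5 * t 0 - p 7 * p 11 + p 11 * t 1 - t 1 * t 2) * 1 + (-p 5) * (-p 2 + t 0) + (-p 11 + t 2) * (t 1) + (t 1) * (-p 11 + p 12 + 2 * t 2) =
      (-p 1 * p 5 - p 7 * p 10 - p 9 * p 14 - p 9 * t 0 + p 10 * t 1 + p 11 * t 2 - p 12 * t 2 - t 2 ^ 2) * 0 + (p 9) * (-p 0) + (-p 10) * (p 8) + (-p 11 + p 12 + 2 * t 2) * (t 1)
    linear_combination h0 + h12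

theorem as_3_1_1 (hp : plRel p = 0) (m : Fin 4) : Asc t p 3 1 1 m := by
  have h8 : p 1 * p 14 - p 3 * p 11 + p 4 * p 10 = 0 := congrFun hp 8
  have h9 : p 2 * p 14 - p 3 * p 13 + p 4 * p 12 = 0 := congrFun hp 9
  match m with
  | 0 =>
    change (p 1 * p 7 - p 1 * t 1 + p 2 * t 2 - p 3 * p 5 - p 4 * p 9 - t 0 * t 2) * 0 + (t 2) * (-p 0 * p 1 + p 2 * t 0 + p 3 * p 13 - p 3 * t 1 - p 4 * p 11 + p 4 * t 2 - p 14 * t 0 - t 0 ^ 2) + (p 1) * (p 0 * t 2 - p 3 * p 6 + p 4 * p 5 + p 7 * t 0 - t 0 * t 1) + (-p 2 + t 0) * (p 1 * p 7 - p 1 * t 1 + p 2 * t 2 - p 3 * p 5 - p 4 * p 9 - t 0 * t 2) =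
      (-p 0 * p 1 + p 2 * t 0 + p 3 * p 13 - p 3 * t 1 - p 4 * p 11 + p 4 * t 2 - p 14 * t 0 - t 0 ^ 2) * 0 + (-p 2 + p 14 + 2 * t 0) * (p 1 * p 7 - p 1 * t 1 + p 2 * t 2 - p 3 * p 5 - p 4 * p 9 - t 0 * t 2) + (p 3) * (-p 1 * p 6 + p 5 * p 14 + p 5 * t 0 - p 7 * p 11 + p 11 * t 1 - t 1 * t 2) + (-p 4) * (-p 1 * p 5 - p 7 * p 10 - p 9 * p 14 - p 9 * t 0 + p 10 * t 1 + p 11 * t 2 - p 12 * t 2 - t 2 ^ 2)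
    linear_combination -p 7 * h8 + t 1 * h8 - t 2 * h9
  | 1 =>
    change (p 1 * p 7 - p 1 * t 1 + p 2 * t 2 - p 3 * p 5 - p 4 * p 9 - t 0 * t 2) * 1 + (t 2) * (-p 2 + p 14 + 2 * t 0) + (p 1) * (-p 7 + t 1) + (-p 2 + t 0) * (t 2) =
      (-p 0 * p 1 + p 2 * t 0 + p 3 * p 13 - p 3 * t 1 - p 4 * p 11 + p 4 * t 2 - p 14 * t 0 - t 0 ^ 2) * 0 + (-p 2 + p 14 + 2 * t 0) * (t 2) + (p 3) * (-p 5) + (-p 4) * (p 9)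
    ring
  | 2 =>
    change (p 1 * p 7 - p 1 * t 1 + p 2 * t 2 - p 3 * p 5 - p 4 * p 9 - t 0 * t 2) * 0 + (t 2) * (p 3) + (p 1) * (t 0) + (-p 2 + t 0) * (p 1) =
      (-p 0 * p 1 + p 2 * t 0 + p 3 * p 13 - p 3 * t 1 - p 4 * p 11 + p 4 * t 2 - p 14 * t 0 - t 0 ^ 2) * 0 + (-p 2 + p 14 + 2 * t 0) * (p 1) + (p 3) * (-p 11 + t 2) + (-p 4) * (-p 10)
    linear_combination -h8
  | 3 =>
    change (p 1 * p 7 - p 1 * t 1 + p 2 * t 2 - p 3 * p 5 - p 4 * p 9 - t 0 * t 2) * 0 + (t 2) * (-p 4) + (p 1) * (-p 0) + (-p 2 + t 0) * (-p 2 + t 0) =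
      (-p 0 * p 1 + p 2 * t 0 + p 3 * p 13 - p 3 * t 1 - p 4 * p 11 + p 4 * t 2 - p 14 * t 0 - t 0 ^ 2) * 1 + (-p 2 + p 14 + 2 * t 0) * (-p 2 + t 0) + (p 3) * (t 1) + (-p 4) * (-p 11 + p 12 + 2 * t 2)
    linear_combination h9

theorem as_3_1_2 (hp : plRel p = 0) (m : Fin 4) : Asc t p 3 1 2 m := by
  have h0 : p 0 * p 9 - p 1 * p 6 + p 2 * p 5 = 0 := congrFun hp 0
  have h1 : p 0 * p 10 - p 1 * p 7 + p 3 * p 5 = 0 := congrFun hp 1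
  have h2 : p 0 * p 11 - p 1 * p 8 + p 4 * p 5 = 0 := congrFun hp 2
  have h3 : p 0 * p 12 - p 2 * p 7 + p 3 * p 6 = 0 := congrFun hp 3
  have h5 : p 0 * p 14 - p 3 * p 8 + p 4 * p 7 = 0 := congrFun hp 5
  have h7 : p 1 * p 13 - p 2 * p 11 + p 4 * p 9 = 0 := congrFun hp 7
  have h8 : p 1 * p 14 - p 3 * p 11 + p 4 * p 10 = 0 := congrFun hp 8
  have h9 : p 2 * p 14 - p 3 * p 13 + p 4 * p 12 = 0 := congrFun hp 9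
  have h10 : p 5 * p 12 - p 6 * p 10 + p 7 * p 9 = 0 := congrFun hp 10
  have h11 : p 5 * p 13 - p 6 * p 11 + p 8 * p 9 = 0 := congrFun hp 11
  match m with
  | 0 =>
    change (p 1 * p 7 - p 1 * t 1 + p 2 * t 2 - p 3 * p 5 - p 4 * p 9 - t 0 * t 2) * 0 + (t 2) * (p 0 * t 2 - p 3 * p 6 + p 4 * p 5 + p 7 * t 0 - t 0 * t 1) + (p 1) * (p 0 * p 5 - p 2 * p 6 + p 6 * p 14 + p 6 * t 0 - p 7 * p 13 + p 7 * t 1 - p 8 * t 2 + p 13 * t 1 - t 1 ^ 2) + (-p 2 + t 0) * (-p 1 * p 6 + p 5 * p 14 + p 5 * t 0 - p 7 * p 11 + p 11 * t 1 - t 1 * t 2) =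
      (p 0 * t 2 - p 3 * p 6 + p 4 * p 5 + p 7 * t 0 - t 0 * t 1) * 0 + (-p 7 + t 1) * (p 1 * p 7 - p 1 * t 1 + p 2 * t 2 - p 3 * p 5 - p 4 * p 9 - t 0 * t 2) + (t 0) * (-p 1 * p 6 + p 5 * p 14 + p 5 * t 0 - p 7 * p 11 + p 11 * t 1 - t 1 * t 2) + (-p 0) * (-p 1 * p 5 - p 7 * p 10 - p 9 * p 14 - p 9 * t 0 + p 10 * t 1 + p 11 * t 2 - p 12 * t 2 - t 2 ^ 2)
    linear_combination -p 3 * h11 + p 4 * h10 - p 5 * h9 + p 6 * h8 - p 7 * h1 - p 7 * h7 - p 9 * h5 - t 0 * h0 + t 1 * h1 + t 1 * h7 + t 2 * h2 - t 2 * h3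
  | 1 =>
    change (p 1 * p 7 - p 1 * t 1 + p 2 * t 2 - p 3 * p 5 - p 4 * p 9 - t 0 * t 2) * 0 + (t 2) * (-p 7 + t 1) + (p 1) * (-p 6) + (-p 2 + t 0) * (-p 5) =
      (p 0 * t 2 - p 3 * p 6 + p 4 * p 5 + p 7 * t 0 - t 0 * t 1) * 0 + (-p 7 + t 1) * (t 2) + (t 0) * (-p 5) + (-p 0) * (p 9)
    linear_combination h0
  | 2 =>
    change (p 1 * p 7 - p 1 * t 1 + p 2 * t 2 - p 3 * p 5 - p 4 * p 9 - t 0 * t 2) * 1 + (t 2) * (t 0) + (p 1) * (-p 7 - p 13 + 2 * t 1) + (-p 2 + t 0) * (-p 11 + t 2) =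
      (p 0 * t 2 - p 3 * p 6 + p 4 * p 5 + p 7 * t 0 - t 0 * t 1) * 0 + (-p 7 + t 1) * (p 1) + (t 0) * (-p 11 + t 2) + (-p 0) * (-p 10)
    linear_combination -h1 - h7
  | 3 =>
    change (p 1 * p 7 - p 1 * t 1 + p 2 * t 2 - p 3 * p 5 - p 4 * p 9 - t 0 * t 2) * 0 + (t 2) * (-p 0) + (p 1) * (p 8) + (-p 2 + t 0) * (t 1) =
      (p 0 * t 2 - p 3 * p 6 + p 4 * p 5 + p 7 * t 0 - t 0 * t 1) * 1 + (-p 7 + t 1) * (-p 2 + t 0) + (t 0) * (t 1) + (-p 0) * (-p 11 + p 12 + 2 * t 2)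
    linear_combination -h2 + h3

theorem as_3_1_3 (hp : plRel p = 0) (m : Fin 4) : Asc t p 3 1 3 m := by
  match m with
  | 0 =>
    change (p 1 * p 7 - p 1 * t 1 + p 2 * t 2 - p 3 * p 5 - p 4 * p 9 - t 0 * t 2) * 0 + (t 2) * (p 1 * p 7 - p 1 * t 1 + p 2 * t 2 - p 3 * p 5 - p 4 * p 9 - t 0 * t 2) + (p 1) * (-p 1 * p 6 + p 5 * p 14 + p 5 * t 0 - p 7 * p 11 + p 11 * t 1 - t 1 * t 2) + (-p 2 + t 0) * (-p 1 * p 5 - p 7 * p 10 - p 9 * p 14 - p 9 * t 0 + p 10 * t 1 + p 11 * t 2 - p 12 * t 2 - t 2 ^ 2) =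
      (p 1 * p 7 - p 1 * t 1 + p 2 * t 2 - p 3 * p 5 - p 4 * p 9 - t 0 * t 2) * 0 + (t 2) * (p 1 * p 7 - p 1 * t 1 + p 2 * t 2 - p 3 * p 5 - p 4 * p 9 - t 0 * t 2) + (p 1) * (-p 1 * p 6 + p 5 * p 14 + p 5 * t 0 - p 7 * p 11 + p 11 * t 1 - t 1 * t 2) + (-p 2 + t 0) * (-p 1 * p 5 - p 7 * p 10 - p 9 * p 14 - p 9 * t 0 + p 10 * t 1 + p 11 * t 2 - p 12 * t 2 - t 2 ^ 2)
    ring
  | 1 =>
    change (p 1 * p 7 - p 1 * t 1 + p 2 * t 2 - p 3 * p 5 - p 4 * p 9 - t 0 * t 2) * 0 + (t 2) * (t 2) + (p 1) * (-p 5) + (-p 2 + t 0) * (p 9) =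
      (p 1 * p 7 - p 1 * t 1 + p 2 * t 2 - p 3 * p 5 - p 4 * p 9 - t 0 * t 2) * 0 + (t 2) * (t 2) + (p 1) * (-p 5) + (-p 2 + t 0) * (p 9)
    ring
  | 2 =>
    change (p 1 * p 7 - p 1 * t 1 + p 2 * t 2 - p 3 * p 5 - p 4 * p 9 - t 0 * t 2) * 0 + (t 2) * (p 1) + (p 1) * (-p 11 + t 2) + (-p 2 + t 0) * (-p 10) =
      (p 1 * p 7 - p 1 * t 1 + p 2 * t 2 - p 3 * p 5 - p 4 * p 9 - t 0 * t 2) * 0 + (t 2) * (p 1) + (p 1) * (-p 11 + t 2) + (-p 2 + t 0) * (-p 10)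
    ring
  | 3 =>
    change (p 1 * p 7 - p 1 * t 1 + p 2 * t 2 - p 3 * p 5 - p 4 * p 9 - t 0 * t 2) * 1 + (t 2) * (-p 2 + t 0) + (p 1) * (t 1) + (-p 2 + t 0) * (-p 11 + p 12 + 2 * t 2) =
      (p 1 * p 7 - p 1 * t 1 + p 2 * t 2 - p 3 * p 5 - p 4 * p 9 - t 0 * t 2) * 1 + (t 2) * (-p 2 + t 0) + (p 1) * (t 1) + (-p 2 + t 0) * (-p 11 + p 12 + 2 * t 2)
    ring

theorem as_3_2_1 (hp : plRel p = 0) (m : Fin 4) : Asc t p 3 2 1 m := by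
  have h0 : p 0 * p 9 - p 1 * p 6 + p 2 * p 5 = 0 := congrFun hp 0
  have h1 : p 0 * p 10 - p 1 * p 7 + p 3 * p 5 = 0 := congrFun hp 1
  have h3 : p 0 * p 12 - p 2 * p 7 + p 3 * p 6 = 0 := congrFun hp 3
  have h5 : p 0 * p 14 - p 3 * p 8 + p 4 * p 7 = 0 := congrFun hp 5
  have h11 : p 5 * p 13 - p 6 * p 11 + p 8 * p 9 = 0 := congrFun hp 11
  match m with
  | 0 =>
    change (-p 1 * p 6 + p 5 * p 14 + p 5 * t 0 - p 7 * p 11 + p 11 * t 1 - t 1 * t 2) * 0 + (-p 5) * (-p 0 * p 1 + p 2 * t 0 + p 3 * p 13 - p 3 * t 1 - p 4 * p 11 + p 4 * t 2 - p 14 * t 0 - t 0 ^ 2) + (-p 11 + t 2) * (p 0 * t 2 - p 3 * p 6 + p 4 * p 5 + p 7 * t 0 - t 0 * t 1) + (t 1) * (p 1 * p 7 - p 1 * t 1 + p 2 * t 2 - p 3 * p 5 - p 4 * p 9 - t 0 * t 2) =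
      (p 0 * t 2 - p 3 * p 6 + p 4 * p 5 + p 7 * t 0 - t 0 * t 1) * 0 + (-p 7 + t 1) * (p 1 * p 7 - p 1 * t 1 + p 2 * t 2 - p 3 * p 5 - p 4 * p 9 - t 0 * t 2) + (t 0) * (-p 1 * p 6 + p 5 * p 14 + p 5 * t 0 - p 7 * p 11 + p 11 * t 1 - t 1 * t 2) + (-p 0) * (-p 1 * p 5 - p 7 * p 10 - p 9 * p 14 - p 9 * t 0 + p 10 * t 1 + p 11 * t 2 - p 12 * t 2 - t 2 ^ 2)
    linear_combination -p 3 * h11 - p 7 * h1 - p 9 * h5 - t 0 * h0 + t 1 * h1 - t 2 * h3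
  | 1 =>
    change (-p 1 * p 6 + p 5 * p 14 + p 5 * t 0 - p 7 * p 11 + p 11 * t 1 - t 1 * t 2) * 1 + (-p 5) * (-p 2 + p 14 + 2 * t 0) + (-p 11 + t 2) * (-p 7 + t 1) + (t 1) * (t 2) =
      (p 0 * t 2 - p 3 * p 6 + p 4 * p 5 + p 7 * t 0 - t 0 * t 1) * 0 + (-p 7 + t 1) * (t 2) + (t 0) * (-p 5) + (-p 0) * (p 9)
    linear_combination h0
  | 2 =>
    change (-p 1 * p 6 + p 5 * p 14 + p 5 * t 0 - p 7 * p 11 + p 11 * t 1 - t 1 * t 2) * 0 + (-p 5) * (p 3) + (-p 11 + t 2) * (t 0) + (t 1) * (p 1) =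
      (p 0 * t 2 - p 3 * p 6 + p 4 * p 5 + p 7 * t 0 - t 0 * t 1) * 0 + (-p 7 + t 1) * (p 1) + (t 0) * (-p 11 + t 2) + (-p 0) * (-p 10)
    linear_combination -h1
  | 3 =>
    change (-p 1 * p 6 + p 5 * p 14 + p 5 * t 0 - p 7 * p 11 + p 11 * t 1 - t 1 * t 2) * 0 + (-p 5) * (-p 4) + (-p 11 + t 2) * (-p 0) + (t 1) * (-p 2 + t 0) =
      (p 0 * t 2 - p 3 * p 6 + p 4 * p 5 + p 7 * t 0 - t 0 * t 1) * 1 + (-p 7 + t 1) * (-p 2 + t 0) + (t 0) * (t 1) + (-p 0) * (-p 11 + p 12 + 2 * t 2)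
    linear_combination h3

theorem as_3_2_2 (hp : plRel p = 0) (m : Fin 4) : Asc t p 3 2 2 m := by
  have h2 : p 0 * p 11 - p 1 * p 8 + p 4 * p 5 = 0 := congrFun hp 2
  have h7 : p 1 * p 13 - p 2 * p 11 + p 4 * p 9 = 0 := congrFun hp 7
  have h11 : p 5 * p 13 - p 6 * p 11 + p 8 * p 9 = 0 := congrFun hp 11
  have h12 : p 5 * p 14 - p 7 * p 11 + p 8 * p 10 = 0 := congrFun hp 12
  have h13 : p 6 * p 14 - p 7 * p 13 + p 8 * p 12 = 0 := congrFun hp 13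
  have h14 : p 9 * p 14 - p 10 * p 13 + p 11 * p 12 = 0 := congrFun hp 14
  match m with
  | 0 =>
    change (-p 1 * p 6 + p 5 * p 14 + p 5 * t 0 - p 7 * p 11 + p 11 * t 1 - t 1 * t 2) * 0 + (-p 5) * (p 0 * t 2 - p 3 * p 6 + p 4 * p 5 + p 7 * t 0 - t 0 * t 1) + (-p 11 + t 2) * (p 0 * p 5 - p 2 * p 6 + p 6 * p 14 + p 6 * t 0 - p 7 * p 13 + p 7 * t 1 - p 8 * t 2 + p 13 * t 1 - t 1 ^ 2) + (t 1) * (-p 1 * p 6 + p 5 * p 14 + p 5 * t 0 - p 7 * p 11 + p 11 * t 1 - t 1 * t 2) =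
      (p 0 * p 5 - p 2 * p 6 + p 6 * p 14 + p 6 * t 0 - p 7 * p 13 + p 7 * t 1 - p 8 * t 2 + p 13 * t 1 - t 1 ^ 2) * 0 + (-p 6) * (p 1 * p 7 - p 1 * t 1 + p 2 * t 2 - p 3 * p 5 - p 4 * p 9 - t 0 * t 2) + (-p 7 - p 13 + 2 * t 1) * (-p 1 * p 6 + p 5 * p 14 + p 5 * t 0 - p 7 * p 11 + p 11 * t 1 - t 1 * t 2) + (p 8) * (-p 1 * p 5 - p 7 * p 10 - p 9 * p 14 - p 9 * t 0 + p 10 * t 1 + p 11 * t 2 - p 12 * t 2 - t 2 ^ 2)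
    linear_combination -p 5 * h2 - p 6 * h7 + p 7 * h12 + p 8 * h14 - p 11 * h13 + p 13 * h12 + t 0 * h11 - t 1 * h12 + t 2 * h13
  | 1 =>
    change (-p 1 * p 6 + p 5 * p 14 + p 5 * t 0 - p 7 * p 11 + p 11 * t 1 - t 1 * t 2) * 0 + (-p 5) * (-p 7 + t 1) + (-p 11 + t 2) * (-p 6) + (t 1) * (-p 5) =
      (p 0 * p 5 - p 2 * p 6 + p 6 * p 14 + p 6 * t 0 - p 7 * p 13 + p 7 * t 1 - p 8 * t 2 + p 13 * t 1 - t 1 ^ 2) * 0 + (-p 6) * (t 2) + (-p 7 - p 13 + 2 * t 1) * (-p 5) + (p 8) * (p 9)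
    linear_combination -h11
  | 2 =>
    change (-p 1 * p 6 + p 5 * p 14 + p 5 * t 0 - p 7 * p 11 + p 11 * t 1 - t 1 * t 2) * 1 + (-p 5) * (t 0) + (-p 11 + t 2) * (-p 7 - p 13 + 2 * t 1) + (t 1) * (-p 11 + t 2) =
      (p 0 * p 5 - p 2 * p 6 + p 6 * p 14 + p 6 * t 0 - p 7 * p 13 + p 7 * t 1 - p 8 * t 2 + p 13 * t 1 - t 1 ^ 2) * 0 + (-p 6) * (p 1) + (-p 7 - p 13 + 2 * t 1) * (-p 11 + t 2) + (p 8) * (-p 10)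
    linear_combination h12
  | 3 =>
    change (-p 1 * p 6 + p 5 * p 14 + p 5 * t 0 - p 7 * p 11 + p 11 * t 1 - t 1 * t 2) * 0 + (-p 5) * (-p 0) + (-p 11 + t 2) * (p 8) + (t 1) * (t 1) =
      (p 0 * p 5 - p 2 * p 6 + p 6 * p 14 + p 6 * t 0 - p 7 * p 13 + p 7 * t 1 - p 8 * t 2 + p 13 * t 1 - t 1 ^ 2) * 1 + (-p 6) * (-p 2 + t 0) + (-p 7 - p 13 + 2 * t 1) * (t 1) + (p 8) * (-p 11 + p 12 + 2 * t 2)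
    linear_combination -h13

theorem as_3_2_3 (hp : plRel p = 0) (m : Fin 4) : Asc t p 3 2 3 m := by
  match m with
  | 0 =>
    change (-p 1 * p 6 + p 5 * p 14 + p 5 * t 0 - p 7 * p 11 + p 11 * t 1 - t 1 * t 2) * 0 + (-p 5) * (p 1 * p 7 - p 1 * t 1 + p 2 * t 2 - p 3 * p 5 - p 4 * p 9 - t 0 * t 2) + (-p 11 + t 2) * (-p 1 * p 6 + p 5 * p 14 + p 5 * t 0 - p 7 * p 11 + p 11 * t 1 - t 1 * t 2) + (t 1) * (-p 1 * p 5 - p 7 * p 10 - p 9 * p 14 - p 9 * t 0 + p 10 * t 1 + p 11 * t 2 - p 12 * t 2 - t 2 ^ 2) =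
      (-p 1 * p 6 + p 5 * p 14 + p 5 * t 0 - p 7 * p 11 + p 11 * t 1 - t 1 * t 2) * 0 + (-p 5) * (p 1 * p 7 - p 1 * t 1 + p 2 * t 2 - p 3 * p 5 - p 4 * p 9 - t 0 * t 2) + (-p 11 + t 2) * (-p 1 * p 6 + p 5 * p 14 + p 5 * t 0 - p 7 * p 11 + p 11 * t 1 - t 1 * t 2) + (t 1) * (-p 1 * p 5 - p 7 * p 10 - p 9 * p 14 - p 9 * t 0 + p 10 * t 1 + p 11 * t 2 - p 12 * t 2 - t 2 ^ 2)
    ring
  | 1 =>
    change (-p 1 * p 6 + p 5 * p 14 + p 5 * t 0 - p 7 * p 11 + p 11 * t 1 - t 1 * t 2) * 0 + (-p 5) * (t 2) + (-p 11 + t 2) * (-p 5) + (t 1) * (p 9) =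
      (-p 1 * p 6 + p 5 * p 14 + p 5 * t 0 - p 7 * p 11 + p 11 * t 1 - t 1 * t 2) * 0 + (-p 5) * (t 2) + (-p 11 + t 2) * (-p 5) + (t 1) * (p 9)
    ring
  | 2 =>
    change (-p 1 * p 6 + p 5 * p 14 + p 5 * t 0 - p 7 * p 11 + p 11 * t 1 - t 1 * t 2) * 0 + (-p 5) * (p 1) + (-p 11 + t 2) * (-p 11 + t 2) + (t 1) * (-p 10) =
      (-p 1 * p 6 + p 5 * p 14 + p 5 * t 0 - p 7 * p 11 + p 11 * t 1 - t 1 * t 2) * 0 + (-p 5) * (p 1) + (-p 11 + t 2) * (-p 11 + t 2) + (t 1) * (-p 10)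
    ring
  | 3 =>
    change (-p 1 * p 6 + p 5 * p 14 + p 5 * t 0 - p 7 * p 11 + p 11 * t 1 - t 1 * t 2) * 1 + (-p 5) * (-p 2 + t 0) + (-p 11 + t 2) * (t 1) + (t 1) * (-p 11 + p 12 + 2 * t 2) =
      (-p 1 * p 6 + p 5 * p 14 + p 5 * t 0 - p 7 * p 11 + p 11 * t 1 - t 1 * t 2) * 1 + (-p 5) * (-p 2 + t 0) + (-p 11 + t 2) * (t 1) + (t 1) * (-p 11 + p 12 + 2 * t 2)
    ring

theorem as_3_3_1 (hp : plRel p = 0) (m : Fin 4) : Asc t p 3 3 1 m := by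
  have h0 : p 0 * p 9 - p 1 * p 6 + p 2 * p 5 = 0 := congrFun hp 0
  have h1 : p 0 * p 10 - p 1 * p 7 + p 3 * p 5 = 0 := congrFun hp 1
  have h6 : p 1 * p 12 - p 2 * p 10 + p 3 * p 9 = 0 := congrFun hp 6
  have h8 : p 1 * p 14 - p 3 * p 11 + p 4 * p 10 = 0 := congrFun hp 8
  have h9 : p 2 * p 14 - p 3 * p 13 + p 4 * p 12 = 0 := congrFun hp 9
  have h10 : p 5 * p 12 - p 6 * p 10 + p 7 * p 9 = 0 := congrFun hp 10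
  match m with
  | 0 =>
    change (-p 1 * p 5 - p 7 * p 10 - p 9 * p 14 - p 9 * t 0 + p 10 * t 1 + p 11 * t 2 - p 12 * t 2 - t 2 ^ 2) * 0 + (p 9) * (-p 0 * p 1 + p 2 * t 0 + p 3 * p 13 - p 3 * t 1 - p 4 * p 11 + p 4 * t 2 - p 14 * t 0 - t 0 ^ 2) + (-p 10) * (p 0 * t 2 - p 3 * p 6 + p 4 * p 5 + p 7 * t 0 - t 0 * t 1) + (-p 11 + p 12 + 2 * t 2) * (p 1 * p 7 - p 1 * t 1 + p 2 * t 2 - p 3 * p 5 - p 4 * p 9 - t 0 * t 2) =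
      (p 1 * p 7 - p 1 * t 1 + p 2 * t 2 - p 3 * p 5 - p 4 * p 9 - t 0 * t 2) * 0 + (t 2) * (p 1 * p 7 - p 1 * t 1 + p 2 * t 2 - p 3 * p 5 - p 4 * p 9 - t 0 * t 2) + (p 1) * (-p 1 * p 6 + p 5 * p 14 + p 5 * t 0 - p 7 * p 11 + p 11 * t 1 - t 1 * t 2) + (-p 2 + t 0) * (-p 1 * p 5 - p 7 * p 10 - p 9 * p 14 - p 9 * t 0 + p 10 * t 1 + p 11 * t 2 - p 12 * t 2 - t 2 ^ 2)
    linear_combination -p 1 * h0 - p 3 * h10 - p 5 * h8 + p 7 * h6 - p 9 * h9 - t 1 * h6 - t 2 * h1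
  | 1 =>
    change (-p 1 * p 5 - p 7 * p 10 - p 9 * p 14 - p 9 * t 0 + p 10 * t 1 + p 11 * t 2 - p 12 * t 2 - t 2 ^ 2) * 1 + (p 9) * (-p 2 + p 14 + 2 * t 0) + (-p 10) * (-p 7 + t 1) + (-p 11 + p 12 + 2 * t 2) * (t 2) =
      (p 1 * p 7 - p 1 * t 1 + p 2 * t 2 - p 3 * p 5 - p 4 * p 9 - t 0 * t 2) * 0 + (t 2) * (t 2) + (p 1) * (-p 5) + (-p 2 + t 0) * (p 9)
    ring
  | 2 =>
    change (-p 1 * p 5 - p 7 * p 10 - p 9 * p 14 - p 9 * t 0 + p 10 * t 1 + p 11 * t 2 - p 12 * t 2 - t 2 ^ 2) * 0 + (p 9) * (p 3) + (-p 10) * (t 0) + (-p 11 + p 12 + 2 * t 2) * (p 1) =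
      (p 1 * p 7 - p 1 * t 1 + p 2 * t 2 - p 3 * p 5 - p 4 * p 9 - t 0 * t 2) * 0 + (t 2) * (p 1) + (p 1) * (-p 11 + t 2) + (-p 2 + t 0) * (-p 10)
    linear_combination h6
  | 3 =>
    change (-p 1 * p 5 - p 7 * p 10 - p 9 * p 14 - p 9 * t 0 + p 10 * t 1 + p 11 * t 2 - p 12 * t 2 - t 2 ^ 2) * 0 + (p 9) * (-p 4) + (-p 10) * (-p 0) + (-p 11 + p 12 + 2 * t 2) * (-p 2 + t 0) =
      (p 1 * p 7 - p 1 * t 1 + p 2 * t 2 - p 3 * p 5 - p 4 * p 9 - t 0 * t 2) * 1 + (t 2) * (-p 2 + t 0) + (p 1) * (t 1) + (-p 2 + t 0) * (-p 11 + p 12 + 2 * t 2)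
    linear_combination h1

theorem as_3_3_2 (hp : plRel p = 0) (m : Fin 4) : Asc t p 3 3 2 m := by
  have h0 : p 0 * p 9 - p 1 * p 6 + p 2 * p 5 = 0 := congrFun hp 0
  have h1 : p 0 * p 10 - p 1 * p 7 + p 3 * p 5 = 0 := congrFun hp 1
  have h6 : p 1 * p 12 - p 2 * p 10 + p 3 * p 9 = 0 := congrFun hp 6
  have h10 : p 5 * p 12 - p 6 * p 10 + p 7 * p 9 = 0 := congrFun hp 10
  have h12 : p 5 * p 14 - p 7 * p 11 + p 8 * p 10 = 0 := congrFun hp 12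
  have h13 : p 6 * p 14 - p 7 * p 13 + p 8 * p 12 = 0 := congrFun hp 13
  have h14 : p 9 * p 14 - p 10 * p 13 + p 11 * p 12 = 0 := congrFun hp 14
  match m with
  | 0 =>
    change (-p 1 * p 5 - p 7 * p 10 - p 9 * p 14 - p 9 * t 0 + p 10 * t 1 + p 11 * t 2 - p 12 * t 2 - t 2 ^ 2) * 0 + (p 9) * (p 0 * t 2 - p 3 * p 6 + p 4 * p 5 + p 7 * t 0 - t 0 * t 1) + (-p 10) * (p 0 * p 5 - p 2 * p 6 + p 6 * p 14 + p 6 * t 0 - p 7 * p 13 + p 7 * t 1 - p 8 * t 2 + p 13 * t 1 - t 1 ^ 2) + (-p 11 + p 12 + 2 * t 2) * (-p 1 * p 6 + p 5 * p 14 + p 5 * t 0 - p 7 * p 11 + p 11 * t 1 - t 1 * t 2) =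
      (-p 1 * p 6 + p 5 * p 14 + p 5 * t 0 - p 7 * p 11 + p 11 * t 1 - t 1 * t 2) * 0 + (-p 5) * (p 1 * p 7 - p 1 * t 1 + p 2 * t 2 - p 3 * p 5 - p 4 * p 9 - t 0 * t 2) + (-p 11 + t 2) * (-p 1 * p 6 + p 5 * p 14 + p 5 * t 0 - p 7 * p 11 + p 11 * t 1 - t 1 * t 2) + (t 1) * (-p 1 * p 5 - p 7 * p 10 - p 9 * p 14 - p 9 * t 0 + p 10 * t 1 + p 11 * t 2 - p 12 * t 2 - t 2 ^ 2)
    linear_combination -p 5 * h1 - p 6 * h6 - p 10 * h13 + p 12 * h12 + t 0 * h10 + t 1 * h14 + t 2 * h0 + t 2 * h12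
  | 1 =>
    change (-p 1 * p 5 - p 7 * p 10 - p 9 * p 14 - p 9 * t 0 + p 10 * t 1 + p 11 * t 2 - p 12 * t 2 - t 2 ^ 2) * 0 + (p 9) * (-p 7 + t 1) + (-p 10) * (-p 6) + (-p 11 + p 12 + 2 * t 2) * (-p 5) =
      (-p 1 * p 6 + p 5 * p 14 + p 5 * t 0 - p 7 * p 11 + p 11 * t 1 - t 1 * t 2) * 0 + (-p 5) * (t 2) + (-p 11 + t 2) * (-p 5) + (t 1) * (p 9)
    linear_combination -h10
  | 2 =>
    change (-p 1 * p 5 - p 7 * p 10 - p 9 * p 14 - p 9 * t 0 + p 10 * t 1 + p 11 * t 2 - p 12 * t 2 - t 2 ^ 2) * 1 + (p 9) * (t 0) + (-p 10) * (-p 7 - p 13 + 2 * t 1) + (-p 11 + p 12 + 2 * t 2) * (-p 11 + t 2) =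
      (-p 1 * p 6 + p 5 * p 14 + p 5 * t 0 - p 7 * p 11 + p 11 * t 1 - t 1 * t 2) * 0 + (-p 5) * (p 1) + (-p 11 + t 2) * (-p 11 + t 2) + (t 1) * (-p 10)
    linear_combination -h14
  | 3 =>
    change (-p 1 * p 5 - p 7 * p 10 - p 9 * p 14 - p 9 * t 0 + p 10 * t 1 + p 11 * t 2 - p 12 * t 2 - t 2 ^ 2) * 0 + (p 9) * (-p 0) + (-p 10) * (p 8) + (-p 11 + p 12 + 2 * t 2) * (t 1) =
      (-p 1 * p 6 + p 5 * p 14 + p 5 * t 0 - p 7 * p 11 + p 11 * t 1 - t 1 * t 2) * 1 + (-p 5) * (-p 2 + t 0) + (-p 11 + t 2) * (t 1) + (t 1) * (-p 11 + p 12 + 2 * t 2)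
    linear_combination -h0 - h12

theorem as_3_3_3 (hp : plRel p = 0) (m : Fin 4) : Asc t p 3 3 3 m := by
  match m with
  | 0 =>
    change (-p 1 * p 5 - p 7 * p 10 - p 9 * p 14 - p 9 * t 0 + p 10 * t 1 + p 11 * t 2 - p 12 * t 2 - t 2 ^ 2) * 0 + (p 9) * (p 1 * p 7 - p 1 * t 1 + p 2 * t 2 - p 3 * p 5 - p 4 * p 9 - t 0 * t 2) + (-p 10) * (-p 1 * p 6 + p 5 * p 14 + p 5 * t 0 - p 7 * p 11 + p 11 * t 1 - t 1 * t 2) + (-p 11 + p 12 + 2 * t 2) * (-p 1 * p 5 - p 7 * p 10 - p 9 * p 14 - p 9 * t 0 + p 10 * t 1 + p 11 * t 2 - p 12 * t 2 - t 2 ^ 2) =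
      (-p 1 * p 5 - p 7 * p 10 - p 9 * p 14 - p 9 * t 0 + p 10 * t 1 + p 11 * t 2 - p 12 * t 2 - t 2 ^ 2) * 0 + (p 9) * (p 1 * p 7 - p 1 * t 1 + p 2 * t 2 - p 3 * p 5 - p 4 * p 9 - t 0 * t 2) + (-p 10) * (-p 1 * p 6 + p 5 * p 14 + p 5 * t 0 - p 7 * p 11 + p 11 * t 1 - t 1 * t 2) + (-p 11 + p 12 + 2 * t 2) * (-p 1 * p 5 - p 7 * p 10 - p 9 * p 14 - p 9 * t 0 + p 10 * t 1 + p 11 * t 2 - p 12 * t 2 - t 2 ^ 2)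
    ring
  | 1 =>
    change (-p 1 * p 5 - p 7 * p 10 - p 9 * p 14 - p 9 * t 0 + p 10 * t 1 + p 11 * t 2 - p 12 * t 2 - t 2 ^ 2) * 0 + (p 9) * (t 2) + (-p 10) * (-p 5) + (-p 11 + p 12 + 2 * t 2) * (p 9) =
      (-p 1 * p 5 - p 7 * p 10 - p 9 * p 14 - p 9 * t 0 + p 10 * t 1 + p 11 * t 2 - p 12 * t 2 - t 2 ^ 2) * 0 + (p 9) * (t 2) + (-p 10) * (-p 5) + (-p 11 + p 12 + 2 * t 2) * (p 9)
    ring
  | 2 =>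
    change (-p 1 * p 5 - p 7 * p 10 - p 9 * p 14 - p 9 * t 0 + p 10 * t 1 + p 11 * t 2 - p 12 * t 2 - t 2 ^ 2) * 0 + (p 9) * (p 1) + (-p 10) * (-p 11 + t 2) + (-p 11 + p 12 + 2 * t 2) * (-p 10) =
      (-p 1 * p 5 - p 7 * p 10 - p 9 * p 14 - p 9 * t 0 + p 10 * t 1 + p 11 * t 2 - p 12 * t 2 - t 2 ^ 2) * 0 + (p 9) * (p 1) + (-p 10) * (-p 11 + t 2) + (-p 11 + p 12 + 2 * t 2) * (-p 10)
    ring
  | 3 =>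
    change (-p 1 * p 5 - p 7 * p 10 - p 9 * p 14 - p 9 * t 0 + p 10 * t 1 + p 11 * t 2 - p 12 * t 2 - t 2 ^ 2) * 1 + (p 9) * (-p 2 + t 0) + (-p 10) * (t 1) + (-p 11 + p 12 + 2 * t 2) * (-p 11 + p 12 + 2 * t 2) =
      (-p 1 * p 5 - p 7 * p 10 - p 9 * p 14 - p 9 * t 0 + p 10 * t 1 + p 11 * t 2 - p 12 * t 2 - t 2 ^ 2) * 1 + (p 9) * (-p 2 + t 0) + (-p 10) * (t 1) + (-p 11 + p 12 + 2 * t 2) * (-p 11 + p 12 + 2 * t 2)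
    ring

theorem as_all (hp : plRel p = 0) (i j k m : Fin 4) : Asc t p i j k m := by
  have z1 : ∀ j l : Fin 4, tab t p 0 j l = if l = j then 1 else 0 := by
    intro j l; fin_cases j <;> fin_cases l <;> rfl
  have z2 : ∀ j l : Fin 4, tab t p j 0 l = if l = j then 1 else 0 := by
    intro j l; fin_cases j <;> fin_cases l <;> rfl
  rcases Fin.eq_zero_or_eq_succ i with rfl | ⟨i, rfl⟩
  · unfold Asc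
    simp only [z1]
    fin_cases j <;> fin_cases m <;> simp [z1]
  rcases Fin.eq_zero_or_eq_succ k with rfl | ⟨k, rfl⟩
  · unfold Asc
    simp only [z2]
    fin_cases j <;> fin_cases m <;> simp [z2]
  rcases Fin.eq_zero_or_eq_succ j with rfl | ⟨j, rfl⟩
  · unfold Asc
    simp only [z1, z2]
    fin_cases i <;> fin_cases k <;> simp
  match i, j, k with
  | 0, 0, 0 => exact as_1_1_1 hp m
  | 0, 0, 1 => exact as_1_1_2 hp m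
  | 0, 0, 2 => exact as_1_1_3 hp m
  | 0, 1, 0 => exact as_1_2_1 hp m
  | 0, 1, 1 => exact as_1_2_2 hp m
  | 0, 1, 2 => exact as_1_2_3 hp m
  | 0, 2, 0 => exact as_1_3_1 hp m
  | 0, 2, 1 => exact as_1_3_2 hp m
  | 0, 2, 2 => exact as_1_3_3 hp m
  | 1, 0, 0 => exact as_2_1_1 hp m
  | 1, 0, 1 => exact as_2_1_2 hp m
  | 1, 0, 2 => exact as_2_1_3 hp m
  | 1, 1, 0 => exact as_2_2_1 hp m
  | 1, 1, 1 => exact as_2_2_2 hp m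
  | 1, 1, 2 => exact as_2_2_3 hp m
  | 1, 2, 0 => exact as_2_3_1 hp m
  | 1, 2, 1 => exact as_2_3_2 hp m
  | 1, 2, 2 => exact as_2_3_3 hp m
  | 2, 0, 0 => exact as_3_1_1 hp m
  | 2, 0, 1 => exact as_3_1_2 hp m
  | 2, 0, 2 => exact as_3_1_3 hp m
  | 2, 1, 0 => exact as_3_2_1 hp m
  | 2, 1, 1 => exact as_3_2_2 hp m
  | 2, 1, 2 => exact as_3_2_3 hp m
  | 2, 2, 0 => exact as_3_3_1 hp m
  | 2, 2, 1 => exact as_3_3_2 hp m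
  | 2, 2, 2 => exact as_3_3_3 hp m

theorem tab_comm (i j : Fin 4) : tab t p i j = tab t p j i := by
  fin_cases i <;> fin_cases j <;> rfl

end ScAlg

end Pool.Agent.Lib.MP_26f572_ag
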